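import Pool.Agent.P.MP_c9b50d_al.C.Spec2

/-! The abstract criterion. -/

namespace Pool.Agent.Cart

open Module

variable {k L : Type*} [Field k] [LieRing L] [LieAlgebra k L] [FiniteDimensional k L]

omit [FiniteDimensional k L] in
theorem abs_span_basis {I : Type*} (S : Submodule k L) (B : Basis I k S) :
    Submodule.span k (Set.range fun i => (B i : L)) = S := by
  have h : (Set.range fun i => (B i : L)) = S.subtype '' Set.range B := by
    rw [← Set.range_comp]; rfl
  rw [h, ← Submodule.map_span, B.span_eq, Submodule.map_subtype_top]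

omit [FiniteDimensional k L] in
theorem abs_skew (χ : Dual k L) (x y : L) : χ ⁅x, y⁆ = - χ ⁅y, x⁆ := by
  rw [← lie_skew, map_neg]

/-- An adapted basis. -/
theorem exists_adapted (n b : Submodule k L) (χ : Dual k L) (hnb : n ≤ b)
    (hbn : ∀ x ∈ b, ∀ y ∈ n, χ ⁅x, y⁆ = 0)
    (hperp : ∀ x : L, (∀ y ∈ n, χ ⁅x, y⁆ = 0) → x ∈ b)
    (hst : ∀ y ∈ n, (∀ x : L, χ ⁅x, y⁆ = 0) → y = 0) :
    ∃ (r c : ℕ) (e : Basis (Fin r ⊕ Fin c ⊕ Fin r) k L),
      b = Submodule.span k (Set.range fun i : Fin c ⊕ Fin r => e (.inr i)) ∧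
      n = Submodule.span k (Set.range fun j : Fin r => e (.inr (.inr j))) ∧
      ∀ i j, χ ⁅e (.inr (.inr i)), e (.inl j)⁆ = if i = j then 1 else 0 := by
  classical
  obtain ⟨q, hq⟩ := Submodule.exists_isCompl n
  let xb := Module.finBasis k n
  let zb := Module.finBasis k (b ⊓ q : Submodule k L)
  let Φ : L →ₗ[k] (Fin (finrank k n) → k) :=
    LinearMap.pi fun i => χ ∘ₗ LieAlgebra.ad k L (xb i : L)
  have hΦ : ∀ a i, Φ a i = χ ⁅(xb i : L), a⁆ := fun a i => rfl
  have hsurj : Function.Surjective Φ := by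
    rw [← LinearMap.dualMap_injective_iff, injective_iff_map_eq_zero]
    intro g hg
    have h0 : ((∑ i, g (fun j => if i = j then 1 else 0) • xb i : n) : L) = 0 := by
      refine hst _ (Submodule.coe_mem _) fun x => ?_
      have h1 : g (Φ x) = 0 := LinearMap.congr_fun hg x
      rw [LinearMap.pi_apply_eq_sum_univ] at h1
      rw [abs_skew, neg_eq_zero]
      refine Eq.trans ?_ h1
      simp only [Submodule.coe_sum, Submodule.coe_smul, sum_lie, smul_lie, map_sum, map_smul,
        smul_eq_mul, hΦ]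
      exact Finset.sum_congr rfl fun i _ => mul_comm _ _
    have h1 := Fintype.linearIndependent_iff.1 xb.linearIndependent _ (Subtype.ext h0)
    refine LinearMap.ext fun v => ?_
    rw [LinearMap.pi_apply_eq_sum_univ]
    simp [h1]
  choose y hy using fun j => hsurj (Pi.single j 1)
  have hΦb : ∀ a ∈ b, Φ a = 0 := fun a ha => funext fun i => by
    rw [hΦ, abs_skew, hbn a ha _ (xb i).2]; simp
  have hxs := abs_span_basis n xb
  have hzs := abs_span_basis _ zb
  let v : Fin (finrank k n) ⊕ Fin (finrank k (b ⊓ q : Submodule k L)) ⊕ Fin (finrank k n) → L :=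
    Sum.elim y (Sum.elim (fun i => (zb i : L)) fun i => (xb i : L))
  have hb : b = Submodule.span k (Set.range fun i => v (.inr i)) := by
    have : (fun i => v (.inr i)) = Sum.elim (fun i => (zb i : L)) fun i => (xb i : L) := rfl
    rw [this, Set.Sum.elim_range, Submodule.span_union, hxs, hzs, inf_sup_assoc_of_le _ hnb,
      sup_comm, hq.sup_eq_top, inf_top_eq]
  have hli : LinearIndependent k v := by
    rw [Fintype.linearIndependent_iff]
    intro g hg
    rw [Fintype.sum_sum_type, Fintype.sum_sum_type] at hg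
    simp only [v, Sum.elim_inl, Sum.elim_inr] at hg
    have hZ : (∑ i, g (.inr (.inl i)) • (zb i : L)) ∈ b ⊓ q :=
      Submodule.sum_mem _ fun i _ => Submodule.smul_mem _ _ (zb i).2
    have hX : (∑ i, g (.inr (.inr i)) • (xb i : L)) ∈ n :=
      Submodule.sum_mem _ fun i _ => Submodule.smul_mem _ _ (xb i).2
    have h1 : ∀ j, g (.inl j) = 0 := by
      intro j
      have h2 := congrArg Φ hg
      rw [map_add, hΦb _ (b.add_mem hZ.1 (hnb hX)), map_sum, add_zero, map_zero] at h2
      have h3 := congrFun h2 j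
      simpa [hy, Finset.sum_apply, Pi.single_apply] using h3
    simp only [h1, zero_smul, Finset.sum_const_zero, zero_add] at hg
    have hX0 : (∑ i, g (.inr (.inr i)) • (xb i : L)) = 0 := by
      refine (Submodule.disjoint_def.1 hq.disjoint) _ hX ?_
      rw [eq_neg_of_add_eq_zero_right hg]
      exact q.neg_mem hZ.2
    rw [hX0, add_zero] at hg
    have h2 := Fintype.linearIndependent_iff.1 xb.linearIndependent (fun i => g (.inr (.inr i)))
      (Subtype.ext (by simpa using hX0))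
    have h3 := Fintype.linearIndependent_iff.1 zb.linearIndependent (fun i => g (.inr (.inl i)))
      (Subtype.ext (by simpa using hg))
    rintro (j | j | j)
    exacts [h1 j, h3 j, h2 j]
  have hsp : ⊤ ≤ Submodule.span k (Set.range v) := by
    intro a _
    have hY : (∑ j, Φ a j • y j) ∈ Submodule.span k (Set.range v) :=
      Submodule.sum_mem _ fun j _ => Submodule.smul_mem _ _
        (Submodule.subset_span ⟨.inl j, rfl⟩)
    have h0 : Φ (a - ∑ j, Φ a j • y j) = 0 := by
      funext i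
      simp [hy, Finset.sum_apply, Pi.single_apply]
    have h1 : a - ∑ j, Φ a j • y j ∈ b := by
      refine hperp _ fun z hz => ?_
      rw [← hxs] at hz
      induction hz using Submodule.span_induction with
      | mem z hz =>
        obtain ⟨i, rfl⟩ := hz
        rw [abs_skew, ← hΦ, h0]; simp
      | zero => simp
      | add z z' _ _ h h' => rw [lie_add, map_add, h, h', add_zero]
      | smul t z _ h => rw [lie_smul, map_smul, h, smul_zero]
    have h2 : b ≤ Submodule.span k (Set.range v) := by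
      exact hb.le.trans (Submodule.span_mono (by rintro _ ⟨i, rfl⟩; exact ⟨.inr i, rfl⟩))
    simpa using Submodule.add_mem _ (h2 h1) hY
  refine ⟨_, _, Basis.mk hli hsp, ?_, ?_, fun i j => ?_⟩
  · simpa only [Basis.mk_apply] using hb
  · simp only [Basis.mk_apply]
    exact hxs.symm
  · simp only [Basis.mk_apply, v, Sum.elim_inl, Sum.elim_inr]
    rw [← hΦ, hy, Pi.single_apply]

/-- Toral elements in the centre of the stabiliser. -/
def absTor (p : ℕ) (χ : Dual k L) : Set L :=
  {h | (∀ x : L, χ ⁅h, x⁆ = 0) ∧ (∀ a : L, (∀ x : L, χ ⁅a, x⁆ = 0) → ⁅h, a⁆ = 0) ∧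
    LieAlgebra.ad k L h ^ p = LieAlgebra.ad k L h}

omit [FiniteDimensional k L] in
theorem abs_ad_pow (φ : L ≃ₗ⁅k⁆ L) (h : L) (m : ℕ) (x : L) :
    (LieAlgebra.ad k L (φ h) ^ m) (φ x) = φ ((LieAlgebra.ad k L h ^ m) x) := by
  induction m with
  | zero => simp
  | succ m ih =>
    rw [pow_succ', pow_succ', Module.End.mul_apply, Module.End.mul_apply, ih,
      LieAlgebra.ad_apply, LieAlgebra.ad_apply, LieEquiv.map_lie]

omit [FiniteDimensional k L] in
theorem abs_conj_symm {χ χ' : Dual k L} (h : Conjugate χ χ') : Conjugate χ' χ := by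
  obtain ⟨φ, hφ⟩ := h
  exact ⟨φ.symm, fun a => by rw [hφ]; simp⟩

omit [FiniteDimensional k L] in
theorem abs_conj_tor {p : ℕ} {χ χ' : Dual k L} (h : Conjugate χ χ') {H : L}
    (hH : H ∈ absTor p χ) : χ H ∈ χ' '' absTor p χ' := by
  obtain ⟨φ, hφ⟩ := h
  refine ⟨φ H, ⟨fun x => ?_, fun a ha => ?_, ?_⟩, by rw [hφ]; simp⟩
  · rw [hφ, LieEquiv.map_lie]
    simpa using hH.1 _
  · have h1 : ⁅H, φ.symm a⁆ = 0 := hH.2.1 _ fun x => by
      have := ha (φ x)
      rw [hφ, LieEquiv.map_lie] at this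
      simpa using this
    have h2 := congrArg φ h1
    rw [LieEquiv.map_lie] at h2
    simpa using h2
  · refine LinearMap.ext fun x => ?_
    obtain ⟨x, rfl⟩ : ∃ y, φ y = x := ⟨φ.symm x, by simp⟩
    rw [abs_ad_pow, hH.2.2, LieAlgebra.ad_apply, LieAlgebra.ad_apply, LieEquiv.map_lie]

open Polynomial in
theorem abs_det {r : ℕ} (s : k) (hs : s ≠ 0) (M : Matrix (Fin r) (Fin r) k) :
    {w : k | (s • (1 : Matrix (Fin r) (Fin r) k) + w • M).det = 0}.Finite := by
  let N : Matrix (Fin r) (Fin r) k[X] := (C s : k[X]) • 1 + (X : k[X]) • M.map C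
  have hN : ∀ w, N.det.eval w = (s • (1 : Matrix (Fin r) (Fin r) k) + w • M).det := by
    intro w
    rw [← Polynomial.coe_evalRingHom, RingHom.map_det]
    congr 1
    ext i j
    by_cases hij : i = j
    · simp [N, hij]
      ring
    · simp [N, hij]
      ring
  have h0 : N.det ≠ 0 := by
    intro h
    have := hN 0
    rw [h] at this
    simp only [eval_zero, zero_smul, add_zero, Matrix.det_smul, Matrix.det_one, mul_one] at this
    exact pow_ne_zero _ hs this.symm
  refine (Polynomial.finite_setOfPred_isRoot h0).subset fun w hw => ?_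
  simpa [IsRoot, hN] using hw

theorem fails_abs [IsAlgClosed k] {p : ℕ} [Fact p.Prime] [CharP k p] (hp : 3 ≤ p)
    (Pw : L → L → Prop) (hP : ∀ a, ∃ b, Pw a b)
    (hP' : ∀ a b, Pw a b → LieAlgebra.ad k L b = LieAlgebra.ad k L a ^ p)
    (hz : ∀ a : L, (∀ b : L, ⁅a, b⁆ = 0) → a = 0) (n b : Submodule k L) (χ lam : Dual k L) (H : L)
    (hnb : n ≤ b) (hbn : ∀ x ∈ b, ∀ y ∈ n, ⁅x, y⁆ ∈ n) (hχn : ∀ x ∈ n, χ x = 0)
    (hperp : ∀ x : L, (∀ y ∈ n, χ ⁅x, y⁆ = 0) → x ∈ b)
    (hst : ∀ y ∈ n, (∀ x : L, χ ⁅x, y⁆ = 0) → y = 0)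
    (hpn : ∀ x ∈ n, ∀ y, Pw x y → y ∈ n)
    (hln : ∀ x ∈ n, lam x = 0) (hlb : ∀ x ∈ b, ∀ y ∈ b, lam ⁅x, y⁆ = 0)
    (hlp : ∀ x ∈ b, ∀ y, Pw x y → lam y = lam x ^ p)
    (hH : LieAlgebra.ad k L H ^ p = LieAlgebra.ad k L H) (hHb : ∀ x ∈ b, ⁅H, x⁆ ∈ n)
    (hχH : ∀ x : L, χ ⁅H, x⁆ = 0) (hlH : ∀ x : L, lam ⁅H, x⁆ = 0) (hl1 : lam H = 1) :
    Fails k p Pw := by
  classical
  have hbb : ∀ x ∈ b, ∀ y ∈ b, ⁅x, y⁆ ∈ b := fun x hx y hy => hperp _ fun z hz' => by
    rw [lie_lie]
    exact hχn _ (n.sub_mem (hbn x hx _ (hbn y hy z hz')) (hbn y hy _ (hbn x hx z hz')))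
  have hpb : ∀ x ∈ b, ∀ y, Pw x y → y ∈ b := fun x hx y hxy => hperp _ fun z hz' => by
    have h1 : ∀ m : ℕ, (LieAlgebra.ad k L x ^ m) z ∈ n := by
      intro m
      induction m with
      | zero => simpa using hz'
      | succ m ih =>
        rw [pow_succ', Module.End.mul_apply]
        exact hbn x hx _ ih
    rw [← LieAlgebra.ad_apply k, hP' x y hxy]
    exact hχn _ (h1 p)
  obtain ⟨r, c, e, hb, hn, hd⟩ :=
    exists_adapted n b χ hnb (fun x hx y hy => hχn _ (hbn x hx y hy)) hperp hst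
  obtain ⟨s, hs, T, hT, hiso⟩ :=
    spec hp Pw hP hP' hz e n b hb hn hbb hbn hpb hpn χ lam hχn hd hln hlb hlp
  let M : Matrix (Fin r) (Fin r) k := fun i j => lam ⁅e (.inr (.inr i)), e (.inl j)⁆
  have hA : ∀ (w : k) i j, (s • (1 : Matrix (Fin r) (Fin r) k) + w • M) i j =
      (s • χ + w • lam) ⁅e (.inr (.inr i)), e (.inl j)⁆ := by
    intro w i j
    simp [M, hd, Matrix.one_apply]
  have hxn : ∀ i, e (.inr (.inr i)) ∈ n := fun i => by
    rw [hn]; exact Submodule.subset_span ⟨i, rfl⟩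
  have htor : ∀ w : k, (s • (1 : Matrix (Fin r) (Fin r) k) + w • M).det ≠ 0 →
      H ∈ absTor p (s • χ + w • lam) := by
    intro w hw
    have hψn : ∀ x ∈ n, (s • χ + w • lam) x = 0 := fun x hx => by simp [hχn x hx, hln x hx]
    have hψH : ∀ x : L, (s • χ + w • lam) ⁅H, x⁆ = 0 := fun x => by simp [hχH, hlH]
    generalize hψ : s • χ + w • lam = ψ at hψn hψH
    have hA' := hA w
    rw [hψ] at hA'
    refine ⟨hψH, fun a ha => ?_, hH⟩
    have hab : a ∈ b := by
      have h1 := e.sum_repr a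
      rw [Fintype.sum_sum_type] at h1
      have hβ : (∑ i, e.repr a (.inr i) • e (.inr i)) ∈ b := by
        rw [hb]
        exact Submodule.sum_mem _ fun i _ => Submodule.smul_mem _ _
          (Submodule.subset_span ⟨i, rfl⟩)
      have h2 : (fun j => e.repr a (.inl j)) = 0 := by
        refine Matrix.eq_zero_of_mulVec_eq_zero hw (funext fun i => ?_)
        have h3 : ψ ⁅e (.inr (.inr i)), a⁆ = 0 := by rw [abs_skew, ha, neg_zero]
        rw [← h1, lie_add, map_add, abs_skew ψ _ (∑ i, e.repr a (.inr i) • e (.inr i)),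
          hψn _ (hbn _ hβ _ (hxn i)), neg_zero, add_zero] at h3
        simp only [Matrix.mulVec, dotProduct, hA', Pi.zero_apply]
        rw [← h3]
        simp only [lie_sum, lie_smul, map_sum, map_smul, smul_eq_mul]
        exact Finset.sum_congr rfl fun j _ => mul_comm _ _
      have h4 : ∀ j, e.repr a (.inl j) = 0 := fun j => congrFun h2 j
      simp only [h4, zero_smul, Finset.sum_const_zero, zero_add] at h1
      rw [← h1]
      exact hβ
    have h1 := hHb a hab
    have h2 : ∀ x : L, ψ ⁅⁅H, a⁆, x⁆ = 0 := fun x => by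
      rw [lie_lie, map_sub, hψH, ha, sub_zero]
    rw [hn, Submodule.mem_span_range_iff_exists_fun] at h1
    obtain ⟨α, hα⟩ := h1
    have h3 : α = 0 := by
      refine Matrix.eq_zero_of_vecMul_eq_zero hw (funext fun j => ?_)
      have h4 := h2 (e (.inl j))
      rw [← hα] at h4
      simp only [Matrix.vecMul, dotProduct, hA', Pi.zero_apply]
      rw [← h4]
      simp only [sum_lie, smul_lie, map_sum, map_smul, smul_eq_mul]
    rw [← hα, h3]
    simp
  have hfin : ∀ ψ : Dual k L, (absTor p ψ).Finite := fun ψ =>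
    finite_toral (k := k) (p := p) hz _ (fun a ha b hb => ha.2.1 b hb.1) fun a ha => ha.2.2
  obtain ⟨f, hf, hf'⟩ := exists_seq_of_forall_finset_exists
    (fun w : k => w ∉ T ∧ (s • (1 : Matrix (Fin r) (Fin r) k) + w • M).det ≠ 0)
    (fun w w' => ¬ Conjugate (s • χ + w' • lam) (s • χ + w • lam)) (by
      intro S _
      have hB : (T ∪ {w : k | (s • (1 : Matrix (Fin r) (Fin r) k) + w • M).det = 0} ∪
          ⋃ w ∈ S, (fun t => t - s * χ H) '' ((s • χ + w • lam) ''
            absTor p (s • χ + w • lam))).Finite :=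
        (hT.union (abs_det s hs M)).union
          (S.finite_toSet.biUnion fun w _ => ((hfin _).image _).image _)
      obtain ⟨y, hy⟩ := hB.exists_notMem
      simp only [Set.mem_union, not_or, Set.mem_ofPred_eq] at hy
      refine ⟨y, ⟨hy.1.1, hy.1.2⟩, fun w hw hc => hy.2 ?_⟩
      refine Set.mem_biUnion hw ⟨_, abs_conj_tor hc (htor y hy.1.2), ?_⟩
      simp [hl1])
  refine ⟨hP, fun i => s • χ + f i • lam, fun i j => hiso _ (hf i).1 _ (hf j).1, fun i j hc => ?_⟩
  rcases lt_trichotomy i j with h | h | h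
  · exact absurd (abs_conj_symm hc) (hf' i j h)
  · exact h
  · exact absurd hc (hf' j i h)

end Pool.Agent.Cart
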