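import Pool.Agent.P.MP_c9b50d_al.C.Stmt

/-! Working copies of the definitions, with an opaque truncated polynomial algebra. -/

namespace Pool.Agent.Cart

open MvPolynomial

variable (k : Type*) [Field k] (p : ℕ)

/-- The truncated polynomial algebra in the variables `σ`. -/
def O (σ : Type) :=
  MvPolynomial σ k ⧸ Ideal.span (Set.range fun i : σ => (X i : MvPolynomial σ k) ^ p)

noncomputable instance (σ : Type) : CommRing (O k p σ) :=
  inferInstanceAs (CommRing (MvPolynomial σ k ⧸ _))

noncomputable instance (σ : Type) : Algebra k (O k p σ) :=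
  inferInstanceAs (Algebra k (MvPolynomial σ k ⧸ _))

/-- The Jacobson-Witt algebra `Der O`. -/
abbrev W (σ : Type) := Derivation k (O k p σ) (O k p σ)

variable {σ : Type}

/-- The class of a polynomial. -/
noncomputable def cls : MvPolynomial σ k →ₐ[k] O k p σ := Ideal.Quotient.mkₐ k _

/-- The class of a variable. -/
noncomputable def x (i : σ) : O k p σ := cls k p (X i)

theorem cls_surj : Function.Surjective (cls k p (σ := σ)) := Ideal.Quotient.mkₐ_surjective k _

theorem cls_eq_zero {g : MvPolynomial σ k} : cls k p g = 0 ↔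
    g ∈ Ideal.span (Set.range fun i : σ => (X i : MvPolynomial σ k) ^ p) :=
  Ideal.Quotient.eq_zero_iff_mem

theorem pderiv_mem [CharP k p] (i : σ) (g : MvPolynomial σ k) (hg : cls k p g = 0) :
    cls k p (pderiv i g) = 0 := by
  rw [cls_eq_zero] at *
  induction hg using Submodule.span_induction with
  | mem g hg =>
    obtain ⟨j, rfl⟩ := hg
    simp only [Derivation.leibniz_pow, nsmul_eq_mul, CharP.cast_eq_zero, zero_mul]
    exact zero_mem _
  | zero => simp
  | add a b _ _ ha hb => rw [map_add]; exact add_mem ha hb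
  | smul a b hb' hb =>
    rw [smul_eq_mul, Derivation.leibniz]
    exact add_mem (Ideal.mul_mem_left _ _ hb) (Ideal.mul_mem_right _ _ hb')

/-- The derivative with respect to a variable. -/
noncomputable def pd [CharP k p] (i : σ) : W k p σ :=
  Derivation.liftOfSurjective (cls_surj k p) (d := pderiv i) (pderiv_mem k p i)

variable {k p}

/-- The derived algebra. -/
noncomputable def der (A : Set (W k p σ)) : LieSubalgebra k (W k p σ) :=
  LieSubalgebra.lieSpan k _ {D | ∃ a ∈ A, ∃ b ∈ A, D = ⁅a, b⁆}

/-- `b` is the `p`-th power of the derivation `a`. -/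
def pw (g : LieSubalgebra k (W k p σ)) (a b : g) : Prop :=
  ∀ f, (b : W k p σ) f = (a : W k p σ)^[p] f

/-- The symplectic form `∑ dx_i ∧ dy_i`. -/
noncomputable def om {m : ℕ} (Y Z : W k p (Fin m ⊕ Fin m)) : O k p (Fin m ⊕ Fin m) :=
  ∑ i, (Y (x k p (.inl i)) * Z (x k p (.inr i)) - Z (x k p (.inl i)) * Y (x k p (.inr i)))

/-- The contact form `dz + ∑ (x_i dy_i - y_i dx_i)`. -/
noncomputable def al {m : ℕ} (Y : W k p (Option (Fin m ⊕ Fin m))) :
    O k p (Option (Fin m ⊕ Fin m)) :=
  Y (x k p none) + ∑ i, (x k p (some (.inl i)) * Y (x k p (some (.inr i))) -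
    x k p (some (.inr i)) * Y (x k p (some (.inl i))))

variable (k p) in
/-- The algebra `X(n, 1)`: all derivations, those of divergence zero, those killing the
symplectic form, those multiplying the contact form by a function. -/
def Cartan.alg [CharP k p] : (T : Cartan) → Set (W k p T.vars)
  | tW _ _ => Set.univ
  | tS n _ => {D : W k p (Fin n) | ∑ i, pd k p i (D (x k p i)) = 0}
  | tH m _ => {D : W k p (Fin m ⊕ Fin m) | ∀ Y Z, D (om Y Z) = om ⁅D, Y⁆ Z + om Y ⁅D, Z⁆}
  | tK m _ => {D : W k p (Option (Fin m ⊕ Fin m)) |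
      ∃ f, ∀ Y, D (al Y) - al ⁅D, Y⁆ = f * al Y}

end Pool.Agent.Cart
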