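import Pool.Agent.P.MP_c9b50d_al.C.Abs

/-! The criterion for filtered and for graded algebras. -/

namespace Pool.Agent.Cart

open Module

variable {k L : Type*} [Field k] [LieRing L] [LieAlgebra k L] [FiniteDimensional k L]

/-- A stable subspace is spanned by its eigenvectors. -/
theorem fil_le [IsAlgClosed k] {T : End k L} (hT : T.IsSemisimple) {P Q : Submodule k L}
    (hP : ∀ x ∈ P, T x ∈ P) (h : ∀ (γ : k), ∀ x ∈ P, T x = γ • x → x ∈ Q) : P ≤ Q := by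
  have h1 : ⨆ μ, T.genEigenspace μ 1 = ⊤ := hT.iSup_eigenspace_eq_top
  rw [Submodule.eq_iSup_inf_genEigenspace 1 hP h1]
  refine iSup_le fun γ x hx => h γ x hx.1 ?_
  exact End.mem_eigenspace_iff.1 hx.2

omit [FiniteDimensional k L] in
/-- An eigenvector in a sum of parts of eigenspaces lies in the corresponding part. -/
theorem fil_mem {T : End k L} (A : k → Submodule k L) {γ : k} {x : L} (hx : T x = γ • x)
    (h : x ∈ ⨆ δ, T.eigenspace δ ⊓ A δ) : x ∈ A γ := by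
  have h1 : (⨆ δ, T.eigenspace δ ⊓ A δ) ≤
      (T.eigenspace γ ⊓ A γ) ⊔ ⨆ (δ) (_ : δ ≠ γ), T.eigenspace δ := by
    refine iSup_le fun δ => ?_
    by_cases hδ : δ = γ
    · subst hδ; exact le_sup_left
    · exact le_sup_of_le_right (inf_le_left.trans
        (le_iSup₂_of_le (f := fun δ (_ : δ ≠ γ) => T.eigenspace δ) δ hδ le_rfl))
  obtain ⟨a, ha, r, hr, rfl⟩ := Submodule.mem_sup.1 (h1 h)
  have h2 : r ∈ T.eigenspace γ := by
    have := Submodule.sub_mem _ (End.mem_eigenspace_iff.2 hx) ha.1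
    simpa using this
  have h3 : r = 0 := (Submodule.disjoint_def.1 (T.eigenspaces_iSupIndep γ)) r h2 hr
  rw [h3, add_zero]
  exact ha.2

omit [FiniteDimensional k L] in
theorem fil_br {V x y : L} {γ δ : k} (hx : ⁅V, x⁆ = γ • x) (hy : ⁅V, y⁆ = δ • y) :
    ⁅V, ⁅x, y⁆⁆ = (γ + δ) • ⁅x, y⁆ := by
  rw [leibniz_lie, hx, hy, smul_lie, lie_smul, add_smul]

omit [FiniteDimensional k L] in
theorem fil_chi {χ : Dual k L} {V x : L} (hχV : ∀ x : L, χ ⁅V, x⁆ = 0) {γ : k} (hγ : γ ≠ 0)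
    (hx : ⁅V, x⁆ = γ • x) : χ x = 0 := by
  have := hχV x
  rw [hx, map_smul, smul_eq_mul] at this
  exact (mul_eq_zero.1 this).resolve_left hγ

omit [FiniteDimensional k L] in
/-- Induction over a sum of parts of eigenspaces. -/
theorem fil_ind (V : L) (A : k → Submodule k L) (Q : Submodule k L)
    (h : ∀ (γ : k), ∀ x ∈ A γ, ⁅V, x⁆ = γ • x → x ∈ Q) :
    (⨆ δ, (LieAlgebra.ad k L V).eigenspace δ ⊓ A δ) ≤ Q :=
  iSup_le fun γ x hx => h γ x hx.2 (End.mem_eigenspace_iff.1 hx.1)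

omit [FiniteDimensional k L] in
theorem fil_in {V : L} (A : k → Submodule k L) {γ : k} {x : L} (hx : ⁅V, x⁆ = γ • x)
    (h : x ∈ A γ) : x ∈ ⨆ δ, (LieAlgebra.ad k L V).eigenspace δ ⊓ A δ :=
  Submodule.mem_iSup_of_mem γ ⟨End.mem_eigenspace_iff.2 hx, h⟩

/-- The orthogonal of a subspace for the form attached to a functional. -/
def filPerp (χ : Dual k L) (N : Submodule k L) : Submodule k L where
  carrier := {x | ∀ y ∈ N, χ ⁅x, y⁆ = 0}
  add_mem' := fun {a b} ha hb y hy => by rw [add_lie, map_add, ha y hy, hb y hy, add_zero]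
  zero_mem' := fun y _ => by rw [zero_lie, map_zero]
  smul_mem' := fun c a ha y hy => by rw [smul_lie, map_smul, ha y hy, smul_zero]

omit [FiniteDimensional k L] in
theorem fil_perp_stable {χ : Dual k L} {V : L} (hχV : ∀ x : L, χ ⁅V, x⁆ = 0)
    {N : Submodule k L} (hN : ∀ y ∈ N, ⁅V, y⁆ ∈ N) :
    ∀ x ∈ filPerp χ N, LieAlgebra.ad k L V x ∈ filPerp χ N := by
  intro x hx y hy
  have h1 := hχV ⁅x, y⁆
  rw [leibniz_lie, map_add, hx _ (hN y hy), add_zero] at h1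
  exact h1

omit [FiniteDimensional k L] in
/-- The choice of a half of the weight spaces. -/
theorem fil_choice (h2 : (2 : k) ≠ 0) (A₁ A₂ A₃ : Submodule k L) :
    ∃ A : k → Submodule k L, A 0 = A₃ ∧ ∀ γ, γ ≠ 0 →
      (A γ = A₁ ∧ A (-γ) = A₂) ∨ (A γ = A₂ ∧ A (-γ) = A₁) := by
  classical
  let : LinearOrder k := linearOrderOfSTO WellOrderingRel
  refine ⟨fun γ => if γ = 0 then A₃ else if γ < -γ then A₁ else A₂, by simp, fun γ hγ => ?_⟩
  have hne : γ ≠ -γ := by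
    intro h
    have : (2 : k) * γ = 0 := by linear_combination h
    exact hγ ((mul_eq_zero.1 this).resolve_left h2)
  have hγ' : -γ ≠ 0 := neg_ne_zero.2 hγ
  rcases lt_or_gt_of_ne hne with h | h
  · left
    simp only [if_neg hγ, if_neg hγ', neg_neg, if_pos h, if_neg (not_lt_of_gt h), and_self]
  · right
    simp only [if_neg hγ, if_neg hγ', neg_neg, if_pos h, if_neg (not_lt_of_gt h), and_self]

theorem fails_fil [IsAlgClosed k] {p : ℕ} [Fact p.Prime] [CharP k p] (hp : 3 ≤ p)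
    (Pw : L → L → Prop) (hP : ∀ a, ∃ b, Pw a b)
    (hP' : ∀ a b, Pw a b → LieAlgebra.ad k L b = LieAlgebra.ad k L a ^ p)
    (hz : ∀ a : L, (∀ b : L, ⁅a, b⁆ = 0) → a = 0) (χ lam : Dual k L) (V H : L)
    (B A₁ A₂ A₃ : Submodule k L) (h1 : A₁ ≤ B) (h2 : A₂ ≤ A₁) (h3 : A₃ ≤ A₂)
    (hB1 : ∀ x ∈ B, ∀ y ∈ A₁, ⁅x, y⁆ ∈ A₁)
    (hB2 : ∀ x ∈ B, ∀ y ∈ A₂, ⁅x, y⁆ ∈ A₂) (hB3 : ∀ x ∈ B, ∀ y ∈ A₃, ⁅x, y⁆ ∈ A₃)
    (h11 : ∀ x ∈ A₁, ∀ y ∈ A₁, ⁅x, y⁆ ∈ A₂) (h12 : ∀ x ∈ A₁, ∀ y ∈ A₂, ⁅x, y⁆ ∈ A₃)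
    (hV : V ∈ B) (hVs : (LieAlgebra.ad k L V).IsSemisimple) (hH : H ∈ B)
    (hHt : LieAlgebra.ad k L H ^ p = LieAlgebra.ad k L H)
    (hVH : ∀ x : L, ⁅V, x⁆ = 0 → ⁅H, x⁆ = 0)
    (hχV : ∀ x : L, χ ⁅V, x⁆ = 0) (hχH : ∀ x : L, χ ⁅H, x⁆ = 0) (hχ3 : ∀ x ∈ A₃, χ x = 0)
    (hP1 : ∀ (γ : k) (x : L), γ ≠ 0 → ⁅V, x⁆ = γ • x → (∀ y ∈ A₁, χ ⁅x, y⁆ = 0) → x ∈ A₂)
    (hP2 : ∀ (γ : k) (x : L), γ ≠ 0 → ⁅V, x⁆ = γ • x → (∀ y ∈ A₂, χ ⁅x, y⁆ = 0) → x ∈ A₁)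
    (hP0 : ∀ x : L, ⁅V, x⁆ = 0 → (∀ y ∈ A₃, χ ⁅x, y⁆ = 0) → x ∈ B)
    (hS1 : ∀ (γ : k) (x : L), γ ≠ 0 → ⁅V, x⁆ = γ • x → (∀ y : L, χ ⁅x, y⁆ = 0) → x = 0)
    (hS2 : ∀ x ∈ A₃, (∀ y : L, χ ⁅x, y⁆ = 0) → x = 0)
    (hnil : ∀ x ∈ A₁, ∀ y, Pw x y → y ∈ A₃)
    (hl1 : lam H = 1) (hlH : ∀ x : L, lam ⁅H, x⁆ = 0) (hlA : ∀ x ∈ A₁, lam x = 0)
    (hlb : ∀ x ∈ B ⊓ LinearMap.ker (LieAlgebra.ad k L V) ⊔ A₁,
      ∀ y ∈ B ⊓ LinearMap.ker (LieAlgebra.ad k L V) ⊔ A₁, lam ⁅x, y⁆ = 0)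
    (hlp : ∀ x ∈ B ⊓ LinearMap.ker (LieAlgebra.ad k L V) ⊔ A₁, ∀ y, Pw x y →
      lam y = lam x ^ p) : Fails k p Pw := by
  classical
  have h20 : (2 : k) ≠ 0 := by
    intro h
    have h' : ((2 : ℕ) : k) = 0 := by exact_mod_cast h
    have := Nat.le_of_dvd (by norm_num) ((CharP.cast_eq_zero_iff k p 2).1 h')
    omega
  obtain ⟨A, hA0, hA⟩ := fil_choice h20 A₁ A₂ A₃
  have hA1 : ∀ γ, A γ ≤ A₁ := by
    intro γ
    by_cases hγ : γ = 0
    · rw [hγ, hA0]; exact h3.trans h2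
    · rcases hA γ hγ with h | h
      · exact h.1.le
      · exact h.1.le.trans h2
  have hA2 : ∀ γ, γ ≠ 0 → A₂ ≤ A γ := by
    intro γ hγ
    rcases hA γ hγ with h | h
    · exact h2.trans h.1.ge
    · exact h.1.ge
  have hA3 : ∀ γ, A₃ ≤ A γ := by
    intro γ
    by_cases hγ : γ = 0
    · rw [hγ, hA0]
    · exact h3.trans (hA2 γ hγ)
  have hBA : ∀ γ, ∀ x ∈ B, ∀ y ∈ A γ, ⁅x, y⁆ ∈ A γ := by
    intro γ
    by_cases hγ : γ = 0
    · rw [hγ, hA0]; exact hB3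
    · rcases hA γ hγ with h | h
      · rw [h.1]; exact hB1
      · rw [h.1]; exact hB2
  set A' : k → Submodule k L := fun γ => if γ = 0 then B else A γ with hA'
  have hA'0 : A' 0 = B := by simp [hA']
  have hA'n : ∀ γ, γ ≠ 0 → A' γ = A γ := fun γ hγ => by simp [hA', hγ]
  set n : Submodule k L := ⨆ δ, (LieAlgebra.ad k L V).eigenspace δ ⊓ A δ with hn
  set b : Submodule k L := ⨆ δ, (LieAlgebra.ad k L V).eigenspace δ ⊓ A' δ with hb
  have hn1 : n ≤ A₁ := fil_ind V A _ fun γ x hx _ => hA1 γ hx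
  have h3n : A₃ ≤ n := fil_le hVs (fun x hx => hB3 V hV x hx)
    fun γ x hx hx' => fil_in A hx' (hA3 γ hx)
  have hbn : ∀ x ∈ b, ∀ y ∈ n, ⁅x, y⁆ ∈ n := by
    have key : ∀ (γ : k), ∀ x ∈ A' γ, ⁅V, x⁆ = γ • x → ∀ (δ : k), ∀ y ∈ A δ, ⁅V, y⁆ = δ • y →
        ⁅x, y⁆ ∈ A (γ + δ) := by
      intro γ x hx _ δ y hy _
      by_cases hγ : γ = 0
      · rw [hγ, hA'0] at hx
        rw [hγ, zero_add]
        exact hBA δ x hx y hy
      rw [hA'n γ hγ] at hx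
      by_cases hγδ : γ + δ = 0
      · have hδ : δ = -γ := by linear_combination hγδ
        rw [hγδ, hA0]
        rw [hδ] at hy
        rcases hA γ hγ with h | h
        · rw [h.1] at hx; rw [h.2] at hy
          exact h12 x hx y hy
        · rw [h.1] at hx; rw [h.2] at hy
          rw [← lie_skew]
          exact Submodule.neg_mem _ (h12 y hy x hx)
      · exact hA2 _ hγδ (h11 x (hA1 γ hx) y (hA1 δ hy))
    intro x hx y hy
    have h1 : b ≤ n.comap (LieModule.toEnd k L L y) := by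
      refine fil_ind V A' _ fun γ x hx hx' => ?_
      have h2 : n ≤ n.comap (LieAlgebra.ad k L x) :=
        fil_ind V A _ fun δ y hy hy' => fil_in A (fil_br hx' hy') (key γ x hx hx' δ y hy hy')
      have h3 : ⁅x, y⁆ ∈ n := h2 hy
      show ⁅y, x⁆ ∈ n
      rw [← lie_skew]
      exact Submodule.neg_mem _ h3
    have h4 : ⁅y, x⁆ ∈ n := h1 hx
    rw [← lie_skew]
    exact Submodule.neg_mem _ h4
  have hVb : V ∈ b := fil_in A' (γ := 0) (by simp) (by rw [hA'0]; exact hV)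
  have hHb : H ∈ b := by
    refine fil_in A' (γ := 0) ?_ (by rw [hA'0]; exact hH)
    rw [zero_smul, ← lie_skew, hVH V (lie_self V), neg_zero]
  have hbB : b ≤ B ⊓ LinearMap.ker (LieAlgebra.ad k L V) ⊔ A₁ := by
    refine fil_ind V A' _ fun γ x hx hx' => ?_
    by_cases hγ : γ = 0
    · rw [hγ, hA'0] at hx
      rw [hγ, zero_smul] at hx'
      exact Submodule.mem_sup_left ⟨hx, hx'⟩
    · rw [hA'n γ hγ] at hx
      exact Submodule.mem_sup_right (hA1 γ hx)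
  refine fails_abs hp Pw hP hP' hz n b χ lam H ?_ hbn ?_ ?_ ?_ ?_ ?_ ?_ ?_ hHt ?_ hχH hlH hl1
  · refine fil_ind V A _ fun γ x hx hx' => fil_in A' hx' ?_
    by_cases hγ : γ = 0
    · rw [hγ, hA'0]; exact h1 (hA1 γ hx)
    · rw [hA'n γ hγ]; exact hx
  · have : n ≤ LinearMap.ker χ := by
      refine fil_ind V A _ fun γ x hx hx' => ?_
      by_cases hγ : γ = 0
      · rw [hγ, hA0] at hx; exact hχ3 x hx
      · exact fil_chi hχV hγ hx'
    exact fun x hx => this hx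
  · have : filPerp χ n ≤ b := by
      refine fil_le hVs (fil_perp_stable hχV (hbn V hVb)) fun γ x hx hx' => fil_in A' hx' ?_
      have h5 : A (-γ) ≤ LinearMap.ker (χ ∘ₗ LieAlgebra.ad k L x) := by
        refine fil_le hVs (fun y hy => hBA _ V hV y hy) fun δ y hy hy' => ?_
        show χ ⁅x, y⁆ = 0
        by_cases hδ : γ + δ = 0
        · have hδ' : -γ = δ := by linear_combination -hδ
          rw [hδ'] at hy
          exact hx y (fil_in A hy' hy)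
        · exact fil_chi hχV hδ (fil_br hx' hy')
      have h6 : ∀ y ∈ A (-γ), χ ⁅x, y⁆ = 0 := fun y hy => h5 hy
      by_cases hγ : γ = 0
      · rw [hγ, neg_zero, hA0] at h6
        rw [hγ, zero_smul] at hx'
        rw [hγ, hA'0]
        exact hP0 x hx' h6
      · rw [hA'n γ hγ]
        rcases hA γ hγ with h | h
        · rw [h.2] at h6; rw [h.1]; exact hP2 γ x hγ hx' h6
        · rw [h.2] at h6; rw [h.1]; exact hP1 γ x hγ hx' h6
    exact fun x hx => this hx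
  · have : n ⊓ filPerp χ ⊤ ≤ ⊥ := by
      refine fil_le hVs (fun x hx => ⟨hbn V hVb x hx.1,
        fil_perp_stable hχV (fun _ _ => Submodule.mem_top) x hx.2⟩) fun γ x hx hx' => ?_
      have h5 : ∀ y : L, χ ⁅x, y⁆ = 0 := fun y => hx.2 y Submodule.mem_top
      by_cases hγ : γ = 0
      · have h6 : x ∈ A γ := fil_mem (T := LieAlgebra.ad k L V) A hx' hx.1
        rw [hγ, hA0] at h6
        exact hS2 x h6 h5
      · exact hS1 γ x hγ hx' h5
    intro y hy h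
    refine this ⟨hy, fun x _ => ?_⟩
    rw [← lie_skew, map_neg, h x, neg_zero]
  · exact fun x hx y hy => h3n (hnil x (hn1 hx) y hy)
  · exact fun x hx => hlA x (hn1 hx)
  · exact fun x hx y hy => hlb x (hbB hx) y (hbB hy)
  · exact fun x hx y hy => hlp x (hbB hx) y hy
  · have : b ≤ n.comap (LieAlgebra.ad k L H) := by
      refine fil_ind V A' _ fun γ x hx hx' => ?_
      show ⁅H, x⁆ ∈ n
      by_cases hγ : γ = 0
      · rw [hγ, zero_smul] at hx'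
        rw [hVH x hx']
        exact Submodule.zero_mem _
      · rw [hA'n γ hγ] at hx
        exact hbn H hHb x (fil_in A hx' hx)
    exact fun x hx => this hx

/-- Orthogonality in a graded algebra with a homogeneous character. -/
theorem perp_graded [IsAlgClosed k] (𝓛 : ℤ → Submodule k L) (htop : ⨆ j, 𝓛 j = ⊤)
    (hmul : ∀ i j, ∀ x ∈ 𝓛 i, ∀ y ∈ 𝓛 j, ⁅x, y⁆ ∈ 𝓛 (i + j)) (χ : Dual k L) (D : ℤ)
    (hχ : ∀ j, j ≠ D → ∀ x ∈ 𝓛 j, χ x = 0) (V : L) (hV : V ∈ 𝓛 0)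
    (hVs : (LieAlgebra.ad k L V).IsSemisimple) (a : ℤ) (γ : k)
    (hst : ∀ j, j ≤ D - a → ∀ x ∈ 𝓛 j, ⁅V, x⁆ = γ • x → (∀ y : L, χ ⁅x, y⁆ = 0) → x = 0)
    (x : L) (hx : ⁅V, x⁆ = γ • x) (hperp : ∀ j, a ≤ j → ∀ y ∈ 𝓛 j, χ ⁅x, y⁆ = 0) :
    x ∈ ⨆ (j : ℤ) (_ : D - a < j), 𝓛 j := by
  classical
  set C : k → Submodule k L := fun δ => ⨆ j, 𝓛 j ⊓ (LieAlgebra.ad k L V).eigenspace δ with hC
  have h1 : (⊤ : Submodule k L) ≤ ⨆ δ, (LieAlgebra.ad k L V).eigenspace δ ⊓ C δ := by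
    rw [← htop]
    refine iSup_le fun j => fil_le hVs (fun y hy => ?_) fun δ y hy hy' => fil_in C hy' ?_
    · have := hmul 0 j V hV y hy
      rwa [zero_add] at this
    · exact Submodule.mem_iSup_of_mem j ⟨hy, End.mem_eigenspace_iff.2 hy'⟩
  have h2 : x ∈ C γ := fil_mem (T := LieAlgebra.ad k L V) C hx (h1 Submodule.mem_top)
  obtain ⟨f, hf, hfx⟩ := (Submodule.mem_iSup_iff_exists_finsupp _ _).1 h2
  have h3 : ∀ j, j ≤ D - a → f j = 0 := by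
    intro j hj
    refine hst j hj (f j) (hf j).1 (End.mem_eigenspace_iff.1 (hf j).2) fun y => ?_
    have h4 : (⊤ : Submodule k L) ≤ LinearMap.ker (χ ∘ₗ LieAlgebra.ad k L (f j)) := by
      rw [← htop]
      refine iSup_le fun l y hy => ?_
      show χ ⁅f j, y⁆ = 0
      by_cases hl : j + l = D
      · have h5 := hperp l (by omega) y hy
        rw [← hfx, Finsupp.sum, sum_lie, map_sum, Finset.sum_eq_single j] at h5
        · exact h5
        · intro i _ hij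
          exact hχ (i + l) (by omega) _ (hmul i l _ (hf i).1 y hy)
        · intro hj'
          rw [Finsupp.notMem_support_iff.1 hj', zero_lie, map_zero]
      · exact hχ (j + l) hl _ (hmul j l _ (hf j).1 y hy)
    exact h4 Submodule.mem_top
  rw [← hfx, Finsupp.sum]
  refine Submodule.sum_mem _ fun j _ => ?_
  by_cases hj : j ≤ D - a
  · rw [h3 j hj]; exact Submodule.zero_mem _
  · exact Submodule.mem_iSup_of_mem j (Submodule.mem_iSup_of_mem (by omega) (hf j).1)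

end Pool.Agent.Cart
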