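import Pool.Agent.P.MP_c9b50d_al.C.OW
import Pool.Agent.P.MP_c9b50d_al.C.Fil

/-! The criteria for subalgebras of the Jacobson-Witt algebra. -/

namespace Pool.Agent.Cart

open Module

variable {k : Type*} [Field k] [IsAlgClosed k] {p : ℕ} [Fact p.Prime] [CharP k p] {σ : Type}
  [Fintype σ]

omit [IsAlgClosed k] [Fact p.Prime] [CharP k p] [Fintype σ] in
theorem fw_coe_ad_pow (g : LieSubalgebra k (W k p σ)) (a : g) (n : ℕ) (y : g) :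
    (((LieAlgebra.ad k g a ^ n) y : g) : W k p σ) =
      (LieAlgebra.ad k (W k p σ) (a : W k p σ) ^ n) (y : W k p σ) := by
  induction n with
  | zero => simp
  | succ n ih =>
    rw [pow_succ', pow_succ', Module.End.mul_apply, Module.End.mul_apply, LieAlgebra.ad_apply,
      LieAlgebra.ad_apply, LieSubalgebra.coe_bracket, ih]

omit [IsAlgClosed k] [Fact p.Prime] [CharP k p] [Fintype σ] in
theorem fw_ad_semisimple (g : LieSubalgebra k (W k p σ)) (V : W k p σ) (hVg : V ∈ g)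
    (hVs : (LieAlgebra.ad k (W k p σ) V).IsSemisimple) :
    (LieAlgebra.ad k g ⟨V, hVg⟩).IsSemisimple := by
  have hinv : g.toSubmodule ∈ Module.End.invtSubmodule (LieAlgebra.ad k (W k p σ) V) := by
    rw [Module.End.mem_invtSubmodule]
    intro y hy
    exact g.lie_mem hVg hy
  exact hVs.restrict hinv

omit [IsAlgClosed k] [Fintype σ] in
theorem fw_ad_pw (g : LieSubalgebra k (W k p σ)) (a b : g) (h : pw g a b) :
    LieAlgebra.ad k g b = LieAlgebra.ad k g a ^ p := by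
  ext y
  rw [pw_iff] at h
  have h1 := fw_coe_ad_pow g a p y
  rw [← ad_ppow, ← h] at h1
  rw [h1]
  rfl

theorem fails_W (hp : 3 ≤ p) (g : LieSubalgebra k (W k p σ)) (hcl : ∀ a ∈ g, ppow a ∈ g)
    (hz : ∀ a ∈ g, (∀ b ∈ g, ⁅a, b⁆ = 0) → a = 0) (χ : Dual k (W k p σ)) (V H : W k p σ)
    (hVg : V ∈ g) (hHg : H ∈ g) (B A₁ A₂ A₃ : Submodule k (W k p σ))
    (h1 : A₁ ≤ B) (h2 : A₂ ≤ A₁) (h3 : A₃ ≤ A₂)
    (hB1 : ∀ x ∈ g, x ∈ B → ∀ y ∈ g, y ∈ A₁ → ⁅x, y⁆ ∈ A₁)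
    (hB2 : ∀ x ∈ g, x ∈ B → ∀ y ∈ g, y ∈ A₂ → ⁅x, y⁆ ∈ A₂)
    (hB3 : ∀ x ∈ g, x ∈ B → ∀ y ∈ g, y ∈ A₃ → ⁅x, y⁆ ∈ A₃)
    (h11 : ∀ x ∈ g, x ∈ A₁ → ∀ y ∈ g, y ∈ A₁ → ⁅x, y⁆ ∈ A₂)
    (h12 : ∀ x ∈ g, x ∈ A₁ → ∀ y ∈ g, y ∈ A₂ → ⁅x, y⁆ ∈ A₃)
    (hV : V ∈ B) (hVs : (LieAlgebra.ad k (W k p σ) V).IsSemisimple) (hH : H ∈ B)
    (hHt : ppow H = H) (hVH : ∀ x ∈ g, ⁅V, x⁆ = 0 → ⁅H, x⁆ = 0)
    (hχV : ∀ x ∈ g, χ ⁅V, x⁆ = 0) (hχH : ∀ x ∈ g, χ ⁅H, x⁆ = 0)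
    (hχ3 : ∀ x ∈ g, x ∈ A₃ → χ x = 0)
    (hP1 : ∀ γ : k, γ ≠ 0 → ∀ x ∈ g, ⁅V, x⁆ = γ • x →
      (∀ y ∈ g, y ∈ A₁ → χ ⁅x, y⁆ = 0) → x ∈ A₂)
    (hP2 : ∀ γ : k, γ ≠ 0 → ∀ x ∈ g, ⁅V, x⁆ = γ • x →
      (∀ y ∈ g, y ∈ A₂ → χ ⁅x, y⁆ = 0) → x ∈ A₁)
    (hP0 : ∀ x ∈ g, ⁅V, x⁆ = 0 → (∀ y ∈ g, y ∈ A₃ → χ ⁅x, y⁆ = 0) → x ∈ B)
    (hS1 : ∀ γ : k, γ ≠ 0 → ∀ x ∈ g, ⁅V, x⁆ = γ • x → (∀ y ∈ g, χ ⁅x, y⁆ = 0) → x = 0)
    (hS2 : ∀ x ∈ g, x ∈ A₃ → (∀ y ∈ g, χ ⁅x, y⁆ = 0) → x = 0)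
    (hnil : ∀ x ∈ g, x ∈ A₁ → ppow x = 0)
    (v : O k p σ) (N : Submodule k (O k p σ)) (hv : v ∉ N) (hHv : H v = v)
    (hBN : ∀ x ∈ g, x ∈ B → ∀ f ∈ N, x f ∈ N) (hAv : ∀ x ∈ g, x ∈ A₁ → x v ∈ N)
    (hcv : ∀ x ∈ g, x ∈ B → ⁅V, x⁆ = 0 → ∃ c : k, x v - c • v ∈ N) :
    Fails k p (pw g) := by
  have hHt' : tE k p σ H ^ p = tE k p σ H := by rw [← tE_ppow, hHt]
  obtain ⟨l, hl1, hlN, hlH⟩ := exists_inv_dual hHt' N (fun f hf => hBN H hHg hH f hf)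
    (v := v) hHv hv
  let ι : g →ₗ[k] W k p σ := g.toSubmodule.subtype
  let lam : Dual k g :=
    { toFun := fun y => l ((y : W k p σ) v)
      map_add' := fun a b => by
        rw [← map_add]; rfl
      map_smul' := fun c a => by
        rw [RingHom.id_apply, ← map_smul]; rfl }
  have hlam : ∀ y : g, lam y = l ((y : W k p σ) v) := fun _ => rfl
  have key : ∀ y : g, y ∈ B.comap ι ⊓ LinearMap.ker (LieAlgebra.ad k g ⟨V, hVg⟩) ⊔ A₁.comap ι →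
      (y : W k p σ) ∈ B ∧ (y : W k p σ) v - lam y • v ∈ N := by
    intro y hy
    obtain ⟨b, hb, a, ha, rfl⟩ := Submodule.mem_sup.1 hy
    have hb1 : (b : W k p σ) ∈ B := hb.1
    have hb2 : ⁅V, (b : W k p σ)⁆ = 0 := congrArg Subtype.val (LinearMap.mem_ker.1 hb.2)
    have ha1 : (a : W k p σ) ∈ A₁ := ha
    obtain ⟨c, hc⟩ := hcv b b.2 hb1 hb2
    have h4 : ((b + a : g) : W k p σ) v - c • v ∈ N := by
      have : ((b + a : g) : W k p σ) v - c • v =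
          ((b : W k p σ) v - c • v) + (a : W k p σ) v := by
        have : ((b + a : g) : W k p σ) v = (b : W k p σ) v + (a : W k p σ) v := rfl
        rw [this]; abel
      rw [this]
      exact add_mem hc (hAv a a.2 ha1)
    refine ⟨add_mem hb1 (h1 ha1), ?_⟩
    have h5 := hlN _ h4
    rw [map_sub, map_smul, hl1, smul_eq_mul, mul_one, sub_eq_zero, ← hlam] at h5
    rw [h5]
    exact h4
  have key2 : ∀ y : g, (y : W k p σ) ∈ B → (y : W k p σ) v - lam y • v ∈ N →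
      ∀ (f : O k p σ) (c : k), f - c • v ∈ N → (y : W k p σ) f - (c * lam y) • v ∈ N := by
    intro y hyB hy f c hf
    have : (y : W k p σ) f - (c * lam y) • v =
        (y : W k p σ) (f - c • v) + c • ((y : W k p σ) v - lam y • v) := by
      rw [map_sub, Derivation.map_smul, smul_sub, mul_smul]; abel
    rw [this]
    exact add_mem (hBN y y.2 hyB _ hf) (N.smul_mem _ hy)
  have key3 : ∀ (f : O k p σ) (c : k), f - c • v ∈ N → l f = c := by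
    intro f c hf
    have h5 := hlN _ hf
    rwa [map_sub, map_smul, hl1, smul_eq_mul, mul_one, sub_eq_zero] at h5
  refine fails_fil hp (pw g) (fun a => ⟨⟨ppow (a : W k p σ), hcl a a.2⟩, (pw_iff _ _).2 rfl⟩)
    (fw_ad_pw g) ?_ (χ ∘ₗ ι) lam ⟨V, hVg⟩ ⟨H, hHg⟩ (B.comap ι) (A₁.comap ι) (A₂.comap ι)
    (A₃.comap ι) (Submodule.comap_mono h1) (Submodule.comap_mono h2) (Submodule.comap_mono h3)
    (fun x hx y hy => hB1 x x.2 hx y y.2 hy) (fun x hx y hy => hB2 x x.2 hx y y.2 hy)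
    (fun x hx y hy => hB3 x x.2 hx y y.2 hy) (fun x hx y hy => h11 x x.2 hx y y.2 hy)
    (fun x hx y hy => h12 x x.2 hx y y.2 hy) hV (fw_ad_semisimple g V hVg hVs) hH ?_ ?_
    (fun x => hχV x x.2) (fun x => hχH x x.2) (fun x hx => hχ3 x x.2 hx) ?_ ?_ ?_ ?_ ?_ ?_ ?_ ?_
    ?_ ?_ ?_
  · intro a ha
    exact Subtype.ext (hz a a.2 fun b hb => congrArg Subtype.val (ha ⟨b, hb⟩))
  · exact (fw_ad_pw g ⟨H, hHg⟩ ⟨H, hHg⟩ ((pw_iff _ _).2 hHt.symm)).symm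
  · intro y hy
    exact Subtype.ext (hVH y y.2 (congrArg Subtype.val hy))
  · intro γ y hγ hy hy'
    exact hP1 γ hγ y y.2 (congrArg Subtype.val hy) fun z hz hz' => hy' ⟨z, hz⟩ hz'
  · intro γ y hγ hy hy'
    exact hP2 γ hγ y y.2 (congrArg Subtype.val hy) fun z hz hz' => hy' ⟨z, hz⟩ hz'
  · intro y hy hy'
    exact hP0 y y.2 (congrArg Subtype.val hy) fun z hz hz' => hy' ⟨z, hz⟩ hz'
  · intro γ y hγ hy hy'
    exact Subtype.ext (hS1 γ hγ y y.2 (congrArg Subtype.val hy) fun z hz => hy' ⟨z, hz⟩)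
  · intro y hy hy'
    exact Subtype.ext (hS2 y y.2 hy fun z hz => hy' ⟨z, hz⟩)
  · intro y hy z hz
    rw [pw_iff, hnil y y.2 hy] at hz
    change (z : W k p σ) ∈ A₃
    rw [hz]
    exact zero_mem _
  · rw [hlam]
    change l (H v) = 1
    rw [hHv, hl1]
  · intro y
    rw [hlam]
    change l (⁅H, (y : W k p σ)⁆ v) = 0
    have := hlH ((y : W k p σ) v)
    rw [tE_apply] at this
    rw [Derivation.commutator_apply, map_sub, hHv, this, sub_self]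
  · intro y hy
    rw [hlam]
    exact hlN _ (hAv y y.2 hy)
  · intro y hy z hz
    obtain ⟨hy1, hy2⟩ := key y hy
    obtain ⟨hz1, hz2⟩ := key z hz
    rw [hlam]
    change l (⁅(y : W k p σ), (z : W k p σ)⁆ v) = 0
    rw [Derivation.commutator_apply, map_sub, key3 _ _ (key2 y hy1 hy2 _ _ hz2),
      key3 _ _ (key2 z hz1 hz2 _ _ hy2), mul_comm, sub_self]
  · intro y hy z hz
    obtain ⟨hy1, hy2⟩ := key y hy
    have hn : ∀ n : ℕ, (y : W k p σ)^[n] v - (lam y ^ n) • v ∈ N := by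
      intro n
      induction n with
      | zero => simp
      | succ n ih =>
        rw [Function.iterate_succ_apply', pow_succ]
        exact key2 y hy1 hy2 _ _ ih
    rw [hlam, hz v]
    exact key3 _ _ (hn p)

theorem fails_graded (hp : 3 ≤ p) (w : σ → ℤ) (hw : ∀ i, 0 ≤ w i) (d : ℤ) (hd : 1 ≤ d)
    (hd' : 2 * topw p w < p * d) (g : LieSubalgebra k (W k p σ)) (hcl : ∀ a ∈ g, ppow a ∈ g)
    (hz : ∀ a ∈ g, (∀ b ∈ g, ⁅a, b⁆ = 0) → a = 0)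
    (hgr : ∀ a ∈ g, a ∈ ⨆ j, GW k p w j ⊓ g.toSubmodule) (χ : Dual k (W k p σ))
    (hχ : ∀ j, j ≠ d → ∀ x ∈ GW k p w j, χ x = 0) (hχ' : ∀ x ∈ FW k p w (d + 1), χ x = 0)
    (H : W k p σ) (hHg : H ∈ g) (hH : H ∈ GW k p w 0) (hHt : ppow H = H)
    (hχH : ∀ x ∈ g, χ ⁅H, x⁆ = 0)
    (hS1 : ∀ γ : k, γ ≠ 0 → ∀ x ∈ g, ⁅H, x⁆ = γ • x → (∀ y ∈ g, χ ⁅x, y⁆ = 0) → x = 0)
    (hS2 : ∀ j < 0, ∀ x ∈ g, x ∈ GW k p w j → (∀ y ∈ g, χ ⁅x, y⁆ = 0) → x = 0)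
    (hS3 : ∀ x ∈ g, x ∈ FW k p w (d + 1) → (∀ y ∈ g, χ ⁅x, y⁆ = 0) → x = 0)
    (v : O k p σ) (e : ℤ) (hv : v ∈ G k p w e) (hv' : v ≠ 0) (hHv : H v = v)
    (huniq : ∀ f ∈ F k p w e, H f = f → ∃ c : k, f - c • v ∈ F k p w (e + 1)) :
    Fails k p (pw g) := by
  let ι : g →ₗ[k] W k p σ := g.toSubmodule.subtype
  have htop : ⨆ j, (GW k p w j).comap ι = ⊤ := by
    refine top_le_iff.1 fun a _ => ?_
    have h1 : Submodule.map ι (⨆ j, (GW k p w j).comap ι) = ⨆ j, GW k p w j ⊓ g.toSubmodule := by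
      rw [Submodule.map_iSup]
      refine iSup_congr fun j => ?_
      rw [inf_comm]
      exact Submodule.map_comap_subtype _ _
    have h2 := hgr a a.2
    rw [← h1] at h2
    obtain ⟨b, hb, hba⟩ := h2
    have : b = a := Subtype.ext hba
    rwa [← this]
  have perp : ∀ (a b : ℤ) (γ : k), a + b = d + 1 →
      (∀ j, j < b → ∀ x ∈ g, x ∈ GW k p w j → ⁅H, x⁆ = γ • x →
        (∀ y ∈ g, χ ⁅x, y⁆ = 0) → x = 0) →
      ∀ x ∈ g, ⁅H, x⁆ = γ • x → (∀ y ∈ g, y ∈ FW k p w a → χ ⁅x, y⁆ = 0) →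
        x ∈ FW k p w b := by
    intro a b γ hab hst y hyg hy hperp
    have h := perp_graded (L := g) (fun j => (GW k p w j).comap ι) htop
      (fun i j x hx y hy => lie_mem_GW hx hy) (χ ∘ₗ ι) d (fun j hj x hx => hχ j hj x hx)
      ⟨H, hHg⟩ hH (fw_ad_semisimple g H hHg (ad_semisimple hHt)) a γ
      (fun j hj x hx hx' hx'' => Subtype.ext (hst j (by omega) x x.2 hx (congrArg Subtype.val hx')
        fun z hz => hx'' ⟨z, hz⟩))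
      ⟨y, hyg⟩ (Subtype.ext hy) fun j hj z hz => hperp z z.2 (GW_le_FW hj hz)
    have hle : (⨆ (j : ℤ) (_ : d - a < j), (GW k p w j).comap ι) ≤ (FW k p w b).comap ι :=
      iSup₂_le fun j hj => Submodule.comap_mono (GW_le_FW (by omega))
    exact hle h
  obtain ⟨d₁, hd₁⟩ : ∃ d₁ : ℤ, d₁ = (d + 1) / 2 := ⟨_, rfl⟩
  have e1 : 1 ≤ d₁ := by omega
  have e2 : d ≤ 2 * d₁ := by omega
  have e3 : 2 * d₁ ≤ d + 1 := by omega
  have e4 : d + 1 ≤ 3 * d₁ := by omega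
  refine fails_W hp g hcl hz χ H H hHg hHg (FW k p w 0) (FW k p w d₁) (FW k p w (d + 1 - d₁))
    (FW k p w (d + 1)) (FW_anti (by omega)) (FW_anti (by omega)) (FW_anti (by omega))
    (fun x _ hx y _ hy => FW_anti (by omega) (lie_mem_FW hx hy))
    (fun x _ hx y _ hy => FW_anti (by omega) (lie_mem_FW hx hy))
    (fun x _ hx y _ hy => FW_anti (by omega) (lie_mem_FW hx hy))
    (fun x _ hx y _ hy => FW_anti (by omega) (lie_mem_FW hx hy))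
    (fun x _ hx y _ hy => FW_anti (by omega) (lie_mem_FW hx hy))
    (GW_le_FW le_rfl hH) (ad_semisimple hHt) (GW_le_FW le_rfl hH) hHt (fun _ _ h => h) hχH hχH
    (fun x _ hx => hχ' x hx) ?_ ?_ ?_ hS1 hS3 ?_ v (F k p w (e + 1)) ?_ hHv ?_ ?_ ?_
  · intro γ hγ
    exact perp d₁ (d + 1 - d₁) γ (by omega) fun _ _ x hx _ => hS1 γ hγ x hx
  · intro γ hγ
    exact perp (d + 1 - d₁) d₁ γ (by omega) fun _ _ x hx _ => hS1 γ hγ x hx
  · intro y hy hy'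
    exact perp (d + 1) 0 0 (by omega) (fun j hj x hx hx' _ => hS2 j hj x hx hx') y hy
      (by rw [hy', zero_smul])
  · intro y _ hy
    refine W_ext fun i => ?_
    have h1 := mem_FW.1 (ppow_mem_FW hy) i
    have h2 : (p : ℤ) * d ≤ p * (2 * d₁) := mul_le_mul_of_nonneg_left e2 (Int.natCast_nonneg p)
    have h3 := hw i
    exact eq_zero_of_F_top hw (by nlinarith) h1
  · intro h
    exact hv' (eq_zero_of_G_F hv h (by omega))
  · intro y _ hy f hf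
    exact F_anti (by omega) (FW_apply hy hf)
  · intro y _ hy
    exact F_anti (by omega) (FW_apply hy (G_le_F le_rfl hv))
  · intro y _ hy hy'
    refine huniq (y v) (F_anti (by omega) (FW_apply hy (G_le_F le_rfl hv))) ?_
    have h1 : ⁅H, y⁆ v = 0 := by rw [hy']; rfl
    rwa [Derivation.commutator_apply, hHv, sub_eq_zero] at h1

end Pool.Agent.Cart
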