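import Pool.Agent.P.MP_c9b50d_al.C.OW

/-! Frames of commuting derivations. -/

namespace Pool.Agent.Cart

open Module

set_option linter.unusedSectionVars false

variable {k : Type*} [Field k] {p : ℕ} {σ : Type} [Fact p.Prime] [CharP k p] [Fintype σ]

variable (k p σ) in
/-- A basis of commuting derivations with an invariant integral. -/
structure Frame [DecidableEq σ] where
  Δ : σ → W k p σ
  co : σ → W k p σ →ₗ[O k p σ] O k p σ
  u : O k p σ
  unit : IsUnit u
  exp : ∀ D, D = ∑ i, co i D • Δ i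
  co_Δ : ∀ i j, co i (Δ j) = if i = j then 1 else 0
  comm : ∀ i j, ⁅Δ i, Δ j⁆ = 0
  inv : ∀ i f, I k p σ (u * Δ i f) = 0

variable [DecidableEq σ]

variable (k p σ) in
/-- the standard frame -/
noncomputable def stdFrame : Frame k p σ where
  Δ := pd k p
  co i := ⟨⟨fun D => D (x k p i), fun _ _ => rfl⟩, fun _ _ => rfl⟩
  u := 1
  unit := isUnit_one
  exp := W_exp
  co_Δ i j := pd_x j i
  comm := pd_comm
  inv i f := by rw [one_mul, I_pd]

/-- `1 + x_i` for `i ∈ S` and `1` otherwise -/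
noncomputable def lg (k : Type*) [Field k] (p : ℕ) (S : Finset σ) (i : σ) : O k p σ :=
  if i ∈ S then 1 + x k p i else 1

omit [Fintype σ] in
theorem lg_mul_pow (S : Finset σ) (i : σ) : lg k p S i * lg k p S i ^ (p - 1) = 1 := by
  rw [← pow_succ', Nat.sub_add_cancel (Fact.out : p.Prime).one_le, pow_char, lg]
  split_ifs <;> simp [ev_x]

theorem log_unit (S : Finset σ) : IsUnit (∏ i, lg k p S i ^ (p - 1)) := by
  exact IsUnit.prod_univ_iff.2 fun i => IsUnit.of_mul_eq_one_right _ (lg_mul_pow S i)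

theorem log_exp (S : Finset σ) (D : W k p σ) :
    D = ∑ i, (lg k p S i ^ (p - 1) * D (x k p i)) • lg k p S i • pd k p i := by
  conv_lhs => rw [W_exp D]
  refine Finset.sum_congr rfl fun i _ => ?_
  rw [smul_smul, mul_right_comm, mul_comm _ (lg k p S i), lg_mul_pow, one_mul]

omit [Fintype σ] in
theorem log_co (S : Finset σ) (i j : σ) :
    lg k p S i ^ (p - 1) * (lg k p S j • pd k p j) (x k p i) = if i = j then 1 else 0 := by
  rw [Derivation.smul_apply, pd_x]
  split_ifs with h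
  · rw [h, smul_eq_mul, mul_one, mul_comm, lg_mul_pow]
  · simp

omit [Fintype σ] [Fact p.Prime] in
theorem pd_lg (S : Finset σ) {i j : σ} (h : j ≠ i) : pd k p i (lg k p S j) = 0 := by
  rw [lg]
  split_ifs <;> simp [pd_x_ne h]

omit [Fintype σ] in
theorem log_comm (S : Finset σ) (i j : σ) :
    ⁅lg k p S i • pd k p i, lg k p S j • pd k p j⁆ = 0 := by
  by_cases h : i = j
  · rw [h, lie_self]
  · rw [lie_smul_W, smul_lie_W, pd_comm, Derivation.smul_apply, pd_lg S h, pd_lg S (Ne.symm h)]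
    simp

theorem log_inv (S : Finset σ) (i : σ) (f : O k p σ) :
    I k p σ ((∏ i, lg k p S i ^ (p - 1)) * (lg k p S i • pd k p i) f) = 0 := by
  have h : pd k p i (∏ j ∈ Finset.univ.erase i, lg k p S j ^ (p - 1)) = 0 :=
    Finset.prod_induction _ (pd k p i · = 0) (fun a b ha hb => by simp [ha, hb]) (by simp)
      fun j hj => by simp [Derivation.leibniz_pow, pd_lg S (Finset.ne_of_mem_erase hj)]
  rw [← Finset.mul_prod_erase _ _ (Finset.mem_univ i), Derivation.smul_apply, smul_eq_mul,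
    mul_mul_mul_comm, mul_comm _ (lg k p S i), lg_mul_pow, one_mul, I_mul_pd, h]
  simp

variable (k p) in
/-- the frame which is logarithmic along the variables in `S` -/
noncomputable def logFrame (S : Finset σ) : Frame k p σ where
  Δ i := lg k p S i • pd k p i
  co i := ⟨⟨fun D => lg k p S i ^ (p - 1) * D (x k p i), fun _ _ => mul_add _ _ _⟩,
    fun _ _ => mul_left_comm _ _ _⟩
  u := ∏ i, lg k p S i ^ (p - 1)
  unit := log_unit S
  exp := log_exp S
  co_Δ := log_co S
  comm := log_comm S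
  inv := log_inv S

theorem ppow_log (S : Finset σ) {i : σ} (hi : i ∈ S) :
    ppow ((logFrame k p S).Δ i) = (logFrame k p S).Δ i := by
  have h0 : ∀ j, (logFrame k p S).Δ i (x k p j) = if j = i then lg k p S i else 0 := fun j => by
    show (lg k p S i • pd k p i) (x k p j) = _
    rw [Derivation.smul_apply, pd_x]
    simp
  have h1 : (logFrame k p S).Δ i (lg k p S i) = lg k p S i := by
    conv_lhs => rw [lg, if_pos hi]
    rw [map_add, h0]
    simp
  refine W_ext fun j => ?_
  by_cases h : j = i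
  · have h2 : ∀ n, ((logFrame k p S).Δ i)^[n + 1] (x k p j) = lg k p S i := fun n => by
      rw [Function.iterate_succ_apply, h0, if_pos h, Function.iterate_fixed h1]
    rw [ppow_apply, h0, if_pos h, ← h2 (p - 1), Nat.sub_add_cancel (Fact.out : p.Prime).one_le]
  · rw [ppow_apply_eq_zero, h0, if_neg h]
    rw [h0, if_neg h]

omit [Fact p.Prime] [CharP k p] in
theorem lg_mem_G (S : Finset σ) {w : σ → ℤ} (hw : ∀ i ∈ S, w i = 0) (i : σ) :
    lg k p S i ∈ G k p w 0 := by
  rw [lg]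
  split_ifs with h
  · exact add_mem one_mem_G (hw i h ▸ x_mem_G i)
  · exact one_mem_G

theorem log_mem_GW (S : Finset σ) {w : σ → ℤ} (hw : ∀ i ∈ S, w i = 0) (i : σ) :
    (logFrame k p S).Δ i ∈ GW k p w (-w i) := by
  exact zero_add (-w i) ▸ smul_mem_GW (lg_mem_G S hw i) (pd_mem_GW i)

theorem log_u_mem_G (S : Finset σ) {w : σ → ℤ} (hw : ∀ i ∈ S, w i = 0) :
    (logFrame k p S).u ∈ G k p w 0 := by
  refine Finset.prod_induction _ (· ∈ G k p w 0) (fun a b ha hb => ?_) one_mem_G fun i _ => ?_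
  · simpa using mul_mem_G ha hb
  · simpa using pow_mem_G (lg_mem_G S hw i) (p - 1)

theorem log_co_mem_G (S : Finset σ) {w : σ → ℤ} (hw : ∀ i ∈ S, w i = 0) (i : σ) {j : ℤ}
    {D : W k p σ} (hD : D ∈ GW k p w j) : (logFrame k p S).co i D ∈ G k p w (j + w i) := by
  have := mul_mem_G (pow_mem_G (lg_mem_G S hw i) (p - 1)) (hD i)
  rwa [mul_zero, zero_add] at this

namespace Frame

variable (fr : Frame k p σ)

/-- the invariant integral -/
noncomputable def J : O k p σ →ₗ[k] k := I k p σ ∘ₗ LinearMap.mulLeft k fr.u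

/-- the divergence -/
noncomputable def div (D : W k p σ) : O k p σ := ∑ i, fr.Δ i (fr.co i D)

/-- the derivation `D_{ij}(f)` -/
noncomputable def dd (i j : σ) (f : O k p σ) : W k p σ := fr.Δ j f • fr.Δ i - fr.Δ i f • fr.Δ j

theorem J_apply (f : O k p σ) : fr.J f = I k p σ (fr.u * f) := rfl

theorem apply_eq (D : W k p σ) (f : O k p σ) : D f = ∑ i, fr.co i D * fr.Δ i f := by
  conv_lhs => rw [fr.exp D]
  simp [W_sum_apply]

theorem ext_co {D E : W k p σ} (h : ∀ i, fr.co i D = fr.co i E) : D = E := by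
  rw [fr.exp D, fr.exp E]
  exact Finset.sum_congr rfl fun i _ => by rw [h]

theorem co_sum (a : σ → O k p σ) (j : σ) : fr.co j (∑ i, a i • fr.Δ i) = a j := by
  simp [map_sum, fr.co_Δ]

theorem Δ_Δ (i j : σ) (f : O k p σ) : fr.Δ i (fr.Δ j f) = fr.Δ j (fr.Δ i f) := by
  rw [← sub_eq_zero, ← Derivation.commutator_apply, fr.comm, Derivation.zero_apply]

theorem co_lie (i : σ) (D E : W k p σ) :
    fr.co i ⁅D, E⁆ = D (fr.co i E) - E (fr.co i D) := by
  have h1 : ∀ (j : σ) (D : W k p σ), fr.co i ⁅D, fr.Δ j⁆ = -fr.Δ j (fr.co i D) := by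
    intro j D
    conv_lhs => rw [fr.exp D, sum_lie]
    simp [smul_lie_W, fr.comm, fr.co_Δ]
  conv_lhs => rw [fr.exp E, lie_sum]
  rw [fr.apply_eq E]
  simp [h1, fr.co_Δ, Finset.sum_add_distrib, sub_eq_add_neg, add_comm]

theorem J_Δ (i : σ) (f : O k p σ) : fr.J (fr.Δ i f) = 0 := fr.inv i f

theorem J_nondeg {f : O k p σ} (h : ∀ g, fr.J (f * g) = 0) : f = 0 := by
  refine fr.unit.mul_right_eq_zero.1 (I_nondeg fun g => ?_)
  rw [mul_assoc]
  exact h g

theorem J_der (D : W k p σ) (f : O k p σ) : fr.J (D f) = -fr.J (fr.div D * f) := by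
  rw [fr.apply_eq D, div, Finset.sum_mul, map_sum, map_sum, ← Finset.sum_neg_distrib]
  refine Finset.sum_congr rfl fun i _ => ?_
  have := fr.J_Δ i (fr.co i D * f)
  rw [Derivation.leibniz, map_add, smul_eq_mul, smul_eq_mul, mul_comm f] at this
  exact eq_neg_of_add_eq_zero_left this

theorem div_add (D E : W k p σ) : fr.div (D + E) = fr.div D + fr.div E := by
  simp [div, Finset.sum_add_distrib]

theorem div_sub (D E : W k p σ) : fr.div (D - E) = fr.div D - fr.div E := by
  simp [div, Finset.sum_sub_distrib]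

theorem div_sum {T : Type*} (s : Finset T) (D : T → W k p σ) :
    fr.div (∑ t ∈ s, D t) = ∑ t ∈ s, fr.div (D t) := by
  simp only [div, map_sum]
  exact Finset.sum_comm

theorem div_smul (f : O k p σ) (D : W k p σ) : fr.div (f • D) = D f + f * fr.div D := by
  rw [fr.apply_eq D, add_comm]
  simp [div, Finset.sum_add_distrib, Finset.mul_sum]

theorem div_ksmul (c : k) (D : W k p σ) : fr.div (c • D) = c • fr.div D := by
  rw [← algebraMap_smul (O k p σ) c D, div_smul, Algebra.smul_def]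
  simp

theorem div_Δ (i : σ) : fr.div (fr.Δ i) = 0 := by
  refine Finset.sum_eq_zero fun j _ => ?_
  rw [fr.co_Δ]
  split_ifs <;> simp

theorem div_lie (D E : W k p σ) : fr.div ⁅D, E⁆ = D (fr.div E) - E (fr.div D) := by
  rw [← sub_eq_zero]
  refine fr.J_nondeg fun g => ?_
  have h1 := fr.J_der ⁅D, E⁆ g
  have h2 := fr.J_der D (E g)
  have h3 := fr.J_der E (D g)
  have h4 := fr.J_der D (fr.div E * g)
  have h5 := fr.J_der E (fr.div D * g)
  rw [Derivation.commutator_apply, map_sub] at h1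
  rw [Derivation.leibniz, map_add, smul_eq_mul, smul_eq_mul, mul_comm g] at h4 h5
  rw [mul_left_comm] at h5
  rw [sub_mul, sub_mul, map_sub, map_sub]
  linear_combination h1 - h2 + h3 - h4 + h5

theorem div_dd (i j : σ) (f : O k p σ) : fr.div (fr.dd i j f) = 0 := by
  rw [dd, div_sub, div_smul, div_smul, div_Δ, div_Δ, fr.Δ_Δ]
  simp

theorem div_eq (fr' : Frame k p σ) (h : fr.u = fr'.u) (D : W k p σ) : fr.div D = fr'.div D := by
  rw [← sub_eq_zero]
  refine fr.J_nondeg fun g => ?_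
  have h1 := fr.J_der D g
  have h2 := fr'.J_der D g
  rw [J_apply, J_apply, ← h, ← J_apply, ← J_apply] at h2
  rw [sub_mul, map_sub]
  linear_combination h1 - h2

theorem lie_Δ_dd (l i j : σ) (f : O k p σ) : ⁅fr.Δ l, fr.dd i j f⁆ = fr.dd i j (fr.Δ l f) := by
  rw [dd, dd, lie_sub, lie_smul_W, lie_smul_W, fr.comm, fr.comm, fr.Δ_Δ l j, fr.Δ_Δ l i]
  simp

/-- the key identity -/
theorem key (D E : W k p σ) : ⁅D, E⁆ + fr.div D • E - fr.div E • D =
    ∑ i, ∑ j, fr.Δ j (fr.co j D * fr.co i E - fr.co i D * fr.co j E) • fr.Δ i := by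
  refine fr.ext_co fun i => ?_
  simp only [← Finset.sum_smul]
  rw [fr.co_sum, map_sub, map_add, co_lie, fr.apply_eq D, fr.apply_eq E, map_smul, map_smul, div,
    div]
  simp only [map_sub, Derivation.leibniz, smul_eq_mul, Finset.sum_sub_distrib,
    Finset.sum_add_distrib, ← Finset.mul_sum]
  ring

theorem key' (D E : W k p σ) : ⁅D, E⁆ + fr.div D • E - fr.div E • D =
    ∑ i, ∑ j, fr.dd i j (fr.co j D * fr.co i E) := by
  rw [key]
  simp only [dd, map_sub, sub_smul, Finset.sum_sub_distrib]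
  rw [Finset.sum_comm (f := fun i j => fr.Δ i (fr.co j D * fr.co i E) • fr.Δ j)]

theorem const {f : O k p σ} (h : ∀ i, fr.Δ i f = 0) : f = algebraMap k _ (ev k p σ f) := by
  exact const_of_pd fun i => by simp [fr.apply_eq (pd k p i), h]

theorem ker_J {f : O k p σ} (h : fr.J f = 0) : ∃ g : σ → O k p σ, f = ∑ i, fr.Δ i (g i) := by
  obtain ⟨v, hv⟩ := fr.unit.exists_left_inv
  obtain ⟨g, hg⟩ := ker_I (f := fr.u * f) h
  have h1 : ∀ i, fr.div (v • pd k p i) = 0 := fun i => fr.J_nondeg fun a => by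
    rw [← neg_eq_zero, ← J_der, J_apply, Derivation.smul_apply, smul_eq_mul, ← mul_assoc,
      mul_comm fr.u, hv, one_mul, I_pd]
  refine ⟨fun j => fr.co j (∑ i, g i • v • pd k p i), ?_⟩
  show f = fr.div _
  simp only [div_sum, div_smul, h1, mul_zero, add_zero, Derivation.smul_apply, smul_eq_mul]
  rw [← Finset.mul_sum, ← hg, ← mul_assoc, hv, one_mul]

theorem mem_F_of_perp {w : σ → ℤ} (hu : fr.u ∈ G k p w 0) {i : ℤ} {f : O k p σ}
    (h : ∀ g ∈ F k p w i, fr.J g = 0 → fr.J (f * g) = 0) :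
    f - algebraMap k _ (ev k p σ f) ∈ F k p w (topw p w + 1 - i) := by
  have hv : fr.u * fr.u ^ (p - 1) = algebraMap k _ (ev k p σ fr.u ^ p) := by
    rw [← pow_succ', Nat.sub_add_cancel (Fact.out : p.Prime).one_le, pow_char]
  have hc : ev k p σ fr.u ^ p ≠ 0 := pow_ne_zero _ (fr.unit.map (ev k p σ)).ne_zero
  have hJ : ∀ g, fr.J (fr.u ^ (p - 1) * g) = ev k p σ fr.u ^ p * I k p σ g := fun g => by
    rw [J_apply, ← mul_assoc, hv, ← Algebra.smul_def, map_smul, smul_eq_mul]
  refine mem_F_of_perp' fun g hg h0 => ?_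
  have h1 := h (fr.u ^ (p - 1) * g)
    (by simpa using mul_mem_F (G_le_F le_rfl (pow_mem_G hu (p - 1))) hg) (by rw [hJ, h0, mul_zero])
  rw [mul_left_comm, hJ] at h1
  exact (mul_eq_zero.1 h1).resolve_left hc

end Frame

end Pool.Agent.Cart
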