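import Pool.Agent.P.MP_c9b50d_al.C.Defs
import Pool.Agent.P.MP_bf0464_al.H.JacA

/-! General facts in characteristic `p`: powers of commutators, toral operators, transport. -/

namespace Pool.Agent.Cart

open Module

attribute [local instance 100] LieRing.ofAssociativeRing

theorem sub_pow_of_commute {R A : Type*} [CommRing R] [Ring A] [Algebra R A] {p : ℕ}
    (hp : p.Prime) (h0 : (p : R) = 0) {a b : A} (h : Commute a b) :
    (a - b) ^ p = a ^ p - b ^ p := by
  obtain ⟨r, hr⟩ := Commute.exists_add_pow_prime_eq hp (h.sub_left (Commute.refl b))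
  have h1 : (p : A) = 0 := by rw [← map_natCast (algebraMap R A), h0, map_zero]
  rw [sub_add_cancel, h1, zero_mul, zero_mul, zero_mul, add_zero] at hr
  rw [hr, add_sub_cancel_right]

theorem add_pow_of_commute {R A : Type*} [CommRing R] [Ring A] [Algebra R A] {p : ℕ}
    (hp : p.Prime) (h0 : (p : R) = 0) {a b : A} (h : Commute a b) :
    (a + b) ^ p = a ^ p + b ^ p := by
  obtain ⟨r, hr⟩ := Commute.exists_add_pow_prime_eq hp h
  have h1 : (p : A) = 0 := by rw [← map_natCast (algebraMap R A), h0, map_zero]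
  rw [hr, h1, zero_mul, zero_mul, zero_mul, add_zero]

/-- `(L_a - R_a)^p = L_{a^p} - R_{a^p}`. -/
theorem mul_sub_pow {R A : Type*} [CommRing R] [Ring A] [Algebra R A] {p : ℕ} (hp : p.Prime)
    (h0 : (p : R) = 0) (a b : A) :
    ((LinearMap.mulLeft R a - LinearMap.mulRight R a) ^ p) b = a ^ p * b - b * a ^ p := by
  rw [sub_pow_of_commute hp h0 (LinearMap.commute_mulLeft_right a a), LinearMap.pow_mulLeft,
    LinearMap.pow_mulRight]
  rfl

/-- The image of `ad(a)^p b` under a representation. -/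
theorem map_ad_pow {R L A : Type*} [CommRing R] [LieRing L] [LieAlgebra R L] [Ring A]
    [Algebra R A] {p : ℕ} (hp : p.Prime) (h0 : (p : R) = 0) (f : L →ₗ⁅R⁆ A) (a b : L) :
    f ((LieAlgebra.ad R L a ^ p) b) = f a ^ p * f b - f b * f a ^ p := by
  rw [← mul_sub_pow hp h0]
  generalize p = n
  induction n with
  | zero => rfl
  | succ n ih =>
    rw [pow_succ', pow_succ', End.mul_apply, End.mul_apply, ← ih, LieAlgebra.ad_apply,
      LieHom.map_lie]
    rfl

section Tor
variable {k M : Type*} [Field k] {p : ℕ} [Fact p.Prime] [CharP k p] [AddCommGroup M] [Module k M]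
  {A B C : End k M}

theorem end_add_pow (h : Commute A B) : (A + B) ^ p = A ^ p + B ^ p :=
  add_pow_of_commute Fact.out (CharP.cast_eq_zero k p) h

theorem tor_add (hA : A ^ p = A) (hB : B ^ p = B) (h : Commute A B) : (A + B) ^ p = A + B := by
  rw [end_add_pow h, hA, hB]

omit [Fact p.Prime] [CharP k p] in
theorem tor_smul (hA : A ^ p = A) {c : k} (hc : c ^ p = c) : (c • A) ^ p = c • A := by
  rw [smul_pow, hA, hc]

omit [CharP k p] in
theorem pow_apply_of_sq {f : M} (h : A (A f) = 0) : (A ^ p) f = 0 := by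
  obtain ⟨n, hn⟩ : ∃ n, p = n + 1 + 1 := ⟨p - 2, by have := (Fact.out : p.Prime).two_le; omega⟩
  rw [hn, pow_succ, pow_succ, End.mul_apply, End.mul_apply, h, map_zero]

omit [CharP k p] in
theorem pow_apply_of_zero {f : M} (h : A f = 0) : (A ^ p) f = 0 :=
  pow_apply_of_sq (by rw [h, map_zero])

omit [CharP k p] in
/-- a toral operator which is nilpotent on `f` kills `f` -/
theorem tor_sq (hA : A ^ p = A) {f : M} (h : A (A f) = 0) : A f = 0 := by
  rw [← hA]
  exact pow_apply_of_sq h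

theorem frob_ne {μ : k} (hμ : μ ^ p ≠ μ) : (μ ^ p) ^ p ≠ μ ^ p := by
  intro h
  have : (μ ^ p - μ) ^ p = 0 := by rw [sub_pow_char, h, sub_self]
  exact hμ (sub_eq_zero.1 (pow_eq_zero_iff (Fact.out : p.Prime).ne_zero |>.1 this))

theorem tor_ker₁ (hA : A ^ p = A) (hB : B ^ p = B) (h : Commute A B) {μ : k} (hμ : μ ^ p ≠ μ)
    {f : M} (hf : (A + μ • B) f = 0) : A f = 0 ∧ B f = 0 := by
  have h1 := pow_apply_of_zero (p := p) hf
  rw [end_add_pow (h.smul_right μ), smul_pow, hA, hB] at h1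
  simp only [LinearMap.add_apply, LinearMap.smul_apply] at hf h1
  have h2 : (μ ^ p - μ) • B f = 0 := by
    rw [sub_smul]
    linear_combination (norm := module) h1 - hf
  have h3 : B f = 0 := (smul_eq_zero.1 h2).resolve_left (sub_ne_zero.2 hμ)
  rw [h3, smul_zero, add_zero] at hf
  exact ⟨hf, h3⟩

theorem tor_ker (hA : A ^ p = A) (hB : B ^ p = B) (h : Commute A B) {μ : k} (hμ : μ ^ p ≠ μ)
    {f : M} (hf : (A + μ • B) ((A + μ • B) f) = 0) : A f = 0 ∧ B f = 0 := by
  have h1 := pow_apply_of_sq (p := p) hf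
  rw [end_add_pow (h.smul_right μ), smul_pow, hA, hB] at h1
  exact tor_ker₁ hA hB h (frob_ne hμ) h1

theorem tor_ker₃ (hA : A ^ p = A) (hB : B ^ p = B) (hC : C ^ p = C) (hAB : Commute A B)
    (hAC : Commute A C) (hBC : Commute B C) {κ ν ρ : k} (hκ : κ ^ p ≠ κ) (hρ : ρ ^ p ≠ ρ)
    (hν : ν ^ p - ν = ρ * (κ ^ p - κ)) {f : M}
    (hf : (A + κ • B + ν • C) ((A + κ • B + ν • C) f) = 0) :
    A f = 0 ∧ B f = 0 ∧ C f = 0 := by
  have key : ∀ a b : k, (A + a • B + b • C) ^ p = A + a ^ p • B + b ^ p • C := fun a b => by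
    rw [end_add_pow ((hAC.add_left (hBC.smul_left a)).smul_right b),
      end_add_pow (hAB.smul_right a), smul_pow, smul_pow, hA, hB, hC]
  have h1 := pow_apply_of_sq (p := p) hf
  rw [key] at h1
  have h2 := pow_apply_of_zero (p := p) h1
  rw [key] at h2
  have h3 : (ν ^ p) ^ p - ν ^ p = ρ ^ p * ((κ ^ p) ^ p - κ ^ p) := by
    rw [← sub_pow_char, hν, mul_pow, sub_pow_char]
  simp only [LinearMap.add_apply, LinearMap.smul_apply] at h1 h2
  have h4 : ((κ ^ p) ^ p - κ ^ p) • (B + ρ ^ p • C) f = 0 := by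
    simp only [LinearMap.add_apply, LinearMap.smul_apply, smul_add, smul_smul]
    rw [mul_comm, ← h3, sub_smul, sub_smul]
    linear_combination (norm := module) h2 - h1
  obtain ⟨h5, h6⟩ := tor_ker₁ hB hC hBC (frob_ne hρ)
    ((smul_eq_zero.1 h4).resolve_left (sub_ne_zero.2 (frob_ne hκ)))
  rw [h5, h6, smul_zero, smul_zero, add_zero, add_zero] at h1
  exact ⟨h1, h5, h6⟩

omit [Fact p.Prime] in
theorem tor_semisimple (hA : A ^ p = A) : A.IsSemisimple := by
  refine End.isSemisimple_of_squarefree_aeval_eq_zero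
    (p := Polynomial.X ^ p - Polynomial.X) ?_ (by simp [hA])
  have := galois_poly_separable (K := k) p p dvd_rfl
  exact this.squarefree

/-- a functional which is invariant under a toral operator -/
theorem exists_inv_dual (hA : A ^ p = A) (N : Submodule k M) (hN : ∀ f ∈ N, A f ∈ N) {v : M}
    (hv : A v = v) (hv' : v ∉ N) :
    ∃ l : Dual k M, l v = 1 ∧ (∀ f ∈ N, l f = 0) ∧ ∀ f, l (A f) = l f := by
  obtain ⟨n, hn⟩ : ∃ n, p = n + 1 + 1 := ⟨p - 2, by have := (Fact.out : p.Prime).two_le; omega⟩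
  have h1 : (A - 1) ^ p = A - 1 := by
    rw [sub_pow_of_commute Fact.out (CharP.cast_eq_zero k p) (Commute.one_right A), hA, one_pow]
  have h2 : ∀ j : ℕ, ∀ f ∈ N, ((A - 1) ^ j) f ∈ N := by
    intro j
    induction j with
    | zero => exact fun f hf => hf
    | succ j ih =>
      intro f hf
      rw [pow_succ, End.mul_apply]
      exact ih _ (sub_mem (hN f hf) hf)
  have h3 : v ∉ N ⊔ LinearMap.range (A - 1) := by
    intro h
    obtain ⟨a, ha, _, ⟨b, rfl⟩, e⟩ := Submodule.mem_sup.1 h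
    have h4 : ((A - 1) ^ (n + 1)) v = 0 := by
      rw [pow_succ, End.mul_apply, LinearMap.sub_apply, hv]
      simp
    have h5 : ((A - 1) ^ (n + 1)) ((A - 1) b) = (A - 1) b := by
      rw [← End.mul_apply, ← pow_succ, ← hn, h1]
    rw [← e, map_add, h5] at h4
    refine hv' ?_
    rw [← e, eq_neg_of_add_eq_zero_right h4]
    exact add_mem ha (neg_mem (h2 _ _ ha))
  obtain ⟨l, hl, hl'⟩ := Submodule.exists_dual_map_eq_bot_of_notMem h3 inferInstance
  have h6 : ∀ f ∈ N ⊔ LinearMap.range (A - 1), l f = 0 := fun f hf => by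
    have := Submodule.mem_map_of_mem (f := l) hf
    rwa [hl', Submodule.mem_bot] at this
  refine ⟨(l v)⁻¹ • l, by simp [hl], fun f hf => by simp [h6 f (Submodule.mem_sup_left hf)],
    fun f => ?_⟩
  have := h6 _ (Submodule.mem_sup_right ⟨f, rfl⟩)
  rw [LinearMap.sub_apply, map_sub, sub_eq_zero] at this
  simp [this]

omit [CharP k p] in
theorem finite_fixed : {μ : k | μ ^ p = μ}.Finite := by
  have h : (Polynomial.X ^ p - Polynomial.X : Polynomial k) ≠ 0 :=
    FiniteField.X_pow_card_sub_X_ne_zero k (Fact.out : p.Prime).one_lt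
  refine (Polynomial.finite_setOfPred_isRoot h).subset fun μ hμ => ?_
  simpa [sub_eq_zero] using hμ

omit [CharP k p] in
theorem exists_not_fixed [IsAlgClosed k] : ∃ μ : k, μ ^ p ≠ μ :=
  (finite_fixed (k := k) (p := p)).exists_notMem

end Tor

section Lie
variable {k L : Type*} [Field k] {p : ℕ} [Fact p.Prime] [CharP k p] [LieRing L] [LieAlgebra k L]

/-- A `p`-character relation which holds on a basis holds everywhere (Jacobson). -/
theorem pow_all {B I : Type*} [Ring B] [Algebra k B]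
    (hz : ∀ a : L, (∀ b : L, ⁅a, b⁆ = 0) → a = 0) (e : Basis I k L) (P : I → L)
    (hP : ∀ i, LieAlgebra.ad k L (P i) = LieAlgebra.ad k L (e i) ^ p) (r : L →ₗ⁅k⁆ B)
    (χ : Dual k L) (h : ∀ i, r (e i) ^ p = r (P i) + algebraMap k B (χ (e i) ^ p)) (a b : L)
    (hab : LieAlgebra.ad k L b = LieAlgebra.ad k L a ^ p) :
    r a ^ p = r b + algebraMap k B (χ a ^ p) := by
  have hp0 : p ≠ 0 := (Fact.out : p.Prime).ne_zero
  have key : ∀ a ∈ Submodule.span k (Set.range e), ∃ b, LieAlgebra.ad k L b =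
      LieAlgebra.ad k L a ^ p ∧ r a ^ p = r b + algebraMap k B (χ a ^ p) := by
    intro a ha
    induction ha using Submodule.span_induction with
    | mem a ha =>
      obtain ⟨i, rfl⟩ := ha
      exact ⟨P i, hP i, h i⟩
    | zero => exact ⟨0, by simp [hp0], by simp [hp0]⟩
    | add a a' _ _ ha ha' =>
      obtain ⟨b, hb, hb'⟩ := ha
      obtain ⟨c, hc, hc'⟩ := ha'
      let t : L →ₗ[k] B × End k L :=
        (r : L →ₗ[k] B).prod (LieAlgebra.ad k L : L →ₗ[k] End k L)
      have ht : ∀ u v, t u * t v - t v * t u = t ⁅u, v⁆ := fun u v =>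
        Prod.ext (r.map_lie u v).symm ((LieAlgebra.ad k L).map_lie u v).symm
      obtain ⟨d, hd⟩ := Pool.Agent.P.Bf04.jacobson p (t a) (t a') (LinearMap.range t)
        ⟨_, (ht _ _).symm⟩
        (by rintro _ ⟨u, rfl⟩; exact ⟨_, (ht _ _).symm⟩)
        (by rintro _ ⟨u, rfl⟩; exact ⟨_, (ht _ _).symm⟩)
      have h1 : r d = (r a + r a') ^ p - r a ^ p - r a' ^ p := congrArg Prod.fst hd
      have h2 : LieAlgebra.ad k L d = (LieAlgebra.ad k L a + LieAlgebra.ad k L a') ^ p -
        LieAlgebra.ad k L a ^ p - LieAlgebra.ad k L a' ^ p := congrArg Prod.snd hd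
      refine ⟨b + c + d, ?_, ?_⟩
      · rw [map_add, map_add, map_add, hb, hc, h2]
        abel
      · rw [map_add, map_add, map_add, map_add, add_pow_char, map_add, h1, hb', hc']
        abel
    | smul c a _ ha =>
      obtain ⟨b, hb, hb'⟩ := ha
      refine ⟨c ^ p • b, by rw [map_smul, map_smul, smul_pow, hb], ?_⟩
      rw [map_smul, map_smul, map_smul, smul_pow, hb', smul_add, smul_eq_mul, mul_pow, map_mul,
        Algebra.smul_def (c ^ p) (algebraMap k B _)]
  obtain ⟨b', h1, h2⟩ := key a (e.span_eq ▸ Submodule.mem_top)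
  have : b' - b = 0 := hz _ fun u => by
    rw [← LieAlgebra.ad_apply k, map_sub, h1, hab, sub_self, LinearMap.zero_apply]
  rwa [sub_eq_zero.1 this] at h2

/-- If the `p`-th powers of a spanning set lie in a subspace containing all brackets, then so do
all `p`-th powers (Jacobson). -/
theorem pow_mem_of_span {B : Type*} [Ring B] [Algebra k B] (r : L →ₗ⁅k⁆ B) (g : LieSubalgebra k L)
    (V : Submodule k L) (hV : ∀ a ∈ V, a ∈ g) (hgV : ∀ a ∈ g, ∀ b ∈ g, ⁅a, b⁆ ∈ V)
    (s : Set L) (hs : s ⊆ g) (h : ∀ a ∈ s, ∃ b ∈ V, r b = r a ^ p) :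
    ∀ a ∈ Submodule.span k s, ∃ b ∈ V, r b = r a ^ p := by
  have hp0 : p ≠ 0 := (Fact.out : p.Prime).ne_zero
  have hg : ∀ a ∈ Submodule.span k s, a ∈ g := fun a ha =>
    (Submodule.span_le (p := g.toSubmodule)).2 hs ha
  intro a ha
  induction ha using Submodule.span_induction with
  | mem a ha => exact h a ha
  | zero => exact ⟨0, zero_mem _, by simp [hp0]⟩
  | add a a' h1 h2 ha ha' =>
    obtain ⟨b, hb, hb'⟩ := ha
    obtain ⟨c, hc, hc'⟩ := ha'
    have ht : ∀ u v, r u * r v - r v * r u = r ⁅u, v⁆ := fun u v => (r.map_lie u v).symm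
    obtain ⟨d, hd, hd'⟩ := P.Bf04.jacobson p (r a) (r a') (V.map (r : L →ₗ[k] B))
      ⟨_, hgV _ (hg _ h1) _ (hg _ h2), (ht _ _).symm⟩
      (by rintro _ ⟨u, hu, rfl⟩; exact ⟨_, hgV _ (hg _ h1) _ (hV _ hu), (ht _ _).symm⟩)
      (by rintro _ ⟨u, hu, rfl⟩; exact ⟨_, hgV _ (hg _ h2) _ (hV _ hu), (ht _ _).symm⟩)
    refine ⟨b + c + d, add_mem (add_mem hb hc) hd, ?_⟩
    have hd'' : r d = (r a + r a') ^ p - r a ^ p - r a' ^ p := hd'
    rw [map_add, map_add, map_add, hb', hc', hd'']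
    abel
  | smul c a _ ha =>
    obtain ⟨b, hb, hb'⟩ := ha
    exact ⟨c ^ p • b, V.smul_mem _ hb, by rw [map_smul, map_smul, smul_pow, hb']⟩

theorem sum_pow_of_commute {B I : Type*} [Ring B] [Algebra k B] (s : Finset I) (a : I → B)
    (h : ∀ i j, Commute (a i) (a j)) : (∑ i ∈ s, a i) ^ p = ∑ i ∈ s, a i ^ p := by
  classical
  induction s using Finset.induction_on with
  | empty => simp [(Fact.out : p.Prime).ne_zero]
  | insert i s hi ih =>
    rw [Finset.sum_insert hi, Finset.sum_insert hi, add_pow_of_commute Fact.out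
      (CharP.cast_eq_zero k p) (Commute.sum_right _ _ _ fun j _ => h i j), ih]

/-- Commuting toral elements of a centreless algebra form a finite set. -/
theorem finite_toral [FiniteDimensional k L] (hz : ∀ a : L, (∀ b : L, ⁅a, b⁆ = 0) → a = 0)
    (T : Set L) (hc : ∀ a ∈ T, ∀ b ∈ T, ⁅a, b⁆ = 0)
    (ht : ∀ a ∈ T, LieAlgebra.ad k L a ^ p = LieAlgebra.ad k L a) : T.Finite := by
  obtain ⟨b, hb, hsp, hli⟩ := exists_linearIndependent k T
  have hfin : b.Finite := hli.setFinite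
  let _ : Fintype b := hfin.fintype
  refine ((Set.Finite.pi' fun _ : b => finite_fixed (k := k) (p := p)).image
    fun c => ∑ i : b, c i • (i : L)).subset fun a ha => ?_
  have h1 : a ∈ Submodule.span k (Set.range fun i : b => (i : L)) := by
    rw [Subtype.range_coe, hsp]
    exact Submodule.subset_span ha
  obtain ⟨c, rfl⟩ := (Submodule.mem_span_range_iff_exists_fun k).1 h1
  refine ⟨c, ?_, rfl⟩
  have h2 := ht _ ha
  rw [map_sum, sum_pow_of_commute (k := k) _ _ fun i j => ?_] at h2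
  · have h3 : ∑ i : b, (c i ^ p - c i) • (i : L) = 0 := hz _ fun u => by
      rw [← LieAlgebra.ad_apply k, map_sum]
      have h4 : ∀ i : b, LieAlgebra.ad k L (i : L) ^ p = LieAlgebra.ad k L (i : L) :=
        fun i => ht i (hb i.2)
      simp only [map_smul, smul_pow, sub_smul, map_sub, Finset.sum_sub_distrib, h4] at h2 ⊢
      rw [h2]
      simp
    exact fun i => sub_eq_zero.1 (Fintype.linearIndependent_iff.1 hli _ h3 i)
  · rw [map_smul, map_smul]
    refine Commute.smul_left (Commute.smul_right ?_ _) _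
    rw [commute_iff_lie_eq, ← LieHom.map_lie, hc _ (hb i.2) _ (hb j.2), map_zero]

omit [Fact p.Prime] [CharP k p] in
/-- the homomorphism of reduced enveloping algebras induced by a restricted homomorphism -/
noncomputable def redMap {L' : Type*} [LieRing L'] [LieAlgebra k L'] (e : L →ₗ⁅k⁆ L')
    {Pw : L → L → Prop} {Pw' : L' → L' → Prop} (h : ∀ a b, Pw a b → Pw' (e a) (e b))
    (χ : Dual k L) (χ' : Dual k L') (hχ : ∀ a, χ' (e a) = χ a) :
    RedEnv p Pw χ →ₐ[k] RedEnv p Pw' χ' :=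
  RingQuot.liftAlgHom k ⟨(RingQuot.mkAlgHom k _).comp (UniversalEnvelopingAlgebra.lift k
    ((UniversalEnvelopingAlgebra.ι k).comp e)), by
      rintro _ _ ⟨a, b, hab, rfl, rfl⟩
      refine RingQuot.mkAlgHom_rel k ⟨e a, e b, h a b hab, ?_, ?_⟩
      · simp
      · simp [hχ]⟩

omit [Fact p.Prime] [CharP k p] in
theorem redMap_ι {L' : Type*} [LieRing L'] [LieAlgebra k L'] (e : L →ₗ⁅k⁆ L')
    {Pw : L → L → Prop} {Pw' : L' → L' → Prop} (h : ∀ a b, Pw a b → Pw' (e a) (e b))
    (χ : Dual k L) (χ' : Dual k L') (hχ : ∀ a, χ' (e a) = χ a) (a : L) :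
    redMap (p := p) e h χ χ' hχ (RingQuot.mkAlgHom k _ (UniversalEnvelopingAlgebra.ι k a)) =
      RingQuot.mkAlgHom k _ (UniversalEnvelopingAlgebra.ι k (e a)) := by
  simp [redMap]

omit [Fact p.Prime] [CharP k p] in
theorem redEnv_ext {B : Type*} [Ring B] [Algebra k B] {Pw : L → L → Prop} {χ : Dual k L}
    {f g : RedEnv p Pw χ →ₐ[k] B}
    (h : ∀ a, f (RingQuot.mkAlgHom k _ (UniversalEnvelopingAlgebra.ι k a)) =
      g (RingQuot.mkAlgHom k _ (UniversalEnvelopingAlgebra.ι k a))) : f = g :=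
  RingQuot.ringQuot_ext' k _ _ (UniversalEnvelopingAlgebra.hom_ext k (LieHom.ext h))

omit [Fact p.Prime] [CharP k p] in
/-- Transport along an isomorphism. -/
theorem Fails.of_equiv {L' : Type*} [LieRing L'] [LieAlgebra k L'] (e : L ≃ₗ⁅k⁆ L')
    {Pw : L → L → Prop} {Pw' : L' → L' → Prop} (h : ∀ a b, Pw a b ↔ Pw' (e a) (e b))
    (hF : Fails k p Pw') : Fails k p Pw := by
  obtain ⟨h1, χ, h2, h3⟩ := hF
  have hiso : ∀ ψ : Dual k L', Nonempty
      (RedEnv p Pw (ψ ∘ₗ (e : L →ₗ⁅k⁆ L').toLinearMap) ≃ₐ[k] RedEnv p Pw' ψ) := fun ψ =>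
    ⟨AlgEquiv.ofAlgHom (redMap e.toLieHom (fun a b => (h a b).1) _ _ fun _ => rfl)
      (redMap e.symm.toLieHom (fun a b hab => (h _ _).2 (by simpa using hab)) _ _
        fun a => congrArg ψ (e.apply_symm_apply a))
      (redEnv_ext fun a => by
        rw [AlgHom.comp_apply, redMap_ι, redMap_ι]
        simp)
      (redEnv_ext fun a => by
        rw [AlgHom.comp_apply, redMap_ι, redMap_ι]
        simp)⟩
  refine ⟨fun a => ?_, fun i => χ i ∘ₗ (e : L →ₗ⁅k⁆ L').toLinearMap, fun i j => ?_,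
    fun i j ⟨φ, hφ⟩ => h3 i j ⟨(e.symm.trans φ).trans e, fun a => ?_⟩⟩
  · obtain ⟨b, hb⟩ := h1 (e a)
    exact ⟨e.symm b, (h _ _).2 (by simpa using hb)⟩
  · obtain ⟨a⟩ := hiso (χ i)
    obtain ⟨b⟩ := hiso (χ j)
    obtain ⟨c⟩ := h2 i j
    exact ⟨(a.trans c).trans b.symm⟩
  · have := hφ (e.symm a)
    simpa using this

end Lie

end Pool.Agent.Cart
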