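import Pool.Agent.P.MP_c9b50d_al.C.FW
import Pool.Agent.P.MP_c9b50d_al.C.Fr

/-! The series H. -/

namespace Pool.Agent.Cart

open Module

namespace SH

variable {k : Type*} [Field k] {p : ℕ} [Fact p.Prime] [CharP k p] {m : ℕ}

/-- the coefficients of a Hamiltonian derivation -/
noncomputable def hc (f : O k p (Fin m ⊕ Fin m)) : Fin m ⊕ Fin m → O k p (Fin m ⊕ Fin m) :=
  Sum.elim (fun i => -pd k p (.inr i) f) fun i => pd k p (.inl i) f

/-- the Hamiltonian derivation of a function -/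
noncomputable def ham : O k p (Fin m ⊕ Fin m) →ₗ[k] W k p (Fin m ⊕ Fin m) where
  toFun f := ∑ j, hc f j • pd k p j
  map_add' f g := W_ext fun j => by
    rw [Derivation.add_apply, sum_smul_pd_x, sum_smul_pd_x, sum_smul_pd_x]
    rcases j with j | j <;> simp [hc, add_comm]
  map_smul' c f := W_ext fun j => by
    rw [Derivation.smul_apply, sum_smul_pd_x, sum_smul_pd_x]
    rcases j with j | j <;> simp [hc]

omit [Fact p.Prime] in
theorem ham_inl (f : O k p (Fin m ⊕ Fin m)) (i : Fin m) :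
    ham f (x k p (.inl i)) = -pd k p (.inr i) f := sum_smul_pd_x (hc f) (.inl i)

omit [Fact p.Prime] in
theorem ham_inr (f : O k p (Fin m ⊕ Fin m)) (i : Fin m) :
    ham f (x k p (.inr i)) = pd k p (.inl i) f := sum_smul_pd_x (hc f) (.inr i)

omit [Fact p.Prime] [CharP k p] in
theorem om_swap (Y Z : W k p (Fin m ⊕ Fin m)) : om Y Z = -om Z Y := by
  simp only [om, ← Finset.sum_neg_distrib, neg_sub]

omit [Fact p.Prime] [CharP k p] in
theorem om_neg (Y Z : W k p (Fin m ⊕ Fin m)) : om (-Y) Z = -om Y Z := by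
  simp only [om, ← Finset.sum_neg_distrib, Derivation.neg_apply]
  exact Finset.sum_congr rfl fun i _ => by ring

omit [Fact p.Prime] [CharP k p] in
theorem om_lie_swap (D E Z : W k p (Fin m ⊕ Fin m)) : om ⁅D, E⁆ Z = om Z ⁅E, D⁆ := by
  rw [om_swap Z, ← om_neg, lie_skew]

omit [Fact p.Prime] in
theorem om_ham (f : O k p (Fin m ⊕ Fin m)) (Y : W k p (Fin m ⊕ Fin m)) :
    om (ham f) Y = -Y f := by
  rw [W_apply Y f, Fintype.sum_sum_type, ← Finset.sum_add_distrib, ← Finset.sum_neg_distrib, om]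
  exact Finset.sum_congr rfl fun i _ => by rw [ham_inl, ham_inr]; ring

omit [Fact p.Prime] in
theorem om_ham' (f : O k p (Fin m ⊕ Fin m)) (Y : W k p (Fin m ⊕ Fin m)) :
    om Y (ham f) = Y f := by
  rw [om_swap, om_ham, neg_neg]

omit [Fact p.Prime] in
theorem eq_ham {D : W k p (Fin m ⊕ Fin m)} {f : O k p (Fin m ⊕ Fin m)}
    (h : ∀ Y, om D Y = -Y f) : D = ham f := by
  refine W_ext fun j => ?_
  rcases j with j | j
  · rw [ham_inl, ← h]
    simp [om, pd_x]
  · have := h (pd k p (.inl j))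
    rw [ham_inr, ← neg_inj, ← this]
    simp [om, pd_x]

omit [Fact p.Prime] in
theorem ham_swap (f g : O k p (Fin m ⊕ Fin m)) : ham f g = -ham g f := by
  rw [← om_ham' g (ham f), om_ham]

omit [Fact p.Prime] in
theorem ham_self (f : O k p (Fin m ⊕ Fin m)) : ham f f = 0 := by
  rw [← om_ham' f (ham f)]
  simp [om]

omit [Fact p.Prime] in
theorem ham_const (c : k) : ham (algebraMap k (O k p (Fin m ⊕ Fin m)) c) = 0 := by
  refine W_ext fun j => ?_
  rcases j with j | j
  · simp [ham_inl]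
  · simp [ham_inr]

variable (k p m) in
/-- the Liouville form -/
noncomputable def lv : W k p (Fin m ⊕ Fin m) →ₗ[k] O k p (Fin m ⊕ Fin m) where
  toFun D := ∑ i, x k p (.inl i) * D (x k p (.inr i))
  map_add' D E := by simp [mul_add, Finset.sum_add_distrib]
  map_smul' c D := by simp [Finset.smul_sum]

omit [Fact p.Prime] [CharP k p] in
theorem dF_lv (D E : W k p (Fin m ⊕ Fin m)) : dF (lv k p m) D E = om D E := by
  simp only [dF, lv, LinearMap.coe_mk, AddHom.coe_mk, map_sum, om, ← Finset.sum_sub_distrib,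
    Derivation.leibniz, smul_eq_mul, Derivation.commutator_apply]
  exact Finset.sum_congr rfl fun i _ => by ring

omit [Fact p.Prime] [CharP k p] in
theorem om_cyc (D E Y : W k p (Fin m ⊕ Fin m)) :
    D (om E Y) + E (om Y D) + Y (om D E) = om ⁅D, E⁆ Y + om ⁅E, Y⁆ D + om ⁅Y, D⁆ E := by
  simpa only [dF_lv] using dF_cyc (lv k p m) D E Y

variable (k p m) in
/-- the derivations which kill the symplectic form -/
def A : Set (W k p (Fin m ⊕ Fin m)) :=
  {D | ∀ Y Z, D (om Y Z) = om ⁅D, Y⁆ Z + om Y ⁅D, Z⁆}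

omit [Fact p.Prime] in
theorem lie_eq_ham {D E : W k p (Fin m ⊕ Fin m)} (hD : D ∈ A k p m) (hE : E ∈ A k p m) :
    ⁅D, E⁆ = ham (om D E) := by
  refine eq_ham fun Y => ?_
  have h := om_cyc D E Y
  rw [hD E Y, hE Y D, ← om_lie_swap Y D E, ← om_lie_swap D E Y] at h
  linear_combination h

omit [Fact p.Prime] in
theorem ham_mem_A (f : O k p (Fin m ⊕ Fin m)) : ham f ∈ A k p m := fun Y Z => by
  have h := om_cyc (ham f) Y Z
  rw [om_ham', om_ham', om_ham, om_lie_swap Z (ham f) Y, Derivation.commutator_apply,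
    map_neg] at h
  linear_combination h

omit [Fact p.Prime] in
theorem lie_ham (f g : O k p (Fin m ⊕ Fin m)) : ⁅ham f, ham g⁆ = ham (ham f g) := by
  rw [lie_eq_ham (ham_mem_A f) (ham_mem_A g), om_ham']

theorem I_mul_pd (j : Fin m ⊕ Fin m) (f g : O k p (Fin m ⊕ Fin m)) :
    I k p _ (f * pd k p j g) = -I k p _ (pd k p j f * g) := by
  have h := I_pd j (f * g)
  rw [Derivation.leibniz, map_add, smul_eq_mul, smul_eq_mul, mul_comm g] at h
  linear_combination h

theorem I_ham (f g : O k p (Fin m ⊕ Fin m)) : I k p _ (ham f g) = 0 := by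
  rw [W_apply, Fintype.sum_sum_type, ← Finset.sum_add_distrib, map_sum]
  refine Finset.sum_eq_zero fun i _ => ?_
  rw [ham_inl, ham_inr, map_add, neg_mul, map_neg, I_mul_pd, I_mul_pd, pd_pd]
  ring

theorem I_mul_ham (f g h : O k p (Fin m ⊕ Fin m)) :
    I k p _ (g * ham f h) = I k p _ (ham g f * h) := by
  have h := I_ham f (g * h)
  rw [Derivation.leibniz, map_add, smul_eq_mul, smul_eq_mul, ham_swap f g, mul_neg, map_neg,
    mul_comm _ (ham g f)] at h
  linear_combination h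

variable (k p m) in
/-- all Hamiltonian derivations -/
noncomputable def g' : LieSubalgebra k (W k p (Fin m ⊕ Fin m)) where
  toSubmodule := LinearMap.range ham
  lie_mem' := by
    rintro _ _ ⟨f, rfl⟩ ⟨g, rfl⟩
    exact ⟨_, (lie_ham f g).symm⟩

variable (k p m) in
/-- the Hamiltonian derivations of functions of integral zero -/
noncomputable def g : LieSubalgebra k (W k p (Fin m ⊕ Fin m)) where
  toSubmodule := (LinearMap.ker (I k p (Fin m ⊕ Fin m))).map ham
  lie_mem' := by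
    rintro _ _ ⟨f, -, rfl⟩ ⟨g, -, rfl⟩
    exact ⟨_, I_ham f g, (lie_ham f g).symm⟩

theorem mem_g {D : W k p (Fin m ⊕ Fin m)} :
    D ∈ g k p m ↔ ∃ f, I k p _ f = 0 ∧ ham f = D := Iff.rfl

theorem ham_mem_g {f : O k p (Fin m ⊕ Fin m)} (h : I k p _ f = 0) : ham f ∈ g k p m :=
  ⟨f, h, rfl⟩

theorem lie_mem_g (f h : O k p (Fin m ⊕ Fin m)) : ⁅ham f, ham h⁆ ∈ g k p m :=
  ⟨_, I_ham f h, (lie_ham f h).symm⟩

omit [Fact p.Prime] [CharP k p] in
theorem topw_one (hp : 5 ≤ p) :
    topw p (fun _ : Fin m ⊕ Fin m => (1 : ℤ)) = 2 * m * (p - 1) := by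
  rw [topw_eq (by omega)]
  simp
  left; ring

omit [Fact p.Prime] [CharP k p] in
theorem topw_ge (hp : 5 ≤ p) (hm : 1 ≤ m) :
    2 * ((p : ℤ) - 1) ≤ topw p (fun _ : Fin m ⊕ Fin m => (1 : ℤ)) := by
  rw [topw_one hp]
  have h1 : (1 : ℤ) ≤ m := by exact_mod_cast hm
  have h2 : (5 : ℤ) ≤ p := by exact_mod_cast hp
  nlinarith

omit [CharP k p] in
theorem I_x (hp : 5 ≤ p) (hm : 1 ≤ m) (j : Fin m ⊕ Fin m) : I k p _ (x k p j) = 0 := by
  have := topw_ge hp hm
  exact I_of_G (x_mem_G (w := fun _ => 1) j) (by omega)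

omit [CharP k p] in
theorem I_xx (hp : 5 ≤ p) (hm : 1 ≤ m) (j l : Fin m ⊕ Fin m) :
    I k p _ (x k p j * x k p l) = 0 := by
  have := topw_ge hp hm
  exact I_of_G (mul_mem_G (x_mem_G (w := fun _ => 1) j) (x_mem_G l)) (by omega)

omit [CharP k p] in
theorem I_const (hp : 5 ≤ p) (hm : 1 ≤ m) (c : k) :
    I k p (Fin m ⊕ Fin m) (algebraMap k _ c) = 0 := by
  have := topw_ge hp hm
  exact I_of_G (algebraMap_mem_G (w := fun _ => 1) c) (by omega)

omit [Fact p.Prime] in
theorem ham_x_inl (i : Fin m) : ham (x k p (.inl i : Fin m ⊕ Fin m)) = pd k p (.inr i) := by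
  refine W_ext fun j => ?_
  rcases j with j | j <;> simp [ham_inl, ham_inr, pd_x, eq_comm]

omit [Fact p.Prime] in
theorem ham_x_inr (i : Fin m) : ham (x k p (.inr i : Fin m ⊕ Fin m)) = -pd k p (.inl i) := by
  refine W_ext fun j => ?_
  rcases j with j | j <;> simp [ham_inl, ham_inr, pd_x, eq_comm]

theorem pd_mem_g (hp : 5 ≤ p) (hm : 1 ≤ m) (j : Fin m ⊕ Fin m) : pd k p j ∈ g k p m := by
  rcases j with j | j
  · rw [← neg_neg (pd k p _), ← ham_x_inr]
    exact neg_mem (ham_mem_g (I_x hp hm _))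
  · rw [← ham_x_inl]
    exact ham_mem_g (I_x hp hm _)

omit [Fact p.Prime] in
theorem lie_pd_ham (j : Fin m ⊕ Fin m) (f : O k p (Fin m ⊕ Fin m)) :
    ⁅pd k p j, ham f⁆ = ham (pd k p j f) := by
  rcases j with j | j
  · rw [← neg_neg (pd k p _), ← ham_x_inr, neg_lie, lie_ham, Derivation.neg_apply, map_neg]
  · rw [← ham_x_inl, lie_ham]

variable (k p) in
/-- a quadratic function -/
noncomputable def qd (c : Fin m → k) : O k p (Fin m ⊕ Fin m) :=
  ∑ i, c i • (x k p (.inl i) * x k p (.inr i))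

omit [Fact p.Prime] in
theorem ham_qd (c : Fin m → k) : ham (qd k p c) = diag k p (Sum.elim (fun i => -c i) c) := by
  refine W_ext fun j => ?_
  rcases j with j | j
  · rw [ham_inl]
    simp [diag_x, qd, pd_x]
  · rw [ham_inr]
    simp [diag_x, qd, pd_x]

omit [CharP k p] in
theorem I_qd (hp : 5 ≤ p) (hm : 1 ≤ m) (c : Fin m → k) : I k p _ (qd k p c) = 0 := by
  simp [qd, I_xx hp hm]

theorem perfect (hp : 5 ≤ p) (hm : 1 ≤ m) : ∀ c ∈ g k p m,
    c ∈ Submodule.span k {D | ∃ a ∈ g k p m, ∃ b ∈ g k p m, D = ⁅a, b⁆} := by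
  rintro _ ⟨f, hf, rfl⟩
  obtain ⟨u, rfl⟩ := ker_I hf
  rw [map_sum]
  refine Submodule.sum_mem _ fun j _ => ?_
  have hh : ham (qd k p fun _ : Fin m => 1) ∈ g k p m := ham_mem_g (I_qd hp hm _)
  have h1 : ⁅ham (qd k p fun _ : Fin m => 1), ⁅pd k p j, ham (u j)⁆⁆ -
      ⁅pd k p j, ⁅ham (qd k p fun _ : Fin m => 1), ham (u j)⁆⁆ ∈
      Submodule.span k {D | ∃ a ∈ g k p m, ∃ b ∈ g k p m, D = ⁅a, b⁆} := by
    refine sub_mem (Submodule.subset_span ⟨_, hh, _, ?_, rfl⟩)
      (Submodule.subset_span ⟨_, pd_mem_g hp hm j, _, lie_mem_g _ _, rfl⟩)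
    rw [lie_pd_ham]
    exact ham_mem_g (I_pd _ _)
  rw [← lie_lie, ham_qd, lie_diag_pd, neg_lie, smul_lie, lie_pd_ham] at h1
  rcases j with j | j
  · simpa using h1
  · simpa using h1

theorem der_der (hp : 5 ≤ p) (hm : 1 ≤ m) :
    der (der (A k p m) : Set (W k p (Fin m ⊕ Fin m))) = g k p m := by
  refine der_der_eq' (g k p m) (g' k p m) ?_ ?_ ?_ (perfect hp hm)
  · rintro _ ⟨f, -, rfl⟩
    exact ham_mem_A f
  · exact fun a ha b hb => ⟨_, (lie_eq_ham ha hb).symm⟩
  · rintro _ ⟨f, rfl⟩ _ ⟨h, rfl⟩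
    exact lie_mem_g f h

theorem ppow_ham (f : O k p (Fin m ⊕ Fin m)) : ∃ q, ppow (ham f) = ham q := by
  have h := lie_ppow_exact (lv k p m) (ham f) ⊤ (fun _ _ => trivial) (lv k p m (ham f) - f)
    fun Y _ => by
      have h1 := dF_lv (ham f) Y
      rw [dF, om_ham] at h1
      rw [map_sub]
      linear_combination h1
  refine ⟨lv k p m (ppow (ham f)) - (ham f)^[p - 1] (lv k p m (ham f) - f), eq_ham fun Y => ?_⟩
  rw [← dF_lv, dF, map_sub]
  linear_combination h Y trivial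

theorem I_eq (q : O k p (Fin m ⊕ Fin m)) (i : Fin m) :
    I k p _ q = -I k p _ (x k p (.inl i) * ham q (x k p (.inr i))) := by
  rw [ham_inr, I_mul_pd, pd_x_self, one_mul, neg_neg]

omit [Fact p.Prime] in
theorem ham_mem_GW {w : Fin m ⊕ Fin m → ℤ} {s j : ℤ} (hw : ∀ i, w (.inl i) + w (.inr i) = s)
    {f : O k p (Fin m ⊕ Fin m)} (hf : f ∈ G k p w j) : ham f ∈ GW k p w (j - s) := by
  refine mem_GW.2 fun l => ?_
  rcases l with l | l
  · rw [ham_inl]
    refine neg_mem ?_
    convert GW_apply (pd_mem_GW (w := w) (.inr l)) hf using 2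
    have := hw l
    omega
  · rw [ham_inr]
    convert GW_apply (pd_mem_GW (w := w) (.inl l)) hf using 2
    have := hw l
    omega

omit [Fact p.Prime] [CharP k p] in
theorem iter_eq (D : W k p (Fin m ⊕ Fin m)) {y f : O k p (Fin m ⊕ Fin m)} (h1 : D y = y * f)
    (h2 : D f = 0) (n : ℕ) : D^[n] y = y * f ^ n := by
  induction n with
  | zero => simp
  | succ n ih =>
    rw [Function.iterate_succ_apply', ih, Derivation.leibniz, Derivation.leibniz_pow, h1, h2]
    simp only [smul_eq_mul, mul_zero, nsmul_zero]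
    ring

theorem I_ppow_ne (hp : 5 ≤ p) (i : Fin m) (a : Fin m ⊕ Fin m → ℕ)
    (h : a (.inl i) ≠ a (.inr i)) :
    I k p _ (x k p (.inl i) * ppow (ham (mn k p a)) (x k p (.inr i))) = 0 := by
  let w : Fin m ⊕ Fin m → ℤ := Sum.elim (Pi.single i 1) fun l => -(Pi.single i 1 : Fin m → ℤ) l
  have h1 := ppow_mem_GW (ham_mem_GW (w := w) (s := 0) (fun l => by simp [w])
    (mn_mem_G (k := k) (p := p) a))
  have h2 := mul_mem_G (x_mem_G (w := w) (.inl i)) (GW_apply h1 (x_mem_G (.inr i)))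
  refine I_of_G h2 ?_
  have h3 : topw p w = 0 := by
    rw [topw_eq (by omega)]
    simp [w]
  have h4 : wt w a = (a (.inl i) : ℤ) - a (.inr i) := by
    simp [wt, w, Pi.single_apply, sub_eq_add_neg]
  rw [h3, h4]
  have h5 : (a (.inl i) : ℤ) - a (.inr i) ≠ 0 := by omega
  have h6 : (p : ℤ) ≠ 0 := by omega
  simpa [w] using ⟨by omega, h5⟩

theorem I_ppow_eq (hp : 5 ≤ p) (hm : 1 ≤ m) (i : Fin m) (a : Fin m ⊕ Fin m → ℕ)
    (h : a (.inl i) = a (.inr i)) :
    I k p _ (x k p (.inl i) * ppow (ham (mn k p a)) (x k p (.inr i))) = 0 := by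
  rcases Nat.eq_zero_or_pos (a (.inl i)) with h0 | h0
  · rw [ppow_apply_eq_zero (by rw [ham_inr, pd_mn, h0]; simp), mul_zero, map_zero]
  obtain ⟨b, rfl⟩ : ∃ b : Fin m ⊕ Fin m → ℕ,
      a = Pi.single (Sum.inl i) 1 + Pi.single (Sum.inr i) 1 + b := by
    refine ⟨a - (Pi.single (Sum.inl i) 1 + Pi.single (Sum.inr i) 1), funext fun l => ?_⟩
    simp only [Pi.add_apply, Pi.sub_apply, Pi.single_apply]
    split_ifs with h1 h2 h2
    · rw [h1] at h2
      simp at h2
    · subst h1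
      omega
    · subst h2
      omega
    · omega
  have hb : b (.inl i) = b (.inr i) := by simpa using h
  have hq : x k p (.inl i) * x k p (.inr i) = qd k p (Pi.single i 1) := by
    simp [qd, Pi.single_apply]
  have h1 : ham (qd k p (Pi.single i 1)) (mn k p b) = 0 := by
    rw [ham_qd, diag_mn]
    simp [Pi.single_apply, hb]
  rw [mn_add, mn_add, mn_single, mn_single, pow_one, pow_one, ppow_apply,
    iter_eq _ (f := ((b (.inl i) : k) + 1) • mn k p b), pow_char, ← mul_assoc, mul_comm,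
    ← Algebra.smul_def, map_smul, I_xx hp hm, smul_zero]
  · rw [ham_inr, add_smul, ← x_mul_pd_mn]
    simp [pd_x]
    ring
  · rw [Derivation.map_smul, ham_swap, hq, Derivation.leibniz, ham_self, ham_swap, h1]
    simp

theorem ppow_mem (hp : 5 ≤ p) (hm : 1 ≤ m) : ∀ a ∈ g k p m, ppow a ∈ g k p m := by
  rintro _ ⟨f, -, rfl⟩
  refine ppow_mem_of_span (g' k p m) (g k p m).toSubmodule ?_ ?_
    (Set.range fun a => ham (mn k p a)) ?_ ?_ _ ?_
  · rintro _ ⟨f, -, rfl⟩
    exact ⟨f, rfl⟩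
  · rintro _ ⟨f, rfl⟩ _ ⟨h, rfl⟩
    exact lie_mem_g f h
  · rintro _ ⟨a, rfl⟩
    exact ⟨_, rfl⟩
  · rintro _ ⟨a, rfl⟩
    obtain ⟨q, hq⟩ := ppow_ham (mn k p a)
    refine ⟨q, ?_, hq.symm⟩
    change I k p _ q = 0
    rw [I_eq q ⟨0, hm⟩, ← hq, neg_eq_zero]
    by_cases h : a (.inl ⟨0, hm⟩) = a (.inr ⟨0, hm⟩)
    · exact I_ppow_eq hp hm _ a h
    · exact I_ppow_ne hp _ a h
  · induction f using mn_ind with
    | h0 => rw [map_zero]; exact zero_mem _
    | ha f g hf hg => rw [map_add]; exact add_mem hf hg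
    | hs c f hf => rw [map_smul]; exact Submodule.smul_mem _ c hf
    | hm a _ => exact Submodule.subset_span ⟨a, rfl⟩

omit [Fact p.Prime] in
theorem eq_zero_of_const {e : Fin m ⊕ Fin m → k} (he : ∀ l, e l ≠ 0) {D : W k p (Fin m ⊕ Fin m)}
    (h1 : ∀ l, ∃ c : k, D (x k p l) = algebraMap k _ c) (h2 : ⁅diag k p e, D⁆ = 0) : D = 0 := by
  refine W_ext fun l => ?_
  obtain ⟨c, hc⟩ := h1 l
  have h3 := congrArg (fun E : W k p (Fin m ⊕ Fin m) => E (x k p l)) h2
  simp only [Derivation.commutator_apply, diag_x, Derivation.map_smul, Derivation.zero_apply] at h3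
  rw [hc, Derivation.map_algebraMap, zero_sub, neg_eq_zero, ← hc] at h3
  exact (smul_eq_zero.1 h3).resolve_left (he l)

theorem graded : ∀ a ∈ g k p m,
    a ∈ ⨆ j, GW k p (fun _ => 1) j ⊓ (g k p m).toSubmodule := by
  have h : ∀ f : O k p (Fin m ⊕ Fin m), ham (f - I k p _ f • tau k p _) ∈
      ⨆ j, GW k p (fun _ => 1) j ⊓ (g k p m).toSubmodule := by
    intro f
    have hf : f ∈ ⨆ j, G k p (fun _ => 1) j := by rw [iSup_G]; trivial
    induction hf using Submodule.iSup_induction' with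
    | mem j f hf =>
      by_cases hj : j = topw p fun _ : Fin m ⊕ Fin m => 1
      · rw [← eq_tau_of_F_top (w := fun _ => 1) (fun _ => one_pos) (G_le_F hj.ge hf), sub_self,
          map_zero]
        exact zero_mem _
      · have h0 := I_of_G hf hj
        rw [h0, zero_smul, sub_zero]
        exact Submodule.mem_iSup_of_mem (j - 2)
          ⟨ham_mem_GW (fun _ => rfl) hf, ham_mem_g h0⟩
    | zero => simp
    | add f g _ _ hf hg =>
      convert add_mem hf hg using 1
      rw [← map_add, map_add (I k p _), add_smul]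
      congr 1
      ring
  rintro _ ⟨f, hf, rfl⟩
  have h1 := h f
  rwa [LinearMap.mem_ker.1 hf, zero_smul, sub_zero] at h1

variable (k p) in
/-- the character -/
noncomputable def chi (c : Fin m → k) : Dual k (W k p (Fin m ⊕ Fin m)) where
  toFun D := ∑ i, -(c i / 2) *
    I k p _ (x k p (.inl i) * x k p (.inl i) * x k p (.inr i) * D (x k p (.inr i)))
  map_add' D E := by simp [mul_add, Finset.sum_add_distrib]
  map_smul' a D := by
    simp only [Derivation.smul_apply, mul_smul_comm, map_smul, smul_eq_mul, RingHom.id_apply,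
      Finset.mul_sum]
    exact Finset.sum_congr rfl fun i _ => by ring

omit [CharP k p] in
theorem chi_apply (c : Fin m → k) (D : W k p (Fin m ⊕ Fin m)) : chi k p c D = ∑ i, -(c i / 2) *
    I k p _ (x k p (.inl i) * x k p (.inl i) * x k p (.inr i) * D (x k p (.inr i))) := rfl

theorem chi_ham (h2 : (2 : k) ≠ 0) (c : Fin m → k) (f : O k p (Fin m ⊕ Fin m)) :
    chi k p c (ham f) = I k p _ (qd k p c * f) := by
  rw [chi_apply, qd, Finset.sum_mul, map_sum]
  refine Finset.sum_congr rfl fun i _ => ?_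
  have h : pd k p (.inl i : Fin m ⊕ Fin m) (x k p (.inl i) * x k p (.inl i) * x k p (.inr i)) =
      (2 : k) • (x k p (.inl i) * x k p (.inr i)) := by
    rw [two_smul]
    simp [pd_x]
    ring
  rw [ham_inr, I_mul_pd, h, smul_mul_assoc, smul_mul_assoc, map_smul, map_smul, smul_eq_mul,
    smul_eq_mul]
  field_simp

theorem chi_lie (h2 : (2 : k) ≠ 0) (c : Fin m → k) (f h : O k p (Fin m ⊕ Fin m)) :
    chi k p c ⁅ham f, ham h⁆ = I k p _ (ham (qd k p c) f * h) := by
  rw [lie_ham, chi_ham h2, I_mul_ham]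

theorem stab (h2 : (2 : k) ≠ 0) (c : Fin m → k) {f : O k p (Fin m ⊕ Fin m)}
    (h : ∀ y ∈ g k p m, chi k p c ⁅ham f, y⁆ = 0) : ham (qd k p c) f = 0 := by
  have h1 := mem_F_of_perp' (w := fun _ => 1) (i := 0) (f := ham (qd k p c) f) fun y _ hy => by
    rw [← chi_lie h2, h _ (ham_mem_g hy)]
  have h3 : ev k p _ (ham (qd k p c) f) = 0 := by
    rw [W_apply, ham_qd, map_sum]
    simp [diag_x, ev_x]
  rw [h3, map_zero, sub_zero, sub_zero] at h1
  refine eq_zero_of_F_top (fun _ => zero_le_one) ?_ h1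
  omega

omit [CharP k p] in
theorem exists_lin {f : O k p (Fin m ⊕ Fin m)} (hf : f ∈ G k p (fun _ => 1) 1) :
    ∃ a : Fin m ⊕ Fin m → k, f = ∑ l, a l • x k p l := by
  obtain ⟨u, hu, rfl⟩ := exists_of_G_one (fun _ => zero_le_one) hf
  refine ⟨fun l => ev k p _ (u l), Finset.sum_congr rfl fun l _ => ?_⟩
  rw [if_pos rfl, Algebra.smul_def, ← const_of_G_zero (fun _ => one_pos) (hu l)]

theorem top_zero {e : Fin m ⊕ Fin m → k} (he : ∀ l, e l ≠ 0) {q f : O k p (Fin m ⊕ Fin m)}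
    (hq : ham q = diag k p e) (h1 : ham q f = 0) (h2 : I k p _ f = 0)
    (h3 : f ∈ F k p (fun _ => 1) (topw p (fun _ : Fin m ⊕ Fin m => 1) - 1)) : f = 0 := by
  have h4 := mem_F_of_perp (w := fun _ => 1) (i := 1) (f := f) fun y hy => by
    rw [F_eq_sup] at hy
    obtain ⟨y1, hy1, y2, hy2, rfl⟩ := Submodule.mem_sup.1 hy
    obtain ⟨a, rfl⟩ := exists_lin hy1
    rw [mul_add, map_add, I_of_F (mul_mem_F h3 hy2) (by omega), add_zero, Finset.mul_sum,
      map_sum]
    refine Finset.sum_eq_zero fun l _ => ?_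
    have h5 := I_mul_ham q f (x k p l)
    rw [ham_swap f q, h1, neg_zero, zero_mul, map_zero, hq, diag_x, mul_smul_comm, map_smul,
      smul_eq_mul] at h5
    rw [mul_smul_comm, map_smul, (mul_eq_zero.1 h5).resolve_left (he l), smul_zero]
  rw [eq_tau_of_F_top (w := fun _ => 1) (f := f) (fun _ => one_pos) (by simpa using h4), h2,
    zero_smul]

theorem uniq {e : Fin m ⊕ Fin m → k} {v : Fin m ⊕ Fin m} (he : ∀ l, l ≠ v → e l ≠ 1) :
    ∀ f ∈ F k p (fun _ => 1) 1, diag k p e f = f →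
      ∃ c : k, f - c • x k p v ∈ F k p (fun _ => 1) (1 + 1) := by
  intro f hf h
  rw [F_eq_sup] at hf
  obtain ⟨f1, hf1, f2, hf2, rfl⟩ := Submodule.mem_sup.1 hf
  have h1 : diag k p e f1 - f1 = 0 := by
    refine eq_zero_of_G_F (w := fun _ => 1) (i := 1) (j := 1 + 1) (sub_mem ?_ hf1) ?_ (by omega)
    · simpa using GW_apply (diag_mem_GW e fun _ => 1) hf1
    · have h2 : diag k p e f1 - f1 = f2 - diag k p e f2 := by
        rw [map_add] at h
        linear_combination h
      rw [h2]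
      refine sub_mem hf2 ?_
      simpa using FW_apply (GW_le_FW le_rfl (diag_mem_GW e fun _ => 1)) hf2
  obtain ⟨a, rfl⟩ := exists_lin hf1
  refine ⟨a v, ?_⟩
  rw [Finset.sum_eq_single v, add_sub_cancel_left]
  · exact hf2
  · intro l _ hl
    have h2 := congrArg (pd k p l) h1
    simp only [map_sub, map_sum, Derivation.map_smul, diag_x, pd_x, smul_ite, smul_zero,
      Finset.sum_ite_eq', Finset.mem_univ, if_true, map_zero, smul_smul, ← sub_smul] at h2
    have h3 : a l * (e l - 1) = 0 := by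
      rw [mul_sub, mul_one]
      exact (smul_eq_zero.1 h2).resolve_right one_ne_zero
    rw [(mul_eq_zero.1 h3).resolve_right (sub_ne_zero.2 (he l hl)), zero_smul]
  · simp

end SH

variable {k : Type*} [Field k] [IsAlgClosed k] {p : ℕ} [Fact p.Prime] [CharP k p]

open SH in
theorem fails_tH (hp : 5 ≤ p) {m : ℕ} (hm : 1 ≤ m) :
    Fails k p (pw (der (der {D : W k p (Fin m ⊕ Fin m) |
      ∀ Y Z, D (om Y Z) = om ⁅D, Y⁆ Z + om Y ⁅D, Z⁆} : Set (W k p (Fin m ⊕ Fin m))))) := by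
  change Fails k p (pw (der (der (A k p m) : Set (W k p (Fin m ⊕ Fin m)))))
  rw [der_der hp hm]
  have hn : ∀ n : ℕ, 0 < n → n < 5 → (n : k) ≠ 0 := fun n h0 h5 h => by
    have := Nat.le_of_dvd h0 ((CharP.cast_eq_zero_iff k p n).1 h)
    omega
  have h2 : (2 : k) ≠ 0 := by exact_mod_cast hn 2 (by omega) (by omega)
  have h3 : (3 : k) ≠ 0 := by exact_mod_cast hn 3 (by omega) (by omega)
  let o : Fin m := ⟨0, hm⟩
  let c : Fin m → k := fun i => if i = o then 1 else 2
  let e : Fin m ⊕ Fin m → k := Sum.elim (fun i => -c i) c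
  have hq : ham (qd k p c) = diag k p e := ham_qd c
  have hc0 : ∀ i, c i ≠ 0 := fun i => by
    simp only [c]
    split_ifs
    · exact one_ne_zero
    · exact h2
  have he0 : ∀ l, e l ≠ 0 := fun l => by
    rcases l with l | l
    · exact neg_ne_zero.2 (hc0 l)
    · exact hc0 l
  have hcp : ∀ i, c i ^ p = c i := fun i => by
    simp only [c]
    split_ifs
    · exact one_pow p
    · exact map_ofNat (frobenius k p) 2
  have hep : ∀ l, e l ^ p = e l := fun l => by
    rcases l with l | l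
    · exact (map_neg (frobenius k p) (c l)).trans (congrArg Neg.neg (hcp l))
    · exact hcp l
  have he1 : ∀ l, l ≠ .inr o → e l ≠ 1 := fun l hl h => by
    rcases l with l | l
    · simp only [e, c, Sum.elim_inl] at h
      split_ifs at h
      · exact h2 (by linear_combination -h)
      · exact h3 (by linear_combination -h)
    · have hl' : l ≠ o := fun h' => hl (by rw [h'])
      simp only [e, c, Sum.elim_inr, if_neg hl'] at h
      exact one_ne_zero (α := k) (by linear_combination h)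
  have hHg : diag k p e ∈ g k p m := hq ▸ ham_mem_g (I_qd hp hm c)
  have hN := topw_ge hp hm
  have hp' : (5 : ℤ) ≤ p := by exact_mod_cast hp
  have hst : ∀ {f}, (∀ y ∈ g k p m, chi k p c ⁅ham f, y⁆ = 0) → ⁅diag k p e, ham f⁆ = 0 :=
    fun h => by rw [← hq, lie_ham, stab h2 c h, map_zero]
  refine fails_graded (by omega) (fun _ => 1) (fun _ => zero_le_one)
    (topw p (fun _ : Fin m ⊕ Fin m => 1) - 4) (by omega) (by nlinarith) (g k p m)
    (ppow_mem hp hm) ?_ graded (chi k p c) ?_ ?_ (diag k p e) hHg (diag_mem_GW _ _)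
    (ppow_diag hep) ?_ ?_ ?_ ?_ (x k p (.inr o)) 1 (x_mem_G _) ?_ ?_ (uniq he1)
  · intro a _ h
    refine eq_zero_of_const he0 (fun l => ⟨_, const_of_pd fun j => ?_⟩)
      (by rw [← lie_skew, h _ hHg, neg_zero])
    have h4 := congrArg (fun E : W k p (Fin m ⊕ Fin m) => E (x k p l)) (h _ (pd_mem_g hp hm j))
    simp only [Derivation.commutator_apply, pd_x, Derivation.zero_apply] at h4
    split_ifs at h4 <;> simpa using h4
  · intro j hj D hD
    rw [chi_apply]
    refine Finset.sum_eq_zero fun i _ => ?_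
    rw [I_of_G (mul_mem_G (mul_mem_G (mul_mem_G (x_mem_G (w := fun _ => 1) _) (x_mem_G _))
      (x_mem_G _)) (hD _)) (by beta_reduce; omega), mul_zero]
  · intro D hD
    rw [chi_apply]
    refine Finset.sum_eq_zero fun i _ => ?_
    rw [I_of_F (mul_mem_F (G_le_F le_rfl (mul_mem_G (mul_mem_G (x_mem_G (w := fun _ => 1) _)
      (x_mem_G _)) (x_mem_G _))) (hD _)) (by beta_reduce; omega), mul_zero]
  · rintro _ ⟨f, -, rfl⟩
    rw [← hq, chi_lie h2, ham_self, zero_mul, map_zero]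
  · rintro γ hγ _ ⟨f, -, rfl⟩ h4 h5
    rw [hst h5] at h4
    exact (smul_eq_zero.1 h4.symm).resolve_left hγ
  · rintro j hj _ ⟨f, -, rfl⟩ h4 h5
    refine eq_zero_of_const he0 (fun l => ?_) (hst h5)
    have h6 := h4 l
    by_cases h7 : j + 1 = 0
    · rw [h7] at h6
      exact ⟨_, const_of_G_zero (fun _ => one_pos) h6⟩
    · exact ⟨0, by
        rw [eq_zero_of_G_neg (fun _ => zero_le_one) (by beta_reduce; omega) h6, map_zero]⟩
  · rintro _ ⟨f, hf, rfl⟩ h4 h5
    have h6 := mem_F_of_pd (w := fun _ => 1) (j := topw p (fun _ : Fin m ⊕ Fin m => 1) - 1)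
      (f := f) fun l => by
        rcases l with l | l
        · rw [← ham_inr]
          exact F_anti (by beta_reduce; omega) (h4 _)
        · rw [← neg_mem_iff, ← ham_inl]
          exact F_anti (by beta_reduce; omega) (h4 _)
    have h7 := top_zero he0 hq (by rw [map_sub, stab h2 c h5]; simp)
      (by rw [map_sub, LinearMap.mem_ker.1 hf, I_const hp hm, sub_zero]) h6
    rw [sub_eq_zero.1 h7, ham_const]
  · intro h
    have h4 := congrArg (pd k p (.inr o : Fin m ⊕ Fin m)) h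
    rw [pd_x_self, map_zero] at h4
    exact one_ne_zero h4
  · rw [diag_x]
    simp [e, c]

end Pool.Agent.Cart
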