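import Pool.Agent.P.MP_c9b50d_al.C.SK2
import Pool.Agent.P.MP_c9b50d_al.C.FW

/-! The series K: the criterion for the twisted model. -/

namespace Pool.Agent.Cart.Km

open Module

section aux

variable {k : Type*} [Field k] {p : ℕ} [Fact p.Prime] [CharP k p] {m : ℕ} (o : Fin m) (κ : k)

/-- the weights of the variables -/
def sk3w : Kv m → ℤ
  | none => 0
  | some (.inl i) => if i = o then 2 else 1
  | some (.inr i) => if i = o then 0 else 1

theorem sk3w_nonneg (l : Kv m) : 0 ≤ sk3w o l := by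
  rcases l with _ | i | i
  · exact le_rfl
  · simp only [sk3w]; split_ifs <;> omega
  · simp only [sk3w]; split_ifs <;> omega

theorem sk3w_S : ∀ i ∈ ({none, some (.inr o)} : Finset (Kv m)), sk3w o i = 0 := by
  intro i hi
  simp only [Finset.mem_insert, Finset.mem_singleton] at hi
  rcases hi with rfl | rfl <;> simp [sk3w]

theorem sk3w_add (i : Fin m) : sk3w o (some (.inl i)) + sk3w o (some (.inr i)) = 2 := by
  simp only [sk3w]; split_ifs <;> omega

theorem sk3_topw : topw p (sk3w o) = 2 * (m * (p - 1)) := by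
  rw [topw_eq (Fact.out : p.Prime).one_le, Fintype.sum_option, Fintype.sum_sum_type,
    ← Finset.sum_add_distrib]
  simp only [sk3w_add]
  simp only [sk3w, Finset.sum_const, Finset.card_univ, Fintype.card_fin, nsmul_eq_mul]
  ring

theorem sk3_Δ_GW (l : Kv m) : (fr k p o).Δ l ∈ GW k p (sk3w o) (-sk3w o l) :=
  log_mem_GW _ (sk3w_S o) l

theorem sk3_R_GW : R k p o ∈ GW k p (sk3w o) 0 := sk3_Δ_GW o none

theorem sk3_R_FW : R k p o ∈ FW k p (sk3w o) 0 := GW_le_FW le_rfl (sk3_R_GW o)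

omit [Fact p.Prime] [CharP k p] in
theorem sk3_F0 (f : O k p (Kv m)) : f ∈ F k p (sk3w o) 0 :=
  mem_F_of_nonpos (sk3w_nonneg o) le_rfl f

theorem sk3_R_F {j : ℤ} {f : O k p (Kv m)} (hf : f ∈ F k p (sk3w o) j) :
    R k p o f ∈ F k p (sk3w o) j := by
  simpa using FW_apply (sk3_R_FW o) hf

theorem sk3_Q_FW (i : Fin m) : Q p o κ i ∈ FW k p (sk3w o) (-sk3w o (some (.inr i))) := by
  refine sub_mem (GW_le_FW le_rfl (sk3_Δ_GW o _)) ?_
  have h := smul_mem_FW (sk3_F0 o (c p o κ i)) (sk3_R_FW (k := k) (p := p) o)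
  refine FW_anti ?_ h
  have := sk3w_nonneg o (some (.inr i))
  omega

theorem sk3_P_FW (i : Fin m) : P k p o i ∈ FW k p (sk3w o) (-sk3w o (some (.inl i))) :=
  GW_le_FW le_rfl (sk3_Δ_GW o _)

theorem sk3_ct_FW {j : ℤ} {f : O k p (Kv m)} (hf : f ∈ F k p (sk3w o) j) :
    ct p o κ f ∈ FW k p (sk3w o) (j - 2) := by
  change f • R k p o + ∑ i, (P k p o i f • Q p o κ i - Q p o κ i f • P k p o i) ∈ _
  refine add_mem (FW_anti (by omega) (smul_mem_FW hf (sk3_R_FW o))) (sum_mem fun i _ => ?_)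
  have h := sk3w_add o i
  refine sub_mem (FW_anti (by omega) (smul_mem_FW (FW_apply (sk3_P_FW o i) hf) (sk3_Q_FW o κ i)))
    (FW_anti (by omega) (smul_mem_FW (FW_apply (sk3_Q_FW o κ i) hf) (sk3_P_FW o i)))

theorem sk3_br_F {i j : ℤ} {f g : O k p (Kv m)} (hf : f ∈ F k p (sk3w o) i)
    (hg : g ∈ F k p (sk3w o) j) : br p o κ f g ∈ F k p (sk3w o) (i + j - 2) :=
  sub_mem (F_anti (by omega) (FW_apply (sk3_ct_FW o κ hf) hg))
    (F_anti (by omega) (mul_mem_F (sk3_R_F o hf) hg))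

theorem sk3_J_F {j : ℤ} {f : O k p (Kv m)} (hf : f ∈ F k p (sk3w o) j)
    (h : 2 * (m * ((p : ℤ) - 1)) < j) : (fr k p o).J f = 0 := by
  rw [eq_zero_of_F_top (sk3w_nonneg o) (by rw [sk3_topw]; exact h) hf, map_zero]

theorem sk3_J_G {j : ℤ} {f : O k p (Kv m)} (hf : f ∈ G k p (sk3w o) j)
    (h : j ≠ 2 * (m * ((p : ℤ) - 1))) : (fr k p o).J f = 0 := by
  refine I_of_G (mul_mem_G (log_u_mem_G _ (sk3w_S o)) hf) ?_
  rw [sk3_topw, zero_add]
  exact h

theorem sk3_ct_inj {f g : O k p (Kv m)} (h : ct p o κ f = ct p o κ g) : f = g := by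
  rw [← alM_ct o κ f, h, alM_ct]

theorem sk3_Δ_x {i l : Kv m} (h : l ≠ i) : (fr k p o).Δ i (x k p l) = 0 := by
  change (lg k p _ i • pd k p i) (x k p l) = 0
  rw [Derivation.smul_apply, pd_x_ne h, smul_zero]

theorem sk3_pd_of_Δ {i : Kv m} {f : O k p (Kv m)} (h : (fr k p o).Δ i f = 0) :
    pd k p i f = 0 := by
  change (lg k p {none, some (.inr o)} i • pd k p i) f = 0 at h
  rw [Derivation.smul_apply, smul_eq_mul] at h
  rw [← one_mul (pd k p i f), ← lg_mul_pow {none, some (.inr o)} i, mul_right_comm, h, zero_mul]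

theorem sk3_Δ_c {l : Kv m} (h : some (.inl o) ≠ l) : (fr k p o).Δ l (c p o κ o) = 0 := by
  simp [c, sk3_Δ_x o h]

variable (k p) in
/-- the quadratic form in the variables other than `o` -/
noncomputable def sk3ψ : O k p (Kv m) :=
  ∑ i, if i = o then 0 else x k p (some (.inl i)) * x k p (some (.inr i))

variable (k) in
/-- the eigenvalues of the torus element of `sk3ψ` -/
def sk3c : Kv m → k
  | none => 0
  | some (.inl i) => if i = o then 0 else -1
  | some (.inr i) => if i = o then 0 else 1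

theorem sk3_ct_ψ : ct p o κ (sk3ψ k p o) = diag k p (sk3c k o) := by
  rw [sk3ψ, map_sum, diag, Fintype.sum_option, Fintype.sum_sum_type, ← Finset.sum_add_distrib]
  simp only [sk3c, zero_smul, zero_add]
  refine Finset.sum_congr rfl fun i _ => ?_
  split_ifs with h
  · simp
  · rw [ct_xy o κ h, neg_one_smul, one_smul]
    abel

omit [Fact p.Prime] [CharP k p] in
theorem sk3_ψ_G : sk3ψ k p o ∈ G k p (sk3w o) 2 := by
  refine sum_mem fun i _ => ?_
  split_ifs with h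
  · exact zero_mem _
  · rw [← sk3w_add o i]
    exact mul_mem_G (x_mem_G _) (x_mem_G _)

theorem sk3_R_ψ : R k p o (sk3ψ k p o) = 0 := by
  rw [sk3ψ, map_sum]
  refine Finset.sum_eq_zero fun i _ => ?_
  split_ifs with h
  · exact map_zero _
  · rw [Derivation.leibniz, R, sk3_Δ_x o (by simp), sk3_Δ_x o (by simp)]
    simp

theorem sk3_D1_ψ : (fr k p o).Δ (some (.inr o)) (sk3ψ k p o) = 0 := by
  rw [sk3ψ, map_sum]
  refine Finset.sum_eq_zero fun i _ => ?_
  split_ifs with h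
  · exact map_zero _
  · rw [Derivation.leibniz, sk3_Δ_x o (by simpa using h), sk3_Δ_x o (by simp)]
    simp

theorem sk3_lie_R : ⁅R k p o, diag k p (sk3c k o)⁆ = 0 := by
  rw [← sk3_ct_ψ o (0 : k), ← ct_one o (0 : k), lie_ct, br, ct_one, sk3_R_ψ]
  simp

theorem sk3_lie_D1 : ⁅(fr k p o).Δ (some (.inr o)), diag k p (sk3c k o)⁆ = 0 := by
  rw [← sk3_ct_ψ o (0 : k), ← ct_c o (0 : k), lie_ct, br, ct_c, sk3_D1_ψ, R,
    sk3_Δ_c o 0 (by simp)]
  simp

theorem sk3_ppow_diag (hp : 5 ≤ p) : ppow (diag k p (sk3c k o)) = diag k p (sk3c k o) := by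
  have hp0 : p ≠ 0 := by omega
  have ho : Odd p := (Fact.out : p.Prime).odd_of_ne_two (by omega)
  refine ppow_diag fun l => ?_
  rcases l with _ | i | i
  · simp [sk3c, hp0]
  · simp only [sk3c]; split_ifs
    · simp [hp0]
    · exact ho.neg_one_pow
  · simp only [sk3c]; split_ifs
    · simp [hp0]
    · exact one_pow _

theorem sk3_ppow_R : ppow (R k p o) = R k p o := ppow_log _ (by simp)

theorem sk3_ppow_D1 : ppow ((fr k p o).Δ (some (.inr o))) = (fr k p o).Δ (some (.inr o)) :=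
  ppow_log _ (by simp)

omit [Fact p.Prime] [CharP k p] in
theorem sk3_comm {D E : W k p (Kv m)} (h : ⁅D, E⁆ = 0) (f : O k p (Kv m)) :
    D (E f) = E (D f) := by
  have h' := Derivation.commutator_apply (D1 := D) (D2 := E) f
  rw [h] at h'
  exact sub_eq_zero.1 h'.symm

theorem sk3_sub_ev {f : O k p (Kv m)} (h0 : pd k p none f = 0)
    (h1 : pd k p (some (.inr o)) f = 0) :
    f - algebraMap k _ (ev k p _ f) ∈ F k p (sk3w o) 1 := by
  refine mem_F_of_pd fun l => ?_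
  rcases l with _ | i | i
  · rw [h0]; exact zero_mem _
  · refine mem_F_of_nonpos (sk3w_nonneg o) ?_ _
    simp only [sk3w]; split_ifs <;> omega
  · by_cases h : i = o
    · subst h; rw [h1]; exact zero_mem _
    · refine mem_F_of_nonpos (sk3w_nonneg o) ?_ _
      simp [sk3w, h]

theorem sk3_pd_F {f : O k p (Kv m)} (h0 : pd k p none f = 0)
    (h1 : pd k p (some (.inr o)) f = 0) (h2 : diag k p (sk3c k o) f = 0) {l : Kv m}
    (hl : sk3c k o l ≠ 0) : pd k p l f ∈ F k p (sk3w o) 1 := by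
  have h3 := sk3_sub_ev o (f := pd k p l f) (by rw [pd_pd, h0, map_zero])
    (by rw [pd_pd, h1, map_zero])
  have h4 := FW_apply (GW_le_FW le_rfl (diag_mem_GW (sk3c k o) (sk3w o))) h3
  have h5 := Derivation.commutator_apply (D1 := diag k p (sk3c k o)) (D2 := pd k p l) f
  rw [lie_diag_pd, h2, map_zero, sub_zero] at h5
  rw [map_sub, Derivation.map_algebraMap, sub_zero, ← h5, Derivation.neg_apply,
    Derivation.smul_apply, zero_add, neg_mem_iff] at h4
  exact (Submodule.smul_mem_iff _ hl).1 h4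

theorem sk3_ker {f : O k p (Kv m)} (h0 : R k p o f = 0)
    (h1 : (fr k p o).Δ (some (.inr o)) f = 0) (h2 : diag k p (sk3c k o) f = 0) :
    f - algebraMap k _ (ev k p _ f) ∈ F k p (sk3w o) 2 := by
  have h0' := sk3_pd_of_Δ o h0
  have h1' := sk3_pd_of_Δ o h1
  refine mem_F_of_pd fun l => ?_
  rcases l with _ | i | i
  · rw [h0']; exact zero_mem _
  · by_cases h : i = o
    · refine mem_F_of_nonpos (sk3w_nonneg o) ?_ _
      simp [sk3w, h]
    · have := sk3_pd_F o h0' h1' h2 (l := some (.inl i)) (by simp [sk3c, h])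
      simpa [sk3w, h] using this
  · by_cases h : i = o
    · subst h; rw [h1']; exact zero_mem _
    · have := sk3_pd_F o h0' h1' h2 (l := some (.inr i)) (by simp [sk3c, h])
      simpa [sk3w, h] using this

/-- reduction to the kernel of a toral operator -/
theorem sk3_red {M : Type*} [AddCommGroup M] [Module k M] {A : End k M} (hA : A ^ p = A)
    (S K : Submodule k M) (hS : ∀ g ∈ S, A g ∈ S) (hK : ∀ g, A g ∈ K)
    (h : ∀ g ∈ S, A g = 0 → g ∈ K) : ∀ g ∈ S, g ∈ K := by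
  intro g hg
  obtain ⟨n, rfl⟩ : ∃ n, p = n + 2 := ⟨p - 2, by have := (Fact.out : p.Prime).two_le; omega⟩
  have h1 : ∀ j, (A ^ j) g ∈ S := by
    intro j
    induction j with
    | zero => exact hg
    | succ j ih => rw [pow_succ', End.mul_apply]; exact hS _ ih
  have h2 : g - (A ^ (n + 1)) g ∈ K := by
    refine h _ (sub_mem hg (h1 _)) ?_
    rw [map_sub, ← End.mul_apply, ← pow_succ', hA, sub_self]
  have h3 : (A ^ (n + 1)) g ∈ K := by
    rw [pow_succ', End.mul_apply]; exact hK _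
  simpa using add_mem h2 h3

theorem sk3_J_der {D : W k p (Kv m)} (hD : ∀ g, (fr k p o).J (D g) = 0) {f : O k p (Kv m)}
    (hf : D f = 0) (g : O k p (Kv m)) : (fr k p o).J (f * D g) = 0 := by
  have h := hD (f * g)
  rwa [Derivation.leibniz, hf, smul_zero, add_zero, smul_eq_mul] at h

theorem sk3_J_diag (g : O k p (Kv m)) : (fr k p o).J (diag k p (sk3c k o) g) = 0 := by
  rw [Frame.J_der, ← sk3_ct_ψ o (0 : k), div_ct, sk3_R_ψ]
  simp

theorem sk3_top (hp : 5 ≤ p) {f : O k p (Kv m)} (h0 : R k p o f = 0)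
    (h1 : (fr k p o).Δ (some (.inr o)) f = 0) (h2 : diag k p (sk3c k o) f = 0)
    (hf : f ∈ F k p (sk3w o) (2 * (m * ((p : ℤ) - 1)) - 1)) (hJ : (fr k p o).J f = 0) :
    f = 0 := by
  let K : Submodule k (O k p (Kv m)) := LinearMap.ker ((fr k p o).J ∘ₗ LinearMap.mulLeft k f)
  have hK : ∀ g, g ∈ K ↔ (fr k p o).J (f * g) = 0 := fun g => Iff.rfl
  let A := tE k p _ (R k p o)
  let B := tE k p _ ((fr k p o).Δ (some (.inr o)))
  let C := tE k p _ (diag k p (sk3c k o))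
  have h3 : ∀ g ∈ LinearMap.ker A ⊓ LinearMap.ker B, g ∈ K := by
    refine sk3_red (p := p) (A := C) (by rw [← tE_ppow, sk3_ppow_diag o hp]) _ _ ?_
      (fun g => (hK _).2 (sk3_J_der o (sk3_J_diag o) h2 g)) ?_
    · rintro g ⟨hg, hg'⟩
      refine ⟨?_, ?_⟩
      · change R k p o (diag k p (sk3c k o) g) = 0
        rw [sk3_comm (sk3_lie_R o), show R k p o g = 0 from hg, map_zero]
      · change (fr k p o).Δ _ (diag k p (sk3c k o) g) = 0
        rw [sk3_comm (sk3_lie_D1 o), show (fr k p o).Δ _ g = 0 from hg', map_zero]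
    · rintro g ⟨hg, hg'⟩ hg''
      have h4 := sk3_J_F o (mul_mem_F hf (sk3_ker o hg hg' hg'')) (by omega)
      rw [hK]
      rwa [mul_sub, map_sub, mul_comm f (algebraMap _ _ _), ← Algebra.smul_def, map_smul, hJ,
        smul_zero, sub_zero] at h4
  have h4 : ∀ g ∈ LinearMap.ker A, g ∈ K := by
    refine sk3_red (p := p) (A := B) (by rw [← tE_ppow, sk3_ppow_D1]) _ _ ?_
      (fun g => (hK _).2 (sk3_J_der o ((fr k p o).J_Δ _) h1 g)) fun g hg hg' => h3 g ⟨hg, hg'⟩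
    intro g hg
    change (fr k p o).Δ _ ((fr k p o).Δ _ g) = 0
    rw [Frame.Δ_Δ, show (fr k p o).Δ none g = 0 from hg, map_zero]
  have h5 := sk3_red (p := p) (A := A) (by rw [← tE_ppow, sk3_ppow_R]) ⊤ K (fun _ _ => trivial)
    (fun g => (hK _).2 (sk3_J_der o ((fr k p o).J_Δ _) h0 g)) fun g _ hg => h4 g hg
  exact (fr k p o).J_nondeg fun g => (hK g).1 (h5 g trivial)

variable (p) in
/-- the function defining the character -/
noncomputable def sk3φ (ν : k) : O k p (Kv m) := x k p (some (.inl o)) + ν • sk3ψ k p o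

variable (ν : k)

omit [Fact p.Prime] [CharP k p] in
theorem sk3_φ_G : sk3φ p o ν ∈ G k p (sk3w o) 2 := by
  refine add_mem ?_ (Submodule.smul_mem _ _ (sk3_ψ_G o))
  simpa [sk3w] using x_mem_G (k := k) (p := p) (w := sk3w o) (some (.inl o))

theorem sk3_R_φ : R k p o (sk3φ p o ν) = 0 := by
  rw [sk3φ, map_add, Derivation.map_smul, sk3_R_ψ, R, sk3_Δ_x o (by simp)]
  simp

theorem sk3_D1_φ : (fr k p o).Δ (some (.inr o)) (sk3φ p o ν) = 0 := by
  rw [sk3φ, map_add, Derivation.map_smul, sk3_D1_ψ, sk3_Δ_x o (by simp)]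
  simp

theorem sk3_ct_φ : ct p o κ (sk3φ p o ν) =
    (fr k p o).Δ (some (.inr o)) + κ • -R k p o + ν • diag k p (sk3c k o) := by
  have h : x k p (some (.inl o) : Kv m) = c p o κ o - κ • 1 := by
    simp [c, Algebra.algebraMap_eq_smul_one]
  rw [sk3φ, map_add, map_smul, sk3_ct_ψ, h, map_sub, map_smul, ct_c, ct_one, smul_neg,
    sub_eq_add_neg]

theorem sk3_br_φ (f : O k p (Kv m)) : br p o κ (sk3φ p o ν) f = ct p o κ (sk3φ p o ν) f := by
  rw [br, sk3_R_φ, zero_mul, sub_zero]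

theorem sk3_ct_self {f : O k p (Kv m)} (hf : R k p o f = 0) : ct p o κ f f = 0 := by
  rw [ct_apply, hf, mul_zero, zero_add]
  exact Finset.sum_eq_zero fun i _ => by ring

theorem sk3_V_R (f : O k p (Kv m)) :
    ct p o κ (sk3φ p o ν) (R k p o f) = R k p o (ct p o κ (sk3φ p o ν) f) := by
  refine (sk3_comm ?_ f).symm
  rw [← ct_one o κ, lie_ct, br, ct_one, sk3_R_φ]
  simp

theorem sk3_eig {γ : k} (hγ : γ ≠ 0) {f : O k p (Kv m)} (hf : ct p o κ (sk3φ p o ν) f = γ • f)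
    {i : ℤ} (hi : i ≤ 2 * (m * ((p : ℤ) - 1)))
    (h : ∀ g ∈ F k p (sk3w o) i, (fr k p o).J g = 0 →
      (fr k p o).J (sk3φ p o ν * br p o κ f g) = 0) :
    f ∈ F k p (sk3w o) (2 * (m * ((p : ℤ) - 1)) + 1 - i) := by
  set T := γ • f - ((m : k) + 3) • (sk3φ p o ν * R k p o f) with hT
  have h1 := (fr k p o).mem_F_of_perp (log_u_mem_G _ (sk3w_S o)) (f := T) (i := i)
    fun g hg hJ => by rw [hT, ← hf, ← J_mul_br o κ (sk3_R_φ o ν)]; exact h g hg hJ
  rw [sk3_topw] at h1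
  generalize hj : 2 * (m * ((p : ℤ) - 1)) + 1 - i = j at h1 ⊢
  have hVT : ct p o κ (sk3φ p o ν) T = γ • T := by
    simp only [hT, map_sub, Derivation.map_smul, Derivation.leibniz, sk3_V_R, hf,
      sk3_ct_self o κ (sk3_R_φ o ν), smul_eq_mul, mul_zero, add_zero, smul_sub, mul_smul_comm]
    rw [smul_comm γ ((m : k) + 3)]
  have h2 := FW_apply (sk3_ct_FW o κ (G_le_F le_rfl (sk3_φ_G o ν))) h1
  rw [map_sub, Derivation.map_algebraMap, sub_zero, hVT, sub_self, zero_add,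
    Submodule.smul_mem_iff _ hγ] at h2
  have h3 : ∀ n : ℕ, f ∈ F k p (sk3w o) (min j n) := by
    intro n
    induction n with
    | zero => exact mem_F_of_nonpos (sk3w_nonneg o) (by omega) f
    | succ n ih =>
      rw [← Submodule.smul_mem_iff _ hγ, show γ • f = T + _ from (sub_add_cancel _ _).symm]
      refine add_mem (F_anti (by omega) h2) (Submodule.smul_mem _ _ (F_anti ?_
        (mul_mem_F (G_le_F le_rfl (sk3_φ_G o ν)) (sk3_R_F o ih))))
      omega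
  exact F_anti (by omega) (h3 j.toNat)

theorem sk3_V_ker (hp : 5 ≤ p) (hκ : κ ^ p ≠ κ) {ρ : k} (hρ : ρ ^ p ≠ ρ)
    (hν : ν ^ p - ν = ρ * (κ ^ p - κ)) {f : O k p (Kv m)} (hf : ct p o κ (sk3φ p o ν) f = 0) :
    (fr k p o).Δ (some (.inr o)) f = 0 ∧ R k p o f = 0 ∧ diag k p (sk3c k o) f = 0 := by
  have ho : Odd p := (Fact.out : p.Prime).odd_of_ne_two (by omega)
  have hc : ∀ {D E : W k p (Kv m)}, ⁅D, E⁆ = 0 → Commute (tE k p _ D) (tE k p _ E) :=
    fun h => LinearMap.ext fun g => sk3_comm h g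
  have h := tor_ker₃ (A := tE k p _ ((fr k p o).Δ (some (.inr o)))) (B := -tE k p _ (R k p o))
    (C := tE k p _ (diag k p (sk3c k o))) (by rw [← tE_ppow, sk3_ppow_D1])
    (by rw [ho.neg_pow, ← tE_ppow, sk3_ppow_R]) (by rw [← tE_ppow, sk3_ppow_diag o hp])
    (hc ((fr k p o).comm _ _)).neg_right (hc (sk3_lie_D1 o)) (hc (sk3_lie_R o)).neg_left hκ hρ hν
    (f := f) (by
      rw [sk3_ct_φ] at hf
      rw [show (tE k p _ ((fr k p o).Δ (some (.inr o))) + κ • -tE k p _ (R k p o) +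
        ν • tE k p _ (diag k p (sk3c k o))) f = 0 from hf, map_zero])
  exact ⟨h.1, neg_eq_zero.1 h.2.1, h.2.2⟩

theorem sk3_br_B {j : ℤ} {f g : O k p (Kv m)}
    (hf : f ∈ Submodule.span k {1} ⊔ F k p (sk3w o) 2) (hg : g ∈ F k p (sk3w o) j) :
    br p o κ f g ∈ F k p (sk3w o) j ∧ R k p o f ∈ F k p (sk3w o) 2 ∧
      ct p o κ f ∈ FW k p (sk3w o) 0 := by
  obtain ⟨a, ha, b, hb, rfl⟩ := Submodule.mem_sup.1 hf
  obtain ⟨a, rfl⟩ := Submodule.mem_span_singleton.1 ha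
  have h1 : R k p o (a • 1 + b) ∈ F k p (sk3w o) 2 := by
    simpa using sk3_R_F o hb
  have h2 : ct p o κ (a • 1 + b) ∈ FW k p (sk3w o) 0 := by
    rw [map_add, map_smul, ct_one]
    exact add_mem (Submodule.smul_mem _ _ (sk3_R_FW o))
      (FW_anti (by omega) (sk3_ct_FW o κ hb))
  exact ⟨sub_mem (F_anti (by omega) (FW_apply h2 hg)) (F_anti (by omega) (mul_mem_F h1 hg)),
    h1, h2⟩

theorem sk3_ct_t (f : O k p (Kv m)) : ct p o κ f (1 + x k p (some (.inr o))) =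
    pd k p (some (.inl o)) f * (1 + x k p (some (.inr o))) := by
  have hR : R k p o (1 + x k p (some (.inr o))) = 0 := by
    simp [R, sk3_Δ_x o]
  rw [ct_apply, hR, mul_zero, zero_add, Finset.sum_eq_single o]
  · have h1 : (fr k p o).Δ (some (.inr o)) (x k p (some (.inr o))) =
        1 + x k p (some (.inr o)) := by
      change (lg k p _ _ • pd k p _) _ = _
      simp [lg, pd_x_self]
    have h2 : P k p o o f = pd k p (some (.inl o)) f := by
      change (lg k p _ _ • pd k p _) _ = _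
      simp [lg]
    rw [h2, Q, Derivation.sub_apply, Derivation.smul_apply, hR]
    simp [P, sk3_Δ_x o, h1]
  · intro i _ hi
    rw [Q, Derivation.sub_apply, Derivation.smul_apply, hR]
    simp [P, sk3_Δ_x o, hi.symm]
  · simp

theorem sk3_eig_iff {γ : k} {f : O k p (Kv m)}
    (h : ⁅ct p o κ (sk3φ p o ν), ct p o κ f⁆ = γ • ct p o κ f) :
    ct p o κ (sk3φ p o ν) f = γ • f := by
  rw [lie_ct, ← map_smul, sk3_br_φ] at h
  exact sk3_ct_inj o κ h

end aux

variable {k : Type*} [Field k] [IsAlgClosed k] {p : ℕ} [Fact p.Prime] [CharP k p] {m : ℕ}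
  (o : Fin m) {κ : k}

theorem fails_GK (hp : 5 ≤ p) (hκ : κ ^ p ≠ κ) : Fails k p (pw (GK p o κ)) := by
  obtain ⟨ρ, hρ⟩ := exists_not_fixed (k := k) (p := p)
  obtain ⟨ν, hν⟩ : ∃ ν : k, ν ^ p - ν = ρ * (κ ^ p - κ) := by
    have hd : (Polynomial.X ^ p - (Polynomial.X + Polynomial.C (ρ * (κ ^ p - κ)))).degree =
        (p : WithBot ℕ) := by
      rw [Polynomial.degree_sub_eq_left_of_degree_lt] <;> rw [Polynomial.degree_X_pow]
      rw [Polynomial.degree_X_add_C]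
      exact_mod_cast (by omega : 1 < p)
    obtain ⟨ν, hν⟩ := IsAlgClosed.exists_root _
      (hd.trans_ne (by exact_mod_cast (by omega : p ≠ 0)))
    refine ⟨ν, ?_⟩
    simp only [Polynomial.IsRoot, Polynomial.eval_sub, Polynomial.eval_pow, Polynomial.eval_X,
      Polynomial.eval_add, Polynomial.eval_C] at hν
    linear_combination hν
  have hm : (1 : ℤ) ≤ m := by have := o.pos; omega
  have hp' : (5 : ℤ) ≤ p := by omega
  obtain ⟨N, hN⟩ : ∃ N : ℤ, N = m * ((p : ℤ) - 1) := ⟨_, rfl⟩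
  have hNp : (p : ℤ) - 1 ≤ N := by nlinarith
  have hφ := sk3_φ_G (k := k) (p := p) o ν
  have hφ' := G_le_F le_rfl hφ
  have hcG : c p o κ o ∈ Submodule.span k {1} ⊔ F k p (sk3w o) 2 := by
    rw [c, if_pos rfl, add_comm, Algebra.algebraMap_eq_smul_one]
    refine Submodule.add_mem_sup (Submodule.smul_mem _ _ (Submodule.mem_span_singleton_self _)) ?_
    simpa [sk3w] using G_le_F le_rfl (x_mem_G (k := k) (p := p) (w := sk3w o) (some (.inl o)))
  have hg : ∀ f, (fr k p o).J f = 0 → ct p o κ f ∈ GK p o κ := fun f h => ⟨f, fun _ => h, rfl⟩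
  let χ : Dual k (W k p (Kv m)) :=
    (fr k p o).J ∘ₗ LinearMap.mulLeft k (sk3φ p o ν) ∘ₗ (alM p o κ).restrictScalars k
  have hχ : ∀ f, χ (ct p o κ f) = (fr k p o).J (sk3φ p o ν * f) := fun f => by
    change (fr k p o).J (sk3φ p o ν * alM p o κ _) = _
    rw [alM_ct]
  have hχ' : ∀ f g, χ ⁅ct p o κ f, ct p o κ g⁆ = (fr k p o).J (sk3φ p o ν * br p o κ f g) :=
    fun f g => by rw [lie_ct, hχ]
  have hker : ∀ f, ⁅ct p o κ (sk3φ p o ν), ct p o κ f⁆ = 0 → _ := fun f h =>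
    sk3_V_ker o κ ν hp hκ hρ hν (f := f)
      ((sk3_eig_iff o κ ν (γ := 0) (by rw [h, zero_smul])).trans (zero_smul _ _))
  have hRc : R k p o (c p o κ o) = 0 := sk3_Δ_c o κ (by simp)
  refine fails_W (by omega) (GK p o κ) (GK_ppow o κ hp) (GK_center o κ hp) χ
    (ct p o κ (sk3φ p o ν)) (ct p o κ (c p o κ o)) (hg _ (sk3_J_G o hφ (by omega))) ?_
    ((Submodule.span k {1} ⊔ F k p (sk3w o) 2).map (ct p o κ))
    ((F k p (sk3w o) N).map (ct p o κ)) ((F k p (sk3w o) (N + 1)).map (ct p o κ))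
    ((F k p (sk3w o) (2 * N - 1) ⊓ LinearMap.ker (fr k p o).J).map (ct p o κ))
    (Submodule.map_mono (le_sup_of_le_right (F_anti (by omega))))
    (Submodule.map_mono (F_anti (by omega)))
    (Submodule.map_mono (inf_le_of_left_le (F_anti (by omega)))) ?_ ?_ ?_ ?_ ?_
    ⟨_, Submodule.mem_sup_right hφ', rfl⟩ ?_ ⟨_, hcG, rfl⟩ ?_ ?_ ?_ ?_ ?_ ?_ ?_ ?_ ?_ ?_ ?_
    (1 + x k p (some (.inr o))) (F k p (sk3w o) 1) ?_ ?_ ?_ ?_ ?_
  · refine hg _ ?_
    rw [c, if_pos rfl, map_add, sk3_J_G o (algebraMap_mem_G _) (by omega),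
      sk3_J_G o (x_mem_G _) (by simp only [sk3w, if_true]; omega), add_zero]
  · rintro _ - ⟨f, hf, rfl⟩ _ - ⟨g, hg, rfl⟩
    exact ⟨_, (sk3_br_B o κ hf hg).1, (lie_ct o κ f g).symm⟩
  · rintro _ - ⟨f, hf, rfl⟩ _ - ⟨g, hg, rfl⟩
    exact ⟨_, (sk3_br_B o κ hf hg).1, (lie_ct o κ f g).symm⟩
  · rintro _ - ⟨f, hf, rfl⟩ _ - ⟨g, ⟨hg, -⟩, rfl⟩
    refine ⟨_, ⟨(sk3_br_B o κ hf hg).1, ?_⟩, (lie_ct o κ f g).symm⟩
    change (fr k p o).J _ = 0
    rw [J_br, sk3_J_F o (mul_mem_F hg (sk3_br_B o κ hf hg).2.1) (by omega), mul_zero]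
  · rintro _ - ⟨f, hf, rfl⟩ _ - ⟨g, hg, rfl⟩
    exact ⟨_, F_anti (by omega) (sk3_br_F o κ hf hg), (lie_ct o κ f g).symm⟩
  · rintro _ - ⟨f, hf, rfl⟩ _ - ⟨g, hg, rfl⟩
    refine ⟨_, ⟨F_anti (by omega) (sk3_br_F o κ hf hg), ?_⟩, (lie_ct o κ f g).symm⟩
    change (fr k p o).J _ = 0
    rw [J_br, sk3_J_F o (mul_mem_F hg (sk3_R_F o hf)) (by omega), mul_zero]
  · have hc : ∀ {D E : W k p (Kv m)}, ⁅D, E⁆ = 0 →
        Commute (LieAlgebra.ad k _ D) (LieAlgebra.ad k _ E) := fun {D E} h =>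
      LinearMap.ext fun Y => by
        change ⁅D, ⁅E, Y⁆⁆ = ⁅E, ⁅D, Y⁆⁆
        rw [leibniz_lie, h, zero_lie, zero_add]
    rw [sk3_ct_φ, map_add, map_add, map_smul, map_smul, map_neg]
    refine End.IsSemisimple.add_of_commute ?_ (End.IsSemisimple.add_of_commute ?_
      (ad_semisimple (sk3_ppow_D1 o)) (End.IsSemisimple_smul _ (End.isSemisimple_neg.2
        (ad_semisimple (sk3_ppow_R o)))))
      (End.IsSemisimple_smul _ (ad_semisimple (sk3_ppow_diag o hp)))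
    · exact ((hc (sk3_lie_D1 o)).add_left ((hc (sk3_lie_R o)).neg_left.smul_left _)).smul_right _
    · exact (hc ((fr k p o).comm _ _)).neg_right.smul_right _
  · rw [ct_c, sk3_ppow_D1]
  · rintro _ ⟨f, -, rfl⟩ h
    rw [lie_ct, br, ct_c, (hker f h).1, hRc, zero_mul, sub_zero, map_zero]
  · rintro _ ⟨f, -, rfl⟩
    rw [hχ', J_mul_br o κ (sk3_R_φ o ν), sk3_ct_self o κ (sk3_R_φ o ν), sk3_R_φ]
    simp
  · rintro _ ⟨f, -, rfl⟩
    rw [hχ', J_mul_br o κ (sk3_R_φ o ν), ← sk3_br_φ, br_skew, br, ct_c, sk3_D1_φ, hRc]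
    simp
  · rintro _ - ⟨f, ⟨hf, -⟩, rfl⟩
    rw [hχ, sk3_J_F o (mul_mem_F hφ' hf) (by omega)]
  · rintro γ hγ _ ⟨f, -, rfl⟩ h h'
    refine ⟨f, F_anti (by omega) (sk3_eig o κ ν hγ (sk3_eig_iff o κ ν h) (i := N) (by omega)
      fun g hg' hJ => ?_), rfl⟩
    rw [← hχ']
    exact h' _ (hg g hJ) ⟨g, hg', rfl⟩
  · rintro γ hγ _ ⟨f, -, rfl⟩ h h'
    refine ⟨f, F_anti (by omega) (sk3_eig o κ ν hγ (sk3_eig_iff o κ ν h) (i := N + 1) (by omega)
      fun g hg' hJ => ?_), rfl⟩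
    rw [← hχ']
    exact h' _ (hg g hJ) ⟨g, hg', rfl⟩
  · rintro _ ⟨f, -, rfl⟩ h -
    obtain ⟨h1, h0, h2⟩ := hker f h
    refine ⟨f, ?_, rfl⟩
    rw [← add_sub_cancel (algebraMap k _ (ev k p _ f)) f, Algebra.algebraMap_eq_smul_one]
    refine Submodule.add_mem_sup (Submodule.smul_mem _ _ (Submodule.mem_span_singleton_self _)) ?_
    rw [← Algebra.algebraMap_eq_smul_one]
    exact sk3_ker o h0 h1 h2
  · rintro γ hγ _ ⟨f, -, rfl⟩ h h'
    have h1 := sk3_eig o κ ν hγ (sk3_eig_iff o κ ν h) (i := 0) (by omega) fun g _ hJ => by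
      rw [← hχ']
      exact h' _ (hg g hJ)
    rw [eq_zero_of_F_top (sk3w_nonneg o) (by rw [sk3_topw]; omega) h1, map_zero]
  · rintro _ - ⟨f, ⟨hf, hJ⟩, rfl⟩ h'
    have h0 : sk3φ p o ν * R k p o f = 0 := eq_zero_of_F_top (sk3w_nonneg o)
      (by rw [sk3_topw]; omega) (mul_mem_F hφ' (sk3_R_F o hf))
    have h1 := (fr k p o).mem_F_of_perp (log_u_mem_G _ (sk3w_S o))
      (f := ct p o κ (sk3φ p o ν) f) (i := 0) fun g _ hJ => by
        have := h' _ (hg g hJ)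
        rwa [hχ', J_mul_br o κ (sk3_R_φ o ν), h0, smul_zero, sub_zero] at this
    rw [ev_of_F (FW_apply (sk3_ct_FW o κ hφ') hf) (by omega), map_zero, sub_zero, sub_zero] at h1
    have h5 := eq_zero_of_F_top (sk3w_nonneg o) (by omega) h1
    obtain ⟨h3, h2, h4⟩ := sk3_V_ker o κ ν hp hκ hρ hν h5
    rw [sk3_top o hp h2 h3 h4 (hN ▸ hf) hJ, map_zero]
  · rintro _ - ⟨f, hf, rfl⟩
    refine W_ext fun l => ?_
    rw [Derivation.zero_apply]
    refine eq_zero_of_F_top (sk3w_nonneg o) ?_ (mem_FW.1 (ppow_mem_FW (sk3_ct_FW o κ hf)) l)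
    have := sk3w_nonneg o l
    rw [sk3_topw, ← hN]
    nlinarith
  · intro h
    have := ev_of_F h one_pos
    simp [ev_x] at this
  · rw [sk3_ct_t, c, if_pos rfl, map_add, Derivation.map_algebraMap, pd_x_self, add_zero, one_mul]
  · rintro _ - ⟨f, hf, rfl⟩ g hg
    exact F_anti (by omega) (FW_apply (sk3_br_B o κ hf hg).2.2 hg)
  · rintro _ - ⟨f, hf, rfl⟩
    exact F_anti (by omega) (FW_apply (sk3_ct_FW o κ hf) (sk3_F0 o _))
  · rintro _ ⟨f, -, rfl⟩ - h
    obtain ⟨h1, h0, -⟩ := hker f h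
    have h2 := sk3_sub_ev o (f := pd k p (some (.inl o)) f)
      (by rw [pd_pd, sk3_pd_of_Δ o h0, map_zero]) (by rw [pd_pd, sk3_pd_of_Δ o h1, map_zero])
    refine ⟨ev k p _ (pd k p (some (.inl o)) f), ?_⟩
    rw [sk3_ct_t, Algebra.smul_def, ← sub_mul]
    exact F_anti (by omega) (mul_mem_F h2 (sk3_F0 o _))

end Pool.Agent.Cart.Km
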