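import Pool.Agent.P.MP_c9b50d_al.C.SK1

/-! The series K: the twisted contact form is equivalent to the standard one. -/

namespace Pool.Agent.Cart.Km

open Module

variable {k : Type*} [Field k] {p : ℕ} [Fact p.Prime] [CharP k p] {m : ℕ} (o : Fin m) (κ : k)

/-- the truncated binomial series -/
theorem sk4_series {σ : Type} (i : σ) (n : ℕ) (hn : n < p) :
    ∃ (G : O k p σ) (γ : k), ev k p σ G = 1 ∧ (∀ S : Subalgebra k (O k p σ), x k p i ∈ S → G ∈ S) ∧
      ∀ D : W k p σ, (1 + x k p i) * D G =
        (algebraMap k _ κ * G + algebraMap k _ γ * x k p i ^ n) * D (x k p i) := by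
  induction n with
  | zero =>
    refine ⟨1, -κ, map_one _, fun S _ => S.one_mem, fun D => ?_⟩
    simp
  | succ n ih =>
    obtain ⟨G, γ, h1, h2, h3⟩ := ih (by omega)
    have hne : ((n + 1 : ℕ) : k) ≠ 0 := by
      intro h
      have := (CharP.cast_eq_zero_iff k p _).1 h
      exact absurd (Nat.le_of_dvd (Nat.succ_pos n) this) (by omega)
    set a : k := -γ / ((n + 1 : ℕ) : k) with ha
    have hγ : γ = -(a * ((n + 1 : ℕ) : k)) := by
      rw [ha, div_mul_cancel₀ _ hne, neg_neg]
    refine ⟨G + algebraMap k _ a * x k p i ^ (n + 1), a * ((n + 1 : ℕ) : k) - κ * a, ?_, ?_, ?_⟩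
    · simp [h1, ev_x]
    · intro S hS
      exact S.add_mem (h2 S hS) (S.mul_mem (S.algebraMap_mem a) (S.pow_mem hS _))
    · intro D
      have hD : D (algebraMap k (O k p σ) a * x k p i ^ (n + 1)) =
          algebraMap k _ a * (((n + 1 : ℕ) : O k p σ) * x k p i ^ n * D (x k p i)) := by
        rw [Derivation.leibniz, Derivation.map_algebraMap, Derivation.leibniz_pow]
        simp only [smul_eq_mul, mul_zero, add_zero, nsmul_eq_mul, Nat.add_sub_cancel]
        ring
      rw [map_add, mul_add, h3 D, hD, hγ]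
      simp only [map_neg, map_mul, map_sub, map_natCast]
      ring

theorem sk4_alM (Y : W k p (Kv m)) : alM p o κ Y =
    (1 + x k p none) ^ (p - 1) * Y (x k p none) +
      ∑ i, c p o κ i * ((if i = o then (1 + x k p (some (.inr o))) ^ (p - 1) else 1) *
        Y (x k p (some (.inr i)))) := by
  simp only [alM, LinearMap.add_apply, LinearMap.coe_sum, Finset.sum_apply, LinearMap.smul_apply,
    smul_eq_mul]
  refine congrArg₂ (· + ·) ?_ ?_
  · show lg k p ({none, some (.inr o)} : Finset (Kv m)) none ^ (p - 1) * Y (x k p none) = _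
    simp [lg]
  · refine Finset.sum_congr rfl fun i _ => ?_
    refine congrArg (c p o κ i * ·) ?_
    show lg k p ({none, some (.inr o)} : Finset (Kv m)) (some (.inr i)) ^ (p - 1) *
      Y (x k p (some (.inr i))) = _
    by_cases h : i = o
    · subst h; simp [lg]
    · simp [lg, h]

omit [CharP k p] in
theorem sk4_pow_succ {A : Type*} [Monoid A] (a : A) : a * a ^ (p - 1) = a ^ p := by
  have := (Fact.out : p.Prime).pos
  rw [← pow_succ', Nat.sub_add_cancel this]

theorem sk4_inv {σ : Type} {f : O k p σ} (h : ev k p σ f = 1) : f * f ^ (p - 1) = 1 := by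
  rw [sk4_pow_succ, pow_char, h, one_pow, map_one]

theorem sk4_nil {σ : Type} {f : O k p σ} (h : ev k p σ f = 0) : f ^ p = 0 := by
  rw [pow_char, h, zero_pow (Fact.out : p.Prime).ne_zero, map_zero]

theorem sk4_main (hp : 3 ≤ p) : ∃ (Φ : O k p (Kv m) ≃ₐ[k] O k p (Kv m)) (w w' : O k p (Kv m)),
    w * w' = 1 ∧ ∀ Y : W k p (Kv m), Φ (al Y) = w * alM p o κ (conj Φ Y) := by
  obtain ⟨G, γ, hG1, hG2, hG3⟩ := sk4_series (k := k) (p := p) κ (some (.inr o) : Kv m) (p - 1)
    (by omega)
  have h2 : (2 : k) ≠ 0 := by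
    intro h
    have h' : ((2 : ℕ) : k) = 0 := by exact_mod_cast h
    have := (CharP.cast_eq_zero_iff k p _).1 h'
    exact absurd (Nat.le_of_dvd (by norm_num) this) (by omega)
  set H : O k p (Kv m) := algebraMap k _ (2 : k)⁻¹ with hH
  have hHH : H + H = 1 := by
    rw [hH, ← map_add, ← two_mul, mul_inv_cancel₀ h2, map_one]
  set z : O k p (Kv m) := x k p none with hz
  set y : Fin m → O k p (Kv m) := fun i => x k p (some (.inr i)) with hy
  set u : Fin m → O k p (Kv m) := fun i => x k p (some (.inl i)) with hu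
  set X : Fin m → O k p (Kv m) := fun i => if i = o then
    (1 + z) * (1 + y o) ^ (p - 1) * (G * u o - algebraMap k _ γ * y o ^ (p - 1))
    else (1 + z) * G * u i with hX
  have evz : ev k p _ z = 0 := ev_x _
  have evy : ∀ i, ev k p _ (y i) = 0 := fun i => ev_x _
  have evu : ∀ i, ev k p _ (u i) = 0 := fun i => ev_x _
  have hp1 : p - 1 ≠ 0 := by omega
  have evX : ∀ i, ev k p _ (X i) = 0 := by
    intro i
    by_cases h : i = o
    · simp [hX, h, evy, evu, hp1]
    · simp [hX, h, evu]
  set s : Kv m → O k p (Kv m) := fun v => match v with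
    | none => (1 + z) * G - 1 + ∑ i, H * X i * y i
    | some (.inl i) => H * X i
    | some (.inr i) => y i with hs
  have hs0 : ∀ v, s v ^ p = 0 := by
    intro v
    apply sk4_nil
    rcases v with _ | i | i
    · simp [hs, evz, hG1, evy]
    · simp [hs, evX]
    · exact evy i
  set φ := subst s hs0 with hφ
  have hφz : φ z = (1 + z) * G - 1 + ∑ i, H * X i * y i := subst_x s hs0 none
  have hφu : ∀ i, φ (u i) = H * X i := fun i => subst_x s hs0 (some (.inl i))
  have hφy : ∀ i, φ (y i) = y i := fun i => subst_x s hs0 (some (.inr i))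
  have i0 : (1 + z) * (1 + z) ^ (p - 1) = 1 := sk4_inv (by simp [evz])
  have i1 : (1 + y o) * (1 + y o) ^ (p - 1) = 1 := sk4_inv (by simp [evy])
  have iG : G * G ^ (p - 1) = 1 := sk4_inv hG1
  have hsurj : Function.Surjective φ := by
    set S := φ.range with hS
    have my : ∀ i, y i ∈ S := fun i => ⟨y i, hφy i⟩
    have mHX : ∀ i, H * X i ∈ S := fun i => ⟨u i, hφu i⟩
    have mX : ∀ i, X i ∈ S := by
      intro i
      have : X i = H * X i + H * X i := by rw [← add_mul, hHH, one_mul]
      rw [this]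
      exact S.add_mem (mHX i) (mHX i)
    have mG : G ∈ S := hG2 S (my o)
    have mtG : (1 + z) * G ∈ S := by
      have h1 : φ z ∈ S := ⟨z, rfl⟩
      have : (1 + z) * G = φ z + 1 - ∑ i, H * X i * y i := by rw [hφz]; ring
      rw [this]
      exact S.sub_mem (S.add_mem h1 S.one_mem)
        (S.sum_mem fun i _ => S.mul_mem (mHX i) (my i))
    have mt : 1 + z ∈ S := by
      have : 1 + z = (1 + z) * G * G ^ (p - 1) := by rw [mul_assoc, iG, mul_one]
      rw [this]
      exact S.mul_mem mtG (S.pow_mem mG _)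
    have mz : z ∈ S := by
      have : z = 1 + z - 1 := by ring
      rw [this]
      exact S.sub_mem mt S.one_mem
    have mu : ∀ i, u i ∈ S := by
      intro i
      by_cases h : i = o
      · have e : u i = G ^ (p - 1) * (X o * (1 + z) ^ (p - 1) * (1 + y o) +
            algebraMap k _ γ * y o ^ (p - 1)) := by
          have : X o = (1 + z) * (1 + y o) ^ (p - 1) *
              (G * u o - algebraMap k _ γ * y o ^ (p - 1)) := by simp [hX]
          rw [this, h]
          linear_combination (-(u o)) * iG - G ^ (p - 1) *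
            (G * u o - algebraMap k _ γ * y o ^ (p - 1)) * ((1 + y o) * (1 + y o) ^ (p - 1)) * i0 -
            G ^ (p - 1) * (G * u o - algebraMap k _ γ * y o ^ (p - 1)) * i1
        rw [e]
        exact S.mul_mem (S.pow_mem mG _) (S.add_mem
          (S.mul_mem (S.mul_mem (mX o) (S.pow_mem mt _)) (S.add_mem S.one_mem (my o)))
          (S.mul_mem (S.algebraMap_mem _) (S.pow_mem (my o) _)))
      · have e : u i = G ^ (p - 1) * (X i * (1 + z) ^ (p - 1)) := by
          have : X i = (1 + z) * G * u i := by simp [hX, h]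
          rw [this]
          linear_combination (-(u i)) * iG - G ^ (p - 1) * G * u i * i0
        rw [e]
        exact S.mul_mem (S.pow_mem mG _) (S.mul_mem (mX i) (S.pow_mem mt _))
    intro f
    show f ∈ S
    refine O_ind (P := fun f => f ∈ S) (fun a => S.algebraMap_mem a)
      (fun f g hf hg => S.add_mem hf hg) (fun f v hf => S.mul_mem hf ?_) f
    rcases v with _ | i | i
    · exact mz
    · exact mu i
    · exact my i
  have hinj : Function.Injective φ :=
    (LinearMap.injective_iff_surjective (f := φ.toLinearMap)).2 hsurj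
  refine ⟨AlgEquiv.ofBijective φ ⟨hinj, hsurj⟩, (1 + z) * G, (1 + z) ^ (p - 1) * G ^ (p - 1),
    by linear_combination G * G ^ (p - 1) * i0 + iG, fun Y => ?_⟩
  set Φ := AlgEquiv.ofBijective φ ⟨hinj, hsurj⟩ with hΦ
  have hΦφ : ∀ f, Φ f = φ f := fun f => rfl
  set E := conj Φ Y with hE
  have hc : ∀ f, Φ (Y f) = E (φ f) := fun f => (conj_apply Φ Y f).symm
  have hEH : E H = 0 := Derivation.map_algebraMap _ _
  have e1 : Φ (al Y) = E ((1 + z) * G) + ∑ i, X i * E (y i) := by
    have : Φ (al Y) = Φ (Y z) + ∑ i, (Φ (u i) * Φ (Y (y i)) - Φ (y i) * Φ (Y (u i))) := by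
      simp only [al, map_add, map_sum, map_sub, map_mul]
      rfl
    rw [this]
    simp only [hc, hΦφ (u _), hΦφ (y _), hφz, hφu, hφy, map_add, map_sub, map_sum,
      Derivation.map_one_eq_zero, sub_zero, add_assoc, ← Finset.sum_add_distrib]
    congr 1
    refine Finset.sum_congr rfl fun i _ => ?_
    simp only [Derivation.leibniz, hEH, smul_eq_mul]
    linear_combination X i * E (y i) * hHH
  rw [e1, sk4_alM, mul_add, Finset.mul_sum, ← Finset.add_sum_erase _ _ (Finset.mem_univ o),
    ← Finset.add_sum_erase _ _ (Finset.mem_univ o), ← add_assoc, ← add_assoc]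
  congr 1
  · have hXo : X o = (1 + z) * (1 + y o) ^ (p - 1) *
        (G * u o - algebraMap k _ γ * y o ^ (p - 1)) := by simp [hX]
    have hco : c p o κ o = u o + algebraMap k _ κ := by simp [c, hu]
    have h3 := hG3 E
    rw [hXo, hco, if_pos rfl, Derivation.leibniz, map_add, Derivation.map_one_eq_zero]
    simp only [smul_eq_mul]
    change (1 + y o) * E G = (algebraMap k _ κ * G + algebraMap k _ γ * y o ^ (p - 1)) * E (y o)
      at h3
    change _ = (1 + z) * G * ((1 + z) ^ (p - 1) * E z) + (1 + z) * G *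
      ((u o + algebraMap k _ κ) * ((1 + y o) ^ (p - 1) * E (y o)))
    linear_combination (1 + z) * (1 + y o) ^ (p - 1) * h3 - (1 + z) * E G * i1 - G * E z * i0
  · refine Finset.sum_congr rfl fun i hi => ?_
    have h : i ≠ o := Finset.ne_of_mem_erase hi
    have hXi : X i = (1 + z) * G * u i := by simp [hX, h]
    have hci : c p o κ i = u i := by simp [c, hu, h]
    rw [hXi, hci, if_neg h]
    change _ = (1 + z) * G * (u i * (1 * E (y i)))
    ring

theorem exists_conj (hp : 3 ≤ p) : ∃ Φ : O k p (Kv m) ≃ₐ[k] O k p (Kv m), ∀ D : W k p (Kv m),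
    (∃ f, ∀ Y, D (al Y) - al ⁅D, Y⁆ = f * al Y) ↔ conj Φ D ∈ Kset p o κ := by
  obtain ⟨Φ, w, w', hw, h⟩ := sk4_main o κ hp
  refine ⟨Φ, fun D => ?_⟩
  have key : ∀ Y, Φ (D (al Y) - al ⁅D, Y⁆) = conj Φ D w * alM p o κ (conj Φ Y) +
      w * (conj Φ D (alM p o κ (conj Φ Y)) - alM p o κ ⁅conj Φ D, conj Φ Y⁆) := by
    intro Y
    rw [map_sub, ← conj_apply, h, h, LieEquiv.map_lie, Derivation.leibniz]
    simp only [smul_eq_mul]
    ring
  constructor
  · rintro ⟨f, hf⟩
    refine ⟨Φ f - w' * conj Φ D w, fun Y' => ?_⟩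
    obtain ⟨Y, rfl⟩ := (conj Φ).surjective Y'
    have := key Y
    rw [hf, map_mul, h] at this
    linear_combination (-w') * this - (conj Φ D (alM p o κ (conj Φ Y)) -
      alM p o κ ⁅conj Φ D, conj Φ Y⁆ - Φ f * alM p o κ (conj Φ Y)) * hw
  · rintro ⟨f, hf⟩
    refine ⟨Φ.symm (f + w' * conj Φ D w), fun Y => Φ.injective ?_⟩
    rw [key, hf, map_mul, h, AlgEquiv.apply_symm_apply]
    linear_combination (-(conj Φ D w * alM p o κ (conj Φ Y))) * hw

end Pool.Agent.Cart.Km
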