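import Pool.Agent.P.MP_c9b50d_al.C.Fr

/-! The series S: structure of the derived algebra. -/

namespace Pool.Agent.Cart

open Module

variable {k : Type*} [Field k] {p : ℕ} [Fact p.Prime] [CharP k p] {σ : Type} [Fintype σ]
  [DecidableEq σ]

theorem ss1_dd (i j : σ) (f : O k p σ) :
    (stdFrame k p σ).dd i j f = pd k p j f • pd k p i - pd k p i f • pd k p j := rfl

theorem ss1_dd_apply (i j : σ) (f g : O k p σ) :
    (stdFrame k p σ).dd i j f g = pd k p j f * pd k p i g - pd k p i f * pd k p j g := by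
  simp only [ss1_dd, Derivation.sub_apply, Derivation.smul_apply, smul_eq_mul]

theorem ss1_dd_self (i : σ) (f : O k p σ) : (stdFrame k p σ).dd i i f = 0 := by
  rw [ss1_dd, sub_self]

theorem ss1_dd_add (i j : σ) (f g : O k p σ) :
    (stdFrame k p σ).dd i j (f + g) = (stdFrame k p σ).dd i j f + (stdFrame k p σ).dd i j g := by
  simp only [ss1_dd, map_add, add_smul]
  abel

theorem ss1_dd_sub (i j : σ) (f g : O k p σ) :
    (stdFrame k p σ).dd i j (f - g) = (stdFrame k p σ).dd i j f - (stdFrame k p σ).dd i j g := by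
  simp only [ss1_dd, map_sub, sub_smul]
  abel

theorem ss1_dd_zero (i j : σ) : (stdFrame k p σ).dd i j (0 : O k p σ) = 0 := by
  simp only [ss1_dd, map_zero, zero_smul, sub_self]

theorem ss1_dd_x_left {i j : σ} (h : i ≠ j) (f : O k p σ) :
    (stdFrame k p σ).dd i j f (x k p i) = pd k p j f := by
  rw [ss1_dd_apply, pd_x_self, pd_x_ne h, mul_one, mul_zero, sub_zero]

theorem ss1_dd_x_right {i j : σ} (h : i ≠ j) (f : O k p σ) :
    (stdFrame k p σ).dd i j f (x k p j) = -pd k p i f := by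
  rw [ss1_dd_apply, pd_x_self, pd_x_ne h.symm, mul_one, mul_zero, zero_sub]

theorem ss1_dd_x_ne {i j l : σ} (hi : l ≠ i) (hj : l ≠ j) (f : O k p σ) :
    (stdFrame k p σ).dd i j f (x k p l) = 0 := by
  rw [ss1_dd_apply, pd_x_ne hi, pd_x_ne hj, mul_zero, mul_zero, sub_zero]

theorem ss1_pd_eq {l m : σ} (h : m ≠ l) : (stdFrame k p σ).dd l m (x k p m) = pd k p l := by
  rw [ss1_dd, pd_x_self, pd_x_ne h, one_smul, zero_smul, sub_zero]

theorem ss1_h_eq {l i : σ} (h : l ≠ i) : (stdFrame k p σ).dd l i (x k p l * x k p i) =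
    x k p l • pd k p l - x k p i • pd k p i := by
  simp only [ss1_dd, Derivation.leibniz, pd_x_self, pd_x_ne h, pd_x_ne h.symm, smul_eq_mul,
    mul_one, mul_zero, add_zero, zero_add]

theorem div_of_mem_span {D : W k p σ}
    (h : D ∈ Submodule.span k {E | ∃ i j f, E = (stdFrame k p σ).dd i j f}) :
    (stdFrame k p σ).div D = 0 := by
  induction h using Submodule.span_induction with
  | mem E hE =>
    obtain ⟨i, j, f, rfl⟩ := hE
    exact Frame.div_dd _ i j f
  | zero =>
    have := Frame.div_sub (stdFrame k p σ) 0 0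
    rwa [sub_self, sub_self] at this
  | add a b _ _ ha hb => rw [Frame.div_add, ha, hb, add_zero]
  | smul c a _ ha => rw [Frame.div_ksmul, ha, smul_zero]

theorem key_mem_span (D E : W k p σ) :
    ⁅D, E⁆ + (stdFrame k p σ).div D • E - (stdFrame k p σ).div E • D ∈
      Submodule.span k {E | ∃ i j f, E = (stdFrame k p σ).dd i j f} := by
  rw [Frame.key']
  exact Submodule.sum_mem _ fun i _ => Submodule.sum_mem _ fun j _ =>
    Submodule.subset_span ⟨i, j, _, rfl⟩

variable (k p σ) in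
/-- the span of the derivations `D_{ij}(f)` -/
noncomputable def GS : LieSubalgebra k (W k p σ) where
  toSubmodule := Submodule.span k {E | ∃ i j f, E = (stdFrame k p σ).dd i j f}
  lie_mem' {D E} hD hE := by
    simpa [div_of_mem_span hD, div_of_mem_span hE] using key_mem_span D E

theorem div_of_mem_GS {D : W k p σ} (h : D ∈ GS k p σ) : (stdFrame k p σ).div D = 0 :=
  div_of_mem_span h

theorem ss1_mem (i j : σ) (f : O k p σ) : (stdFrame k p σ).dd i j f ∈ GS k p σ :=
  Submodule.subset_span (s := {E | ∃ i j f, E = (stdFrame k p σ).dd i j f}) ⟨i, j, f, rfl⟩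

theorem ss1_ind {P : W k p σ → Prop} (hm : ∀ i j f, P ((stdFrame k p σ).dd i j f)) (h0 : P 0)
    (ha : ∀ a b, P a → P b → P (a + b)) (hs : ∀ (c : k) a, P a → P (c • a)) {D : W k p σ}
    (h : D ∈ GS k p σ) : P D := by
  have h' : D ∈ Submodule.span k {E | ∃ i j f, E = (stdFrame k p σ).dd i j f} := h
  clear h
  induction h' using Submodule.span_induction with
  | mem E hE =>
    obtain ⟨i, j, f, rfl⟩ := hE
    exact hm i j f
  | zero => exact h0
  | add a b _ _ h1 h2 => exact ha a b h1 h2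
  | smul c a _ h1 => exact hs c a h1

theorem dd_mem_GS (fr : Frame k p σ) (hu : fr.u = 1) (i j : σ) (f : O k p σ) :
    fr.dd i j f ∈ GS k p σ := by
  have h : ⁅f • fr.Δ i, fr.Δ j⁆ + (stdFrame k p σ).div (f • fr.Δ i) • fr.Δ j -
      (stdFrame k p σ).div (fr.Δ j) • f • fr.Δ i ∈ GS k p σ := key_mem_span _ _
  rw [← fr.div_eq (stdFrame k p σ) hu, ← fr.div_eq (stdFrame k p σ) hu, fr.div_smul, fr.div_Δ,
    fr.div_Δ, smul_lie_W, fr.comm] at h
  have h' := neg_mem h
  convert h' using 1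
  simp only [Frame.dd, smul_zero, mul_zero, add_zero, zero_smul, sub_zero, zero_sub]
  abel

theorem I_co_of_mem_GS (fr : Frame k p σ) (i : σ) {D : W k p σ} (h : D ∈ GS k p σ) :
    I k p σ (fr.co i D) = 0 := by
  refine ss1_ind (P := fun D => I k p σ (fr.co i D) = 0) ?_ ?_ ?_ ?_ h
  · intro a b f
    have h1 := fr.co_lie i (pd k p b) (pd k p a)
    rw [pd_comm, map_zero] at h1
    have h2 : fr.co i ((stdFrame k p σ).dd a b f) =
        pd k p b (f * fr.co i (pd k p a)) - pd k p a (f * fr.co i (pd k p b)) := by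
      simp only [ss1_dd, map_sub, map_smul, Derivation.leibniz, smul_eq_mul]
      linear_combination f * h1
    rw [h2, map_sub, I_pd, I_pd, sub_zero]
  · simp only [map_zero]
  · intro a b h1 h2
    rw [map_add, map_add, h1, h2, add_zero]
  · intro c a h1
    rw [← algebraMap_smul (O k p σ) c a, map_smul, algebraMap_smul, map_smul, h1, smul_zero]

theorem ss1_pd_mem (h3 : ∀ i j : σ, ∃ l, l ≠ i ∧ l ≠ j) (l : σ) : pd k p l ∈ GS k p σ := by
  obtain ⟨m, hm, -⟩ := h3 l l
  rw [← ss1_pd_eq hm]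
  exact ss1_mem _ _ _

theorem ss1_h_mem {l i : σ} (h : l ≠ i) :
    x k p l • pd k p l - x k p i • pd k p i ∈ GS k p σ := by
  rw [← ss1_h_eq h]
  exact ss1_mem _ _ _

theorem ss1_lie_pd (l i j : σ) (f : O k p σ) :
    ⁅pd k p l, (stdFrame k p σ).dd i j f⁆ = (stdFrame k p σ).dd i j (pd k p l f) :=
  (stdFrame k p σ).lie_Δ_dd l i j f

theorem ss1_perfect {i j l : σ} (hij : i ≠ j) (hi : l ≠ i) (hj : l ≠ j) (f : O k p σ) :
    (stdFrame k p σ).dd i j f =
      ⁅x k p l • pd k p l - x k p i • pd k p i, (stdFrame k p σ).dd i j f⁆ -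
      ⁅pd k p l, (stdFrame k p σ).dd i j (x k p l * f)⁆ +
      ⁅pd k p i, (stdFrame k p σ).dd i j (x k p i * f)⁆ := by
  rw [ss1_lie_pd, ss1_lie_pd, sub_lie, smul_lie_W, smul_lie_W, ss1_lie_pd, ss1_lie_pd,
    ss1_dd_x_left hij, ss1_dd_x_ne hi hj]
  refine Derivation.ext fun g => ?_
  simp only [ss1_dd_apply, Derivation.add_apply, Derivation.sub_apply, Derivation.smul_apply,
    Derivation.leibniz, smul_eq_mul, map_add, pd_x_self, pd_x_ne hi, pd_x_ne hj, pd_x_ne hij,
    mul_one, mul_zero, zero_mul, add_zero]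
  ring

theorem der_der_S (h3 : ∀ i j : σ, ∃ l, l ≠ i ∧ l ≠ j) :
    der (der {D : W k p σ | ∑ i, pd k p i (D (x k p i)) = 0} : Set (W k p σ)) = GS k p σ := by
  refine der_der_eq (GS k p σ) (fun D hD => div_of_mem_GS hD) ?_ ?_
  · intro a ha b hb
    have h : ⁅a, b⁆ + (stdFrame k p σ).div a • b - (stdFrame k p σ).div b • a ∈ GS k p σ :=
      key_mem_span a b
    have ha' : (stdFrame k p σ).div a = 0 := ha
    have hb' : (stdFrame k p σ).div b = 0 := hb
    rwa [ha', hb', zero_smul, zero_smul, add_zero, sub_zero] at h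
  · intro c hc
    refine ss1_ind (P := fun c => c ∈ Submodule.span k
      {D | ∃ a ∈ GS k p σ, ∃ b ∈ GS k p σ, D = ⁅a, b⁆}) ?_ (zero_mem _)
      (fun _ _ => add_mem) (fun c _ => Submodule.smul_mem _ c) hc
    intro i j f
    by_cases hij : i = j
    · subst hij
      rw [ss1_dd_self]
      exact zero_mem _
    obtain ⟨l, hi, hj⟩ := h3 i j
    rw [ss1_perfect hij hi hj]
    exact add_mem (sub_mem
      (Submodule.subset_span ⟨_, ss1_h_mem hi, _, ss1_mem _ _ _, rfl⟩)
      (Submodule.subset_span ⟨_, ss1_pd_mem h3 l, _, ss1_mem _ _ _, rfl⟩))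
      (Submodule.subset_span ⟨_, ss1_pd_mem h3 i, _, ss1_mem _ _ _, rfl⟩)

theorem ss1_ppow_dd (i j : σ) (f : O k p σ) :
    ∃ q, ppow ((stdFrame k p σ).dd i j f) = (stdFrame k p σ).dd i j q := by
  by_cases hij : i = j
  · subst hij
    refine ⟨0, Derivation.ext fun g => ?_⟩
    rw [ss1_dd_self, ss1_dd_self, ppow_apply_eq_zero (Derivation.zero_apply g),
      Derivation.zero_apply]
  set D := (stdFrame k p σ).dd i j f with hD
  let M : Submodule k (W k p σ) :=
    { carrier := {Y | ∀ l, l ≠ i → l ≠ j → Y (x k p l) = 0}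
      add_mem' := fun ha hb l h1 h2 => by
        rw [Derivation.add_apply, ha l h1 h2, hb l h1 h2, add_zero]
      zero_mem' := fun _ _ _ => rfl
      smul_mem' := fun c _ ha l h1 h2 => by rw [Derivation.smul_apply, ha l h1 h2, smul_zero] }
  let α : W k p σ →ₗ[k] O k p σ :=
    { toFun := fun Y => -(x k p j * Y (x k p i))
      map_add' := fun a b => by rw [Derivation.add_apply]; ring
      map_smul' := fun c a => by
        rw [Derivation.smul_apply, RingHom.id_apply, mul_smul_comm, smul_neg] }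
  have hα : ∀ Y, α Y = -(x k p j * Y (x k p i)) := fun _ => rfl
  have hL : ∀ P Y : W k p σ, P (α Y) - α ⁅P, Y⁆ =
      -(P (x k p j) * Y (x k p i)) - x k p j * Y (P (x k p i)) := by
    intro P Y
    simp only [hα, map_neg, Derivation.leibniz, smul_eq_mul, Derivation.commutator_apply]
    ring
  have hM : ∀ Y ∈ M, ⁅D, Y⁆ ∈ M := by
    intro Y hY l h1 h2
    rw [Derivation.commutator_apply, hY l h1 h2, hD, ss1_dd_x_ne h1 h2, map_zero, map_zero,
      sub_zero]
  have hY : ∀ Y ∈ M, Y f = Y (x k p i) * pd k p i f + Y (x k p j) * pd k p j f := by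
    intro Y hY
    rw [W_apply Y f]
    refine Finset.sum_eq_add_of_mem i j (Finset.mem_univ _) (Finset.mem_univ _) hij ?_
    intro l _ hl
    rw [hY l hl.1 hl.2, zero_mul]
  have key := lie_ppow_exact α D M hM (f - x k p j * pd k p j f) (by
    intro Y hY'
    rw [hL, hD, ss1_dd_x_left hij, ss1_dd_x_right hij, map_sub, hY Y hY', Derivation.leibniz,
      smul_eq_mul, smul_eq_mul]
    ring)
  have h1 := key (pd k p i) fun l h1 _ => pd_x_ne h1
  have h2 := key (pd k p j) fun l _ h2 => pd_x_ne h2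
  rw [hL, pd_x_self] at h1
  rw [hL, pd_x_ne hij] at h2
  refine ⟨D^[p - 1] (f - x k p j * pd k p j f) + x k p j * ppow D (x k p i), W_ext fun l => ?_⟩
  by_cases hi : l = i
  · subst hi
    rw [ss1_dd_x_left hij, map_add, ← h2, Derivation.leibniz, pd_x_self, smul_eq_mul, smul_eq_mul]
    ring
  by_cases hj : l = j
  · subst hj
    rw [ss1_dd_x_right hij, map_add, ← h1, Derivation.leibniz, pd_x_ne hi, smul_eq_mul,
      smul_eq_mul]
    ring
  rw [ss1_dd_x_ne hi hj]
  exact ppow_apply_eq_zero (ss1_dd_x_ne hi hj f)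

theorem GS_ppow : ∀ a ∈ GS k p σ, ppow a ∈ GS k p σ := by
  refine ppow_mem_of_span (GS k p σ) (GS k p σ).toSubmodule (fun _ h => h)
    (fun _ ha _ hb => (GS k p σ).lie_mem ha hb) {E | ∃ i j f, E = (stdFrame k p σ).dd i j f}
    ?_ ?_
  · rintro _ ⟨i, j, f, rfl⟩
    exact ss1_mem i j f
  · rintro _ ⟨i, j, f, rfl⟩
    obtain ⟨q, hq⟩ := ss1_ppow_dd i j f
    rw [hq]
    exact ss1_mem i j q

theorem GS_center (hp : 3 ≤ p) (h3 : ∀ i j : σ, ∃ l, l ≠ i ∧ l ≠ j) :
    ∀ a ∈ GS k p σ, (∀ b ∈ GS k p σ, ⁅a, b⁆ = 0) → a = 0 := by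
  intro a _ h
  have _ := hp
  have h1 : ∀ l m, pd k p l (a (x k p m)) = 0 := by
    intro l m
    have := congrArg (fun D : W k p σ => D (x k p m)) (h _ (ss1_pd_mem h3 l))
    simp only [Derivation.commutator_apply, pd_x, Derivation.zero_apply] at this
    split_ifs at this
    · simpa using this
    · simpa using this
  refine W_ext fun i => ?_
  obtain ⟨l, hl, -⟩ := h3 i i
  have := congrArg (fun D : W k p σ => D (x k p i)) (h _ (ss1_h_mem hl))
  simpa [Derivation.commutator_apply, h1, pd_x_self, pd_x_ne hl.symm] using this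

theorem GS_graded (w : σ → ℤ) :
    ∀ a ∈ GS k p σ, a ∈ ⨆ j, GW k p w j ⊓ (GS k p σ).toSubmodule := by
  intro a ha
  refine ss1_ind (P := fun a => a ∈ ⨆ j, GW k p w j ⊓ (GS k p σ).toSubmodule) ?_ (zero_mem _)
    (fun _ _ => add_mem) (fun c _ => Submodule.smul_mem _ c) ha
  intro i j f
  have hf : f ∈ ⨆ m, G k p w m := by rw [iSup_G]; exact Submodule.mem_top
  refine Submodule.iSup_induction (G k p w) (motive := fun f => (stdFrame k p σ).dd i j f ∈
    ⨆ j, GW k p w j ⊓ (GS k p σ).toSubmodule) hf ?_ ?_ ?_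
  · intro m f hf
    refine Submodule.mem_iSup_of_mem (m - w i - w j) ⟨?_, ss1_mem i j f⟩
    have h1 := smul_mem_GW (GW_apply (pd_mem_GW j) hf) (pd_mem_GW (k := k) (p := p) (w := w) i)
    have h2 := smul_mem_GW (GW_apply (pd_mem_GW i) hf) (pd_mem_GW (k := k) (p := p) (w := w) j)
    rw [show -w j + m + -w i = m - w i - w j by ring] at h1
    rw [show -w i + m + -w j = m - w i - w j by ring] at h2
    exact sub_mem h1 h2
  · rw [ss1_dd_zero]
    exact zero_mem _
  · intro f g h1 h2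
    rw [ss1_dd_add]
    exact add_mem h1 h2

end Pool.Agent.Cart
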