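import Pool.Agent.P.MP_c9b50d_al.C.FW
import Pool.Agent.P.MP_c9b50d_al.C.SS1

/-! The series S. -/

namespace Pool.Agent.Cart

open Module

/-- The combinatorial data of the construction for the series S. -/
structure SS2Dat (k : Type*) [Field k] (p : ℕ) (σ : Type) where
  o : σ
  a : σ
  r : σ → σ
  sg : σ → k
  μ : k
  hp : 5 ≤ p
  h2 : (2 : k) ≠ 0
  rr : ∀ j, r (r j) = j
  ro : r o = o
  ra : r a ≠ a
  uniq : ∀ i j, r i = i → r j = j → i ≠ o → j ≠ o → i = j
  sg_r : ∀ j, sg (r j) = -sg j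
  sg_sq : ∀ j, r j ≠ j → sg j * sg j = 1
  sg_pow : ∀ j, sg j ^ p = sg j
  hμ : μ ^ p ≠ μ

namespace SS2Dat

variable {k : Type*} [Field k] {p : ℕ} [Fact p.Prime] [CharP k p] {σ : Type} [Fintype σ]
  [DecidableEq σ] (S : SS2Dat k p σ)

section comb
omit [Fact p.Prime] [CharP k p] [Fintype σ] [DecidableEq σ]

theorem a_ne : S.a ≠ S.o := fun h => S.ra (by rw [h, S.ro])

theorem r_eq_iff {i j : σ} : S.r i = j ↔ i = S.r j :=
  ⟨fun h => by rw [← h, S.rr], fun h => by rw [h, S.rr]⟩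

theorem r_ne_o {j : σ} (h : j ≠ S.o) : S.r j ≠ S.o := fun h' => h (by rw [S.r_eq_iff.1 h', S.ro])

theorem ne_o_of_pair {j : σ} (h : S.r j ≠ j) : j ≠ S.o := fun h' => h (by rw [h', S.ro])

include S in
theorem eq_zero_of_neg {M : Type*} [AddCommGroup M] [Module k M] {y : M} (h : y = -y) : y = 0 := by
  have : (2 : k) • y = 0 := by rw [two_smul]; exact add_eq_zero_iff_eq_neg.2 h
  exact (smul_eq_zero.1 this).resolve_left S.h2

theorem sg_fix {j : σ} (h : S.r j = j) : S.sg j = 0 := by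
  have := S.sg_r j
  rw [h] at this
  exact S.eq_zero_of_neg this

theorem sg_o : S.sg S.o = 0 := S.sg_fix S.ro

end comb

omit [Fact p.Prime] [CharP k p] [DecidableEq σ] in
theorem sum_r {M : Type*} [AddCommMonoid M] (f : σ → M) : ∑ j, f (S.r j) = ∑ j, f j :=
  Equiv.sum_comp (Function.Involutive.toPerm S.r S.rr) f

omit [Fact p.Prime] [CharP k p] [DecidableEq σ] in
theorem sum_anti {M : Type*} [AddCommGroup M] [Module k M] (f : σ → M)
    (h : ∀ j, f (S.r j) = -f j) : ∑ j, f j = 0 := by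
  refine S.eq_zero_of_neg ?_
  rw [← Finset.sum_neg_distrib, ← S.sum_r]
  exact Finset.sum_congr rfl fun j _ => h j

/-- the indicator of the second fixed point -/
def e (j : σ) : k := if j ≠ S.o ∧ S.r j = j then 1 else 0

/-- the coefficients of the quadratic form -/
def c (j : σ) : k := S.μ * (S.sg j * S.sg j) + S.e j

section comb2
omit [Fact p.Prime] [CharP k p] [Fintype σ]

theorem e_o : S.e S.o = 0 := by simp [e]

theorem e_pair {j : σ} (h : S.r j ≠ j) : S.e j = 0 := by simp [e, h]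

theorem e_fix {j : σ} (h : S.r j = j) (h' : j ≠ S.o) : S.e j = 1 := by simp [e, h, h']

theorem e_r (j : σ) : S.e (S.r j) = S.e j := by
  by_cases h : S.r j = j
  · rw [h]
  · rw [S.e_pair h, S.e_pair (by rw [S.rr]; exact Ne.symm h)]

theorem c_o : S.c S.o = 0 := by simp [c, S.e_o, S.sg_o]

theorem c_r (j : σ) : S.c (S.r j) = S.c j := by simp [c, S.e_r, S.sg_r]

theorem c_pair {j : σ} (h : S.r j ≠ j) : S.c j = S.μ := by simp [c, S.e_pair h, S.sg_sq j h]

theorem c_fix {j : σ} (h : S.r j = j) (h' : j ≠ S.o) : S.c j = 1 := by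
  simp [c, S.e_fix h h', S.sg_fix h]

end comb2

omit [Fact p.Prime] [CharP k p] in
theorem sum_e {M : Type*} [AddCommGroup M] [Module k M] (X : σ → M) {v : σ} (h : S.r v = v)
    (h' : v ≠ S.o) : ∑ j, S.e j • X j = X v := by
  rw [Finset.sum_eq_single v, S.e_fix h h', one_smul]
  · intro j _ hj
    have : S.e j = 0 := if_neg fun hh => hj (S.uniq j v hh.2 h hh.1 h')
    rw [this, zero_smul]
  · simp

omit [Fact p.Prime] [CharP k p] in
theorem sum_e_zero {M : Type*} [AddCommGroup M] [Module k M] (X : σ → M)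
    (h : ∀ v, S.r v = v → v ≠ S.o → X v = 0) : ∑ j, S.e j • X j = 0 := by
  refine Finset.sum_eq_zero fun j _ => ?_
  by_cases hj : j ≠ S.o ∧ S.r j = j
  · rw [h j hj.2 hj.1, smul_zero]
  · rw [e, if_neg hj, zero_smul]

/-- the unit `1 + x_o` -/
noncomputable def t : O k p σ := 1 + x k p S.o

/-- its inverse -/
noncomputable def ti : O k p σ := S.t ^ (p - 1)

/-- the new coordinates -/
noncomputable def ξ (j : σ) : O k p σ := if j = S.a then S.t * x k p S.a else x k p j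

/-- the new frame -/
noncomputable def Δ (j : σ) : W k p σ :=
  if j = S.o then S.t • pd k p S.o - x k p S.a • pd k p S.a
  else if j = S.a then S.ti • pd k p S.a else pd k p j

/-- the new coframe -/
noncomputable def co (j : σ) : W k p σ →ₗ[O k p σ] O k p σ :=
  if j = S.o then ⟨⟨fun D => S.ti * D (x k p S.o), fun _ _ => mul_add _ _ _⟩,
    fun _ _ => mul_left_comm _ _ _⟩
  else ⟨⟨fun D => D (S.ξ j), fun _ _ => rfl⟩, fun _ _ => rfl⟩

omit [Fintype σ] [DecidableEq σ] in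
theorem t_mul_ti : S.t * S.ti = 1 := by
  rw [ti, ← pow_succ', Nat.sub_add_cancel (Fact.out : p.Prime).one_le, t,
    add_pow_of_commute' (CharP.cast_eq_zero k p), one_pow, x_pow, add_zero]

omit [Fact p.Prime] [CharP k p] [Fintype σ] [DecidableEq σ] in
theorem der_t (D : W k p σ) : D S.t = D (x k p S.o) := by
  rw [t, map_add, Derivation.map_one_eq_zero, zero_add]

omit [Fintype σ] [DecidableEq σ] in
theorem der_ti (D : W k p σ) : D S.ti = -(S.ti * S.ti * D (x k p S.o)) := by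
  have h := congrArg D S.t_mul_ti
  rw [Derivation.leibniz, Derivation.map_one_eq_zero, S.der_t, smul_eq_mul, smul_eq_mul] at h
  have h1 := S.t_mul_ti
  linear_combination S.ti * h - D S.ti * h1

omit [Fact p.Prime] [CharP k p] [Fintype σ] in
theorem co_o (D : W k p σ) : S.co S.o D = S.ti * D (x k p S.o) := by
  rw [co, if_pos rfl]; rfl

omit [Fact p.Prime] [CharP k p] [Fintype σ] in
theorem co_ne {j : σ} (h : j ≠ S.o) (D : W k p σ) : S.co j D = D (S.ξ j) := by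
  rw [co, if_neg h]; rfl

omit [Fact p.Prime] [CharP k p] [Fintype σ] in
theorem ξ_a : S.ξ S.a = S.t * x k p S.a := if_pos rfl

omit [Fact p.Prime] [CharP k p] [Fintype σ] in
theorem ξ_ne {j : σ} (h : j ≠ S.a) : S.ξ j = x k p j := if_neg h

omit [Fact p.Prime] [Fintype σ] in
theorem Δ_o : S.Δ S.o = S.t • pd k p S.o - x k p S.a • pd k p S.a := if_pos rfl

omit [Fact p.Prime] [Fintype σ] in
theorem Δ_a : S.Δ S.a = S.ti • pd k p S.a := by rw [Δ, if_neg S.a_ne, if_pos rfl]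

omit [Fact p.Prime] [Fintype σ] in
theorem Δ_ne {j : σ} (h : j ≠ S.o) (h' : j ≠ S.a) : S.Δ j = pd k p j := by
  rw [Δ, if_neg h, if_neg h']

omit [Fact p.Prime] [Fintype σ] in
theorem Δ_xo (i : σ) : S.Δ i (x k p S.o) = if i = S.o then S.t else 0 := by
  by_cases h : i = S.o
  · subst h
    simp [Δ_o, pd_x_self, pd_x_ne S.a_ne.symm]
  · by_cases h' : i = S.a
    · subst h'
      simp [Δ_a, pd_x_ne S.a_ne.symm, h]
    · simp [S.Δ_ne h h', pd_x_ne (Ne.symm h), h]

omit [Fintype σ] in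
theorem Δ_ξ (i : σ) {l : σ} (hl : l ≠ S.o) : S.Δ i (S.ξ l) = if l = i then 1 else 0 := by
  have h1 := S.t_mul_ti
  by_cases hla : l = S.a
  · subst hla
    rw [ξ_a, Derivation.leibniz, S.der_t, S.Δ_xo]
    by_cases h : i = S.o
    · subst h
      simp [Δ_o, pd_x_self, pd_x_ne S.a_ne, S.a_ne, mul_comm]
    · by_cases h' : i = S.a
      · subst h'
        simp [Δ_a, pd_x_self, h, h1]
      · simp [S.Δ_ne h h', pd_x_ne (Ne.symm h'), h, Ne.symm h']
  · rw [S.ξ_ne hla]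
    by_cases h : i = S.o
    · subst h
      simp [Δ_o, pd_x_ne hl, pd_x_ne hla, hl]
    · by_cases h' : i = S.a
      · subst h'
        simp [Δ_a, pd_x_ne hla, hla]
      · rw [S.Δ_ne h h', pd_x]

omit [Fintype σ] in
theorem ext_ξ {D E : W k p σ} (h0 : D (x k p S.o) = E (x k p S.o))
    (h : ∀ l, l ≠ S.o → D (S.ξ l) = E (S.ξ l)) : D = E := by
  refine W_ext fun l => ?_
  by_cases hl : l = S.o
  · rw [hl, h0]
  · by_cases hla : l = S.a
    · subst hla
      have h1 := h _ hl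
      have h2 := S.t_mul_ti
      rw [ξ_a, Derivation.leibniz, Derivation.leibniz, S.der_t, S.der_t, h0] at h1
      simp only [smul_eq_mul] at h1
      linear_combination S.ti * h1 - (D (x k p S.a) - E (x k p S.a)) * h2
    · have h1 := h _ hl
      rwa [S.ξ_ne hla] at h1

/-- the frame of the construction -/
noncomputable def fr : Frame k p σ where
  Δ := S.Δ
  co := S.co
  u := 1
  unit := isUnit_one
  exp D := by
    refine S.ext_ξ ?_ fun l hl => ?_
    · simp only [W_sum_apply, Derivation.smul_apply, smul_eq_mul, Δ_xo, mul_ite, mul_zero,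
        Finset.sum_ite_eq', Finset.mem_univ, if_true, co_o]
      have h2 := S.t_mul_ti
      linear_combination (-D (x k p S.o)) * h2
    · simp only [W_sum_apply, Derivation.smul_apply, smul_eq_mul, S.Δ_ξ _ hl, mul_ite, mul_zero,
        mul_one, Finset.sum_ite_eq, Finset.mem_univ, if_true, S.co_ne hl]
  co_Δ i j := by
    by_cases h : i = S.o
    · subst h
      rw [co_o, Δ_xo]
      by_cases h' : j = S.o
      · rw [if_pos h', if_pos h'.symm, mul_comm, t_mul_ti]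
      · rw [if_neg h', if_neg (Ne.symm h'), mul_zero]
    · rw [S.co_ne h, S.Δ_ξ j h]
  comm i j := by
    refine S.ext_ξ ?_ fun l hl => ?_
    · rw [Derivation.commutator_apply, Δ_xo, Δ_xo]
      by_cases hi : i = S.o <;> by_cases hj : j = S.o <;> simp [hi, hj, der_t, Δ_xo]
    · rw [Derivation.commutator_apply, S.Δ_ξ _ hl, S.Δ_ξ _ hl]
      split_ifs <;> simp
  inv i f := by
    rw [one_mul]
    by_cases h : i = S.o
    · subst h
      have : S.Δ S.o f = pd k p S.o (S.t * f) - pd k p S.a (x k p S.a * f) := by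
        simp [Δ_o, Derivation.leibniz, der_t, pd_x_self]
      rw [this, map_sub, I_pd, I_pd, sub_zero]
    · by_cases h' : i = S.a
      · subst h'
        have : S.Δ S.a f = pd k p S.a (S.ti * f) := by
          simp [Δ_a, Derivation.leibniz, der_ti, pd_x_ne S.a_ne.symm]
        rw [this, I_pd]
      · rw [S.Δ_ne h h', I_pd]

theorem co_Δ (i j : σ) : S.co i (S.Δ j) = if i = j then 1 else 0 := S.fr.co_Δ i j

theorem co_lie (i : σ) (D E : W k p σ) : S.co i ⁅D, E⁆ = D (S.co i E) - E (S.co i D) :=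
  S.fr.co_lie i D E

theorem apply_eq (D : W k p σ) (f : O k p σ) : D f = ∑ i, S.co i D * S.Δ i f := S.fr.apply_eq D f

theorem ext_co {D E : W k p σ} (h : ∀ i, S.co i D = S.co i E) : D = E := S.fr.ext_co h

theorem Δ_Δ (i j : σ) (f : O k p σ) : S.Δ i (S.Δ j f) = S.Δ j (S.Δ i f) := S.fr.Δ_Δ i j f

theorem I_Δ (i : σ) (f : O k p σ) : I k p σ (S.Δ i f) = 0 := by
  have := S.fr.inv i f
  rwa [show S.fr.u = 1 from rfl, one_mul] at this

theorem div_GS {D : W k p σ} (h : D ∈ GS k p σ) : S.fr.div D = 0 := by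
  rw [S.fr.div_eq (stdFrame k p σ) rfl, div_of_mem_GS h]

omit S in
theorem I_GS {D : W k p σ} (h : D ∈ GS k p σ) (f : O k p σ) : I k p σ (D f) = 0 := by
  have := (stdFrame k p σ).J_der D f
  rw [div_of_mem_GS h, zero_mul, map_zero, neg_zero, Frame.J_apply] at this
  rwa [show (stdFrame k p σ).u = 1 from rfl, one_mul] at this

omit S in
theorem I_parts {D : W k p σ} (h : D ∈ GS k p σ) (f g : O k p σ) :
    I k p σ (f * D g) = -I k p σ (g * D f) := by
  have := I_GS h (f * g)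
  rw [Derivation.leibniz, map_add, smul_eq_mul, smul_eq_mul] at this
  exact eq_neg_of_add_eq_zero_left this

theorem I_parts_Δ (i : σ) (f g : O k p σ) :
    I k p σ (f * S.Δ i g) = -I k p σ (g * S.Δ i f) := by
  have := S.I_Δ i (f * g)
  rw [Derivation.leibniz, map_add, smul_eq_mul, smul_eq_mul] at this
  exact eq_neg_of_add_eq_zero_left this

/-- the diagonal derivation with the signs as weights -/
noncomputable def H' : W k p σ := diag k p S.sg

/-- the auxiliary semisimple derivation -/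
noncomputable def V : W k p σ := S.Δ S.o + S.μ • S.H'

/-- the quadratic form -/
noncomputable def h : O k p σ := ∑ j, (2⁻¹ * S.c j) • (S.ξ j * S.ξ (S.r j))

/-- the part of the quadratic form at the second fixed point -/
noncomputable def q : O k p σ := ∑ j, (2⁻¹ * S.e j) • (S.ξ j * S.ξ (S.r j))

/-- the one-form -/
noncomputable def α : W k p σ →ₗ[k] O k p σ :=
  ∑ j, (2⁻¹ * S.sg j) • (LinearMap.mulLeft k (S.ξ j) ∘ₗ (S.co (S.r j)).restrictScalars k) +
    LinearMap.mulLeft k S.h ∘ₗ (S.co S.o).restrictScalars k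

/-- the character -/
noncomputable def χ : Dual k (W k p σ) := I k p σ ∘ₗ S.α

omit [Fact p.Prime] [CharP k p] in
theorem α_apply (D : W k p σ) : S.α D =
    ∑ j, (2⁻¹ * S.sg j) • (S.ξ j * S.co (S.r j) D) + S.h * S.co S.o D := by
  simp [α, LinearMap.sum_apply]

omit [CharP k p] in
theorem χ_apply (D : W k p σ) : S.χ D = I k p σ (S.α D) := rfl

omit [Fact p.Prime] [CharP k p] [Fintype σ] in
theorem smul_der_ξ {s : σ → k} (hs : s S.o = 0) (D : W k p σ) (j : σ) (y : O k p σ) :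
    s j • (D (S.ξ j) * y) = s j • (S.co j D * y) := by
  by_cases hj : j = S.o
  · rw [hj, hs, zero_smul, zero_smul]
  · rw [S.co_ne hj]

omit [Fact p.Prime] [CharP k p] in
theorem der_quad {s : σ → k} (hs : s S.o = 0) (hr : ∀ j, s (S.r j) = s j) (D : W k p σ) :
    D (∑ j, (2⁻¹ * s j) • (S.ξ j * S.ξ (S.r j))) = ∑ j, s j • (S.ξ (S.r j) * S.co j D) := by
  have h1 : ∀ j, D ((2⁻¹ * s j) • (S.ξ j * S.ξ (S.r j))) =
      (2⁻¹ * s (S.r j)) • (S.ξ (S.r (S.r j)) * S.co (S.r j) D) +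
        (2⁻¹ * s j) • (S.ξ (S.r j) * S.co j D) := by
    intro j
    rw [Derivation.map_smul, Derivation.leibniz, smul_add, smul_eq_mul, smul_eq_mul, S.rr,
      mul_comm (S.ξ j), mul_comm (S.ξ (S.r j)), mul_comm (S.ξ j), mul_comm (S.ξ (S.r j)),
      S.smul_der_ξ (s := fun j => 2⁻¹ * s j) (by simp [hs]) D j, ← hr j,
      S.smul_der_ξ (s := fun j => 2⁻¹ * s j) (by simp [hs]) D (S.r j), hr j]
  rw [map_sum, Finset.sum_congr rfl fun j _ => h1 j, Finset.sum_add_distrib,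
    S.sum_r fun j => (2⁻¹ * s j) • (S.ξ (S.r j) * S.co j D), ← Finset.sum_add_distrib]
  refine Finset.sum_congr rfl fun j _ => ?_
  rw [← add_smul, ← add_mul, ← two_mul, mul_inv_cancel₀ S.h2, one_mul]

omit [Fact p.Prime] [CharP k p] in
theorem der_h (D : W k p σ) : D S.h = ∑ j, S.c j • (S.ξ (S.r j) * S.co j D) :=
  S.der_quad S.c_o S.c_r D

omit [Fact p.Prime] [CharP k p] in
theorem der_q (D : W k p σ) : D S.q = ∑ j, S.e j • (S.ξ (S.r j) * S.co j D) :=
  S.der_quad S.e_o S.e_r D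

theorem Δ_h (i : σ) : S.Δ i S.h = S.c i • S.ξ (S.r i) := by
  simp [der_h, co_Δ]

theorem om_eq (D E : W k p σ) : dF S.α D E =
    ∑ j, S.sg j • (S.co j D * S.co (S.r j) E) + D S.h * S.co S.o E - E S.h * S.co S.o D := by
  have h1 : ∀ j, D ((2⁻¹ * S.sg j) • (S.ξ j * S.co (S.r j) E)) -
      E ((2⁻¹ * S.sg j) • (S.ξ j * S.co (S.r j) D)) -
      (2⁻¹ * S.sg j) • (S.ξ j * S.co (S.r j) ⁅D, E⁆) =
      (2⁻¹ * S.sg j) • (S.co j D * S.co (S.r j) E) +
        (2⁻¹ * S.sg (S.r j)) • (S.co (S.r j) D * S.co (S.r (S.r j)) E) := by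
    intro j
    rw [S.rr, S.sg_r, ← S.smul_der_ξ (s := fun j => 2⁻¹ * S.sg j) (by simp [S.sg_o]) D j,
      mul_comm (S.co (S.r j) D), mul_neg, neg_smul,
      ← S.smul_der_ξ (s := fun j => 2⁻¹ * S.sg j) (by simp [S.sg_o]) E j,
      Derivation.map_smul, Derivation.map_smul, ← smul_sub, ← smul_sub, ← smul_neg, ← smul_add,
      Derivation.leibniz, Derivation.leibniz, co_lie]
    simp only [smul_eq_mul]
    congr 1
    ring
  have h2 : ∑ j, (D ((2⁻¹ * S.sg j) • (S.ξ j * S.co (S.r j) E)) -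
      E ((2⁻¹ * S.sg j) • (S.ξ j * S.co (S.r j) D)) -
      (2⁻¹ * S.sg j) • (S.ξ j * S.co (S.r j) ⁅D, E⁆)) =
      ∑ j, S.sg j • (S.co j D * S.co (S.r j) E) := by
    rw [Finset.sum_congr rfl fun j _ => h1 j, Finset.sum_add_distrib,
      S.sum_r fun j => (2⁻¹ * S.sg j) • (S.co j D * S.co (S.r j) E), ← Finset.sum_add_distrib]
    refine Finset.sum_congr rfl fun j _ => ?_
    rw [← add_smul, ← add_mul, ← two_mul, mul_inv_cancel₀ S.h2, one_mul]
  rw [Finset.sum_sub_distrib, Finset.sum_sub_distrib] at h2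
  rw [dF, α_apply, α_apply, α_apply, map_add, map_add, map_sum, map_sum, Derivation.leibniz,
    Derivation.leibniz, S.co_lie S.o, ← h2]
  simp only [smul_eq_mul]
  ring

omit [Fact p.Prime] [CharP k p] in
theorem om_anti (D E : W k p σ) : dF S.α D E = -dF S.α E D := by
  rw [dF, dF, ← lie_skew D E, map_neg]
  ring

theorem om_Δ (D : W k p σ) {i : σ} (hi : i ≠ S.o) :
    dF S.α D (S.Δ i) = -(S.sg i • S.co (S.r i) D) - S.c i • (S.ξ (S.r i) * S.co S.o D) := by
  rw [om_eq, Δ_h, co_Δ, if_neg (Ne.symm hi), mul_zero, add_zero, smul_mul_assoc,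
    Finset.sum_eq_single (S.r i), S.rr, co_Δ, if_pos rfl, mul_one, S.sg_r, neg_smul]
  · intro j _ hj
    rw [co_Δ, if_neg fun h => hj (S.r_eq_iff.1 h), mul_zero, smul_zero]
  · simp

/-- the second argument of the two-form as a linear map over the functions -/
noncomputable def β (D : W k p σ) : W k p σ →ₗ[O k p σ] O k p σ :=
  ∑ i, dF S.α D (S.Δ i) • S.co i

omit [Fact p.Prime] in
theorem β_apply (D Y : W k p σ) : S.β D Y = ∑ i, dF S.α D (S.Δ i) * S.co i Y := by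
  simp [β, LinearMap.sum_apply]

theorem om_eq_β (D Y : W k p σ) : dF S.α D Y = S.β D Y := by
  have h1 : ∀ f g : O k p σ, ∀ Z Z' : W k p σ,
      dF S.α D (f • Z + Z') = f * dF S.α D Z + dF S.α D Z' := by
    intro f g Z Z'
    simp only [om_eq, map_add, map_smul, Derivation.add_apply, Derivation.smul_apply, smul_eq_mul,
      mul_add, smul_add, Finset.sum_add_distrib, Finset.mul_sum, mul_sub, mul_smul_comm]
    simp only [mul_left_comm]
    ring
  have h2 : ∀ (s : Finset σ) (f : σ → O k p σ),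
      dF S.α D (∑ i ∈ s, f i • S.Δ i) = ∑ i ∈ s, dF S.α D (S.Δ i) * f i := by
    intro s f
    induction s using Finset.induction_on with
    | empty => simp [dF]
    | insert i s hi ih => rw [Finset.sum_insert hi, Finset.sum_insert hi, h1 _ 0, ih, mul_comm]
  rw [β_apply, ← h2]
  exact congrArg (dF S.α D) (S.fr.exp Y)

omit [Fact p.Prime] in
theorem H'_ξ (j : σ) : S.H' (S.ξ j) = S.sg j • S.ξ j := by
  by_cases hj : j = S.a
  · subst hj
    rw [ξ_a, Derivation.leibniz, der_t, H', diag_x, diag_x, S.sg_o]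
    simp
  · rw [S.ξ_ne hj, H', diag_x]

omit [Fact p.Prime] in
theorem co_H' (j : σ) : S.co j S.H' = S.sg j • S.ξ j := by
  by_cases hj : j = S.o
  · subst hj
    rw [co_o, H', diag_x, S.sg_o]
    simp
  · rw [S.co_ne hj, H'_ξ]

theorem co_V (j : σ) : S.co j S.V = (if j = S.o then 1 else 0) + (S.μ * S.sg j) • S.ξ j := by
  rw [V, map_add, co_Δ, LinearMap.map_smul_of_tower, co_H', mul_smul]

theorem co_o_V : S.co S.o S.V = 1 := by rw [co_V, if_pos rfl, S.sg_o, mul_zero, zero_smul, add_zero]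

theorem co_V_ne {j : σ} (hj : j ≠ S.o) : S.co j S.V = (S.μ * S.sg j) • S.ξ j := by
  rw [co_V, if_neg hj, zero_add]

theorem V_h : S.V S.h = 0 := by
  rw [der_h]
  have : ∀ j, S.c j • (S.ξ (S.r j) * S.co j S.V) =
      (S.c j * (S.μ * S.sg j)) • (S.ξ (S.r j) * S.ξ j) := by
    intro j
    by_cases hj : j = S.o
    · rw [hj, S.c_o, zero_mul, zero_smul, zero_smul]
    · rw [S.co_V_ne hj, mul_smul_comm, smul_smul]
  rw [Finset.sum_congr rfl fun j _ => this j]
  refine S.sum_anti _ fun j => ?_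
  rw [S.rr, S.c_r, S.sg_r, mul_comm (S.ξ j), mul_neg, mul_neg, neg_smul]

theorem om_V (E : W k p σ) : dF S.α S.V E = -E S.q := by
  have : ∀ j, S.sg j • (S.co j S.V * S.co (S.r j) E) =
      (S.μ * (S.sg (S.r j) * S.sg (S.r j))) • (S.ξ (S.r (S.r j)) * S.co (S.r j) E) := by
    intro j
    by_cases hj : j = S.o
    · simp [hj, S.sg_o, S.ro]
    · rw [S.co_V_ne hj, smul_mul_assoc, smul_smul, S.rr, S.sg_r]
      congr 1
      ring
  rw [om_eq, V_h, co_o_V, zero_mul, add_zero, mul_one, der_h, der_q,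
    Finset.sum_congr rfl fun j _ => this j,
    S.sum_r fun j => (S.μ * (S.sg j * S.sg j)) • (S.ξ (S.r j) * S.co j E),
    ← Finset.sum_sub_distrib, ← Finset.sum_neg_distrib]
  refine Finset.sum_congr rfl fun j _ => ?_
  rw [c, add_smul]
  abel

theorem Δo_mem : S.Δ S.o ∈ GS k p σ := by
  have := dd_mem_GS S.fr rfl S.o S.a (S.ξ S.a)
  rw [Frame.dd] at this
  change S.Δ S.a (S.ξ S.a) • S.Δ S.o - S.Δ S.o (S.ξ S.a) • S.Δ S.a ∈ _ at this
  rwa [S.Δ_ξ _ S.a_ne, S.Δ_ξ _ S.a_ne, if_pos rfl, if_neg S.a_ne, one_smul, zero_smul,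
    sub_zero] at this

theorem H'_mem : S.H' ∈ GS k p σ := by
  have h1 : S.H' = ∑ j, S.sg j • S.ξ j • S.Δ j := by
    refine (S.fr.exp S.H').trans (Finset.sum_congr rfl fun j _ => ?_)
    change S.co j S.H' • S.Δ j = _
    rw [co_H', smul_assoc]
  have h2 : ∀ j, S.sg j • S.fr.dd j (S.r j) (S.ξ j * S.ξ (S.r j)) =
      S.sg j • S.ξ j • S.Δ j + S.sg (S.r j) • S.ξ (S.r j) • S.Δ (S.r j) := by
    intro j
    by_cases hj : S.r j = j
    · rw [hj, S.sg_fix hj, zero_smul, zero_smul, add_zero]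
    · have hj' := S.ne_o_of_pair hj
      rw [Frame.dd]
      change S.sg j • (S.Δ (S.r j) (S.ξ j * S.ξ (S.r j)) • S.Δ j -
        S.Δ j (S.ξ j * S.ξ (S.r j)) • S.Δ (S.r j)) = _
      rw [Derivation.leibniz, Derivation.leibniz, S.Δ_ξ _ hj', S.Δ_ξ _ hj',
        S.Δ_ξ _ (S.r_ne_o hj'), S.Δ_ξ _ (S.r_ne_o hj'), if_pos rfl, if_pos rfl, if_neg hj,
        if_neg (Ne.symm hj), S.sg_r, smul_sub, neg_smul, sub_eq_add_neg]
      simp
  have h3 : (2 : k) • S.H' ∈ GS k p σ := by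
    rw [two_smul]
    nth_rewrite 2 [h1]
    rw [← S.sum_r, h1, ← Finset.sum_add_distrib, ← Finset.sum_congr rfl fun j _ => h2 j]
    exact sum_mem fun j _ => (GS k p σ).smul_mem _ (dd_mem_GS S.fr rfl _ _ _)
  have h4 := (GS k p σ).smul_mem (2⁻¹ : k) h3
  rwa [smul_smul, inv_mul_cancel₀ S.h2, one_smul] at h4

theorem V_mem : S.V ∈ GS k p σ := add_mem S.Δo_mem ((GS k p σ).smul_mem _ S.H'_mem)

theorem χ_lie {D E : W k p σ} (hD : D ∈ GS k p σ) (hE : E ∈ GS k p σ) :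
    S.χ ⁅D, E⁆ = -I k p σ (dF S.α D E) := by
  rw [dF, map_sub, map_sub, I_GS hD, I_GS hE, χ_apply]
  ring

theorem χ_V {E : W k p σ} (hE : E ∈ GS k p σ) : S.χ ⁅S.V, E⁆ = 0 := by
  rw [S.χ_lie S.V_mem hE, om_V, map_neg, I_GS hE, neg_zero, neg_zero]

theorem co_lie_Δ (i j : σ) (E : W k p σ) : S.co i ⁅S.Δ j, E⁆ = S.Δ j (S.co i E) := by
  rw [co_lie, co_Δ]
  split_ifs <;> simp

theorem χ_Δo (E : W k p σ) : S.χ ⁅S.Δ S.o, E⁆ = 0 := by
  have : S.α ⁅S.Δ S.o, E⁆ = S.Δ S.o (S.α E) := by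
    rw [α_apply, α_apply, map_add, map_sum, Derivation.leibniz, Δ_h, S.c_o, zero_smul, smul_zero,
      add_zero, smul_eq_mul, co_lie_Δ]
    congr 1
    refine Finset.sum_congr rfl fun j _ => ?_
    by_cases hj : j = S.o
    · simp [hj, S.sg_o]
    · rw [Derivation.map_smul, Derivation.leibniz, S.Δ_ξ _ hj, if_neg hj, smul_zero, add_zero,
        smul_eq_mul, co_lie_Δ]
  rw [χ_apply, this, I_Δ]

/-- the stabiliser of the character -/
def Stab (D : W k p σ) : Prop := D ∈ GS k p σ ∧ ∀ Y ∈ GS k p σ, S.χ ⁅D, Y⁆ = 0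

theorem Stab.closed {S : SS2Dat k p σ} {D : W k p σ} (hD : S.Stab D) (i j : σ) :
    S.Δ i (dF S.α D (S.Δ j)) = S.Δ j (dF S.α D (S.Δ i)) := by
  rw [← sub_eq_zero]
  refine I_nondeg fun f => ?_
  have h := hD.2 _ (dd_mem_GS S.fr rfl i j f)
  rw [S.χ_lie hD.1 (dd_mem_GS S.fr rfl i j f), om_eq_β, Frame.dd, map_sub, map_smul, map_smul,
    ← om_eq_β, ← om_eq_β, map_sub, smul_eq_mul, smul_eq_mul] at h
  change -(I k p σ (S.Δ j f * dF S.α D (S.Δ i)) - I k p σ (S.Δ i f * dF S.α D (S.Δ j))) = 0 at h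
  rw [mul_comm (S.Δ j f), mul_comm (S.Δ i f), S.I_parts_Δ j _ f, S.I_parts_Δ i _ f] at h
  rw [sub_mul, map_sub, mul_comm _ f, mul_comm _ f]
  linear_combination -h

theorem Stab.closed' {S : SS2Dat k p σ} {D : W k p σ} (hD : S.Stab D) (Y Z : W k p σ) :
    Y (dF S.α D Z) - Z (dF S.α D Y) = dF S.α D ⁅Y, Z⁆ := by
  have h1 : ∀ Y Z : W k p σ, Y (dF S.α D Z) = ∑ i, dF S.α D (S.Δ i) * Y (S.co i Z) +
      ∑ i, ∑ j, S.co i Z * S.co j Y * S.Δ j (dF S.α D (S.Δ i)) := by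
    intro Y Z
    rw [S.om_eq_β D Z, β_apply, map_sum, ← Finset.sum_add_distrib]
    refine Finset.sum_congr rfl fun i _ => ?_
    rw [Derivation.leibniz, smul_eq_mul, smul_eq_mul, S.apply_eq Y (dF S.α D (S.Δ i)),
      Finset.mul_sum]
    simp only [mul_assoc]
  have h2 : ∑ i, ∑ j, S.co i Z * S.co j Y * S.Δ j (dF S.α D (S.Δ i)) =
      ∑ i, ∑ j, S.co i Y * S.co j Z * S.Δ j (dF S.α D (S.Δ i)) := by
    rw [Finset.sum_comm]
    refine Finset.sum_congr rfl fun i _ => Finset.sum_congr rfl fun j _ => ?_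
    rw [hD.closed i j, mul_comm (S.co j Z)]
  rw [h1 Y Z, h1 Z Y, h2, S.om_eq_β D ⁅Y, Z⁆, β_apply]
  simp only [co_lie, mul_sub, Finset.sum_sub_distrib]
  ring

theorem Stab.om_lie {S : SS2Dat k p σ} {D : W k p σ} (hD : S.Stab D) (Y : W k p σ) :
    dF S.α ⁅S.V, D⁆ Y = Y (D S.q) := by
  have h1 := dF_cyc S.α S.V D Y
  have h2 := hD.closed' S.V Y
  rw [S.om_anti D S.V, S.om_V, neg_neg] at h2
  rw [S.om_anti Y S.V, S.om_V, S.om_V, neg_neg, S.om_anti ⁅D, Y⁆ S.V, S.om_V, neg_neg,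
    S.om_anti ⁅Y, S.V⁆ D, Derivation.commutator_apply, map_neg, ← lie_skew Y S.V,
    S.om_eq_β D (-_), map_neg, ← S.om_eq_β D] at h1
  linear_combination h2 - h1

theorem Stab.lie_V {S : SS2Dat k p σ} {D : W k p σ} (hD : S.Stab D) : S.Stab ⁅S.V, D⁆ := by
  refine ⟨(GS k p σ).lie_mem S.V_mem hD.1, fun Y hY => ?_⟩
  rw [lie_lie, map_sub, S.χ_V ((GS k p σ).lie_mem hD.1 hY), hD.2 _ ((GS k p σ).lie_mem S.V_mem hY),
    sub_zero]

theorem co_o_lie_V (D : W k p σ) : S.co S.o ⁅S.V, D⁆ = S.V (S.co S.o D) := by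
  rw [co_lie, co_o_V, Derivation.map_one_eq_zero, sub_zero]

theorem co_fix_lie_V {v : σ} (h : S.r v = v) (h' : v ≠ S.o) (D : W k p σ) :
    S.co v ⁅S.V, D⁆ = S.V (S.co v D) := by
  rw [co_lie, S.co_V_ne h', S.sg_fix h, mul_zero, zero_smul, map_zero, sub_zero]

theorem V_ξ_fix {v : σ} (h : S.r v = v) (h' : v ≠ S.o) : S.V (S.ξ v) = 0 := by
  rw [← S.co_ne h', S.co_V_ne h', S.sg_fix h, mul_zero, zero_smul]

theorem V_Δ_fix {v : σ} (h : S.r v = v) (f : O k p σ) : S.V (S.Δ v f) = S.Δ v (S.V f) := by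
  have : ⁅S.Δ v, S.V⁆ = 0 := by
    refine S.ext_co fun i => ?_
    rw [co_lie_Δ, map_zero]
    by_cases hi : i = S.o
    · rw [hi, co_o_V, Derivation.map_one_eq_zero]
    · rw [S.co_V_ne hi, Derivation.map_smul, S.Δ_ξ _ hi]
      split_ifs with hiv
      · rw [hiv, S.sg_fix h, mul_zero, zero_smul]
      · rw [smul_zero]
  have h1 := congrArg (fun D : W k p σ => D f) this
  simp only [Derivation.commutator_apply, Derivation.coe_zero, Pi.zero_apply] at h1
  exact (sub_eq_zero.1 h1).symm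

omit [Fact p.Prime] [CharP k p] in
theorem der_q_fix {v : σ} (h : S.r v = v) (h' : v ≠ S.o) (D : W k p σ) :
    D S.q = S.ξ v * S.co v D := by
  rw [der_q, S.sum_e _ h h', h]

theorem Stab.co_pair {S : SS2Dat k p σ} {D : W k p σ} (hD : S.Stab D) {j : σ} (hj : S.r j ≠ j) :
    S.co j ⁅S.V, D⁆ = (S.μ * S.sg j) • (S.ξ j * S.V (S.co S.o D)) +
      S.sg j • S.Δ (S.r j) (D S.q) := by
  have h := hD.om_lie (S.Δ (S.r j))
  rw [S.om_Δ _ (S.r_ne_o (S.ne_o_of_pair hj)), S.rr, S.sg_r, S.c_r, S.c_pair hj, co_o_lie_V,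
    neg_smul, neg_neg] at h
  rw [← h, smul_sub, smul_smul, smul_smul, S.sg_sq j hj, one_smul, mul_comm S.μ]
  abel

theorem Stab.co_fix {S : SS2Dat k p σ} {D : W k p σ} (hD : S.Stab D) {v : σ} (h : S.r v = v)
    (h' : v ≠ S.o) : S.co v D = -(S.ξ v * (S.V (S.co S.o D) + S.Δ v (S.co v D))) := by
  have h1 := hD.om_lie (S.Δ v)
  rw [S.om_Δ _ h', h, S.sg_fix h, S.c_fix h h', co_o_lie_V, S.der_q_fix h h', Derivation.leibniz,
    S.Δ_ξ _ h', if_pos rfl, zero_smul, one_smul, smul_eq_mul, smul_eq_mul] at h1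
  linear_combination -h1

theorem div_smul_Δ (f : O k p σ) (j : σ) : S.fr.div (f • S.Δ j) = S.Δ j f := by
  have := S.fr.div_Δ j
  rw [S.fr.div_smul, show S.fr.div (S.Δ j) = 0 from this, mul_zero, add_zero]

theorem Stab.lie_V_eq {S : SS2Dat k p σ} {D : W k p σ} (hD : S.Stab D) :
    ⁅S.V, D⁆ = S.V (S.co S.o D) • S.V + ∑ j, (S.sg j • S.Δ (S.r j) (D S.q)) • S.Δ j +
      ∑ j, (S.e j • S.V (S.co j D)) • S.Δ j := by
  refine S.ext_co fun i => ?_
  rw [map_add, map_add, map_smul, smul_eq_mul]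
  have h1 := S.fr.co_sum (fun j => S.sg j • S.Δ (S.r j) (D S.q)) i
  have h2 := S.fr.co_sum (fun j => S.e j • S.V (S.co j D)) i
  change S.co i (∑ j, (S.sg j • S.Δ (S.r j) (D S.q)) • S.Δ j) = _ at h1
  change S.co i (∑ j, (S.e j • S.V (S.co j D)) • S.Δ j) = _ at h2
  rw [h1, h2]
  by_cases hi : i = S.o
  · rw [hi, co_o_lie_V, co_o_V, S.sg_o, S.e_o, zero_smul, zero_smul, mul_one, add_zero, add_zero]
  · rw [S.co_V_ne hi]
    by_cases hr : S.r i = i
    · rw [S.co_fix_lie_V hr hi, S.sg_fix hr, S.e_fix hr hi]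
      simp
    · rw [hD.co_pair hr, S.e_pair hr, zero_smul, add_zero, mul_smul_comm, mul_comm (S.ξ i)]

theorem Stab.div_eq {S : SS2Dat k p σ} {D : W k p σ} (hD : S.Stab D) :
    S.V (S.V (S.co S.o D)) + ∑ j, S.e j • S.Δ j (S.V (S.co j D)) = 0 := by
  have h := S.div_GS hD.lie_V.1
  rw [hD.lie_V_eq, S.fr.div_add, S.fr.div_add, S.fr.div_smul, S.div_GS S.V_mem, mul_zero, add_zero,
    S.fr.div_sum, S.fr.div_sum] at h
  simp only [div_smul_Δ, Derivation.map_smul] at h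
  rwa [S.sum_anti (fun j => S.sg j • S.Δ j (S.Δ (S.r j) (D S.q))) fun j => by
    rw [S.rr, S.sg_r, neg_smul, Δ_Δ], add_zero] at h

theorem Stab.V_co_fix {S : SS2Dat k p σ} {D : W k p σ} (hD : S.Stab D) {v : σ} (h : S.r v = v)
    (h' : v ≠ S.o) : S.V (S.co v D) = 0 := by
  have h1 := hD.div_eq
  rw [S.sum_e _ h h'] at h1
  have h2 := congrArg S.V (hD.co_fix h h')
  rwa [map_neg, Derivation.leibniz, S.V_ξ_fix h h', smul_zero, add_zero, map_add, S.V_Δ_fix h, h1,
    smul_zero, neg_zero] at h2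

theorem Stab.V_V_co {S : SS2Dat k p σ} {D : W k p σ} (hD : S.Stab D) :
    S.V (S.V (S.co S.o D)) = 0 := by
  have h1 := hD.div_eq
  rwa [S.sum_e_zero _ fun v h h' => by rw [hD.V_co_fix h h', map_zero], add_zero] at h1

theorem Stab.V_V {S : SS2Dat k p σ} {D : W k p σ} (hD : S.Stab D) : ⁅S.V, ⁅S.V, D⁆⁆ = 0 := by
  have h1 : ⁅S.V, D⁆ S.q = 0 := by
    rw [der_q]
    exact S.sum_e_zero _ fun v h h' => by rw [S.co_fix_lie_V h h', hD.V_co_fix h h', mul_zero]
  have h2 : ∀ j, S.e j • S.V (S.co j ⁅S.V, D⁆) = 0 := by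
    intro j
    by_cases hj : j ≠ S.o ∧ S.r j = j
    · rw [hD.lie_V.V_co_fix hj.2 hj.1, smul_zero]
    · rw [e, if_neg hj, zero_smul]
  rw [hD.lie_V.lie_V_eq, co_o_lie_V, hD.V_V_co, h1]
  simp [h2]

omit [Fintype σ] in
theorem ppow_Δo : ppow (S.Δ S.o) = S.Δ S.o := by
  refine S.ext_ξ ?_ fun l hl => ?_
  · have h1 : S.Δ S.o S.t = S.t := by rw [der_t, Δ_xo, if_pos rfl]
    rw [← der_t, ← der_t, ppow_apply, Function.iterate_fixed h1, h1]
  · have h1 : S.Δ S.o (S.ξ l) = 0 := by rw [S.Δ_ξ _ hl, if_neg hl]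
    rw [ppow_apply_eq_zero h1, h1]

theorem lie_Δo_H' : ⁅S.Δ S.o, S.H'⁆ = 0 := by
  refine S.ext_co fun i => ?_
  rw [co_lie_Δ, co_H', map_zero, Derivation.map_smul]
  by_cases hi : i = S.o
  · rw [hi, S.sg_o, zero_smul]
  · rw [S.Δ_ξ _ hi, if_neg hi, smul_zero]

theorem Stab.comm {S : SS2Dat k p σ} {D : W k p σ} (hD : S.Stab D) :
    ⁅S.Δ S.o, D⁆ = 0 ∧ ⁅S.H', D⁆ = 0 := by
  have hA : LieAlgebra.ad k (W k p σ) (S.Δ S.o) ^ p = LieAlgebra.ad k (W k p σ) (S.Δ S.o) := by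
    rw [← ad_ppow, ppow_Δo]
  have hB : LieAlgebra.ad k (W k p σ) S.H' ^ p = LieAlgebra.ad k (W k p σ) S.H' := by
    rw [← ad_ppow, H', ppow_diag S.sg_pow]
  have hC : Commute (LieAlgebra.ad k (W k p σ) (S.Δ S.o)) (LieAlgebra.ad k (W k p σ) S.H') := by
    ext1 Y
    change ⁅S.Δ S.o, ⁅S.H', Y⁆⁆ = ⁅S.H', ⁅S.Δ S.o, Y⁆⁆
    rw [leibniz_lie, lie_Δo_H', zero_lie, zero_add]
  have hV : ∀ Y, (LieAlgebra.ad k (W k p σ) (S.Δ S.o) + S.μ • LieAlgebra.ad k (W k p σ) S.H') Y =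
      ⁅S.V, Y⁆ := fun Y => by rw [V, add_lie, smul_lie]; rfl
  exact tor_ker hA hB hC S.hμ (f := D) (by rw [hV, hV, hD.V_V])

theorem Stab.Δo_co {S : SS2Dat k p σ} {D : W k p σ} (hD : S.Stab D) (i : σ) :
    S.Δ S.o (S.co i D) = 0 := by rw [← co_lie_Δ, hD.comm.1, map_zero]

theorem Stab.H'_co_o {S : SS2Dat k p σ} {D : W k p σ} (hD : S.Stab D) :
    S.H' (S.co S.o D) = 0 := by
  have h := S.co_lie S.o S.H' D
  rw [hD.comm.2, co_H', S.sg_o, zero_smul, map_zero, map_zero, sub_zero] at h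
  exact h.symm

theorem Stab.co_pair_zero {S : SS2Dat k p σ} {D : W k p σ} (hD : S.Stab D) {j : σ}
    (hj : S.r j ≠ j) (h0 : S.H' (S.co j D) = 0) : S.co j D = 0 := by
  have h := S.co_lie j S.H' D
  rw [hD.comm.2, co_H', map_zero, h0, Derivation.map_smul, ← S.co_ne (S.ne_o_of_pair hj),
    zero_sub, eq_comm, neg_eq_zero] at h
  rw [← one_smul k (S.co j D), ← S.sg_sq j hj, mul_smul, h, smul_zero]

theorem Stab.co_fix_zero {S : SS2Dat k p σ} {D : W k p σ} (hD : S.Stab D) {v : σ} (h : S.r v = v)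
    (h' : v ≠ S.o) (h0 : S.Δ v (S.co v D) = 0) : S.co v D = 0 := by
  have h1 := hD.co_fix h h'
  rwa [h0, V, Derivation.add_apply, Derivation.smul_apply, hD.Δo_co, hD.H'_co_o, smul_zero,
    add_zero, add_zero, mul_zero, neg_zero] at h1

/-- the weights -/
def w (j : σ) : ℤ := if j = S.o then 0 else 1

section weights
omit [Fact p.Prime] [CharP k p] [Fintype σ]

theorem w_o : S.w S.o = 0 := if_pos rfl

theorem w_ne {j : σ} (h : j ≠ S.o) : S.w j = 1 := if_neg h

theorem w_nonneg (j : σ) : 0 ≤ S.w j := by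
  rw [w]
  split_ifs <;> simp

end weights

section graded
omit [Fact p.Prime] [CharP k p]

theorem t_mem : S.t ∈ G k p S.w 0 := add_mem one_mem_G (S.w_o ▸ x_mem_G S.o)

theorem ti_mem : S.ti ∈ G k p S.w 0 := by
  have := pow_mem_G S.t_mem (p - 1)
  rwa [mul_zero] at this

theorem ξ_mem {j : σ} (h : j ≠ S.o) : S.ξ j ∈ G k p S.w 1 := by
  by_cases hj : j = S.a
  · have := mul_mem_G S.t_mem (x_mem_G S.a)
    rwa [zero_add, S.w_ne S.a_ne, ← ξ_a, ← hj] at this
  · rw [S.ξ_ne hj, ← S.w_ne h]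
    exact x_mem_G j

theorem h_mem : S.h ∈ G k p S.w 2 := by
  refine sum_mem fun j _ => ?_
  by_cases hj : j = S.o
  · rw [hj, S.c_o, mul_zero, zero_smul]
    exact zero_mem _
  · have := mul_mem_G (S.ξ_mem hj) (S.ξ_mem (S.r_ne_o hj))
    rw [one_add_one_eq_two] at this
    exact Submodule.smul_mem _ _ this

end graded

omit [Fact p.Prime] in
theorem Δ_mem (j : σ) : S.Δ j ∈ GW k p S.w (-S.w j) := by
  by_cases hj : j = S.o
  · subst hj
    have h1 := smul_mem_GW S.t_mem (pd_mem_GW (k := k) (p := p) (w := S.w) S.o)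
    have h2 := smul_mem_GW (x_mem_G S.a) (pd_mem_GW (k := k) (p := p) (w := S.w) S.a)
    rw [zero_add] at h1
    rw [add_neg_cancel] at h2
    rw [Δ_o]
    refine sub_mem h1 ?_
    rwa [w_o, neg_zero]
  · by_cases hj' : j = S.a
    · subst hj'
      have h1 := smul_mem_GW S.ti_mem (pd_mem_GW (k := k) (p := p) (w := S.w) S.a)
      rwa [zero_add, ← Δ_a] at h1
    · rw [S.Δ_ne hj hj']
      exact pd_mem_GW j

omit [Fact p.Prime] in
theorem Δo_GW : S.Δ S.o ∈ GW k p S.w 0 := by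
  have := S.Δ_mem S.o
  rwa [w_o, neg_zero] at this

omit [Fact p.Prime] [CharP k p] in
theorem co_o_G {l : ℤ} {D : W k p σ} (hD : D ∈ GW k p S.w l) : S.co S.o D ∈ G k p S.w l := by
  have := mul_mem_G S.ti_mem (hD S.o)
  rwa [w_o, zero_add, add_zero, ← co_o] at this

omit [Fact p.Prime] [CharP k p] in
theorem co_o_F {l : ℤ} {D : W k p σ} (hD : D ∈ FW k p S.w l) : S.co S.o D ∈ F k p S.w l := by
  have := mul_mem_F (G_le_F le_rfl S.ti_mem) (hD S.o)
  rwa [w_o, zero_add, add_zero, ← co_o] at this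

omit [Fact p.Prime] in
theorem co_G {l : ℤ} {D : W k p σ} (hD : D ∈ GW k p S.w l) {j : σ} (h : j ≠ S.o) :
    S.co j D ∈ G k p S.w (l + 1) := by
  rw [S.co_ne h]
  exact GW_apply hD (S.ξ_mem h)

omit [Fact p.Prime] in
theorem co_F {l : ℤ} {D : W k p σ} (hD : D ∈ FW k p S.w l) {j : σ} (h : j ≠ S.o) :
    S.co j D ∈ F k p S.w (l + 1) := by
  rw [S.co_ne h]
  exact FW_apply hD (G_le_F le_rfl (S.ξ_mem h))

omit [Fact p.Prime] in
theorem α_G {l : ℤ} {D : W k p σ} (hD : D ∈ GW k p S.w l) : S.α D ∈ G k p S.w (2 + l) := by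
  rw [α_apply]
  refine add_mem (sum_mem fun j _ => ?_) (mul_mem_G S.h_mem (S.co_o_G hD))
  by_cases hj : j = S.o
  · rw [hj, S.sg_o, mul_zero, zero_smul]
    exact zero_mem _
  · have := mul_mem_G (S.ξ_mem hj) (S.co_G hD (S.r_ne_o hj))
    rw [show 1 + (l + 1) = 2 + l by ring] at this
    exact Submodule.smul_mem _ _ this

omit [Fact p.Prime] in
theorem α_F {l : ℤ} {D : W k p σ} (hD : D ∈ FW k p S.w l) : S.α D ∈ F k p S.w (2 + l) := by
  rw [α_apply]
  refine add_mem (sum_mem fun j _ => ?_) (mul_mem_F (G_le_F le_rfl S.h_mem) (S.co_o_F hD))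
  by_cases hj : j = S.o
  · rw [hj, S.sg_o, mul_zero, zero_smul]
    exact zero_mem _
  · have := mul_mem_F (G_le_F le_rfl (S.ξ_mem hj)) (S.co_F hD (S.r_ne_o hj))
    rw [show 1 + (l + 1) = 2 + l by ring] at this
    exact Submodule.smul_mem _ _ this

omit [Fact p.Prime] in
theorem Δ_G_zero {j : σ} (h : j ≠ S.o) {l : ℤ} (hl : l ≤ 0) {f : O k p σ}
    (hf : f ∈ G k p S.w l) : S.Δ j f = 0 :=
  eq_zero_of_G_neg S.w_nonneg (by rw [S.w_ne h]; omega) (GW_apply (S.Δ_mem j) hf)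

theorem H'_G_zero {l : ℤ} (hl : l ≤ 0) {f : O k p σ} (hf : f ∈ G k p S.w l) : S.H' f = 0 := by
  rw [S.apply_eq]
  refine Finset.sum_eq_zero fun j _ => ?_
  by_cases hj : j = S.o
  · rw [hj, co_H', S.sg_o, zero_smul, zero_mul]
  · rw [S.Δ_G_zero hj hl hf, mul_zero]

omit [Fact p.Prime] [CharP k p] [DecidableEq σ] in
theorem split_F {w : σ → ℤ} {l : ℤ} {f : O k p σ} (hf : f ∈ F k p w l) :
    ∃ f₀ ∈ G k p w l, ∃ f₁ ∈ F k p w (l + 1), f₀ + f₁ = f := by
  rw [F_eq_sup] at hf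
  exact Submodule.mem_sup.1 hf

theorem H'_F_one (g : O k p σ) : S.H' g ∈ F k p S.w 1 := by
  obtain ⟨g₀, h0, g₁, h1, rfl⟩ := split_F (mem_F_of_nonpos S.w_nonneg le_rfl g)
  rw [map_add, S.H'_G_zero le_rfl h0, zero_add]
  have := FW_apply (GW_le_FW le_rfl (diag_mem_GW S.sg S.w)) h1
  rwa [zero_add, zero_add] at this

theorem H'_F_top {f : O k p σ} (hf : f ∈ F k p S.w (topw p S.w)) : S.H' f = 0 := by
  refine I_nondeg fun g => ?_
  rw [mul_comm, I_parts S.H'_mem, I_of_F (mul_mem_F hf (S.H'_F_one g)) (by omega), neg_zero]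

theorem const_G {f : O k p σ} (hf : f ∈ G k p S.w 0) (h : S.Δ S.o f = 0) :
    f = algebraMap k _ (ev k p σ f) := by
  refine S.fr.const fun i => ?_
  by_cases hi : i = S.o
  · rw [hi]; exact h
  · exact S.Δ_G_zero hi le_rfl hf

theorem decomp_G {f : O k p σ} (hf : f ∈ G k p S.w 0) :
    ∃ (c : k) (g : O k p σ), f = algebraMap k _ c + S.Δ S.o g := by
  have h1 : ∀ n, (S.Δ S.o)^[n] f ∈ G k p S.w 0 := by
    intro n
    induction n with
    | zero => exact hf
    | succ n ih =>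
      have := GW_apply S.Δo_GW ih
      rwa [add_zero, ← Function.iterate_succ_apply' (S.Δ S.o)] at this
  have hp := S.hp
  have h2 : S.Δ S.o (f - (S.Δ S.o)^[p - 1] f) = 0 := by
    rw [map_sub, ← Function.iterate_succ_apply' (S.Δ S.o), show (p - 1).succ = p by omega,
      ← ppow_apply, ppow_Δo, sub_self]
  refine ⟨ev k p σ (f - (S.Δ S.o)^[p - 1] f), (S.Δ S.o)^[p - 2] f, ?_⟩
  rw [← S.const_G (sub_mem hf (h1 _)) h2, ← Function.iterate_succ_apply' (S.Δ S.o),
    show (p - 2).succ = p - 1 by omega, sub_add_cancel]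

theorem Stab.neg_zero {S : SS2Dat k p σ} {D : W k p σ} (hD : S.Stab D) {l : ℤ} (hl : l < 0)
    (h : D ∈ GW k p S.w l) : D = 0 := by
  refine S.ext_co fun j => ?_
  rw [map_zero]
  by_cases hj : j = S.o
  · rw [hj]
    exact eq_zero_of_G_neg S.w_nonneg hl (S.co_o_G h)
  · by_cases hr : S.r j = j
    · exact hD.co_fix_zero hr hj (S.Δ_G_zero hj (by omega) (S.co_G h hj))
    · exact hD.co_pair_zero hr (S.H'_G_zero (by omega) (S.co_G h hj))

theorem Stab.top_zero {S : SS2Dat k p σ} {D : W k p σ} (hD : S.Stab D)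
    (h : D ∈ FW k p S.w (topw p S.w - 2 + 1)) : D = 0 := by
  have hpair : ∀ j, S.r j ≠ j → S.co j D = 0 := fun j hj => by
    have := S.co_F h (S.ne_o_of_pair hj)
    rw [show topw p S.w - 2 + 1 + 1 = topw p S.w by ring] at this
    exact hD.co_pair_zero hj (S.H'_F_top this)
  have hfix : ∀ v, S.r v = v → v ≠ S.o → S.co v D = 0 := fun v hv hv' => by
    refine hD.co_fix_zero hv hv' ?_
    have h1 := S.div_GS hD.1
    change ∑ i, S.Δ i (S.co i D) = 0 at h1
    rw [Finset.sum_eq_single v] at h1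
    · exact h1
    · intro j _ hj
      by_cases hj' : j = S.o
      · rw [hj', hD.Δo_co]
      · rw [hpair j fun hr => hj (S.uniq j v hr hv hj' hv'), map_zero]
    · simp
  have hA : S.co S.o D ∈ F k p S.w (topw p S.w - 2 + 1) := S.co_o_F h
  have hI : I k p σ (S.co S.o D) = 0 := I_co_of_mem_GS S.fr S.o hD.1
  have hΔ : ∀ g, I k p σ (S.co S.o D * S.Δ S.o g) = 0 := fun g => by
    rw [I_parts_Δ, hD.Δo_co, mul_zero, map_zero, _root_.neg_zero]
  have hξ : ∀ l, l ≠ S.o → I k p σ (S.co S.o D * S.ξ l) = 0 := by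
    intro l hl
    by_cases hr : S.r l = l
    · have hla : S.a ≠ l := fun e => S.ra (by rw [e, hr])
      have hlr : S.r S.a ≠ l := fun e => hla (by rw [S.r_eq_iff.1 e, hr])
      have h1 := hD.closed S.a l
      rw [S.om_Δ _ hl, S.om_Δ _ S.a_ne, hr, S.sg_fix hr, S.c_fix hr hl, S.c_pair S.ra,
        hpair (S.r S.a) (by rw [S.rr]; exact S.ra.symm), zero_smul, smul_zero, one_smul,
        _root_.neg_zero, zero_sub, zero_sub, map_neg, map_neg, neg_inj, Derivation.map_smul] at h1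
      have h2 := S.I_parts_Δ S.a (S.ξ S.a) (S.ξ l * S.co S.o D)
      have h3 := S.I_parts_Δ l (S.ξ S.a) (S.ξ (S.r S.a) * S.co S.o D)
      rw [S.Δ_ξ _ S.a_ne, if_neg hla, mul_zero, map_zero, _root_.neg_zero] at h3
      rw [S.Δ_ξ _ S.a_ne, if_pos rfl, mul_one, h1, mul_smul_comm, map_smul, h3, smul_zero,
        eq_comm, neg_eq_zero, mul_comm] at h2
      exact h2
    · have h1 := I_parts S.H'_mem (S.co S.o D) (S.ξ l)
      rw [hD.H'_co_o, mul_zero, map_zero, _root_.neg_zero, H'_ξ, mul_smul_comm, map_smul,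
        smul_eq_mul] at h1
      rw [← one_mul (I k p σ _), ← S.sg_sq l hr, mul_assoc, h1, mul_zero]
  have h0 : ∀ g ∈ G k p S.w 0, I k p σ (S.co S.o D * g) = 0 := by
    intro g hg
    obtain ⟨c, g', rfl⟩ := S.decomp_G hg
    rw [mul_add, map_add, hΔ, add_zero, mul_comm, ← Algebra.smul_def, map_smul, hI, smul_zero]
  have h0' : ∀ g ∈ G k p S.w 0, ∀ l, l ≠ S.o → I k p σ (S.co S.o D * (g * S.ξ l)) = 0 := by
    intro g hg l hl
    obtain ⟨c, g', rfl⟩ := S.decomp_G hg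
    have h1 : S.Δ S.o g' * S.ξ l = S.Δ S.o (g' * S.ξ l) := by
      rw [Derivation.leibniz, S.Δ_ξ _ hl, if_neg hl, smul_zero, zero_add, smul_eq_mul, mul_comm]
    rw [add_mul, h1, mul_add, map_add, hΔ, add_zero, ← Algebra.smul_def, mul_smul_comm, map_smul,
      hξ l hl, smul_zero]
  have h1 : ∀ g ∈ G k p S.w 1, I k p σ (S.co S.o D * g) = 0 := by
    intro g hg
    obtain ⟨u, hu, rfl⟩ := exists_of_G_one S.w_nonneg hg
    rw [Finset.mul_sum, map_sum]
    refine Finset.sum_eq_zero fun l _ => ?_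
    split_ifs with hl
    · have hl' : l ≠ S.o := fun e => by rw [e, w_o] at hl; exact zero_ne_one hl
      by_cases hla : l = S.a
      · have h2 := mul_mem_G (hu l) S.ti_mem
        rw [add_zero] at h2
        have h3 := h0' _ h2 l hl'
        have h4 : u l * S.ti * S.ξ l = u l * x k p l := by
          have := S.t_mul_ti
          rw [hla, ξ_a]
          linear_combination u S.a * x k p S.a * this
        rwa [h4] at h3
      · rw [← S.ξ_ne hla]
        exact h0' _ (hu l) l hl'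
    · rw [mul_zero, map_zero]
  have hA0 : S.co S.o D = 0 := by
    refine I_nondeg fun g => ?_
    obtain ⟨g₀, hg₀, g', hg', rfl⟩ := split_F (mem_F_of_nonpos S.w_nonneg le_rfl g)
    obtain ⟨g₁, hg₁, g₂, hg₂, rfl⟩ := split_F hg'
    rw [zero_add] at hg₁
    rw [mul_add, mul_add, map_add, map_add, h0 _ hg₀, h1 _ hg₁,
      I_of_F (mul_mem_F hA hg₂) (by omega), add_zero, add_zero]
  refine S.ext_co fun j => ?_
  rw [map_zero]
  by_cases hj : j = S.o
  · rw [hj, hA0]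
  · by_cases hr : S.r j = j
    · exact hfix j hr hj
    · exact hpair j hr

theorem uniq_t {f : O k p σ} (hf : f ∈ F k p S.w 0) (h : S.Δ S.o f = f) :
    ∃ c : k, f - c • S.t ∈ F k p S.w (0 + 1) := by
  obtain ⟨f₀, h0, f₁, h1, rfl⟩ := split_F hf
  have h2 : S.Δ S.o f₀ - f₀ = 0 := by
    have a1 := GW_apply S.Δo_GW h0
    have a2 := FW_apply (GW_le_FW le_rfl S.Δo_GW) h1
    rw [zero_add] at a1 a2
    refine eq_zero_of_G_F (sub_mem a1 h0) (j := 0 + 1) ?_ (by omega)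
    have : S.Δ S.o f₀ - f₀ = f₁ - S.Δ S.o f₁ := by
      rw [map_add] at h
      linear_combination h
    rw [this]
    exact sub_mem h1 a2
  have h3 := mul_mem_G h0 S.ti_mem
  rw [add_zero] at h3
  have h5 := S.t_mul_ti
  have h4 : S.Δ S.o (f₀ * S.ti) = 0 := by
    rw [Derivation.leibniz, der_ti, Δ_xo, if_pos rfl, smul_eq_mul, smul_eq_mul]
    linear_combination S.ti * h2 - f₀ * S.ti * h5
  refine ⟨ev k p σ (f₀ * S.ti), ?_⟩
  have h6 : ev k p σ (f₀ * S.ti) • S.t = f₀ := by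
    rw [Algebra.smul_def, ← S.const_G h3 h4]
    linear_combination f₀ * h5
  rwa [h6, add_sub_cancel_left]

omit [Fact p.Prime] [CharP k p] in
theorem topw_ge : 8 ≤ topw p S.w := by
  have hp := S.hp
  have h1 : ∑ l ∈ {S.a, S.r S.a}, S.w l ≤ ∑ l, S.w l :=
    Finset.sum_le_sum_of_subset_of_nonneg (Finset.subset_univ _) fun l _ _ => S.w_nonneg l
  rw [Finset.sum_pair S.ra.symm, S.w_ne S.a_ne, S.w_ne (S.r_ne_o S.a_ne)] at h1
  rw [topw_eq (by omega)]
  have h2 : (4 : ℤ) ≤ (p : ℤ) - 1 := by omega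
  nlinarith

omit [Fact p.Prime] [CharP k p] [Fintype σ] in
include S in
theorem three (i j : σ) : ∃ l, l ≠ i ∧ l ≠ j := by
  have h1 := S.a_ne
  have h2 := S.ra
  have h3 := S.r_ne_o S.a_ne
  by_contra h
  push Not at h
  have a1 := h S.o
  have a2 := h S.a
  have a3 := h (S.r S.a)
  by_cases b1 : S.o = i <;> by_cases b2 : S.a = i <;> by_cases b3 : S.r S.a = i <;> simp_all

include S in
theorem fails [IsAlgClosed k] : Fails k p (pw (GS k p σ)) := by
  have hp := S.hp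
  have hM := S.topw_ge
  refine fails_graded (by omega) S.w S.w_nonneg (topw p S.w - 2) (by omega) ?_ (GS k p σ) GS_ppow
    (GS_center (by omega) S.three) (GS_graded S.w) S.χ
    (fun j hj D hD => I_of_G (S.α_G hD) (by omega)) (fun D hD => I_of_F (S.α_F hD) (by omega))
    (S.Δ S.o) S.Δo_mem S.Δo_GW S.ppow_Δo (fun D _ => S.χ_Δo D) (fun γ hγ D hD h1 h2 => ?_)
    (fun j hj D hD h1 h2 => Stab.neg_zero ⟨hD, h2⟩ hj h1)
    (fun D hD h1 h2 => Stab.top_zero ⟨hD, h2⟩ h1) S.t 0 S.t_mem (fun h => ?_) ?_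
    fun f hf h => S.uniq_t hf h
  · have h2 : (5 : ℤ) ≤ (p : ℤ) := by omega
    nlinarith
  · have h3 : S.Stab D := ⟨hD, h2⟩
    rw [h3.comm.1] at h1
    exact (smul_eq_zero.1 h1.symm).resolve_left hγ
  · have := S.t_mul_ti
    rw [h, zero_mul] at this
    exact zero_ne_one this
  · rw [der_t, Δ_xo, if_pos rfl]

end SS2Dat

variable {k : Type*} [Field k] [IsAlgClosed k] {p : ℕ} [Fact p.Prime] [CharP k p]

omit [IsAlgClosed k] [Fact p.Prime] in
theorem ss2_two_ne (hp : 5 ≤ p) : (2 : k) ≠ 0 := fun h => by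
  have h1 : ((2 : ℕ) : k) = 0 := by exact_mod_cast h
  have := Nat.le_of_dvd (by norm_num) ((CharP.cast_eq_zero_iff k p 2).1 h1)
  omega

/-- the involution `j ↦ -j` -/
def ss2r {n : ℕ} (j : Fin n) : Fin n :=
  if h : (j : ℕ) = 0 then j else ⟨n - j, by have := j.2; omega⟩

theorem ss2r_val {n : ℕ} (j : Fin n) : (ss2r j : ℕ) = if (j : ℕ) = 0 then 0 else n - j := by
  rw [ss2r]
  split_ifs with h
  · exact h
  · rfl

theorem fails_tS (hp : 5 ≤ p) {n : ℕ} (hn : 3 ≤ n) :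
    Fails k p (pw (der (der {D : W k p (Fin n) | ∑ i, pd k p i (D (x k p i)) = 0} :
      Set (W k p (Fin n))))) := by
  obtain ⟨μ, hμ⟩ := exists_not_fixed (k := k) (p := p)
  have hodd : Odd p := (Fact.out : p.Prime).odd_of_ne_two (by omega)
  have rr : ∀ j : Fin n, ss2r (ss2r j) = j := fun j => Fin.ext (by
    have := j.2
    simp only [ss2r_val]
    split_ifs <;> omega)
  let S : SS2Dat k p (Fin n) :=
    { o := ⟨0, by omega⟩
      a := ⟨1, by omega⟩
      r := ss2r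
      sg := fun j => if j < ss2r j then 1 else if ss2r j < j then -1 else 0
      μ := μ
      hp := hp
      h2 := ss2_two_ne hp
      rr := rr
      ro := Fin.ext (by simp [ss2r_val])
      ra := fun h => by
        have := congrArg Fin.val h
        simp only [ss2r_val] at this
        split_ifs at this <;> omega
      uniq := fun i j hi hj hi' hj' => Fin.ext (by
        have h1 := congrArg Fin.val hi
        have h2 := congrArg Fin.val hj
        have h3 : (i : ℕ) ≠ 0 := fun h => hi' (Fin.ext h)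
        have h4 : (j : ℕ) ≠ 0 := fun h => hj' (Fin.ext h)
        have := i.2
        have := j.2
        simp only [ss2r_val, h3, h4, if_false] at h1 h2
        omega)
      sg_r := fun j => by
        rw [rr]
        rcases lt_trichotomy j (ss2r j) with h | h | h
        · simp [h, h.not_gt]
        · simp [← h]
        · simp [h, h.not_gt]
      sg_sq := fun j hj => by
        rcases lt_trichotomy j (ss2r j) with h | h | h
        · simp [h]
        · exact absurd h.symm hj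
        · simp [h, h.not_gt]
      sg_pow := fun j => by
        split_ifs
        · exact one_pow _
        · exact hodd.neg_one_pow
        · exact zero_pow (by omega)
      hμ := hμ }
  rw [der_der_S S.three]
  exact S.fails

end Pool.Agent.Cart
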