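import Pool.Agent.P.MP_c9b50d_al.C.SW
import Pool.Agent.P.MP_c9b50d_al.C.SH
import Pool.Agent.P.MP_c9b50d_al.C.SS2
import Pool.Agent.P.MP_c9b50d_al.C.SK3
import Pool.Agent.P.MP_c9b50d_al.C.SK4

/-! All four series. -/

namespace Pool.Agent.Cart

theorem main {k : Type*} [Field k] [IsAlgClosed k] {p : ℕ} [Fact p.Prime] [CharP k p]
    (hp : 5 ≤ p) (T : Cartan) :
    Fails k p (pw (der (der (T.alg k p) : Set (W k p T.vars)))) := by
  cases T with
  | tW n h => exact fails_tW hp h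
  | tS n h => exact fails_tS hp h
  | tH m h => exact fails_tH hp h
  | tK m h =>
    obtain ⟨κ, hκ⟩ := exists_not_fixed (k := k) (p := p)
    obtain ⟨Φ, hΦ⟩ := Km.exists_conj (p := p) (⟨0, h⟩ : Fin m) κ (by omega)
    refine fails_conj Φ (B := Km.Kset p ⟨0, h⟩ κ) hΦ ?_
    rw [Km.der_der_K _ _ hp]
    exact Km.fails_GK _ hp hκ

theorem main' {k : Type*} [Field k] [IsAlgClosed k] {p : ℕ} [Fact p.Prime] [CharP k p]
    (hp : 5 ≤ p) (T : Cartan) : St.Fails2 p (St.alg k p T) := by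
  cases T with
  | tW n h => exact main hp (.tW n h)
  | tS n h => exact main hp (.tS n h)
  | tH m h => exact main hp (.tH m h)
  | tK m h => exact main hp (.tK m h)

end Pool.Agent.Cart
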