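import Pool.Agent.P.MP_c9b50d_al.C.Defs

/-! The truncated polynomial algebra: monomials, integral, augmentation. -/

namespace Pool.Agent.Cart

open Module

variable {k : Type*} [Field k] {p : ℕ} {σ : Type}

theorem x_pow (i : σ) : x k p i ^ p = 0 := by
  rw [x, ← map_pow, cls_eq_zero]
  exact Ideal.subset_span ⟨i, rfl⟩

theorem O_ind {P : O k p σ → Prop} (hc : ∀ a : k, P (algebraMap k _ a))
    (ha : ∀ f g, P f → P g → P (f + g)) (hx : ∀ f i, P f → P (f * x k p i)) (f : O k p σ) :
    P f := by
  obtain ⟨f, rfl⟩ := cls_surj k p f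
  induction f using MvPolynomial.induction_on with
  | C a => exact (cls k p).commutes a ▸ hc a
  | add f g hf hg => rw [map_add]; exact ha _ _ hf hg
  | mul_X f i hf => rw [map_mul]; exact hx _ i hf

theorem W_ext {D E : W k p σ} (h : ∀ i, D (x k p i) = E (x k p i)) : D = E := by
  ext f
  induction f using O_ind with
  | hc a => simp
  | ha f g hf hg => rw [map_add, map_add, hf, hg]
  | hx f i hf => rw [Derivation.leibniz, Derivation.leibniz, hf, h]

theorem lie_smul_W (D E : W k p σ) (f : O k p σ) : ⁅D, f • E⁆ = D f • E + f • ⁅D, E⁆ := by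
  ext g
  simp only [Derivation.commutator_apply, Derivation.add_apply, Derivation.smul_apply,
    Derivation.leibniz, smul_eq_mul]
  ring

theorem smul_lie_W (D E : W k p σ) (f : O k p σ) : ⁅f • D, E⁆ = f • ⁅D, E⁆ - E f • D := by
  ext g
  simp only [Derivation.commutator_apply, Derivation.sub_apply, Derivation.smul_apply,
    Derivation.leibniz, smul_eq_mul]
  ring

theorem W_sum_apply {I : Type*} (s : Finset I) (D : I → W k p σ) (f : O k p σ) :
    (∑ i ∈ s, D i) f = ∑ i ∈ s, D i f := by
  classical
  induction s using Finset.induction_on with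
  | empty => simp
  | insert i s hi ih => rw [Finset.sum_insert hi, Finset.sum_insert hi, Derivation.add_apply, ih]

theorem aeval_eq_zero {B : Type*} [CommRing B] [Algebra k B] (y : σ → B) (hy : ∀ i, y i ^ p = 0)
    (a : MvPolynomial σ k)
    (ha : a ∈ Ideal.span (Set.range fun i : σ => (MvPolynomial.X i : MvPolynomial σ k) ^ p)) :
    MvPolynomial.aeval y a = 0 := by
  refine (Ideal.span_le (I := RingHom.ker (MvPolynomial.aeval y : _ →ₐ[k] B))).2 ?_ ha
  rintro _ ⟨i, rfl⟩
  simp [RingHom.mem_ker, hy]

/-- the substitution of elements with zero `p`-th power -/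
noncomputable def subst (y : σ → O k p σ) (hy : ∀ i, y i ^ p = 0) : O k p σ →ₐ[k] O k p σ :=
  Ideal.Quotient.liftₐ _ (MvPolynomial.aeval y) (aeval_eq_zero y hy)

theorem subst_x (y : σ → O k p σ) (hy : ∀ i, y i ^ p = 0) (i : σ) :
    subst y hy (x k p i) = y i := by
  exact MvPolynomial.aeval_X y i

section pd
variable [CharP k p] [DecidableEq σ]

omit [DecidableEq σ] in
theorem pd_cls (i : σ) (g : MvPolynomial σ k) :
    pd k p i (cls k p g) = cls k p (MvPolynomial.pderiv i g) :=
  Derivation.liftOfSurjective_apply _ (pderiv_mem k p i) g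

theorem pd_x (i j : σ) : pd k p i (x k p j) = if j = i then 1 else 0 := by
  rw [x, pd_cls, MvPolynomial.pderiv_X]
  by_cases h : j = i <;> simp [h]

theorem pd_x_self (i : σ) : pd k p i (x k p i) = 1 := by
  rw [pd_x, if_pos rfl]

theorem pd_x_ne {i j : σ} (h : j ≠ i) : pd k p i (x k p j) = 0 := by
  rw [pd_x, if_neg h]

theorem pd_comm (i j : σ) : ⁅pd k p i, pd k p j⁆ = 0 := by
  refine W_ext fun l => ?_
  rw [Derivation.commutator_apply, pd_x, pd_x]
  split_ifs <;> simp

theorem pd_pd (i j : σ) (f : O k p σ) : pd k p i (pd k p j f) = pd k p j (pd k p i f) := by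
  rw [← sub_eq_zero, ← Derivation.commutator_apply, pd_comm, Derivation.zero_apply]

theorem W_exp [Fintype σ] (D : W k p σ) : D = ∑ i, D (x k p i) • pd k p i := by
  refine W_ext fun l => ?_
  simp [W_sum_apply, pd_x]

theorem W_apply [Fintype σ] (D : W k p σ) (f : O k p σ) :
    D f = ∑ i, D (x k p i) * pd k p i f := by
  conv_lhs => rw [W_exp D]
  simp [W_sum_apply]

theorem sum_smul_pd_x [Fintype σ] (u : σ → O k p σ) (j : σ) :
    (∑ i, u i • pd k p i) (x k p j) = u j := by
  simp [W_sum_apply, pd_x]

end pd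

variable [Fintype σ]

variable (k p) in
/-- the monomial with exponents `a` -/
noncomputable def mn (a : σ → ℕ) : O k p σ := ∏ i, x k p i ^ a i

theorem mn_zero : mn k p (0 : σ → ℕ) = 1 := by
  simp [mn]

theorem mn_add (a b : σ → ℕ) : mn k p (a + b) = mn k p a * mn k p b := by
  simp [mn, pow_add, Finset.prod_mul_distrib]

theorem mn_single [DecidableEq σ] (i : σ) (n : ℕ) : mn k p (Pi.single i n) = x k p i ^ n := by
  rw [mn, Finset.prod_eq_single i (fun j _ h => by simp [h]) (by simp), Pi.single_eq_same]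

theorem mn_eq_zero {a : σ → ℕ} {i : σ} (h : p ≤ a i) : mn k p a = 0 := by
  refine Finset.prod_eq_zero (Finset.mem_univ i) ?_
  obtain ⟨n, hn⟩ := Nat.exists_eq_add_of_le h
  rw [hn, pow_add, x_pow, zero_mul]

theorem mn_eq_cls (a : σ → ℕ) :
    mn k p a = cls k p (MvPolynomial.monomial (Finsupp.equivFunOnFinite.symm a) 1) := by
  rw [MvPolynomial.monomial_eq, Finsupp.prod_fintype _ _ fun _ => pow_zero _]
  simp [mn, x]

theorem pd_mn [CharP k p] [DecidableEq σ] (i : σ) (a : σ → ℕ) :
    pd k p i (mn k p a) = (a i : k) • mn k p (a - Pi.single i 1) := by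
  rw [mn_eq_cls, mn_eq_cls, pd_cls, MvPolynomial.pderiv_monomial, ← map_smul,
    MvPolynomial.smul_monomial]
  have e : Finsupp.equivFunOnFinite.symm (a - Pi.single i 1) =
      Finsupp.equivFunOnFinite.symm a - Finsupp.single i 1 := by
    ext j
    simp [Finsupp.single_apply, Pi.single_apply, eq_comm]
  simp [e]

theorem x_mul_pd_mn [CharP k p] (i : σ) (a : σ → ℕ) :
    x k p i * pd k p i (mn k p a) = (a i : k) • mn k p a := by
  classical
  rw [pd_mn, mul_smul_comm]
  rcases Nat.eq_zero_or_pos (a i) with h | h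
  · simp [h]
  · rw [← pow_one (x k p i), ← mn_single, ← mn_add]
    congr 2
    ext j
    by_cases e : j = i
    · subst e
      simp only [Pi.add_apply, Pi.sub_apply, Pi.single_eq_same]
      omega
    · simp [e]

theorem mn_li : LinearIndependent k fun a : σ → Fin p => mn k p fun i => (a i : ℕ) := by
  classical
  rw [Fintype.linearIndependent_iff]
  intro c hc a
  simp only [mn_eq_cls, ← map_smul] at hc
  rw [← map_sum, cls_eq_zero] at hc
  have h1 : (Set.range fun i : σ => (MvPolynomial.X i : MvPolynomial σ k) ^ p) =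
      (fun s => MvPolynomial.monomial s (1 : k)) '' Set.range fun i : σ => Finsupp.single i p := by
    rw [← Set.range_comp]
    exact congrArg _ (funext fun i => MvPolynomial.X_pow_eq_monomial)
  rw [h1, MvPolynomial.mem_ideal_span_monomial_image] at hc
  by_contra hne
  obtain ⟨_, ⟨i, rfl⟩, hi⟩ := hc (Finsupp.equivFunOnFinite.symm fun i => (a i : ℕ)) (by
    rw [MvPolynomial.mem_support_iff, MvPolynomial.coeff_sum, Finset.sum_eq_single a]
    · simpa using hne
    · intro b _ hb
      rw [MvPolynomial.coeff_monomial, if_neg]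
      intro e
      exact hb (funext fun i => Fin.ext (congrFun (Finsupp.equivFunOnFinite.symm.injective e) i))
    · simp)
  have := hi i
  simp only [Finsupp.single_eq_same, Finsupp.equivFunOnFinite_symm_apply_apply] at this
  exact absurd (a i).2 (not_lt.2 this)

theorem mn_mem_span (a : σ → ℕ) : mn k p a ∈ Submodule.span k
    (Set.range fun a : σ → Fin p => mn k p fun i => (a i : ℕ)) := by
  by_cases h : ∀ i, a i < p
  · exact Submodule.subset_span ⟨fun i => ⟨a i, h i⟩, rfl⟩
  · push Not at h
    obtain ⟨i, hi⟩ := h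
    rw [mn_eq_zero hi]
    exact zero_mem _

theorem mn_span : ⊤ ≤ Submodule.span k
    (Set.range fun a : σ → Fin p => mn k p fun i => (a i : ℕ)) := by
  rintro f -
  obtain ⟨f, rfl⟩ := cls_surj k p f
  induction f using MvPolynomial.induction_on' with
  | monomial a c =>
    have := Submodule.smul_mem _ c (mn_mem_span (k := k) (p := p) a)
    rwa [mn_eq_cls, ← map_smul, MvPolynomial.smul_monomial, smul_eq_mul, mul_one,
      Finsupp.equivFunOnFinite_symm_coe] at this
  | add f g hf hg => rw [map_add]; exact add_mem hf hg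

variable (k p σ) in
/-- the monomial basis -/
noncomputable def mb : Basis (σ → Fin p) k (O k p σ) := Basis.mk mn_li mn_span

theorem mb_apply (a : σ → Fin p) : mb k p σ a = mn k p fun i => (a i : ℕ) := Basis.mk_apply _ _ _

theorem mn_ind {P : O k p σ → Prop} (h0 : P 0) (ha : ∀ f g, P f → P g → P (f + g))
    (hs : ∀ (c : k) f, P f → P (c • f)) (hm : ∀ a : σ → ℕ, (∀ i, a i < p) → P (mn k p a))
    (f : O k p σ) : P f := by
  have hf := mn_span (Submodule.mem_top (x := f))
  induction hf using Submodule.span_induction with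
  | mem f hf =>
    obtain ⟨a, rfl⟩ := hf
    exact hm _ fun i => (a i).2
  | zero => exact h0
  | add f g _ _ hf hg => exact ha _ _ hf hg
  | smul c f _ hf => exact hs _ _ hf

instance : FiniteDimensional k (O k p σ) := by
  exact Module.Finite.of_basis (mb k p σ)

instance [CharP k p] : FiniteDimensional k (W k p σ) := by
  let e : W k p σ →ₗ[k] (σ → O k p σ) :=
    ⟨⟨fun D i => D (x k p i), fun _ _ => rfl⟩, fun _ _ => rfl⟩
  exact Module.Finite.of_injective e fun D E h => W_ext fun i => congrFun h i

variable (k p σ) in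
/-- the top monomial -/
noncomputable def tau : O k p σ := mn k p fun _ => p - 1

variable [Fact p.Prime]

instance : Nontrivial (O k p σ) := by
  exact nontrivial_of_ne _ _ ((mb k p σ).ne_zero 0)

instance [CharP k p] : CharP (O k p σ) p := by
  exact charP_of_injective_algebraMap (algebraMap k (O k p σ)).injective p

omit [Fact p.Prime] in
theorem x_mul_tau (i : σ) : x k p i * tau k p σ = 0 := by
  classical
  rw [tau, ← pow_one (x k p i), ← mn_single, ← mn_add]
  refine mn_eq_zero (i := i) ?_
  simp only [Pi.add_apply, Pi.single_eq_same]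
  omega

omit [Fact p.Prime] in
theorem repr_mn [DecidableEq σ] (a : σ → ℕ) (b : σ → Fin p) :
    (mb k p σ).repr (mn k p a) b = if ∀ i, a i = b i then 1 else 0 := by
  by_cases h : ∀ i, a i < p
  · have e : mn k p a = mb k p σ fun i => ⟨a i, h i⟩ := (mb_apply fun i => ⟨a i, h i⟩).symm
    rw [e, Basis.repr_self, Finsupp.single_apply]
    exact if_congr (by simp [funext_iff, Fin.ext_iff]) rfl rfl
  · push Not at h
    obtain ⟨i, hi⟩ := h
    rw [mn_eq_zero hi, if_neg fun e : ∀ i, a i = b i => absurd (b i).2 (not_lt.2 (e i ▸ hi))]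
    simp

variable (k p σ) in
/-- the coefficient of the top monomial -/
noncomputable def I : O k p σ →ₗ[k] k :=
  (mb k p σ).coord fun _ => ⟨p - 1, Nat.sub_lt (Fact.out : p.Prime).pos Nat.one_pos⟩

theorem I_mn (a : σ → ℕ) : I k p σ (mn k p a) = if ∀ i, a i = p - 1 then 1 else 0 := by
  classical
  exact (repr_mn a _).trans (if_congr Iff.rfl rfl rfl)

theorem I_tau : I k p σ (tau k p σ) = 1 := by
  rw [tau, I_mn, if_pos fun _ => rfl]

theorem I_mul_mn (f : O k p σ) (a : σ → Fin p) :
    I k p σ (f * mn k p fun i => p - 1 - a i) = (mb k p σ).repr f a := by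
  classical
  induction f using mn_ind with
  | h0 => simp
  | ha f g hf hg => simp [add_mul, hf, hg]
  | hs c f hf => simp [hf]
  | hm b hb =>
    rw [← mn_add, I_mn, repr_mn]
    refine if_congr (forall_congr' fun i => ?_) rfl rfl
    have := (a i).2
    simp only [Pi.add_apply]
    omega

theorem I_nondeg {f : O k p σ} (h : ∀ g, I k p σ (f * g) = 0) : f = 0 := by
  exact (mb k p σ).ext_elem fun a => by rw [← I_mul_mn, h]; simp

omit [Fintype σ] in
variable (k p σ) in
/-- the augmentation -/
noncomputable def ev : O k p σ →ₐ[k] k :=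
  Ideal.Quotient.liftₐ _ (MvPolynomial.aeval 0)
    (aeval_eq_zero 0 fun _ => zero_pow (Fact.out : p.Prime).ne_zero)

omit [Fintype σ] in
theorem ev_x (i : σ) : ev k p σ (x k p i) = 0 := by
  exact MvPolynomial.aeval_X 0 i

theorem ev_eq_repr (f : O k p σ) : ev k p σ f = (mb k p σ).repr f 0 := by
  classical
  induction f using mn_ind with
  | h0 => simp
  | ha f g hf hg => simp [hf, hg]
  | hs c f hf => simp [hf]
  | hm b hb =>
    rw [repr_mn, mn, map_prod]
    split_ifs with h
    · exact Finset.prod_eq_one fun i _ => by simp [h i]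
    · push Not at h
      obtain ⟨i, hi⟩ := h
      exact Finset.prod_eq_zero (Finset.mem_univ i) (by simpa [ev_x] using hi)

variable [CharP k p]

omit [Fintype σ] [CharP k p] in
theorem add_pow_of_commute' (h0 : (p : k) = 0) (a b : O k p σ) :
    (a + b) ^ p = a ^ p + b ^ p := by
  obtain ⟨r, hr⟩ := exists_add_pow_prime_eq (Fact.out : p.Prime) a b
  have h1 : (p : O k p σ) = 0 := by rw [← map_natCast (algebraMap k _), h0, map_zero]
  rw [hr, h1, zero_mul, zero_mul, zero_mul, add_zero]

omit [Fintype σ] in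
theorem pow_char (f : O k p σ) : f ^ p = algebraMap k _ (ev k p σ f ^ p) := by
  induction f using O_ind with
  | hc a => simp
  | ha f g hf hg =>
    rw [add_pow_of_commute' (CharP.cast_eq_zero k p), hf, hg, map_add, add_pow_char, map_add]
  | hx f i _ => simp [mul_pow, x_pow, ev_x, (Fact.out : p.Prime).ne_zero]

theorem I_pd (i : σ) (f : O k p σ) : I k p σ (pd k p i f) = 0 := by
  classical
  induction f using mn_ind with
  | h0 => simp
  | ha f g hf hg => simp [hf, hg]
  | hs c f hf => simp [hf]
  | hm b hb =>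
    rw [pd_mn, map_smul, I_mn, if_neg, smul_zero]
    intro h
    have h1 := h i
    have h2 := hb i
    have h3 := (Fact.out : p.Prime).two_le
    simp only [Pi.sub_apply, Pi.single_eq_same] at h1
    omega

theorem I_mul_pd (i : σ) (f g : O k p σ) :
    I k p σ (f * pd k p i g) = -I k p σ (pd k p i f * g) := by
  have := I_pd i (f * g)
  rw [Derivation.leibniz, map_add, smul_eq_mul, smul_eq_mul, mul_comm g] at this
  exact eq_neg_of_add_eq_zero_left this

omit [Fact p.Prime] in
theorem cast_ne_zero {n : ℕ} (h0 : n ≠ 0) (h : n < p) : (n : k) ≠ 0 := fun e =>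
  absurd (Nat.le_of_dvd (Nat.pos_of_ne_zero h0) ((CharP.cast_eq_zero_iff k p n).1 e)) (not_le.2 h)

omit [Fact p.Prime] in
theorem exists_pd_mn {a : σ → ℕ} {i : σ} (h : a i + 1 < p) :
    ∃ g, mn k p a = pd k p i g := by
  classical
  refine ⟨((a i + 1 : ℕ) : k)⁻¹ • mn k p (a + Pi.single i 1), ?_⟩
  rw [Derivation.map_smul, pd_mn, smul_smul, add_tsub_cancel_right, Pi.add_apply,
    Pi.single_eq_same, inv_mul_cancel₀ (cast_ne_zero (Nat.succ_ne_zero _) h), one_smul]

theorem const_of_pd {f : O k p σ} (h : ∀ i, pd k p i f = 0) :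
    f = algebraMap k _ (ev k p σ f) := by
  classical
  refine (mb k p σ).ext_elem fun a => ?_
  by_cases ha : a = 0
  · rw [ha, ← ev_eq_repr, ← ev_eq_repr]
    simp
  · obtain ⟨i, hi⟩ := Function.ne_iff.1 ha
    have h1 : (a i : ℕ) ≠ 0 := fun e => hi (Fin.ext e)
    have h2 := (a i).2
    obtain ⟨g, hg⟩ := exists_pd_mn (k := k) (p := p) (a := fun i => p - 1 - a i) (i := i)
      (by omega)
    rw [← I_mul_mn, ← I_mul_mn, hg, I_mul_pd, I_mul_pd, h]
    simp

theorem ker_I {f : O k p σ} (h : I k p σ f = 0) :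
    ∃ g : σ → O k p σ, f = ∑ i, pd k p i (g i) := by
  classical
  have key : ∀ f : O k p σ, ∃ g : σ → O k p σ,
      f = I k p σ f • tau k p σ + ∑ i, pd k p i (g i) := by
    intro f
    induction f using mn_ind with
    | h0 => exact ⟨0, by simp⟩
    | ha f g hf hg =>
      obtain ⟨a, ha⟩ := hf
      obtain ⟨b, hb⟩ := hg
      refine ⟨a + b, ?_⟩
      simp only [Pi.add_apply, map_add, Finset.sum_add_distrib, add_smul]
      linear_combination ha + hb
    | hs c f hf =>
      obtain ⟨a, ha⟩ := hf
      refine ⟨c • a, ?_⟩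
      simp only [Pi.smul_apply, map_smul, Derivation.map_smul, ← Finset.smul_sum, smul_assoc,
        ← smul_add, ← ha]
    | hm a ha =>
      rw [I_mn]
      split_ifs with h
      · exact ⟨0, by simp [tau, funext h]⟩
      · push Not at h
        obtain ⟨i, hi⟩ := h
        have := ha i
        obtain ⟨g, hg⟩ := exists_pd_mn (k := k) (p := p) (a := a) (i := i) (by omega)
        refine ⟨Pi.single i g, ?_⟩
        rw [zero_smul, zero_add, Finset.sum_eq_single i (fun j _ e => by simp [e]) (by simp),
          Pi.single_eq_same, hg]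
  obtain ⟨g, hg⟩ := key f
  exact ⟨g, by simpa [h] using hg⟩

end Pool.Agent.Cart
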