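import Pool.Agent.P.MP_c9b50d_al.C.OB

/-! Weighted gradings and filtrations. -/

namespace Pool.Agent.Cart

open Module

variable {k : Type*} [Field k] {p : ℕ} {σ : Type} [Fintype σ]

/-- the weight of an exponent -/
def wt (w : σ → ℤ) (a : σ → ℕ) : ℤ := ∑ i, w i * a i

/-- the weight of the top monomial -/
def topw (p : ℕ) (w : σ → ℤ) : ℤ := wt w fun _ => p - 1

variable (k p) in
/-- the homogeneous elements of weight `j` -/
noncomputable def G (w : σ → ℤ) (j : ℤ) : Submodule k (O k p σ) :=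
  Submodule.span k (mn k p '' {a | wt w a = j})

variable (k p) in
/-- the elements of weight at least `j` -/
noncomputable def F (w : σ → ℤ) (j : ℤ) : Submodule k (O k p σ) :=
  Submodule.span k (mn k p '' {a | j ≤ wt w a})

variable {w : σ → ℤ} {i j : ℤ} {f g : O k p σ}

omit [Fintype σ] in
theorem single_le [DecidableEq σ] {a : σ → ℕ} {l : σ} (h : 0 < a l) : Pi.single l 1 ≤ a := by
  intro j
  by_cases e : j = l
  · rw [e, Pi.single_eq_same]
    exact h
  · simp [e]

theorem wt_add (a b : σ → ℕ) : wt w (a + b) = wt w a + wt w b := by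
  simp [wt, mul_add, Finset.sum_add_distrib]

theorem topw_eq (hp : 1 ≤ p) : topw p w = (∑ l, w l) * (p - 1) := by
  simp [topw, wt, Finset.sum_mul, Nat.cast_sub hp]

theorem mn_mem_G (a : σ → ℕ) : mn k p a ∈ G k p w (wt w a) := by
  exact Submodule.subset_span ⟨a, rfl, rfl⟩

theorem mem_span_mn_iff (P : (σ → ℕ) → Prop) : f ∈ Submodule.span k (mn k p '' {a | P a}) ↔
    ∀ a : σ → Fin p, (mb k p σ).repr f a ≠ 0 → P (fun l => a l) := by
  classical
  constructor
  · intro h a ha
    by_contra hP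
    refine ha ((Submodule.span_le (p := LinearMap.ker ((mb k p σ).coord a))).2 ?_ h)
    rintro _ ⟨b, hb, rfl⟩
    rw [SetLike.mem_coe, LinearMap.mem_ker, Basis.coord_apply, repr_mn, if_neg]
    exact fun e => hP ((funext e : b = fun l => (a l : ℕ)) ▸ hb)
  · intro h
    rw [← (mb k p σ).sum_repr f]
    refine Submodule.sum_mem _ fun a _ => ?_
    by_cases ha : (mb k p σ).repr f a = 0
    · rw [ha, zero_smul]
      exact zero_mem _
    · exact Submodule.smul_mem _ _ (Submodule.subset_span ⟨_, h a ha, (mb_apply a).symm⟩)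

theorem span_mn_mul {P Q S : (σ → ℕ) → Prop} (h : ∀ a b, P a → Q b → S (a + b))
    (hf : f ∈ Submodule.span k (mn k p '' {a | P a}))
    (hg : g ∈ Submodule.span k (mn k p '' {a | Q a})) :
    f * g ∈ Submodule.span k (mn k p '' {a | S a}) := by
  have h1 := Submodule.mul_mem_mul hf hg
  rw [Submodule.span_mul_span] at h1
  refine Submodule.span_mono ?_ h1
  rintro _ ⟨_, ⟨a, ha, rfl⟩, _, ⟨b, hb, rfl⟩, rfl⟩
  exact ⟨a + b, h a b ha hb, mn_add a b⟩

theorem mem_G_iff : f ∈ G k p w j ↔
    ∀ a : σ → Fin p, (mb k p σ).repr f a ≠ 0 → wt w (fun l => a l) = j := by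
  exact mem_span_mn_iff fun a => wt w a = j

theorem mem_F_iff : f ∈ F k p w j ↔
    ∀ a : σ → Fin p, (mb k p σ).repr f a ≠ 0 → j ≤ wt w (fun l => a l) := by
  exact mem_span_mn_iff fun a => j ≤ wt w a

theorem G_le_F (h : i ≤ j) : G k p w j ≤ F k p w i := by
  exact Submodule.span_mono (Set.image_mono fun a (ha : wt w a = j) => (ha ▸ h : i ≤ wt w a))

theorem F_anti (h : i ≤ j) : F k p w j ≤ F k p w i := by
  exact Submodule.span_mono (Set.image_mono fun a (ha : j ≤ wt w a) => h.trans ha)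

theorem mul_mem_G (hf : f ∈ G k p w i) (hg : g ∈ G k p w j) : f * g ∈ G k p w (i + j) := by
  exact span_mn_mul (fun a b ha hb => by rw [wt_add, ha, hb]) hf hg

theorem mul_mem_F (hf : f ∈ F k p w i) (hg : g ∈ F k p w j) : f * g ∈ F k p w (i + j) := by
  exact span_mn_mul (fun a b ha hb => by rw [wt_add]; exact add_le_add ha hb) hf hg

theorem one_mem_G : (1 : O k p σ) ∈ G k p w 0 := by
  simpa [wt, mn_zero] using mn_mem_G (k := k) (p := p) (w := w) 0

theorem algebraMap_mem_G (c : k) : algebraMap k (O k p σ) c ∈ G k p w 0 := by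
  rw [Algebra.algebraMap_eq_smul_one]
  exact Submodule.smul_mem _ _ one_mem_G

theorem wt_single [DecidableEq σ] (l : σ) (n : ℕ) : wt w (Pi.single l n) = w l * n := by
  rw [wt, Finset.sum_eq_single l (fun j _ h => by simp [h]) (by simp), Pi.single_eq_same]

theorem x_mem_G (l : σ) : x k p l ∈ G k p w (w l) := by
  classical
  simpa [wt_single, mn_single] using mn_mem_G (k := k) (p := p) (w := w) (Pi.single l 1)

theorem pow_mem_G (hf : f ∈ G k p w i) (n : ℕ) : f ^ n ∈ G k p w (n * i) := by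
  induction n with
  | zero => simpa using one_mem_G
  | succ n ih => simpa [pow_succ, add_mul] using mul_mem_G ih hf

theorem pow_mem_F (hf : f ∈ F k p w i) (n : ℕ) : f ^ n ∈ F k p w (n * i) := by
  induction n with
  | zero => simpa using G_le_F le_rfl one_mem_G
  | succ n ih => simpa [pow_succ, add_mul] using mul_mem_F ih hf

theorem tau_mem_G : tau k p σ ∈ G k p w (topw p w) := by
  exact mn_mem_G _

theorem iSup_G : ⨆ j, G k p w j = ⊤ := by
  rw [eq_top_iff]
  refine mn_span.trans (Submodule.span_le.2 ?_)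
  rintro _ ⟨a, rfl⟩
  exact Submodule.mem_iSup_of_mem _ (mn_mem_G _)

theorem F_eq_sup : F k p w j = G k p w j ⊔ F k p w (j + 1) := by
  rw [F, G, F, ← Submodule.span_union, ← Set.image_union]
  congr 2
  ext a
  simp only [Set.mem_ofPred_eq, Set.mem_union]
  omega

theorem eq_zero_of_G_F (hf : f ∈ G k p w i) (hf' : f ∈ F k p w j) (h : i < j) : f = 0 := by
  refine (mb k p σ).ext_elem fun a => ?_
  by_contra ha
  rw [map_zero, Finsupp.zero_apply] at ha
  have h1 := mem_G_iff.1 hf a ha
  have h2 := mem_F_iff.1 hf' a ha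
  omega

theorem wt_nonneg (hw : ∀ l, 0 ≤ w l) (a : σ → ℕ) : 0 ≤ wt w a :=
  Finset.sum_nonneg fun l _ => mul_nonneg (hw l) (Int.natCast_nonneg _)

theorem wt_le_topw (hw : ∀ l, 0 ≤ w l) (a : σ → Fin p) : wt w (fun l => a l) ≤ topw p w :=
  Finset.sum_le_sum fun l _ => mul_le_mul_of_nonneg_left
    (Int.ofNat_le.2 (Nat.le_sub_one_of_lt (a l).2)) (hw l)

theorem wt_compl (a : σ → Fin p) :
    wt w (fun l => p - 1 - a l) = topw p w - wt w (fun l => a l) := by
  rw [eq_sub_iff_add_eq, ← wt_add, topw]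
  congr 1
  funext l
  have := (a l).2
  simp only [Pi.add_apply]
  omega

theorem mem_F_of_nonpos (hw : ∀ l, 0 ≤ w l) (h : j ≤ 0) (f : O k p σ) : f ∈ F k p w j := by
  exact mem_F_iff.2 fun a _ => h.trans (wt_nonneg hw _)

theorem eq_zero_of_F_top (hw : ∀ l, 0 ≤ w l) (h : topw p w < j) (hf : f ∈ F k p w j) :
    f = 0 := by
  refine (mb k p σ).ext_elem fun a => ?_
  by_contra ha
  rw [map_zero, Finsupp.zero_apply] at ha
  have h1 := mem_F_iff.1 hf a ha
  have h2 := wt_le_topw hw a
  omega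

theorem eq_zero_of_G_neg (hw : ∀ l, 0 ≤ w l) (h : j < 0) (hf : f ∈ G k p w j) : f = 0 := by
  exact eq_zero_of_G_F hf (mem_F_of_nonpos hw le_rfl f) h

theorem exists_of_G_one (hw : ∀ l, 0 ≤ w l) (hf : f ∈ G k p w 1) :
    ∃ g : σ → O k p σ, (∀ l, g l ∈ G k p w 0) ∧
      f = ∑ l, if w l = 1 then g l * x k p l else 0 := by
  classical
  induction hf using Submodule.span_induction with
  | mem f hf =>
    obtain ⟨a, ha, rfl⟩ := hf
    have ha' : wt w a = 1 := ha
    obtain ⟨l, -, hl⟩ := Finset.exists_ne_zero_of_sum_ne_zero (ha'.trans_ne one_ne_zero)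
    have h1 : a l ≠ 0 := fun e => hl (by simp [e])
    have h2 : a = (a - Pi.single l 1) + Pi.single l 1 :=
      (tsub_add_cancel_of_le (single_le (Nat.pos_of_ne_zero h1))).symm
    have h3 := wt_nonneg hw (a - Pi.single l 1)
    have h4 := hw l
    have h5 : w l ≠ 0 := fun e => hl (by simp [e])
    rw [h2, wt_add, wt_single] at ha'
    have h6 : w l = 1 := by omega
    have h7 : wt w (a - Pi.single l 1) = 0 := by omega
    refine ⟨Pi.single l (mn k p (a - Pi.single l 1)), fun j => ?_, ?_⟩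
    · by_cases e : j = l
      · rw [e, Pi.single_eq_same, ← h7]
        exact mn_mem_G _
      · simp [e]
    · rw [Finset.sum_eq_single l (fun j _ e => by simp [e]) (by simp), if_pos h6,
        Pi.single_eq_same, ← pow_one (x k p l), ← mn_single, ← mn_add, ← h2]
  | zero => exact ⟨0, fun _ => zero_mem _, by simp⟩
  | add f g _ _ hf hg =>
    obtain ⟨a, ha, rfl⟩ := hf
    obtain ⟨b, hb, rfl⟩ := hg
    refine ⟨a + b, fun l => add_mem (ha l) (hb l), ?_⟩
    rw [← Finset.sum_add_distrib]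
    exact Finset.sum_congr rfl fun l _ => by split_ifs <;> simp [add_mul]
  | smul c f _ hf =>
    obtain ⟨a, ha, rfl⟩ := hf
    refine ⟨c • a, fun l => Submodule.smul_mem _ _ (ha l), ?_⟩
    rw [Finset.smul_sum]
    exact Finset.sum_congr rfl fun l _ => by split_ifs <;> simp

section prime
variable [Fact p.Prime]

theorem repr_algebraMap (c : k) {a : σ → Fin p} (ha : a ≠ 0) :
    (mb k p σ).repr (algebraMap k _ c) a = 0 := by
  classical
  rw [Algebra.algebraMap_eq_smul_one, map_smul, ← mn_zero, Finsupp.smul_apply, repr_mn, if_neg,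
    smul_zero]
  exact fun e => ha (funext fun i => Fin.ext (e i).symm)

theorem mem_span_sub_ev (P : (σ → ℕ) → Prop)
    (h : ∀ a : σ → Fin p, a ≠ 0 → (mb k p σ).repr f a ≠ 0 → P (fun l => a l)) :
    f - algebraMap k _ (ev k p σ f) ∈ Submodule.span k (mn k p '' {a | P a}) := by
  refine (mem_span_mn_iff P).2 fun a ha => ?_
  by_cases e : a = 0
  · rw [e, ← ev_eq_repr] at ha
    simp at ha
  · rw [map_sub, Finsupp.sub_apply, repr_algebraMap _ e, sub_zero] at ha
    exact h a e ha

theorem const_of_G_zero (hw : ∀ l, 0 < w l) (hf : f ∈ G k p w 0) :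
    f = algebraMap k _ (ev k p σ f) := by
  have := mem_span_sub_ev (f := f) (fun _ => False) fun a ha ha' => by
    have h1 := mem_G_iff.1 hf a ha'
    obtain ⟨i, hi⟩ := Function.ne_iff.1 ha
    have h2 : 0 < (a i : ℕ) := Nat.pos_of_ne_zero fun e => hi (Fin.ext e)
    refine absurd h1 (ne_of_gt (Finset.sum_pos' (fun l _ => mul_nonneg (hw l).le
      (Int.natCast_nonneg _)) ⟨i, Finset.mem_univ _, mul_pos (hw i) (Int.natCast_pos.2 h2)⟩))
  simpa [sub_eq_zero] using this

theorem eq_tau_of_F_top (hw : ∀ l, 0 < w l) (hf : f ∈ F k p w (topw p w)) :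
    f = I k p σ f • tau k p σ := by
  classical
  refine (mb k p σ).ext_elem fun a => ?_
  rw [map_smul, Finsupp.smul_apply, tau, repr_mn]
  split_ifs with h
  · rw [smul_eq_mul, mul_one, I, Basis.coord_apply]
    congr 1
    exact funext fun i => Fin.ext (h i).symm
  · rw [smul_zero]
    by_contra ha
    have h1 := mem_F_iff.1 hf a ha
    push Not at h
    obtain ⟨i, hi⟩ := h
    refine absurd h1 (not_le.2 (Finset.sum_lt_sum (fun l _ => mul_le_mul_of_nonneg_left
      (Int.ofNat_le.2 (Nat.le_sub_one_of_lt (a l).2)) (hw l).le) ⟨i, Finset.mem_univ _, ?_⟩))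
    have := (a i).2
    exact mul_lt_mul_of_pos_left (Int.ofNat_lt.2 (show (a i : ℕ) < p - 1 by omega))
      (hw i)

theorem I_of_G (hf : f ∈ G k p w j) (h : j ≠ topw p w) : I k p σ f = 0 := by
  by_contra h'
  exact h (mem_G_iff.1 hf _ h').symm

theorem I_of_F (hf : f ∈ F k p w j) (h : topw p w < j) : I k p σ f = 0 := by
  by_contra h'
  exact absurd (mem_F_iff.1 hf _ h') (not_le.2 h)

theorem ev_of_F (hf : f ∈ F k p w j) (h : 0 < j) : ev k p σ f = 0 := by
  by_contra h'
  rw [ev_eq_repr] at h'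
  have := mem_F_iff.1 hf _ h'
  simp only [wt, Pi.zero_apply, Fin.val_zero, Nat.cast_zero, mul_zero,
    Finset.sum_const_zero] at this
  omega

theorem mem_F_of_perp (h : ∀ g ∈ F k p w i, I k p σ (f * g) = 0) :
    f ∈ F k p w (topw p w + 1 - i) := by
  refine mem_F_iff.2 fun a ha => ?_
  by_contra h'
  refine ha ?_
  rw [← I_mul_mn]
  refine h _ (G_le_F ?_ (mn_mem_G _))
  rw [wt_compl]
  omega

theorem mem_F_of_perp' (h : ∀ g ∈ F k p w i, I k p σ g = 0 → I k p σ (f * g) = 0) :
    f - algebraMap k _ (ev k p σ f) ∈ F k p w (topw p w + 1 - i) := by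
  refine mem_span_sub_ev (fun a => topw p w + 1 - i ≤ wt w a) fun a ha0 ha => ?_
  by_contra h'
  refine ha ?_
  rw [← I_mul_mn]
  refine h _ (G_le_F ?_ (mn_mem_G _)) ?_
  · rw [wt_compl]
    omega
  · rw [I_mn, if_neg]
    intro e
    refine ha0 (funext fun l => Fin.ext ?_)
    have h1 := e l
    have h2 := (a l).2
    simp only [Pi.zero_apply, Fin.val_zero]
    omega

end prime

variable (k p) in
/-- the homogeneous derivations of weight `j` -/
noncomputable def GW (w : σ → ℤ) (j : ℤ) : Submodule k (W k p σ) where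
  carrier := {D | ∀ l, D (x k p l) ∈ G k p w (j + w l)}
  add_mem' ha hb l := add_mem (ha l) (hb l)
  zero_mem' _ := zero_mem _
  smul_mem' c _ h l := Submodule.smul_mem _ c (h l)

variable (k p) in
/-- the derivations of weight at least `j` -/
noncomputable def FW (w : σ → ℤ) (j : ℤ) : Submodule k (W k p σ) where
  carrier := {D | ∀ l, D (x k p l) ∈ F k p w (j + w l)}
  add_mem' ha hb l := add_mem (ha l) (hb l)
  zero_mem' _ := zero_mem _
  smul_mem' c _ h l := Submodule.smul_mem _ c (h l)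

variable {D E : W k p σ}

theorem mem_GW : D ∈ GW k p w j ↔ ∀ l, D (x k p l) ∈ G k p w (j + w l) := Iff.rfl

theorem mem_FW : D ∈ FW k p w j ↔ ∀ l, D (x k p l) ∈ F k p w (j + w l) := Iff.rfl

theorem GW_le_FW (h : i ≤ j) : GW k p w j ≤ FW k p w i := by
  exact fun D hD l => G_le_F (by omega) (hD l)

theorem FW_anti (h : i ≤ j) : FW k p w j ≤ FW k p w i := by
  exact fun D hD l => F_anti (by omega) (hD l)

theorem smul_mem_GW (hf : f ∈ G k p w i) (hD : D ∈ GW k p w j) : f • D ∈ GW k p w (i + j) := by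
  exact fun l => add_assoc i j (w l) ▸ mul_mem_G hf (hD l)

theorem smul_mem_FW (hf : f ∈ F k p w i) (hD : D ∈ FW k p w j) : f • D ∈ FW k p w (i + j) := by
  exact fun l => add_assoc i j (w l) ▸ mul_mem_F hf (hD l)

variable [CharP k p]

theorem pd_mem_GW (l : σ) : pd k p l ∈ GW k p w (-w l) := by
  classical
  intro l'
  rw [pd_x]
  split_ifs with h
  · rw [h, neg_add_cancel]
    exact one_mem_G
  · exact zero_mem _

theorem pd_mem_span (l : σ) {P Q : (σ → ℕ) → Prop} [DecidableEq σ]
    (h : ∀ a, P (a + Pi.single l 1) → Q a) (hf : f ∈ Submodule.span k (mn k p '' {a | P a})) :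
    pd k p l f ∈ Submodule.span k (mn k p '' {a | Q a}) := by
  induction hf using Submodule.span_induction with
  | mem f hf =>
    obtain ⟨a, ha, rfl⟩ := hf
    rw [pd_mn]
    rcases Nat.eq_zero_or_pos (a l) with h1 | h1
    · simp [h1]
    · refine Submodule.smul_mem _ _ (Submodule.subset_span ⟨_, h _ ?_, rfl⟩)
      rwa [tsub_add_cancel_of_le (single_le h1)]
  | zero => simp
  | add f g _ _ hf hg => rw [map_add]; exact add_mem hf hg
  | smul c f _ hf => rw [Derivation.map_smul]; exact Submodule.smul_mem _ _ hf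

theorem pd_mem_G (l : σ) (hf : f ∈ G k p w i) : pd k p l f ∈ G k p w (i - w l) := by
  classical
  exact pd_mem_span l (fun a ha => by rw [wt_add, wt_single] at ha; omega) hf

theorem pd_mem_F (l : σ) (hf : f ∈ F k p w i) : pd k p l f ∈ F k p w (i - w l) := by
  classical
  exact pd_mem_span l (fun a ha => by rw [wt_add, wt_single] at ha; omega) hf

theorem GW_apply (hD : D ∈ GW k p w j) (hf : f ∈ G k p w i) : D f ∈ G k p w (j + i) := by
  classical
  rw [W_apply]
  refine Submodule.sum_mem _ fun l _ => ?_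
  have := mul_mem_G (hD l) (pd_mem_G l hf)
  rwa [show j + w l + (i - w l) = j + i by ring] at this

theorem FW_apply (hD : D ∈ FW k p w j) (hf : f ∈ F k p w i) : D f ∈ F k p w (j + i) := by
  classical
  rw [W_apply]
  refine Submodule.sum_mem _ fun l _ => ?_
  have := mul_mem_F (hD l) (pd_mem_F l hf)
  rwa [show j + w l + (i - w l) = j + i by ring] at this

theorem lie_mem_GW (hD : D ∈ GW k p w i) (hE : E ∈ GW k p w j) :
    ⁅D, E⁆ ∈ GW k p w (i + j) := by
  intro l
  rw [Derivation.commutator_apply]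
  refine sub_mem (add_assoc i j (w l) ▸ GW_apply hD (hE l)) ?_
  rw [add_comm i j, add_assoc]
  exact GW_apply hE (hD l)

theorem lie_mem_FW (hD : D ∈ FW k p w i) (hE : E ∈ FW k p w j) :
    ⁅D, E⁆ ∈ FW k p w (i + j) := by
  intro l
  rw [Derivation.commutator_apply]
  refine sub_mem (add_assoc i j (w l) ▸ FW_apply hD (hE l)) ?_
  rw [add_comm i j, add_assoc]
  exact FW_apply hE (hD l)

theorem iSup_GW : ⨆ j, GW k p w j = ⊤ := by
  classical
  rw [eq_top_iff]
  rintro D -
  rw [W_exp D]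
  refine Submodule.sum_mem _ fun l _ => ?_
  generalize D (x k p l) = f
  induction f using mn_ind with
  | h0 => simp
  | ha f g hf hg => rw [add_smul]; exact add_mem hf hg
  | hs c f hf => rw [smul_assoc]; exact Submodule.smul_mem _ _ hf
  | hm a _ => exact Submodule.mem_iSup_of_mem _ (smul_mem_GW (mn_mem_G a) (pd_mem_GW l))

theorem mem_F_of_pd [Fact p.Prime] (h : ∀ l, pd k p l f ∈ F k p w (j - w l)) :
    f - algebraMap k _ (ev k p σ f) ∈ F k p w j := by
  classical
  refine mem_span_sub_ev (fun a => j ≤ wt w a) fun a ha0 ha => ?_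
  by_contra h'
  refine ha ?_
  obtain ⟨i, hi⟩ := Function.ne_iff.1 ha0
  have h1 : (a i : ℕ) ≠ 0 := fun e => hi (Fin.ext e)
  have h2 := (a i).2
  have h3 : ((p - 1 - a i + 1 : ℕ) : k) ≠ 0 := cast_ne_zero (Nat.succ_ne_zero _) (by omega)
  have h4 := I_mul_pd i f (mn k p ((fun l => p - 1 - a l) + Pi.single i 1))
  rw [I_of_F (mul_mem_F (h i) (G_le_F le_rfl (mn_mem_G _)))
    (by rw [wt_add, wt_single, wt_compl]; omega), pd_mn, add_tsub_cancel_right, mul_smul_comm,
    map_smul, I_mul_mn, Pi.add_apply, Pi.single_eq_same, neg_zero] at h4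
  exact (smul_eq_zero.1 h4).resolve_left h3

end Pool.Agent.Cart
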