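import Pool.Agent.P.MP_c9b50d_al.C.OG
import Pool.Agent.P.MP_c9b50d_al.C.Gen

/-! Powers of derivations, diagonal derivations, one-forms, frames. -/

namespace Pool.Agent.Cart

open Module

attribute [local instance 100] LieRing.ofAssociativeRing

variable {k : Type*} [Field k] {p : ℕ} {σ : Type}

variable (k p σ) in
/-- the tautological representation -/
noncomputable def tE : W k p σ →ₗ⁅k⁆ End k (O k p σ) := LieModule.toEnd k (W k p σ) (O k p σ)

theorem tE_apply (D : W k p σ) (f : O k p σ) : tE k p σ D f = D f := rfl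

theorem tE_pow_apply (D : W k p σ) (n : ℕ) (f : O k p σ) : (tE k p σ D ^ n) f = D^[n] f := by
  exact End.pow_apply _ n f

theorem tE_inj {D E : W k p σ} (h : tE k p σ D = tE k p σ E) : D = E := by
  exact Derivation.ext fun f => LinearMap.congr_fun h f

/-- the differential of a one-form -/
noncomputable def dF (β : W k p σ →ₗ[k] O k p σ) (D E : W k p σ) : O k p σ :=
  D (β E) - E (β D) - β ⁅D, E⁆

/-- `d ∘ d = 0` -/
theorem dF_cyc (β : W k p σ →ₗ[k] O k p σ) (D E Y : W k p σ) :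
    D (dF β E Y) + E (dF β Y D) + Y (dF β D E) =
      dF β ⁅D, E⁆ Y + dF β ⁅E, Y⁆ D + dF β ⁅Y, D⁆ E := by
  have h := congrArg β (lie_jacobi D E Y)
  rw [map_add, map_add, map_zero, ← lie_skew D ⁅E, Y⁆, ← lie_skew E ⁅Y, D⁆,
    ← lie_skew Y ⁅D, E⁆, map_neg, map_neg, map_neg] at h
  simp only [dF, map_sub, Derivation.commutator_apply]
  linear_combination -h

/-- conjugation of one derivation -/
noncomputable def conjD (Φ : O k p σ ≃ₐ[k] O k p σ) (D : W k p σ) : W k p σ :=
  Derivation.mk' (Φ.toLinearMap ∘ₗ D.toLinearMap ∘ₗ Φ.symm.toLinearMap) fun a b => by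
    simp [Derivation.leibniz]

theorem conjD_apply (Φ : O k p σ ≃ₐ[k] O k p σ) (D : W k p σ) (f : O k p σ) :
    conjD Φ D f = Φ (D (Φ.symm f)) := rfl

/-- conjugation by an automorphism -/
noncomputable def conj (Φ : O k p σ ≃ₐ[k] O k p σ) : W k p σ ≃ₗ⁅k⁆ W k p σ where
  toFun := conjD Φ
  invFun := conjD Φ.symm
  map_add' D E := Derivation.ext fun f => by simp [conjD_apply]
  map_smul' c D := Derivation.ext fun f => by simp [conjD_apply]
  map_lie' {D E} := Derivation.ext fun f => by simp [conjD_apply, Derivation.commutator_apply]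
  left_inv D := Derivation.ext fun f => by simp [conjD_apply]
  right_inv D := Derivation.ext fun f => by simp [conjD_apply]

theorem conj_apply (Φ : O k p σ ≃ₐ[k] O k p σ) (D : W k p σ) (f : O k p σ) :
    conj Φ D (Φ f) = Φ (D f) := by
  exact congrArg (fun g => Φ (D g)) (Φ.symm_apply_apply f)

theorem map_mem_der (e : W k p σ →ₗ⁅k⁆ W k p σ) {A B : Set (W k p σ)} (h : ∀ D ∈ A, e D ∈ B) :
    ∀ D ∈ der A, e D ∈ der B := by
  have : der A ≤ (der B).comap e := by
    refine LieSubalgebra.lieSpan_le.2 ?_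
    rintro _ ⟨a, ha, b, hb, rfl⟩
    exact LieSubalgebra.subset_lieSpan ⟨_, h a ha, _, h b hb, e.map_lie a b⟩
  exact fun D hD => this hD

theorem mem_der_iff (e : W k p σ ≃ₗ⁅k⁆ W k p σ) {A B : Set (W k p σ)}
    (h : ∀ D, D ∈ A ↔ e D ∈ B) (D : W k p σ) : D ∈ der A ↔ e D ∈ der B := by
  refine ⟨map_mem_der e.toLieHom (fun D => (h D).1) D, fun hD => ?_⟩
  simpa using map_mem_der e.symm.toLieHom (A := B) (B := A)
    (fun D hD => (h _).2 (by simpa using hD)) _ hD

theorem fails_conj (Φ : O k p σ ≃ₐ[k] O k p σ) {A B : Set (W k p σ)}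
    (h : ∀ D, D ∈ A ↔ conj Φ D ∈ B) (hF : Fails k p (pw (der (der B : Set (W k p σ))))) :
    Fails k p (pw (der (der A : Set (W k p σ)))) := by
  have h2 := mem_der_iff (conj Φ) (mem_der_iff (conj Φ) h)
  have hm : (der (der A : Set (W k p σ))).map (conj Φ).toLieHom =
      der (der B : Set (W k p σ)) := by
    ext D
    rw [LieSubalgebra.mem_map]
    exact ⟨fun ⟨E, hE, e⟩ => e ▸ (h2 E).1 hE, fun hD =>
      ⟨(conj Φ).symm D, (h2 _).2 (by simpa using hD), (conj Φ).apply_symm_apply D⟩⟩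
  refine Fails.of_equiv (LieEquiv.ofSubalgebras _ _ (conj Φ) hm) (fun a b => ?_) hF
  have hit : ∀ (n : ℕ) (f : O k p σ), (conj Φ a)^[n] (Φ f) = Φ ((a : W k p σ)^[n] f) := by
    intro n
    induction n with
    | zero => exact fun f => rfl
    | succ n ih =>
      intro f
      rw [Function.iterate_succ_apply, Function.iterate_succ_apply, conj_apply, ih]
  show (∀ f, (b : W k p σ) f = (a : W k p σ)^[p] f) ↔ ∀ f, conj Φ b f = (conj Φ a)^[p] f
  rw [Φ.surjective.forall (p := fun f => conj Φ b f = (conj Φ a)^[p] f)]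
  exact forall_congr' fun f => by rw [hit, conj_apply, Φ.injective.eq_iff]

theorem lie_mem_der {A : Set (W k p σ)} {a b : W k p σ} (ha : a ∈ A) (hb : b ∈ A) :
    ⁅a, b⁆ ∈ der A := by
  exact LieSubalgebra.subset_lieSpan ⟨a, ha, b, hb, rfl⟩

theorem der_le {A : Set (W k p σ)} {g : LieSubalgebra k (W k p σ)}
    (h : ∀ a ∈ A, ∀ b ∈ A, ⁅a, b⁆ ∈ g) : der A ≤ g := by
  refine LieSubalgebra.lieSpan_le.2 ?_
  rintro _ ⟨a, ha, b, hb, rfl⟩
  exact h a ha b hb

theorem le_der {A : Set (W k p σ)} {g : LieSubalgebra k (W k p σ)}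
    (hg : (g : Set (W k p σ)) ⊆ A)
    (h2 : ∀ c ∈ g, c ∈ Submodule.span k {D | ∃ a ∈ g, ∃ b ∈ g, D = ⁅a, b⁆}) : g ≤ der A := by
  intro c hc
  refine (Submodule.span_le (p := (der A).toSubmodule)).2 ?_ (h2 c hc)
  rintro _ ⟨a, ha, b, hb, rfl⟩
  exact lie_mem_der (hg ha) (hg hb)

/-- identification of the second derived algebra -/
theorem der_der_eq {A : Set (W k p σ)} (g : LieSubalgebra k (W k p σ))
    (hg : (g : Set (W k p σ)) ⊆ A) (h1 : ∀ a ∈ A, ∀ b ∈ A, ⁅a, b⁆ ∈ g)
    (h2 : ∀ c ∈ g, c ∈ Submodule.span k {D | ∃ a ∈ g, ∃ b ∈ g, D = ⁅a, b⁆}) :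
    der (der A : Set (W k p σ)) = g := by
  exact le_antisymm (der_le fun a ha b hb => g.lie_mem (der_le h1 ha) (der_le h1 hb))
    (le_der (le_der hg h2) h2)

/-- the same when only the second derived algebra lies in `g` -/
theorem der_der_eq' {A : Set (W k p σ)} (g g' : LieSubalgebra k (W k p σ))
    (hg : (g : Set (W k p σ)) ⊆ A) (h0 : ∀ a ∈ A, ∀ b ∈ A, ⁅a, b⁆ ∈ g')
    (h1 : ∀ a ∈ g', ∀ b ∈ g', ⁅a, b⁆ ∈ g)
    (h2 : ∀ c ∈ g, c ∈ Submodule.span k {D | ∃ a ∈ g, ∃ b ∈ g, D = ⁅a, b⁆}) :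
    der (der A : Set (W k p σ)) = g := by
  exact le_antisymm (der_le fun a ha b hb => h1 a (der_le h0 ha) b (der_le h0 hb))
    (le_der (le_der hg h2) h2)

variable [Fact p.Prime] [CharP k p]

theorem tE_pow_leibniz (D : W k p σ) (a b : O k p σ) :
    (tE k p σ D ^ p) (a * b) = a • (tE k p σ D ^ p) b + b • (tE k p σ D ^ p) a := by
  have h1 : ∀ (n : ℕ), ((LinearMap.mulLeft k (tE k p σ D) - LinearMap.mulRight k (tE k p σ D)) ^ n)
      (LinearMap.mulLeft k a) = LinearMap.mulLeft k ((tE k p σ D ^ n) a) := by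
    intro n
    induction n with
    | zero => rfl
    | succ n ih =>
      rw [pow_succ', pow_succ', End.mul_apply, End.mul_apply, ih]
      ext g
      simp [tE_apply, Derivation.leibniz, mul_comm]
  have h2 := LinearMap.congr_fun ((h1 p).symm.trans
    (mul_sub_pow Fact.out (CharP.cast_eq_zero k p) _ _)) b
  simp only [LinearMap.mulLeft_apply, LinearMap.sub_apply, End.mul_apply] at h2
  simp only [smul_eq_mul]
  linear_combination -h2

/-- the `p`-th power of a derivation -/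
noncomputable def ppow (D : W k p σ) : W k p σ :=
  Derivation.mk' (tE k p σ D ^ p) (tE_pow_leibniz D)

theorem tE_ppow (D : W k p σ) : tE k p σ (ppow D) = tE k p σ D ^ p := rfl

theorem ppow_apply (D : W k p σ) (f : O k p σ) : ppow D f = D^[p] f := by
  exact tE_pow_apply D p f

theorem ad_ppow (D : W k p σ) :
    LieAlgebra.ad k (W k p σ) (ppow D) = LieAlgebra.ad k (W k p σ) D ^ p := by
  refine LinearMap.ext fun E => tE_inj ?_
  rw [map_ad_pow Fact.out (CharP.cast_eq_zero k p), LieAlgebra.ad_apply, LieHom.map_lie]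
  rfl

theorem pw_iff {g : LieSubalgebra k (W k p σ)} (a b : g) :
    pw g a b ↔ (b : W k p σ) = ppow (a : W k p σ) := by
  exact ⟨fun h => Derivation.ext fun f => (h f).trans (ppow_apply _ f).symm,
    fun h f => h ▸ ppow_apply _ f⟩

theorem ppow_apply_eq_zero {D : W k p σ} {f : O k p σ} (h : D f = 0) : ppow D f = 0 := by
  exact pow_apply_of_zero (A := tE k p σ D) h

theorem ppow_mem_of_span (g : LieSubalgebra k (W k p σ)) (V : Submodule k (W k p σ))
    (hV : ∀ a ∈ V, a ∈ g) (hgV : ∀ a ∈ g, ∀ b ∈ g, ⁅a, b⁆ ∈ V) (s : Set (W k p σ)) (hs : s ⊆ g)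
    (h : ∀ a ∈ s, ppow a ∈ V) : ∀ a ∈ Submodule.span k s, ppow a ∈ V := by
  intro a ha
  obtain ⟨b, hb, e⟩ := pow_mem_of_span (p := p) (tE k p σ) g V hV hgV s hs
    (fun a ha => ⟨_, h a ha, rfl⟩) a ha
  exact tE_inj (e.trans (tE_ppow a).symm) ▸ hb

theorem ad_semisimple {D : W k p σ} (h : ppow D = D) :
    (LieAlgebra.ad k (W k p σ) D).IsSemisimple := by
  exact tor_semisimple (p := p) (by rw [← ad_ppow, h])

omit [Fact p.Prime] [CharP k p] in
/-- composition on the left -/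
noncomputable def lcF (A : End k (O k p σ)) : End k (W k p σ →ₗ[k] O k p σ) :=
  ⟨⟨fun β => A ∘ₗ β, fun _ _ => LinearMap.comp_add _ _ _⟩, fun _ _ => LinearMap.comp_smul _ _ _⟩

omit [Fact p.Prime] [CharP k p] in
/-- composition on the right -/
noncomputable def rcF (A : End k (W k p σ)) : End k (W k p σ →ₗ[k] O k p σ) :=
  ⟨⟨fun β => β ∘ₗ A, fun _ _ => rfl⟩, fun _ _ => rfl⟩

omit [Fact p.Prime] [CharP k p] in
/-- the Lie derivative on one-forms -/
noncomputable def lieF (D : W k p σ) : End k (W k p σ →ₗ[k] O k p σ) :=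
  lcF (tE k p σ D) - rcF (LieAlgebra.ad k (W k p σ) D)

omit [Fact p.Prime] [CharP k p] in
theorem lieF_apply (D : W k p σ) (β : W k p σ →ₗ[k] O k p σ) (Y : W k p σ) :
    lieF D β Y = D (β Y) - β ⁅D, Y⁆ := rfl

theorem lieF_ppow (D : W k p σ) : lieF (ppow D) = lieF D ^ p := by
  have h1 : ∀ (A : End k (O k p σ)) (n : ℕ), lcF (A ^ n) = lcF A ^ n := by
    intro A n
    induction n with
    | zero => rfl
    | succ n ih => rw [pow_succ, pow_succ, ← ih]; rfl
  have h2 : ∀ (A : End k (W k p σ)) (n : ℕ), rcF (A ^ n) = rcF A ^ n := by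
    intro A n
    induction n with
    | zero => rfl
    | succ n ih => rw [pow_succ', pow_succ, ← ih]; rfl
  have h3 : Commute (lcF (tE k p σ D)) (rcF (LieAlgebra.ad k (W k p σ) D)) := rfl
  rw [lieF, lieF, sub_pow_of_commute Fact.out (CharP.cast_eq_zero k p) h3, tE_ppow, ad_ppow,
    h1, h2]

/-- if the Lie derivative of `α` is `dF` on a stable subspace, so is that along `D^p` -/
theorem lie_ppow_exact (α : W k p σ →ₗ[k] O k p σ) (D : W k p σ) (M : Submodule k (W k p σ))
    (hM : ∀ Y ∈ M, ⁅D, Y⁆ ∈ M) (f : O k p σ) (h : ∀ Y ∈ M, D (α Y) - α ⁅D, Y⁆ = Y f) :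
    ∀ Y ∈ M, ppow D (α Y) - α ⁅ppow D, Y⁆ = Y (D^[p - 1] f) := by
  have key : ∀ n : ℕ, ∀ Y ∈ M, (lieF D ^ (n + 1)) α Y = Y (D^[n] f) := by
    intro n
    induction n with
    | zero => exact h
    | succ n ih =>
      intro Y hY
      rw [pow_succ', End.mul_apply, lieF_apply, ih Y hY, ih _ (hM Y hY),
        Function.iterate_succ_apply', Derivation.commutator_apply, sub_sub_cancel]
  intro Y hY
  rw [← lieF_apply, lieF_ppow, ← key _ Y hY, Nat.sub_add_cancel (Fact.out : p.Prime).one_le]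

theorem lie_ppow_mul (α : W k p σ →ₗ[k] O k p σ) (D : W k p σ) (f : O k p σ)
    (h : ∀ Y, D (α Y) - α ⁅D, Y⁆ = f * α Y) :
    ∃ f', ∀ Y, ppow D (α Y) - α ⁅ppow D, Y⁆ = f' * α Y := by
  have key : ∀ n : ℕ, ∃ f', ∀ Y, (lieF D ^ n) α Y = f' * α Y := by
    intro n
    induction n with
    | zero => exact ⟨1, fun Y => (one_mul _).symm⟩
    | succ n ih =>
      obtain ⟨g, hg⟩ := ih
      refine ⟨D g + g * f, fun Y => ?_⟩
      rw [pow_succ', End.mul_apply, lieF_apply, hg, hg, Derivation.leibniz, smul_eq_mul,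
        smul_eq_mul]
      linear_combination g * h Y
  obtain ⟨g, hg⟩ := key p
  exact ⟨g, fun Y => by rw [← lieF_apply, lieF_ppow, hg]⟩

variable [Fintype σ]

omit [Fact p.Prime] in
theorem iterate_mem_G {w : σ → ℤ} {j i : ℤ} {D : W k p σ} (h : D ∈ GW k p w j) {f : O k p σ}
    (hf : f ∈ G k p w i) (n : ℕ) : D^[n] f ∈ G k p w (n * j + i) := by
  induction n with
  | zero => simpa using hf
  | succ n ih =>
    rw [Function.iterate_succ_apply', show ((n + 1 : ℕ) : ℤ) * j + i = j + (n * j + i) by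
      push_cast; ring]
    exact GW_apply h ih

omit [Fact p.Prime] in
theorem iterate_mem_F {w : σ → ℤ} {j i : ℤ} {D : W k p σ} (h : D ∈ FW k p w j) {f : O k p σ}
    (hf : f ∈ F k p w i) (n : ℕ) : D^[n] f ∈ F k p w (n * j + i) := by
  induction n with
  | zero => simpa using hf
  | succ n ih =>
    rw [Function.iterate_succ_apply', show ((n + 1 : ℕ) : ℤ) * j + i = j + (n * j + i) by
      push_cast; ring]
    exact FW_apply h ih

theorem ppow_mem_GW {w : σ → ℤ} {j : ℤ} {D : W k p σ} (h : D ∈ GW k p w j) :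
    ppow D ∈ GW k p w (p * j) := by
  exact fun l => ppow_apply D _ ▸ iterate_mem_G h (x_mem_G l) p

theorem ppow_mem_FW {w : σ → ℤ} {j : ℤ} {D : W k p σ} (h : D ∈ FW k p w j) :
    ppow D ∈ FW k p w (p * j) := by
  exact fun l => ppow_apply D _ ▸ iterate_mem_F h (G_le_F le_rfl (x_mem_G l)) p

omit [Fact p.Prime] in
variable (k p) in
/-- a diagonal derivation -/
noncomputable def diag (c : σ → k) : W k p σ := ∑ i, c i • x k p i • pd k p i

omit [Fact p.Prime] in
theorem diag_x (c : σ → k) (i : σ) : diag k p c (x k p i) = c i • x k p i := by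
  classical
  simp [diag, W_sum_apply, pd_x]

omit [Fact p.Prime] in
theorem diag_mn (c : σ → k) (a : σ → ℕ) :
    diag k p c (mn k p a) = (∑ i, c i * a i) • mn k p a := by
  simp [diag, W_sum_apply, x_mul_pd_mn, Finset.sum_smul, smul_smul]

omit [Fact p.Prime] in
theorem diag_mem_GW (c : σ → k) (w : σ → ℤ) : diag k p c ∈ GW k p w 0 := by
  intro l
  rw [diag_x, zero_add]
  exact Submodule.smul_mem _ _ (x_mem_G l)

omit [Fact p.Prime] in
theorem lie_diag_diag (c c' : σ → k) : ⁅diag k p c, diag k p c'⁆ = 0 := by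
  refine W_ext fun l => ?_
  simp [Derivation.commutator_apply, diag_x, smul_smul, mul_comm]

omit [Fact p.Prime] in
theorem lie_diag_pd (c : σ → k) (i : σ) : ⁅diag k p c, pd k p i⁆ = -(c i • pd k p i) := by
  classical
  refine W_ext fun l => ?_
  by_cases h : l = i <;> simp [Derivation.commutator_apply, diag_x, pd_x, h]

theorem ppow_diag {c : σ → k} (hc : ∀ i, c i ^ p = c i) : ppow (diag k p c) = diag k p c := by
  refine W_ext fun l => ?_
  have key : ∀ n : ℕ, (diag k p c)^[n] (x k p l) = c l ^ n • x k p l := by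
    intro n
    induction n with
    | zero => simp
    | succ n ih =>
      rw [Function.iterate_succ_apply', ih, Derivation.map_smul, diag_x, smul_smul, pow_succ]
  rw [ppow_apply, key, hc, diag_x]

theorem I_diag (c : σ → k) (f : O k p σ) :
    I k p σ (diag k p c f) = -(∑ i, c i) * I k p σ f := by
  classical
  simp [diag, W_sum_apply, I_mul_pd, pd_x_self, Finset.sum_mul]

theorem diag_tau (c : σ → k) : diag k p c (tau k p σ) = -(∑ i, c i) • tau k p σ := by
  rw [tau, diag_mn, ← Finset.sum_mul, Nat.cast_sub (Fact.out : p.Prime).one_le,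
    CharP.cast_eq_zero]
  simp

end Pool.Agent.Cart
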