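import Pool.Agent.P.MP_c9b50d_al.C.Pk0

/-! The deformed induced module as a family of matrices. -/

namespace Pool.Agent.Cart

open Module Matrix

/-- the index set of the induced module -/
abbrev Ix (p : ℕ) (Y C : Type) := (Y → Fin p) × (C → Fin p)

theorem wd_map {A I J : Type*} [Ring A] (z : I → A) (f : J → I) (l : List J) :
    wd z (l.map f) = wd (z ∘ f) l := by
  simp [wd, Function.comp_def]

theorem map_mem_of_span {S A B : Type*} [Semiring S] [AddCommMonoid A] [AddCommMonoid B]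
    [Module S A] [Module S B] (g : A →ₗ[S] B) (K : Submodule S B) {s : Set A}
    (h : ∀ a ∈ s, g a ∈ K) {a : A} (ha : a ∈ Submodule.span S s) : g a ∈ K :=
  (Submodule.span_le (p := K.comap g)).2 h ha

section Aux
variable {k S A L T : Type*} [Field k] [CommRing S] [Ring A] [Algebra k S] [Algebra S A]
  [Algebra k A] [IsScalarTower k S A] [AddCommGroup L] [Module k L]

theorem map_mem_span (z : L →ₗ[k] A) (f : T → L) (K : Submodule S A) (h : ∀ i, z (f i) ∈ K)
    {x : L} (hx : x ∈ Submodule.span k (Set.range f)) : z x ∈ K := by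
  induction hx using Submodule.span_induction with
  | mem x hx =>
    obtain ⟨i, rfl⟩ := hx
    exact h i
  | zero => simp
  | add x y _ _ hx hy => rw [map_add]; exact add_mem hx hy
  | smul c x _ hx => rw [map_smul, ← algebraMap_smul S c]; exact K.smul_mem _ hx

theorem algebraMap_mem_Lt (z : T → A) (r : S) : algebraMap S A r ∈ Lt S z 2 := by
  rw [Algebra.algebraMap_eq_smul_one]
  exact Submodule.smul_mem _ _ (Lt_mono one_le_two one_mem_Lt)

/-- straightening without constant term -/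
theorem wd_mem_aug {p : ℕ} (z : T → A)
    (hc : ∀ i j, z i * z j - z j * z i ∈ Submodule.span S (Set.range z)) (hp : 2 ≤ p)
    (hm : ∀ i, z i ^ p ∈ Submodule.span S (Set.range z)) {l : List T} (hl : l.Nodup)
    (hl' : ∀ i, i ∈ l) (w : List T) (j : T) : wd z w * z j ∈
      Submodule.span S {a | ∃ r : T → ℕ, (∀ i, r i < p) ∧ r ≠ 0 ∧ a = mon z l r} := by
  let z' : T → A × S := fun i => (z i, 0)
  have h1 : ∀ a ∈ Submodule.span S (Set.range z), ((a, 0) : A × S) ∈ Lt S z' 2 := by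
    intro a ha
    refine (Submodule.span_le (p := (Lt S z' 2).comap (LinearMap.inl S A S))).2 ?_ ha
    rintro _ ⟨i, rfl⟩
    exact z_mem_Lt i
  have h2 := wd_mem_span (R := S) (z := z') (m := fun _ => p)
    (fun i j => by simpa [z'] using h1 _ (hc i j))
    (fun i => by
      have := Lt_mono hp (h1 _ (hm i))
      simpa [z', zero_pow (show p ≠ 0 by omega)] using this) hl hl' (w ++ [j])
  set K := Submodule.span S {a | ∃ r : T → ℕ, (∀ i, r i < p) ∧ r ≠ 0 ∧ a = mon z l r}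
  let t : A × S →ₗ[S] A := LinearMap.fst S A S - Algebra.linearMap S A ∘ₗ LinearMap.snd S A S
  have h3 := (Submodule.span_le (p := K.comap t)).2 (by
    rintro _ ⟨r, hr, rfl⟩
    show (mon z' l r).1 - algebraMap S A (mon z' l r).2 ∈ K
    by_cases h0 : r = 0
    · simp [h0, mon_zero]
    · have e1 : (mon z' l r).1 = mon z l r := map_mon (RingHom.fst A S) l r
      have e2 : (mon z' l r).2 = mon (fun _ => 0) l r := map_mon (RingHom.snd A S) l r
      obtain ⟨i, hi⟩ := Function.ne_iff.1 h0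
      have e3 : mon (fun _ => (0 : S)) l r ∈ (⊥ : Submodule S S) :=
        mon_mem_left _ (fun _ _ => rfl) ⟨i, hl' i, hi⟩
      rw [e1, e2, (Submodule.mem_bot _).1 e3, map_zero, sub_zero]
      exact Submodule.subset_span ⟨r, hr, h0, rfl⟩) h2
  have e1 : (wd z' w).1 = wd z w := map_wd (RingHom.fst A S) w
  have h4 : (wd z' (w ++ [j])).1 - algebraMap S A (wd z' (w ++ [j])).2 ∈ K := h3
  simpa [wd_append, wd_cons, wd_nil, z', e1] using h4

end Aux

theorem package_of_alg {k R₀ R L A : Type*} {Y C : Type} [Field k] [CommRing R₀] [CommRing R]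
    [Algebra k R₀] [Algebra k R] [Algebra R₀ R] {p : ℕ} [Fact p.Prime]
    [LieRing L] [LieAlgebra k L] [Fintype Y] [Fintype C] [DecidableEq Y]
    [DecidableEq C] [Ring A] [Algebra k A] [Algebra R₀ A] [Algebra R A] [IsScalarTower k R A]
    [IsScalarTower k R₀ A] [IsScalarTower R₀ R A]
    (e : Basis (Y ⊕ C ⊕ Y) k L) (P : Y ⊕ C ⊕ Y → L) (n b : Submodule k L)
    (hb : b = Submodule.span k (Set.range fun i : C ⊕ Y => e (.inr i)))
    (hn : n = Submodule.span k (Set.range fun j : Y => e (.inr (.inr j))))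
    (hbb : ∀ x ∈ b, ∀ y ∈ b, ⁅x, y⁆ ∈ b) (hbn : ∀ x ∈ b, ∀ y ∈ n, ⁅x, y⁆ ∈ n)
    (hPb : ∀ i, P (.inr i) ∈ b) (hPn : ∀ j, P (.inr (.inr j)) ∈ n)
    (s : R₀) (ψ : L →ₗ[k] R) (ρ : Y ⊕ C ⊕ Y → R)
    (hψb : ∀ x ∈ b, ∀ y ∈ b, ψ ⁅x, y⁆ ∈ Set.range (algebraMap R₀ R)) (hψn : ∀ x ∈ n, ψ x = 0)
    (hρb : ∀ i, ρ (.inr i) ∈ Set.range (algebraMap R₀ R)) (hρn : ∀ j, ρ (.inr (.inr j)) = 0)
    {lY : List Y} (hY : lY.Nodup) (hY' : ∀ j, j ∈ lY) {lC : List C} (hC : lC.Nodup)
    (hC' : ∀ c, c ∈ lC) (z : L →ₗ[k] A)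
    (hz : ∀ x y, z x * z y - z y * z x =
      algebraMap R₀ R s • z ⁅x, y⁆ + algebraMap R A (ψ ⁅x, y⁆))
    (hzp : ∀ i, z (e i) ^ p = algebraMap R₀ R s ^ (p - 1) • z (P i) + algebraMap R A (ρ i))
    (hli : LinearIndependent R fun a : Y ⊕ C ⊕ Y → Fin p => mon (fun i => z (e i))
      (lY.map Sum.inl ++ (lC.map Sum.inl ++ lY.map Sum.inr).map Sum.inr) fun i => a i)
    (hsp : ∀ a : A, a ∈ Submodule.span R (Set.range (wd fun i => z (e i)))) :
    ∃ (Z : L →ₗ[k] Matrix (Ix p Y C) (Ix p Y C) R) (Rm : C → Matrix (Ix p Y C) (Ix p Y C) R₀),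
      (∀ x y, Z x * Z y - Z y * Z x = algebraMap R₀ R s • Z ⁅x, y⁆ + ψ ⁅x, y⁆ • 1) ∧
      (∀ i, Z (e i) ^ p = algebraMap R₀ R s ^ (p - 1) • Z (P i) + ρ i • 1) ∧
      (∀ j, Z (e (.inr (.inr j))) *ᵥ Pi.single 0 1 = 0) ∧
      (∀ q : Ix p Y C, (mon (fun j => Z (e (.inl j))) lY (fun j => q.1 j) *
        mon (fun c => Z (e (.inr (.inl c)))) lC (fun c => q.2 c)) *ᵥ Pi.single 0 1 =
          Pi.single q 1) ∧
      (∀ c x, Commute ((Rm c).map (algebraMap R₀ R)) (Z x)) ∧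
      (∀ c, (Rm c).map (algebraMap R₀ R) *ᵥ Pi.single 0 1 =
        Z (e (.inr (.inl c))) *ᵥ Pi.single 0 1) := by
  classical
  have hp2 := (Fact.out : p.Prime).two_le
  set yy : Y → A := fun j => z (e (.inl j)) with hyy
  set cc : C → A := fun c => z (e (.inr (.inl c))) with hcc
  set xx : Y → A := fun j => z (e (.inr (.inr j))) with hxx
  set lB : List (C ⊕ Y) := lC.map Sum.inl ++ lY.map Sum.inr with hlB
  have hB : lB.Nodup := List.nodup_append.2
    ⟨hC.map Sum.inl_injective, hY.map Sum.inr_injective, by simp⟩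
  have hB' : ∀ i, i ∈ lB := by rintro (i | i) <;> simp [hlB, hC', hY']
  have hI : (lY.map Sum.inl ++ lB.map Sum.inr : List (Y ⊕ C ⊕ Y)).Nodup := List.nodup_append.2
    ⟨hY.map Sum.inl_injective, hB.map Sum.inr_injective, by simp⟩
  have hI' : ∀ i, i ∈ (lY.map Sum.inl ++ lB.map Sum.inr : List (Y ⊕ C ⊕ Y)) := by
    rintro (i | i) <;> simp [hB', hY']
  have hmB : ∀ r : C ⊕ Y → ℕ, mon (fun i => z (e (.inr i))) lB r =
      mon cc lC (r ∘ .inl) * mon xx lY (r ∘ .inr) := fun r => by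
    rw [hlB, mon_append, mon_map, mon_map]
    rfl
  have hmI : ∀ r : Y ⊕ C ⊕ Y → ℕ, mon (fun i => z (e i)) (lY.map Sum.inl ++ lB.map Sum.inr) r =
      mon yy lY (r ∘ .inl) * (mon cc lC (r ∘ .inr ∘ .inl) * mon xx lY (r ∘ .inr ∘ .inr)) :=
    fun r => by
      rw [mon_append, mon_map, mon_map]
      exact congrArg _ (hmB _)
  have hne : ∀ j, e (.inr (.inr j)) ∈ n := fun j => hn ▸ Submodule.subset_span ⟨j, rfl⟩
  have hbe : ∀ i, e (.inr i) ∈ b := fun i => hb ▸ Submodule.subset_span ⟨i, rfl⟩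
  have hLt : ∀ x, z x ∈ Lt R (fun i => z (e i)) 2 := fun x =>
    map_mem_span z e _ (fun i => z_mem_Lt i) (e.span_eq ▸ Submodule.mem_top)
  have hall : ∀ a : A, a ∈ Submodule.span R {a | ∃ r : Y ⊕ C ⊕ Y → ℕ, (∀ i, r i < p) ∧
      a = mon (fun i => z (e i)) (lY.map Sum.inl ++ lB.map Sum.inr) r} := fun a => by
    refine Submodule.span_le.2 ?_ (hsp a)
    rintro _ ⟨w, rfl⟩
    refine wd_mem_span (m := fun _ => p) (fun i j => ?_) (fun i => ?_) hI hI' w
    · rw [hz]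
      exact add_mem (Submodule.smul_mem _ _ (hLt _)) (algebraMap_mem_Lt _ _)
    · rw [hzp]
      exact Lt_mono hp2 (add_mem (Submodule.smul_mem _ _ (hLt _)) (algebraMap_mem_Lt _ _))
  let J : Submodule A A := Submodule.span A (Set.range xx)
  have hxJ : ∀ j, xx j ∈ J := fun j => Submodule.subset_span ⟨j, rfl⟩
  have hnS : ∀ x ∈ n, z x ∈ Submodule.span R (Set.range xx) := fun x hx =>
    map_mem_span z (fun j => e (.inr (.inr j))) _
      (fun j => Submodule.subset_span (Set.mem_range_self (f := xx) j)) (hn ▸ hx)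
  have hnJ : ∀ x ∈ n, z x ∈ J := fun x hx =>
    (Submodule.span_le (p := J.restrictScalars R)).2 (by rintro _ ⟨j, rfl⟩; exact hxJ j) (hnS x hx)
  have hmJ : ∀ r : Y → ℕ, r ≠ 0 → mon xx lY r ∈ J := fun r hr => by
    obtain ⟨i, hi⟩ := Function.ne_iff.1 hr
    exact mon_mem_left J (fun j _ => hxJ j) ⟨i, hY' i, hi⟩
  have hJK : ∀ a ∈ J, a ∈ Submodule.span R ((fun a : Y ⊕ C ⊕ Y → Fin p => mon (fun i => z (e i))
      (lY.map Sum.inl ++ lB.map Sum.inr) fun i => a i) '' {a | ∃ j, a (.inr (.inr j)) ≠ 0}) := by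
    intro a ha
    obtain ⟨u, rfl⟩ := (Submodule.mem_span_range_iff_exists_fun _).1 ha
    refine Submodule.sum_mem _ fun j _ => ?_
    refine map_mem_of_span (LinearMap.mulRight R (xx j)) _ ?_ (hall (u j))
    rintro _ ⟨r, hr, rfl⟩
    have h1 := wd_mem_aug (S := R) xx (fun i j => by
      have h := hbn _ (hbe (.inr i)) _ (hne j)
      rw [hz, hψn _ h, map_zero, add_zero]
      exact Submodule.smul_mem _ _ (hnS _ h)) hp2 (fun i => by
      rw [hzp, hρn, map_zero, add_zero]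
      exact Submodule.smul_mem _ _ (hnS _ (hPn i))) hY hY' (flat lY (r ∘ .inr ∘ .inr)) j
    rw [LinearMap.mulRight_apply, hmI, ← mul_assoc, mul_assoc, ← wd_flat lY (r ∘ .inr ∘ .inr)]
    refine map_mem_of_span (LinearMap.mulLeft R _) _ ?_ h1
    rintro _ ⟨r', hr', h0, rfl⟩
    obtain ⟨i, hi⟩ := Function.ne_iff.1 h0
    refine Submodule.subset_span ⟨Sum.elim (fun i => ⟨r (.inl i), hr _⟩) (Sum.elim
      (fun i => ⟨r (.inr (.inl i)), hr _⟩) fun i => ⟨r' i, hr' i⟩),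
      ⟨i, fun h => hi (congrArg Fin.val h)⟩, ?_⟩
    simp only [hmI, LinearMap.mulLeft_apply, mul_assoc]
    rfl
  let mk : A →ₗ[R] A ⧸ J := J.mkQ.restrictScalars R
  have hmk : ∀ a, mk a = 0 ↔ a ∈ J := fun a => Submodule.Quotient.mk_eq_zero J
  let f : Ix p Y C → A := fun q => mon yy lY (fun j => q.1 j) * mon cc lC fun c => q.2 c
  have hfli : LinearIndependent R fun q => mk (f q) := by
    have h0 : ∀ q : Ix p Y C, mon (fun i => z (e i)) (lY.map Sum.inl ++ lB.map Sum.inr)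
        (fun i => (Sum.elim q.1 (Sum.elim q.2 0) i : Fin p)) = f q := fun q =>
      (hmI _).trans (congrArg _ ((congrArg _ (mon_zero lY)).trans (mul_one _)))
    have h1 : LinearIndependent R f := by
      rw [← funext h0]
      exact hli.comp (fun q : Ix p Y C => Sum.elim q.1 (Sum.elim q.2 0)) fun q q' h =>
        Prod.ext (funext fun i => congrFun h (.inl i))
          (funext fun i => congrFun h (.inr (.inl i)))
    refine h1.map (f := mk) (Disjoint.mono ?_ (fun a ha => hJK a ((hmk a).1 ha))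
      (hli.disjoint_span_image (s := {a | ∀ j, a (.inr (.inr j)) = 0}) ?_))
    · refine Submodule.span_mono ?_
      rintro _ ⟨q, rfl⟩
      exact ⟨_, fun _ => rfl, h0 q⟩
    · exact Set.disjoint_left.2 fun a ha ⟨j, hj⟩ => hj (ha j)
  have hfm : ∀ (a : Y → ℕ) (r : C ⊕ Y → ℕ), (∀ i, a i < p) → (∀ i, r i < p) →
      mk (mon yy lY a * mon (fun i => z (e (.inr i))) lB r) = 0 ∨
      ∃ q, mk (mon yy lY a * mon (fun i => z (e (.inr i))) lB r) = mk (f q) := by
    intro a r ha hr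
    rw [hmB, ← mul_assoc]
    by_cases h0 : r ∘ Sum.inr = 0
    · rw [h0, mon_zero, mul_one]
      exact .inr ⟨(fun i => ⟨a i, ha i⟩, fun i => ⟨r (.inl i), hr _⟩), rfl⟩
    · exact .inl ((hmk _).2 (J.smul_mem _ (hmJ _ h0)))
  have hfsp : ⊤ ≤ Submodule.span R (Set.range fun q => mk (f q)) := by
    rintro v -
    obtain ⟨a, rfl⟩ : ∃ a, mk a = v := J.mkQ_surjective v
    refine map_mem_of_span mk _ ?_ (hall a)
    rintro _ ⟨r, hr, rfl⟩
    rw [hmI]
    erw [← hmB (r ∘ .inr)]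
    rcases hfm (r ∘ .inl) (r ∘ .inr) (fun _ => hr _) fun _ => hr _ with h | ⟨q, h⟩
    · rw [h]
      exact zero_mem _
    · rw [h]
      exact Submodule.subset_span ⟨q, rfl⟩
  let β : Basis (Ix p Y C) R (A ⧸ J) := Basis.mk hfli hfsp
  have hβ : ∀ q, β q = mk (f q) := fun q => Basis.mk_apply _ _ q
  have hrepr : ∀ q, ⇑(β.repr (mk (f q))) = Pi.single q 1 := fun q => by
    rw [← hβ, β.repr_self, Finsupp.single_eq_pi_single]
  have hf0 : f 0 = 1 := by
    show mon yy lY 0 * mon cc lC 0 = 1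
    rw [mon_zero, mon_zero, mul_one]
  let Φ : A →ₐ[R] Matrix (Ix p Y C) (Ix p Y C) R :=
    (LinearMap.toMatrixAlgEquiv β).toAlgHom.comp (Algebra.lsmul R R (A ⧸ J))
  have hΦ : ∀ a, Φ a *ᵥ Pi.single 0 1 = β.repr (mk a) := fun a => by
    rw [← hrepr, hf0]
    refine (LinearMap.toMatrix_mulVec_repr β β _ _).trans ?_
    show ⇑(β.repr (mk (a * 1))) = _
    rw [mul_one]
  have hJc : ∀ c, J ≤ J.comap (LinearMap.toSpanSingleton A A (cc c)) := fun c => by
    refine Submodule.span_le.2 ?_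
    rintro _ ⟨j, rfl⟩
    have h := hbn _ (hbe (.inl c)) _ (hne j)
    have h1 := hz (e (.inr (.inl c))) (e (.inr (.inr j)))
    rw [hψn _ h, map_zero, add_zero, sub_eq_iff_eq_add', ← sub_eq_iff_eq_add] at h1
    show xx j * cc c ∈ J
    rw [← h1]
    exact sub_mem (J.smul_mem _ (hxJ j)) (J.smul_of_tower_mem _ (hnJ _ h))
  let rc : C → End R (A ⧸ J) := fun c => (J.mapQ J _ (hJc c)).restrictScalars R
  have hrc : ∀ c a, rc c (mk a) = mk (a * cc c) := fun _ _ => rfl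
  have hbL : ∀ x ∈ b, z x ∈ Lt R₀ (fun i => z (e (.inr i))) 2 := fun x hx =>
    map_mem_span z (fun i => e (.inr i)) _ (fun i => z_mem_Lt i) (hb ▸ hx)
  have hent : ∀ c i j, ∃ r, algebraMap R₀ R r = LinearMap.toMatrixAlgEquiv β (rc c) i j := by
    intro c i j
    have h1 := wd_mem_span (R := R₀) (z := fun i => z (e (.inr i))) (m := fun _ => p)
      (fun i j => by
        obtain ⟨r, hr⟩ := hψb _ (hbe i) _ (hbe j)
        rw [hz, ← hr, algebraMap_smul, ← IsScalarTower.algebraMap_apply]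
        exact add_mem (Submodule.smul_mem _ _ (hbL _ (hbb _ (hbe i) _ (hbe j))))
          (algebraMap_mem_Lt _ _))
      (fun i => by
        obtain ⟨r, hr⟩ := hρb i
        rw [hzp, ← hr, ← map_pow, algebraMap_smul, ← IsScalarTower.algebraMap_apply]
        exact Lt_mono hp2 (add_mem (Submodule.smul_mem _ _ (hbL _ (hPb i)))
          (algebraMap_mem_Lt _ _))) hB hB' ((flat lC (fun c => j.2 c) ++ [c]).map .inl)
    rw [wd_map, wd_append, wd_flat, wd_cons, wd_nil, mul_one] at h1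
    rw [LinearMap.toMatrixAlgEquiv_apply, hβ, hrc]
    simp only [f, mul_assoc]
    change _ * cc c ∈ _ at h1
    change mon cc lC _ * _ ∈ _ at h1
    generalize mon cc lC (fun c => (j.2 c : ℕ)) * cc c = u at h1
    induction h1 using Submodule.span_induction with
    | mem u hu =>
      obtain ⟨r, hr, rfl⟩ := hu
      rcases hfm (fun i => j.1 i) r (fun i => (j.1 i).2) hr with h | ⟨q, h⟩
      · exact ⟨0, by simp [h]⟩
      · rw [h, hrepr, Pi.single_apply]
        split_ifs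
        · exact ⟨1, map_one _⟩
        · exact ⟨0, map_zero _⟩
    | zero => exact ⟨0, by simp⟩
    | add u v _ _ hu hv =>
      obtain ⟨r, hr⟩ := hu
      obtain ⟨r', hr'⟩ := hv
      exact ⟨r + r', by rw [mul_add, map_add, map_add, map_add, hr, hr', Finsupp.add_apply]⟩
    | smul t u _ hu =>
      obtain ⟨r, hr⟩ := hu
      refine ⟨t * r, ?_⟩
      rw [← algebraMap_smul R t u, mul_smul_comm, map_smul, map_smul, map_mul, hr,
        Finsupp.smul_apply, smul_eq_mul]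
  choose Rm hRm using hent
  have hRm' : ∀ c, (Matrix.of (Rm c)).map (algebraMap R₀ R) =
      LinearMap.toMatrixAlgEquiv β (rc c) := fun c => Matrix.ext (hRm c)
  refine ⟨Φ.toLinearMap.restrictScalars k ∘ₗ z, fun c => Matrix.of (Rm c), fun x y => ?_,
    fun i => ?_, fun j => ?_, fun q => ?_, fun c x => ?_, fun c => ?_⟩
  · have := congrArg Φ (hz x y)
    rwa [map_sub, map_mul, map_mul, map_add, map_smul, AlgHom.commutes,
      Algebra.algebraMap_eq_smul_one (ψ _)] at this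
  · have := congrArg Φ (hzp i)
    rwa [map_pow, map_add, map_smul, AlgHom.commutes,
      Algebra.algebraMap_eq_smul_one (ρ _)] at this
  · refine (hΦ _).trans ?_
    rw [(hmk _).2 (hxJ j)]
    simp
  · rw [← hrepr q, ← hΦ, map_mul, map_mon, map_mon]
    rfl
  · rw [hRm']
    refine Commute.map ?_ (LinearMap.toMatrixAlgEquiv β)
    exact LinearMap.ext fun v => (J.mapQ J _ (hJc c)).map_smul (z x) v
  · refine Eq.trans ?_ (hΦ _).symm
    rw [hRm', ← hrepr, hf0]
    refine (LinearMap.toMatrix_mulVec_repr β β _ _).trans ?_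
    rw [hrc, one_mul]

theorem package {k R₀ R L : Type*} {Y C : Type} [Field k] [CommRing R₀] [CommRing R]
    [Algebra k R₀] [Algebra k R] [Algebra R₀ R] [IsScalarTower k R₀ R] {p : ℕ} [Fact p.Prime]
    [CharP k p] [LieRing L] [LieAlgebra k L] [Fintype Y] [Fintype C] [DecidableEq Y]
    [DecidableEq C] (e : Basis (Y ⊕ C ⊕ Y) k L) (P : Y ⊕ C ⊕ Y → L)
    (hP : ∀ i, LieAlgebra.ad k L (P i) = LieAlgebra.ad k L (e i) ^ p) (n b : Submodule k L)
    (hb : b = Submodule.span k (Set.range fun i : C ⊕ Y => e (.inr i)))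
    (hn : n = Submodule.span k (Set.range fun j : Y => e (.inr (.inr j))))
    (hbb : ∀ x ∈ b, ∀ y ∈ b, ⁅x, y⁆ ∈ b) (hbn : ∀ x ∈ b, ∀ y ∈ n, ⁅x, y⁆ ∈ n)
    (hPb : ∀ i, P (.inr i) ∈ b) (hPn : ∀ j, P (.inr (.inr j)) ∈ n)
    (s : R₀) (ψ : L →ₗ[k] R) (ρ : Y ⊕ C ⊕ Y → R)
    (hψb : ∀ x ∈ b, ∀ y ∈ b, ψ ⁅x, y⁆ ∈ Set.range (algebraMap R₀ R)) (hψn : ∀ x ∈ n, ψ x = 0)
    (hρb : ∀ i, ρ (.inr i) ∈ Set.range (algebraMap R₀ R)) (hρn : ∀ j, ρ (.inr (.inr j)) = 0)
    {lY : List Y} (hY : lY.Nodup) (hY' : ∀ j, j ∈ lY) {lC : List C} (hC : lC.Nodup)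
    (hC' : ∀ c, c ∈ lC) :
    ∃ (Z : L →ₗ[k] Matrix (Ix p Y C) (Ix p Y C) R) (Rm : C → Matrix (Ix p Y C) (Ix p Y C) R₀),
      (∀ x y, Z x * Z y - Z y * Z x = algebraMap R₀ R s • Z ⁅x, y⁆ + ψ ⁅x, y⁆ • 1) ∧
      (∀ i, Z (e i) ^ p = algebraMap R₀ R s ^ (p - 1) • Z (P i) + ρ i • 1) ∧
      (∀ j, Z (e (.inr (.inr j))) *ᵥ Pi.single 0 1 = 0) ∧
      (∀ q : Ix p Y C, (mon (fun j => Z (e (.inl j))) lY (fun j => q.1 j) *
        mon (fun c => Z (e (.inr (.inl c)))) lC (fun c => q.2 c)) *ᵥ Pi.single 0 1 =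
          Pi.single q 1) ∧
      (∀ c x, Commute ((Rm c).map (algebraMap R₀ R)) (Z x)) ∧
      (∀ c, (Rm c).map (algebraMap R₀ R) *ᵥ Pi.single 0 1 =
        Z (e (.inr (.inl c))) *ᵥ Pi.single 0 1) := by
  have hB : (lC.map Sum.inl ++ lY.map Sum.inr : List (C ⊕ Y)).Nodup := List.nodup_append.2
    ⟨hC.map Sum.inl_injective, hY.map Sum.inr_injective, by simp⟩
  obtain ⟨A, _, _, z, h1, h2, h3, h4⟩ := exists_alg (p := p) Fact.out
    (by rw [← map_natCast (algebraMap k R), CharP.cast_eq_zero, map_zero])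
    (Algebra.TensorProduct.basis R e) (fun i => 1 ⊗ₜ[k] P i) (fun i => by
      rw [Algebra.TensorProduct.basis_apply]
      exact (LieModule.toEnd_baseChange k R L L _).trans ((congrArg _ (hP i)).trans
        ((LinearMap.baseChange_pow k R L _ _).trans
          (congrArg (· ^ p) (LieModule.toEnd_baseChange k R L L _).symm))))
    (algebraMap R₀ R s) (ψ.liftBaseChange R) ρ
    (l := lY.map Sum.inl ++ (lC.map Sum.inl ++ lY.map Sum.inr).map Sum.inr)
    (List.nodup_append.2 ⟨hY.map Sum.inl_injective, hB.map Sum.inr_injective, by simp⟩)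
    (by rintro (i | i | i) <;> simp [hC', hY'])
  let _ : Algebra k A := Algebra.compHom A (algebraMap k R)
  let _ : Algebra R₀ A := Algebra.compHom A (algebraMap R₀ R)
  have : IsScalarTower k R A := IsScalarTower.of_algebraMap_eq fun _ => rfl
  have : IsScalarTower R₀ R A := IsScalarTower.of_algebraMap_eq fun _ => rfl
  have : IsScalarTower k R₀ A := IsScalarTower.of_algebraMap_eq fun c =>
    congrArg (algebraMap R A) (IsScalarTower.algebraMap_apply k R₀ R c)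
  simp only [Algebra.TensorProduct.basis_apply] at h2 h3 h4
  exact package_of_alg e P n b hb hn hbb hbn hPb hPn s ψ ρ hψb hψn hρb hρn hY hY' hC hC'
    (z.restrictScalars k ∘ₗ TensorProduct.mk k R L 1)
    (fun x y => by simpa using h1 (1 ⊗ₜ x) (1 ⊗ₜ y)) h2 h3 h4

end Pool.Agent.Cart
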