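import Pool.Agent.P.MP_c9b50d_al.C.Str
import Pool.Agent.P.MP_c9b50d_al.C.Gen

/-! The deformed reduced enveloping algebra. -/

namespace Pool.Agent.Cart

open Module

attribute [local instance 100] LieRing.ofAssociativeRing

universe u v

variable {R : Type u} {M : Type v} [CommRing R] [LieRing M] [LieAlgebra R M]

/-- the rescaled central extension -/
def Gt (_s : R) (_ψ : M →ₗ[R] R) : Type (max u v) := M × R

variable {s : R} {ψ : M →ₗ[R] R}

instance : AddCommGroup (Gt s ψ) := inferInstanceAs (AddCommGroup (M × R))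

instance : Module R (Gt s ψ) := inferInstanceAs (Module R (M × R))

variable (s ψ) in
/-- the identification with the product -/
def gt : (M × R) ≃ₗ[R] Gt s ψ := LinearEquiv.refl R (M × R)

instance : Bracket (Gt s ψ) (Gt s ψ) :=
  ⟨fun a b => gt s ψ (s • ⁅((gt s ψ).symm a).1, ((gt s ψ).symm b).1⁆,
    ψ ⁅((gt s ψ).symm a).1, ((gt s ψ).symm b).1⁆)⟩

theorem gt_lie (a b : M × R) : ⁅gt s ψ a, gt s ψ b⁆ = gt s ψ (s • ⁅a.1, b.1⁆, ψ ⁅a.1, b.1⁆) := rfl

instance : LieRing (Gt s ψ) where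
  add_lie a b c := by
    obtain ⟨a, rfl⟩ := (gt s ψ).surjective a
    obtain ⟨b, rfl⟩ := (gt s ψ).surjective b
    obtain ⟨c, rfl⟩ := (gt s ψ).surjective c
    simp only [← map_add, gt_lie]
    simp
  lie_add a b c := by
    obtain ⟨a, rfl⟩ := (gt s ψ).surjective a
    obtain ⟨b, rfl⟩ := (gt s ψ).surjective b
    obtain ⟨c, rfl⟩ := (gt s ψ).surjective c
    simp only [← map_add, gt_lie]
    simp
  lie_self a := by
    obtain ⟨a, rfl⟩ := (gt s ψ).surjective a
    rw [gt_lie]
    simp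
  leibniz_lie a b c := by
    obtain ⟨a, rfl⟩ := (gt s ψ).surjective a
    obtain ⟨b, rfl⟩ := (gt s ψ).surjective b
    obtain ⟨c, rfl⟩ := (gt s ψ).surjective c
    simp only [← map_add, gt_lie, lie_smul, smul_lie, Prod.mk_add_mk, ← smul_add]
    rw [← leibniz_lie]

instance : LieAlgebra R (Gt s ψ) where
  lie_smul t a b := by
    obtain ⟨a, rfl⟩ := (gt s ψ).surjective a
    obtain ⟨b, rfl⟩ := (gt s ψ).surjective b
    rw [← map_smul, gt_lie, gt_lie, ← map_smul]
    simp [smul_comm s t]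

theorem gt_ad_pow (a : M) (n : ℕ) (b : M × R) :
    (LieAlgebra.ad R _ (gt s ψ (a, 0)) ^ (n + 1)) (gt s ψ b) =
      s ^ n • gt s ψ (s • (LieAlgebra.ad R M a ^ (n + 1)) b.1,
        ψ ((LieAlgebra.ad R M a ^ (n + 1)) b.1)) := by
  induction n with
  | zero => simp [gt_lie]
  | succ n ih =>
    rw [pow_succ' (LieAlgebra.ad R _ (gt s ψ (a, 0))), End.mul_apply, ih, map_smul,
      LieAlgebra.ad_apply, gt_lie, pow_succ' (LieAlgebra.ad R M a) (n + 1), End.mul_apply,
      LieAlgebra.ad_apply, pow_succ s n, mul_smul, ← map_smul (gt s ψ) s]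
    simp

theorem exists_alg {I : Type} {p : ℕ} (hp : p.Prime) (h0 : (p : R) = 0) (b : Basis I R M)
    (P : I → M) (hP : ∀ i, LieAlgebra.ad R M (P i) = LieAlgebra.ad R M (b i) ^ p) (s : R)
    (ψ : M →ₗ[R] R) (ρ : I → R) {l : List I} (hl : l.Nodup) (hl' : ∀ i, i ∈ l) :
    ∃ (A : Type (max u v)) (_ : Ring A) (_ : Algebra R A) (z : M →ₗ[R] A),
      (∀ x y, z x * z y - z y * z x = s • z ⁅x, y⁆ + algebraMap R A (ψ ⁅x, y⁆)) ∧
      (∀ i, z (b i) ^ p = s ^ (p - 1) • z (P i) + algebraMap R A (ρ i)) ∧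
      (LinearIndependent R fun a : I → Fin p => mon (fun i => z (b i)) l fun i => a i) ∧
      ∀ a : A, a ∈ Submodule.span R (Set.range (wd fun i => z (b i))) := by
  classical
  let _ : Fintype I := ⟨l.toFinset, fun j => List.mem_toFinset.2 (hl' j)⟩
  let _ : LinearOrder (I ⊕ Unit) := LinearOrder.lift' (Fintype.equivFin _) (Equiv.injective _)
  let bG : Basis (I ⊕ Unit) R (Gt s ψ) := (b.prod (Basis.singleton Unit R)).map (gt s ψ)
  have hb1 : ∀ i, bG (.inl i) = gt s ψ (b i, 0) := fun i => by simp [bG]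
  have hb2 : ∀ i, bG (.inr i) = gt s ψ (0, 1) := fun i => by simp [bG]
  let ι := UniversalEnvelopingAlgebra.ι R (L := Gt s ψ)
  have hcomm : ∀ u, (∀ g, Commute u (ι g)) → ∀ a, Commute u a := by
    intro u hu a
    have ha : a ∈ Submodule.span R (Set.range (Pool.Agent.P.Bf04.uword bG)) :=
      Pool.Agent.P.Bf04.span_uword bG ▸ Submodule.mem_top
    induction ha using Submodule.span_induction with
    | mem a ha =>
      obtain ⟨w, rfl⟩ := ha
      refine Commute.list_prod_right _ _ fun y hy => ?_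
      obtain ⟨i, -, rfl⟩ := List.mem_map.1 hy
      exact hu _
    | zero => exact Commute.zero_right _
    | add a b _ _ ha hb => exact ha.add_right hb
    | smul c a _ ha => exact ha.smul_right c
  have hlie : ∀ g g', ι g * ι g' - ι g' * ι g = ι ⁅g, g'⁆ := fun g g' => (ι.map_lie g g').symm
  have hκ : ∀ g, Commute (ι (gt s ψ (0, 1))) (ι g) := fun g => by
    obtain ⟨g, rfl⟩ := (gt s ψ).surjective g
    rw [Commute, SemiconjBy, ← sub_eq_zero, hlie, gt_lie]
    simp [Prod.mk_zero_zero]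
  let ξ : I ⊕ Unit → UniversalEnvelopingAlgebra R (Gt s ψ) := Sum.elim
    (fun i => ι (gt s ψ (b i, 0)) ^ p - s ^ (p - 1) • ι (gt s ψ (P i, 0)) -
      ρ i • ι (gt s ψ (0, 1))) fun _ => ι (gt s ψ (0, 1)) - 1
  have hξ1 : ∀ i, ξ (.inl i) = ι (gt s ψ (b i, 0)) ^ p - s ^ (p - 1) • ι (gt s ψ (P i, 0)) -
      ρ i • ι (gt s ψ (0, 1)) := fun _ => rfl
  have hξ2 : ∀ i, ξ (.inr i) = ι (gt s ψ (0, 1)) - 1 := fun _ => rfl
  have hξ : ∀ j a, Commute (ξ j) a := by
    rintro (i | i)
    · refine hcomm _ fun g => Commute.sub_left ?_ ((hκ g).smul_left _)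
      obtain ⟨g, rfl⟩ := (gt s ψ).surjective g
      have h1 := map_ad_pow hp h0 ι (gt s ψ (b i, 0)) (gt s ψ g)
      have h2 := gt_ad_pow (s := s) (ψ := ψ) (b i) (p - 1) g
      rw [Nat.sub_add_cancel hp.one_le, ← hP] at h2
      rw [h2, map_smul] at h1
      have h3 := hlie (gt s ψ (P i, 0)) (gt s ψ g)
      rw [gt_lie] at h3
      rw [Commute, SemiconjBy, sub_mul, mul_sub, smul_mul_assoc, mul_smul_comm,
        sub_eq_sub_iff_sub_eq_sub, ← h1, ← smul_sub, h3]
      rfl
    · exact hcomm _ fun g => (hκ g).sub_left (Commute.one_left _)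
  have hLt : ∀ g, ι g ∈ Lt R (fun j => ι (bG j)) 2 := fun g => by
    have h := Pool.Agent.P.Bf04.pbwW_mul bG 1 g 1
      (Submodule.subset_span ⟨[], Nat.one_pos, rfl⟩)
    rwa [mul_one] at h
  have : (Ideal.span (Set.range ξ)).IsTwoSided := ⟨fun {a} c ha => by
    induction ha using Submodule.span_induction with
    | mem a ha =>
      obtain ⟨j, rfl⟩ := ha
      rw [(hξ j c).eq]
      exact Ideal.mul_mem_left _ _ (Ideal.subset_span ⟨j, rfl⟩)
    | zero => simp
    | add a b _ _ ha hb => rw [add_mul]; exact add_mem ha hb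
    | smul t a _ ha => rw [smul_eq_mul, mul_assoc]; exact Ideal.mul_mem_left _ _ ha⟩
  let π := Ideal.Quotient.mkₐ R (Ideal.span (Set.range ξ))
  have hπ : ∀ j, π (ξ j) = 0 := fun j =>
    Ideal.Quotient.eq_zero_iff_mem.2 (Ideal.subset_span ⟨j, rfl⟩)
  have hπκ : π (ι (gt s ψ (0, 1))) = 1 := by
    have := hπ (.inr ())
    rwa [hξ2, map_sub, map_one, sub_eq_zero] at this
  let z := π.toLinearMap ∘ₗ (ι : _ →ₗ[R] _) ∘ₗ (gt s ψ).toLinearMap ∘ₗ LinearMap.inl R M R
  have hz : ∀ x, z x = π (ι (gt s ψ (x, 0))) := fun _ => rfl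
  refine ⟨_, inferInstance, inferInstance, z, fun x y => ?_, fun i => ?_, ?_, fun a => ?_⟩
  · rw [hz, hz, hz, ← map_mul π, ← map_mul π, ← map_sub π, hlie, gt_lie,
      Algebra.algebraMap_eq_smul_one, ← hπκ, ← map_smul π, ← map_smul π, ← map_smul ι,
      ← map_smul ι, ← map_smul (gt s ψ), ← map_smul (gt s ψ), ← map_add π, ← map_add ι,
      ← map_add (gt s ψ)]
    simp
  · have := hπ (.inl i)
    rw [hξ1, map_sub, map_sub, map_pow, map_smul, map_smul, hπκ, sub_sub,
      sub_eq_zero] at this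
    rw [hz, hz, this, Algebra.algebraMap_eq_smul_one]
  · have h := rpbw bG (l := l.map .inl ++ [.inr ()])
      (List.nodup_append.2 ⟨hl.map Sum.inl_injective, by simp, by simp⟩)
      (by rintro (i | i) <;> simp [hl']) (Sum.elim (fun _ => p) fun _ => 1)
      (by rintro (i | i) <;> simp [hp.pos]) ξ hξ (by
        rintro (i | i)
        · rw [hb1, hξ1, Sum.elim_inl, sub_sub (_ ^ p), sub_sub_cancel_left]
          exact neg_mem (Lt_mono hp.two_le (add_mem (Submodule.smul_mem _ _ (hLt _))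
            (Submodule.smul_mem _ _ (hLt _))))
        · rw [hb2, hξ2, Sum.elim_inr, pow_one, sub_sub_cancel_left]
          exact neg_mem one_mem_Lt) π.toLinearMap
      fun a ha => Ideal.Quotient.eq_zero_iff_mem.1 ha
    have h2 := h.comp (fun a : I → Fin p => ⟨Sum.elim (fun i => (a i : ℕ)) fun _ => 0, by
      rintro (i | i) <;> simp⟩) fun a a' e => funext fun i =>
        Fin.ext (congrFun (congrArg Subtype.val e) (.inl i))
    refine (congrArg (fun v => LinearIndependent R v) (funext fun a => ?_)).mp h2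
    simp only [Function.comp, mon_append, mon_map, AlgHom.toLinearMap_apply, map_mul, map_mon]
    simp [mon, hb1, hz, ι]
  · obtain ⟨u, rfl⟩ := Ideal.Quotient.mkₐ_surjective R _ a
    have hu : u ∈ Submodule.span R (Set.range (Pool.Agent.P.Bf04.uword bG)) :=
      Pool.Agent.P.Bf04.span_uword bG ▸ Submodule.mem_top
    have h1 := Submodule.mem_map_of_mem (f := π.toLinearMap) hu
    rw [Submodule.map_span] at h1
    refine Submodule.span_mono ?_ h1
    rintro _ ⟨_, ⟨w, rfl⟩, rfl⟩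
    induction w with
    | nil => exact ⟨[], (map_one π).symm⟩
    | cons j w ih =>
      obtain ⟨w', hw'⟩ := ih
      rw [Pool.Agent.P.Bf04.pbw_uword_cons, AlgHom.toLinearMap_apply, map_mul]
      rcases j with i | i
      · exact ⟨i :: w', by rw [wd_cons, hw', hb1]; rfl⟩
      · exact ⟨w', by rw [hb2, hw', hπκ, one_mul]; rfl⟩

end Pool.Agent.Cart
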