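import Pool.Agent.P.MP_c9b50d_al.C.Fr

/-! The series K: a twisted model of the contact algebra. -/

namespace Pool.Agent.Cart

open Module

/-- the variables of the contact algebra -/
abbrev Kv (m : ℕ) : Type := Option (Fin m ⊕ Fin m)

namespace Km

variable {k : Type*} [Field k] (p : ℕ) [Fact p.Prime] [CharP k p] {m : ℕ} (o : Fin m) (κ : k)

variable (k) in
/-- the frame, logarithmic along `z` and `y_o` -/
noncomputable def fr : Frame k p (Kv m) := logFrame k p {none, some (.inr o)}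

/-- the coefficients of the contact form -/
noncomputable def c (i : Fin m) : O k p (Kv m) :=
  x k p (some (.inl i)) + if i = o then algebraMap k _ κ else 0

variable (k) in
/-- the Reeb field -/
noncomputable def R : W k p (Kv m) := (fr k p o).Δ none

variable (k) in
/-- first half of the Heisenberg frame -/
noncomputable def P (i : Fin m) : W k p (Kv m) := (fr k p o).Δ (some (.inl i))

/-- second half of the Heisenberg frame -/
noncomputable def Q (i : Fin m) : W k p (Kv m) :=
  (fr k p o).Δ (some (.inr i)) - c p o κ i • R k p o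

/-- the twisted contact form -/
noncomputable def alM : W k p (Kv m) →ₗ[O k p (Kv m)] O k p (Kv m) :=
  (fr k p o).co none + ∑ i, c p o κ i • (fr k p o).co (some (.inr i))

/-- the contact field of a function -/
noncomputable def ct : O k p (Kv m) →ₗ[k] W k p (Kv m) where
  toFun f := f • R k p o + ∑ i, (P k p o i f • Q p o κ i - Q p o κ i f • P k p o i)
  map_add' f g := by
    simp only [map_add, add_smul, Finset.sum_add_distrib, Finset.sum_sub_distrib]
    abel
  map_smul' a f := by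
    simp only [Derivation.map_smul, smul_assoc, RingHom.id_apply, smul_add, Finset.smul_sum,
      smul_sub]

/-- the contact bracket -/
noncomputable def br (f g : O k p (Kv m)) : O k p (Kv m) := ct p o κ f g - R k p o f * g

/-- the twisted contact algebra -/
def Kset : Set (W k p (Kv m)) :=
  {D | ∃ f, ∀ Y, D (alM p o κ Y) - alM p o κ ⁅D, Y⁆ = f * alM p o κ Y}

variable {p}

theorem sk1_Δ_apply (j : Kv m) (f : O k p (Kv m)) :
    (fr k p o).Δ j f = lg k p {none, some (.inr o)} j * pd k p j f := rfl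

theorem sk1_lg_inl (i : Fin m) :
    lg k p ({none, some (.inr o)} : Finset (Kv m)) (some (.inl i)) = 1 := by
  simp [lg]

theorem sk1_lg_inr {i : Fin m} (h : i ≠ o) :
    lg k p ({none, some (.inr o)} : Finset (Kv m)) (some (.inr i)) = 1 := by
  simp [lg, h]

theorem sk1_Δ_x (j : Kv m) (i : Fin m) :
    (fr k p o).Δ j (x k p (some (.inl i))) = if some (.inl i) = j then 1 else 0 := by
  rw [sk1_Δ_apply, pd_x]
  split_ifs with h
  · subst h; rw [sk1_lg_inl, one_mul]
  · exact mul_zero _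

theorem sk1_Δ_y (j : Kv m) {i : Fin m} (hi : i ≠ o) :
    (fr k p o).Δ j (x k p (some (.inr i))) = if some (.inr i) = j then 1 else 0 := by
  rw [sk1_Δ_apply, pd_x]
  split_ifs with h
  · subst h; rw [sk1_lg_inr o hi, one_mul]
  · exact mul_zero _

theorem sk1_der_c (D : W k p (Kv m)) (i : Fin m) :
    D (c p o κ i) = D (x k p (some (.inl i))) := by
  rw [c, map_add]
  split_ifs
  · rw [Derivation.map_algebraMap, add_zero]
  · rw [map_zero, add_zero]

theorem sk1_Δ_c (j : Kv m) (i : Fin m) :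
    (fr k p o).Δ j (c p o κ i) = if some (.inl i) = j then 1 else 0 := by
  rw [sk1_der_c, sk1_Δ_x]

theorem sk1_co_c (D : W k p (Kv m)) (i : Fin m) :
    D (c p o κ i) = (fr k p o).co (some (.inl i)) D := by
  rw [(fr k p o).apply_eq]
  simp only [sk1_Δ_c, mul_ite, mul_one, mul_zero]
  rw [Finset.sum_ite_eq, if_pos (Finset.mem_univ _)]

theorem sk1_Q_apply (i : Fin m) (f : O k p (Kv m)) :
    Q p o κ i f = (fr k p o).Δ (some (.inr i)) f - c p o κ i * R k p o f := rfl

theorem sk1_alM_apply (D : W k p (Kv m)) : alM p o κ D =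
    (fr k p o).co none D + ∑ i, c p o κ i * (fr k p o).co (some (.inr i)) D := by
  simp only [alM, LinearMap.add_apply, LinearMap.sum_apply, LinearMap.smul_apply, smul_eq_mul]

theorem sk1_co_R (j : Kv m) : (fr k p o).co j (R k p o) = if j = none then 1 else 0 :=
  (fr k p o).co_Δ j none

theorem sk1_co_P (j : Kv m) (i : Fin m) :
    (fr k p o).co j (P k p o i) = if j = some (.inl i) then 1 else 0 :=
  (fr k p o).co_Δ j _

theorem sk1_co_Q (j : Kv m) (i : Fin m) : (fr k p o).co j (Q p o κ i) =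
    (if j = some (.inr i) then 1 else 0) - c p o κ i * if j = none then 1 else 0 := by
  rw [Q, map_sub, map_smul, (fr k p o).co_Δ, sk1_co_R, smul_eq_mul]

theorem sk1_ct_def (f : O k p (Kv m)) : ct p o κ f =
    f • R k p o + ∑ i, (P k p o i f • Q p o κ i - Q p o κ i f • P k p o i) := rfl

theorem sk1_co_none_ct (f : O k p (Kv m)) :
    (fr k p o).co none (ct p o κ f) = f - ∑ i, c p o κ i * P k p o i f := by
  rw [sk1_ct_def, map_add, map_sum, sub_eq_add_neg, ← Finset.sum_neg_distrib]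
  simp only [map_sub, map_smul, sk1_co_R, sk1_co_P, sk1_co_Q, smul_eq_mul]
  congr 1
  · simp
  · refine Finset.sum_congr rfl fun i _ => ?_
    simp [mul_comm]

theorem sk1_co_inl_ct (f : O k p (Kv m)) (j : Fin m) :
    (fr k p o).co (some (.inl j)) (ct p o κ f) = -Q p o κ j f := by
  rw [sk1_ct_def, map_add, map_sum]
  simp only [map_sub, map_smul, sk1_co_R, sk1_co_P, sk1_co_Q, smul_eq_mul]
  simp

theorem sk1_co_inr_ct (f : O k p (Kv m)) (j : Fin m) :
    (fr k p o).co (some (.inr j)) (ct p o κ f) = P k p o j f := by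
  rw [sk1_ct_def, map_add, map_sum]
  simp only [map_sub, map_smul, sk1_co_R, sk1_co_P, sk1_co_Q, smul_eq_mul]
  simp

theorem sk1_alM_P (i : Fin m) : alM p o κ (P k p o i) = 0 := by
  rw [sk1_alM_apply]
  simp [sk1_co_P]

theorem sk1_alM_Q (i : Fin m) : alM p o κ (Q p o κ i) = 0 := by
  rw [sk1_alM_apply]
  simp [sk1_co_Q]

theorem sk1_alM_Δ (i : Fin m) : alM p o κ ((fr k p o).Δ (some (.inr i))) = c p o κ i := by
  rw [sk1_alM_apply]
  simp [(fr k p o).co_Δ]

theorem sk1_ext {D E : W k p (Kv m)} (h₀ : alM p o κ D = alM p o κ E)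
    (h₁ : ∀ i, (fr k p o).co (some (.inl i)) D = (fr k p o).co (some (.inl i)) E)
    (h₂ : ∀ i, (fr k p o).co (some (.inr i)) D = (fr k p o).co (some (.inr i)) E) : D = E := by
  refine (fr k p o).ext_co fun j => ?_
  rcases j with _ | i | i
  · rw [sk1_alM_apply, sk1_alM_apply] at h₀
    simp only [h₂] at h₀
    exact add_right_cancel h₀
  · exact h₁ i
  · exact h₂ i

/-- expansion in the frame `R`, `P`, `Q` -/
theorem sk1_expand (E : W k p (Kv m)) (f : O k p (Kv m)) : E f = alM p o κ E * R k p o f +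
    ∑ i, ((fr k p o).co (some (.inl i)) E * P k p o i f +
      (fr k p o).co (some (.inr i)) E * Q p o κ i f) := by
  rw [(fr k p o).apply_eq E f, Fintype.sum_option, Fintype.sum_sum_type, sk1_alM_apply, add_mul,
    Finset.sum_mul, add_assoc, ← Finset.sum_add_distrib, ← Finset.sum_add_distrib]
  refine congrArg₂ (· + ·) rfl (Finset.sum_congr rfl fun i _ => ?_)
  rw [sk1_Q_apply, P]
  ring

/-- the differential of the contact form -/
theorem sk1_dal (D E : W k p (Kv m)) : D (alM p o κ E) - alM p o κ ⁅D, E⁆ = E (alM p o κ D) +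
    ∑ i, ((fr k p o).co (some (.inl i)) D * (fr k p o).co (some (.inr i)) E -
      (fr k p o).co (some (.inl i)) E * (fr k p o).co (some (.inr i)) D) := by
  rw [sk1_alM_apply, sk1_alM_apply, sk1_alM_apply]
  simp only [Frame.co_lie, map_add, map_sum, Derivation.leibniz, smul_eq_mul, sk1_co_c, mul_sub,
    Finset.sum_add_distrib, Finset.sum_sub_distrib]
  have h₁ : ∑ i, (fr k p o).co (some (.inr i)) E * (fr k p o).co (some (.inl i)) D =
      ∑ i, (fr k p o).co (some (.inl i)) D * (fr k p o).co (some (.inr i)) E :=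
    Finset.sum_congr rfl fun i _ => mul_comm _ _
  have h₂ : ∑ i, (fr k p o).co (some (.inr i)) D * (fr k p o).co (some (.inl i)) E =
      ∑ i, (fr k p o).co (some (.inl i)) E * (fr k p o).co (some (.inr i)) D :=
    Finset.sum_congr rfl fun i _ => mul_comm _ _
  rw [h₁, h₂]
  ring

theorem ct_apply (f g : O k p (Kv m)) : ct p o κ f g =
    f * R k p o g + ∑ i, (P k p o i f * Q p o κ i g - Q p o κ i f * P k p o i g) := by
  rw [sk1_ct_def, Derivation.add_apply, W_sum_apply]
  rfl

theorem alM_ct (f : O k p (Kv m)) : alM p o κ (ct p o κ f) = f := by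
  rw [sk1_alM_apply, sk1_co_none_ct]
  simp only [sk1_co_inr_ct]
  exact sub_add_cancel _ _

theorem lie_alM (f : O k p (Kv m)) (Y : W k p (Kv m)) :
    ct p o κ f (alM p o κ Y) - alM p o κ ⁅ct p o κ f, Y⁆ = R k p o f * alM p o κ Y := by
  rw [sk1_dal, alM_ct, sk1_expand o κ Y f, add_assoc, ← Finset.sum_add_distrib,
    Finset.sum_eq_zero, add_zero, mul_comm]
  intro i _
  rw [sk1_co_inl_ct, sk1_co_inr_ct]
  ring

theorem eq_ct {D : W k p (Kv m)} (h : D ∈ Kset p o κ) : D = ct p o κ (alM p o κ D) := by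
  obtain ⟨g, hg⟩ := h
  refine sk1_ext o κ (alM_ct o κ _).symm (fun j => ?_) fun j => ?_
  · have h := hg (Q p o κ j)
    rw [sk1_dal, sk1_alM_Q, mul_zero] at h
    simp only [sk1_co_Q] at h
    rw [sk1_co_inl_ct]
    simp at h
    exact eq_neg_of_add_eq_zero_right h
  · have h := hg (P k p o j)
    rw [sk1_dal, sk1_alM_P, mul_zero] at h
    simp only [sk1_co_P] at h
    rw [sk1_co_inr_ct]
    simp at h
    exact (add_neg_eq_zero.1 h).symm

theorem sk1_lie_mem {D E : W k p (Kv m)} (hD : D ∈ Kset p o κ) (hE : E ∈ Kset p o κ) :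
    ⁅D, E⁆ ∈ Kset p o κ := by
  obtain ⟨a, ha⟩ := hD
  obtain ⟨b, hb⟩ := hE
  refine ⟨D b - E a, fun Y => ?_⟩
  have ha' : ∀ Y, alM p o κ ⁅D, Y⁆ = D (alM p o κ Y) - a * alM p o κ Y := fun Y => by
    rw [← ha Y]; ring
  have hb' : ∀ Y, alM p o κ ⁅E, Y⁆ = E (alM p o κ Y) - b * alM p o κ Y := fun Y => by
    rw [← hb Y]; ring
  rw [lie_lie, map_sub, ha', hb', hb', ha', Derivation.commutator_apply]
  simp only [map_sub, Derivation.leibniz, smul_eq_mul]
  ring

theorem lie_ct (f g : O k p (Kv m)) :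
    ⁅ct p o κ f, ct p o κ g⁆ = ct p o κ (br p o κ f g) := by
  have h := eq_ct o κ (sk1_lie_mem o κ ⟨_, lie_alM o κ f⟩ ⟨_, lie_alM o κ g⟩)
  have h' := lie_alM o κ f (ct p o κ g)
  rw [alM_ct] at h'
  rw [h, br, ← h', sub_sub_cancel]

theorem br_skew (f g : O k p (Kv m)) : br p o κ f g = -br p o κ g f := by
  rw [br, br, ct_apply, ct_apply]
  have h : ∑ i, (P k p o i g * Q p o κ i f - Q p o κ i g * P k p o i f) =
      -∑ i, (P k p o i f * Q p o κ i g - Q p o κ i f * P k p o i g) := by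
    rw [← Finset.sum_neg_distrib]
    exact Finset.sum_congr rfl fun i _ => by ring
  rw [h]
  ring

theorem ct_one : ct p o κ 1 = R k p o := by
  rw [sk1_ct_def]
  simp only [Derivation.map_one_eq_zero, zero_smul, sub_self, Finset.sum_const_zero, one_smul,
    add_zero]

theorem ct_c (i : Fin m) : ct p o κ (c p o κ i) = (fr k p o).Δ (some (.inr i)) := by
  refine sk1_ext o κ ?_ (fun j => ?_) fun j => ?_
  · rw [alM_ct, sk1_alM_Δ]
  · rw [sk1_co_inl_ct, sk1_co_c, sk1_co_Q, (fr k p o).co_Δ]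
    simp
  · rw [sk1_co_inr_ct, sk1_co_c, sk1_co_P, (fr k p o).co_Δ]
    simp [eq_comm]

/-- the field of `x_i y_i`, `i ≠ o` -/
theorem ct_xy {i : Fin m} (h : i ≠ o) :
    ct p o κ (x k p (some (.inl i)) * x k p (some (.inr i))) =
      x k p (some (.inr i) : Kv m) • pd k p (some (.inr i) : Kv m) -
        x k p (some (.inl i) : Kv m) • pd k p (some (.inl i) : Kv m) := by
  have h₁ : pd k p (some (.inr i) : Kv m) = (fr k p o).Δ (some (.inr i)) := by
    ext f
    rw [sk1_Δ_apply, sk1_lg_inr o h, one_mul]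
  have h₂ : pd k p (some (.inl i) : Kv m) = P k p o i := by
    ext f
    rw [P, sk1_Δ_apply, sk1_lg_inl, one_mul]
  have h₃ : c p o κ i = x k p (some (.inl i)) := by rw [c, if_neg h, add_zero]
  rw [h₁, h₂]
  refine sk1_ext o κ ?_ (fun j => ?_) fun j => ?_
  · rw [alM_ct, map_sub, map_smul, map_smul, sk1_alM_Δ, sk1_alM_P, h₃, smul_zero, sub_zero,
      smul_eq_mul, mul_comm]
  · rw [sk1_co_inl_ct, map_sub, map_smul, map_smul, sk1_co_P, (fr k p o).co_Δ,
      Derivation.leibniz, sk1_Q_apply, sk1_Q_apply, R, sk1_Δ_x, sk1_Δ_x, sk1_Δ_y o _ h,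
      sk1_Δ_y o _ h]
    simp [eq_comm]
  · rw [sk1_co_inr_ct, map_sub, map_smul, map_smul, sk1_co_P, (fr k p o).co_Δ,
      Derivation.leibniz, P, sk1_Δ_x, sk1_Δ_y o _ h]
    simp [eq_comm]

theorem div_ct (f : O k p (Kv m)) :
    (fr k p o).div (ct p o κ f) = ((m : k) + 1) • R k p o f := by
  have h : ∀ i, (fr k p o).Δ (some (.inl i)) ((fr k p o).co (some (.inl i)) (ct p o κ f)) +
      (fr k p o).Δ (some (.inr i)) ((fr k p o).co (some (.inr i)) (ct p o κ f)) =
        R k p o f + c p o κ i * R k p o (P k p o i f) := fun i => by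
    rw [sk1_co_inl_ct, sk1_co_inr_ct, sk1_Q_apply, map_neg, map_sub, Derivation.leibniz, sk1_Δ_c,
      if_pos rfl, P, R, (fr k p o).Δ_Δ (some (.inl i)) (some (.inr i)),
      (fr k p o).Δ_Δ (some (.inl i)) none, smul_eq_mul, smul_eq_mul]
    ring
  have h' : ∀ i, (fr k p o).Δ none (c p o κ i * P k p o i f) =
      c p o κ i * R k p o (P k p o i f) := fun i => by
    rw [Derivation.leibniz, sk1_Δ_c, if_neg (by simp), smul_zero, add_zero, smul_eq_mul, R]
  rw [Frame.div, Fintype.sum_option, Fintype.sum_sum_type, ← Finset.sum_add_distrib,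
    sk1_co_none_ct, map_sub, map_sum]
  simp only [h, h']
  rw [Finset.sum_add_distrib, Finset.sum_const, Finset.card_univ, Fintype.card_fin, add_smul,
    one_smul, Nat.cast_smul_eq_nsmul, R]
  abel

theorem sk1_J_ct (f g : O k p (Kv m)) :
    (fr k p o).J (ct p o κ f g) = -((m : k) + 1) * (fr k p o).J (g * R k p o f) := by
  rw [Frame.J_der, div_ct, smul_mul_assoc, map_smul, smul_eq_mul, mul_comm (R k p o f), neg_mul]

theorem J_br (f g : O k p (Kv m)) :
    (fr k p o).J (br p o κ f g) = -((m : k) + 2) * (fr k p o).J (g * R k p o f) := by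
  rw [br, map_sub, sk1_J_ct, mul_comm (R k p o f)]
  ring

theorem J_mul_br {φ : O k p (Kv m)} (hφ : R k p o φ = 0) (f g : O k p (Kv m)) :
    (fr k p o).J (φ * br p o κ f g) =
      (fr k p o).J ((ct p o κ φ f - ((m : k) + 3) • (φ * R k p o f)) * g) := by
  have h₁ : ct p o κ f φ = -ct p o κ φ f + R k p o f * φ := by
    have h := br_skew o κ f φ
    rw [br, br, hφ, zero_mul, sub_zero] at h
    rw [← h, sub_add_cancel]
  have h₂ : φ * br p o κ f g = ct p o κ f (φ * g) + ct p o κ φ f * g -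
      φ * g * R k p o f - φ * g * R k p o f := by
    rw [br, Derivation.leibniz, h₁, smul_eq_mul, smul_eq_mul]
    ring
  have h₃ : (ct p o κ φ f - ((m : k) + 3) • (φ * R k p o f)) * g =
      ct p o κ φ f * g - ((m : k) + 3) • (φ * g * R k p o f) := by
    rw [sub_mul, smul_mul_assoc, mul_right_comm]
  rw [h₂, h₃, map_sub, map_sub, map_add, map_sub, map_smul, sk1_J_ct, smul_eq_mul]
  ring

variable (p) in
/-- the derived algebra -/
noncomputable def GK : LieSubalgebra k (W k p (Kv m)) where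
  carrier := {D | ∃ f, ((m : k) + 2 = 0 → (fr k p o).J f = 0) ∧ D = ct p o κ f}
  add_mem' := by
    rintro _ _ ⟨f, hf, rfl⟩ ⟨g, hg, rfl⟩
    exact ⟨f + g, fun h => by rw [map_add, hf h, hg h, add_zero], (map_add _ _ _).symm⟩
  zero_mem' := ⟨0, fun _ => map_zero _, (map_zero _).symm⟩
  smul_mem' := by
    rintro a _ ⟨f, hf, rfl⟩
    exact ⟨a • f, fun h => by rw [map_smul, hf h, smul_zero], (map_smul _ _ _).symm⟩
  lie_mem' := by
    rintro _ _ ⟨f, -, rfl⟩ ⟨g, -, rfl⟩
    exact ⟨_, fun h => by rw [J_br, h, neg_zero, zero_mul], lie_ct o κ f g⟩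

theorem mem_GK {D : W k p (Kv m)} : D ∈ GK p o κ ↔
    ∃ f, ((m : k) + 2 = 0 → (fr k p o).J f = 0) ∧ D = ct p o κ f := Iff.rfl

end Km

end Pool.Agent.Cart
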