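import Pool.Agent.P.MP_c9b50d_al.C.SK1

/-! The series K: the derived algebra of the twisted model. -/

namespace Pool.Agent.Cart.Km

open Module

variable {k : Type*} [Field k] {p : ℕ} [Fact p.Prime] [CharP k p] {m : ℕ} (o : Fin m) (κ : k)

namespace sk2

variable (k p) in
/-- the coefficient of the frame -/
noncomputable def L (v : Kv m) : O k p (Kv m) := lg k p {none, some (.inr o)} v

omit [Fact p.Prime] [CharP k p] in
theorem L_none : L k p o none = 1 + x k p none := by simp [L, lg]

omit [Fact p.Prime] [CharP k p] in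
theorem L_inl (i : Fin m) : L k p o (some (.inl i)) = 1 := by simp [L, lg]

omit [Fact p.Prime] [CharP k p] in
theorem L_o : L k p o (some (.inr o)) = 1 + x k p (some (.inr o)) := by simp [L, lg]

omit [Fact p.Prime] [CharP k p] in
theorem L_inr {i : Fin m} (h : i ≠ o) : L k p o (some (.inr i)) = 1 := by simp [L, lg, h]

theorem L_mul (v : Kv m) : L k p o v * L k p o v ^ (p - 1) = 1 := lg_mul_pow _ v

theorem Δ_eq (v : Kv m) : (fr k p o).Δ v = L k p o v • pd k p v := rfl

theorem Δ_x (v w : Kv m) : (fr k p o).Δ v (x k p w) = if w = v then L k p o v else 0 := by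
  rw [Δ_eq, Derivation.smul_apply, pd_x, smul_eq_mul]
  split_ifs <;> simp

theorem Δ_c (v : Kv m) (i : Fin m) :
    (fr k p o).Δ v (c p o κ i) = if some (.inl i) = v then 1 else 0 := by
  have h : (fr k p o).Δ v (if i = o then algebraMap k (O k p (Kv m)) κ else 0) = 0 := by
    split_ifs <;> simp
  rw [c, map_add, h, add_zero, Δ_x]
  split_ifs with h
  · rw [← h, L_inl]
  · rfl

theorem Δ_L {v w : Kv m} (h : w ≠ v) : (fr k p o).Δ v (L k p o w) = 0 := by
  unfold L lg
  split_ifs
  · rw [map_add, Δ_x, if_neg h]; simp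
  · simp

theorem R_t0 : R k p o (L k p o none) = L k p o none := by
  conv_lhs => rw [L_none]
  rw [map_add, R, Δ_x]; simp

theorem D_t1 : (fr k p o).Δ (some (.inr o)) (L k p o (some (.inr o))) =
    L k p o (some (.inr o)) := by
  conv_lhs => rw [L_o]
  rw [map_add, Δ_x]; simp

theorem ct_inj {f g : O k p (Kv m)} (h : ct p o κ f = ct p o κ g) : f = g := by
  rw [← alM_ct o κ f, h, alM_ct]

theorem br_one (g : O k p (Kv m)) : br p o κ 1 g = R k p o g := by
  rw [br, ct_one]; simp

theorem br_c (i : Fin m) (g : O k p (Kv m)) :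
    br p o κ (c p o κ i) g = (fr k p o).Δ (some (.inr i)) g := by
  rw [br, ct_c, R, Δ_c]; simp

theorem br_y (i : Fin m) (g : O k p (Kv m)) : br p o κ (x k p (some (.inr i))) g =
    x k p (some (.inr i)) * R k p o g - L k p o (some (.inr i)) * P k p o i g := by
  have hR : R k p o (x k p (some (.inr i))) = 0 := by rw [R, Δ_x]; simp
  rw [br, ct_apply, hR, zero_mul, sub_zero, Finset.sum_eq_single i]
  · rw [P, Δ_x, Q, Derivation.sub_apply, Derivation.sub_apply, Derivation.smul_apply,
      Derivation.smul_apply, hR, Δ_x]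
    simp [sub_eq_add_neg]
  · intro j _ hj
    rw [P, Δ_x, Q, Derivation.sub_apply, Derivation.sub_apply, Derivation.smul_apply,
      Derivation.smul_apply, hR, Δ_x]
    simp [hj.symm]
  · simp

theorem br_add (f f' g : O k p (Kv m)) :
    br p o κ (f + f') g = br p o κ f g + br p o κ f' g := by
  simp only [br, map_add, Derivation.add_apply]; ring

theorem br_smul (a : k) (f g : O k p (Kv m)) : br p o κ (a • f) g = a • br p o κ f g := by
  simp only [br, map_smul, Derivation.smul_apply, Derivation.map_smul, smul_sub, smul_mul_assoc]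

theorem br_t1 (g : O k p (Kv m)) : br p o κ (L k p o (some (.inr o))) g =
    L k p o (some (.inr o)) * (R k p o g - P k p o o g) := by
  conv_lhs => rw [L_o]
  rw [br_add, br_one, br_y, L_o]; ring

theorem br_xy {i : Fin m} (h : i ≠ o) (g : O k p (Kv m)) :
    br p o κ (x k p (some (.inl i)) * x k p (some (.inr i))) g =
      x k p (some (.inr i)) * pd k p (some (.inr i) : Kv m) g -
        x k p (some (.inl i)) * pd k p (some (.inl i) : Kv m) g := by
  have hR : R k p o (x k p (some (.inl i)) * x k p (some (.inr i))) = 0 := by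
    rw [Derivation.leibniz, R, Δ_x, Δ_x]; simp
  rw [br, ct_xy o κ h, hR]; simp

omit [Fact p.Prime] [CharP k p] in
theorem c_ne {i : Fin m} (h : i ≠ o) : c p o κ i = x k p (some (.inl i)) := by
  rw [c, if_neg h, add_zero]

omit [Fact p.Prime] in
theorem two_ne (hp : 5 ≤ p) : (2 : k) ≠ 0 := fun h => by
  have h2 : ((2 : ℕ) : k) = 0 := by exact_mod_cast h
  have := Nat.le_of_dvd (by norm_num) ((CharP.cast_eq_zero_iff k p 2).1 h2)
  omega

theorem J_c (hp : 5 ≤ p) (i : Fin m) : (fr k p o).J (c p o κ i) = 0 := by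
  have h := (fr k p o).J_Δ (some (.inl i)) (c p o κ i * c p o κ i)
  rw [Derivation.leibniz, Δ_c, if_pos rfl, smul_eq_mul, mul_one, map_add, ← two_mul] at h
  exact (mul_eq_zero.1 h).resolve_left (two_ne hp)

theorem J_of_P {a : O k p (Kv m)} (h : P k p o o a = 0) : (fr k p o).J a = 0 := by
  have h1 := (fr k p o).J_Δ (some (.inl o)) (c p o 0 o * a)
  rw [P] at h
  rwa [Derivation.leibniz, Δ_c, if_pos rfl, h, smul_zero, zero_add, smul_eq_mul, mul_one] at h1

theorem J_one : (fr k p o).J 1 = 0 := J_of_P o (by simp)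

theorem J_y (i : Fin m) : (fr k p o).J (x k p (some (.inr i))) = 0 :=
  J_of_P o (by rw [P, Δ_x]; simp)

theorem J_t1 : (fr k p o).J (L k p o (some (.inr o))) = 0 := by
  rw [← D_t1]; exact Frame.J_Δ _ _ _

theorem J_t0 : (fr k p o).J (L k p o none) = 0 := by
  rw [← R_t0]; exact Frame.J_Δ _ _ _

theorem J_xy {i : Fin m} (h : i ≠ o) :
    (fr k p o).J (x k p (some (.inl i)) * x k p (some (.inr i))) = 0 :=
  J_of_P o (by rw [Derivation.leibniz, P, Δ_x, Δ_x]; simp [h])

theorem ct_mem {f : O k p (Kv m)} (h : (fr k p o).J f = 0) : ct p o κ f ∈ GK p o κ :=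
  ⟨f, fun _ => h, rfl⟩

theorem lie_mem (f g : O k p (Kv m)) : ⁅ct p o κ f, ct p o κ g⁆ ∈ GK p o κ :=
  ⟨_, fun h => by rw [J_br, h, neg_zero, zero_mul], lie_ct o κ f g⟩

variable (p) in
/-- the functions whose fields are sums of brackets -/
noncomputable def S : Submodule k (O k p (Kv m)) :=
  (Submodule.span k {D | ∃ a ∈ GK p o κ, ∃ b ∈ GK p o κ, D = ⁅a, b⁆}).comap (ct p o κ)

theorem br_mem {a b : O k p (Kv m)} (ha : ct p o κ a ∈ GK p o κ) (hb : ct p o κ b ∈ GK p o κ) :
    br p o κ a b ∈ S p o κ :=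
  Submodule.subset_span ⟨_, ha, _, hb, (lie_ct o κ a b).symm⟩

theorem br_mem_eig {h a : O k p (Kv m)} (hh : (fr k p o).J h = 0) (ha : (fr k p o).J a = 0)
    {ε : k} (hε : ε ≠ 0) (e : br p o κ h a = ε • a) (g : O k p (Kv m)) :
    br p o κ a g ∈ S p o κ := by
  have e1 : ε • br p o κ a g =
      br p o κ h (br p o κ a g) - br p o κ a (br p o κ h g) := by
    apply ct_inj o κ
    rw [← br_smul, ← e, map_sub]
    simp only [← lie_ct]
    exact lie_lie _ _ _
  rw [← Submodule.smul_mem_iff _ hε, e1]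
  exact sub_mem (br_mem o κ (ct_mem o κ hh) (lie_ct o κ a g ▸ lie_mem o κ a g))
    (br_mem o κ (ct_mem o κ ha) (lie_ct o κ h g ▸ lie_mem o κ h g))

theorem tor_mem (hp : 5 ≤ p) {v : Kv m} (hv : v ∈ ({none, some (.inr o)} : Finset (Kv m)))
    {a : O k p (Kv m)} (ha : (fr k p o).J a = 0)
    (e : ∀ g, br p o κ a g = (fr k p o).Δ v g) (g : O k p (Kv m)) :
    (fr k p o).Δ v g ∈ S p o κ := by
  have h1 : ppow ((fr k p o).Δ v) = (fr k p o).Δ v := ppow_log _ hv
  obtain ⟨n, hn⟩ : ∃ n, p = n + 1 + 1 := ⟨p - 2, by omega⟩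
  have h2 : (fr k p o).Δ v g =
      (fr k p o).Δ v ((fr k p o).Δ v (((fr k p o).Δ v)^[n] g)) := by
    conv_lhs => rw [← h1, ppow_apply]
    rw [← Function.iterate_succ_apply' ((fr k p o).Δ v),
      ← Function.iterate_succ_apply' ((fr k p o).Δ v)]
    exact congrArg (fun j => ((fr k p o).Δ v)^[j] g) hn
  rw [h2, ← e]
  exact br_mem o κ (ct_mem o κ ha) (ct_mem o κ (Frame.J_Δ _ _ _))

theorem R_mem (hp : 5 ≤ p) (g : O k p (Kv m)) : R k p o g ∈ S p o κ :=
  tor_mem o κ hp (by simp) (J_one o) (br_one o κ) g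

theorem Δ_mem (hp : 5 ≤ p) (v : Kv m) (g : O k p (Kv m)) : (fr k p o).Δ v g ∈ S p o κ := by
  rcases v with _ | i | i
  · exact R_mem o κ hp g
  · by_cases h : i = o
    · subst h
      have h1 := br_mem_eig i κ (J_c i κ hp i) (J_t1 i) one_ne_zero
        (by rw [br_c, D_t1, one_smul]) (L k p i (some (.inr i)) ^ (p - 1) * g)
      have z1 : R k p i (L k p i (some (.inr i)) ^ (p - 1)) = 0 := by
        rw [Derivation.leibniz_pow, R, Δ_L i (by simp)]; simp
      have z2 : P k p i i (L k p i (some (.inr i)) ^ (p - 1)) = 0 := by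
        rw [Derivation.leibniz_pow, P, Δ_L i (by simp)]; simp
      rw [br_t1, Derivation.leibniz, Derivation.leibniz, z1, z2, smul_zero, add_zero, add_zero,
        smul_eq_mul, smul_eq_mul, ← mul_sub, ← mul_assoc, L_mul, one_mul] at h1
      have h2 := sub_mem (R_mem i κ hp g) h1
      rwa [sub_sub_cancel] at h2
    · have h1 := br_mem_eig o κ (J_xy o h) (J_y o i) one_ne_zero
        (by rw [br_xy o κ h, pd_x_self, pd_x_ne (by simp)]; simp) g
      rw [br_y, L_inr o h, one_mul] at h1
      have h2 := R_mem o κ hp (x k p (some (.inr i)) * g)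
      have hR : R k p o (x k p (some (.inr i))) = 0 := by rw [R, Δ_x]; simp
      rw [Derivation.leibniz, hR, smul_zero, add_zero, smul_eq_mul] at h2
      have h3 := sub_mem h2 h1
      rwa [sub_sub_cancel] at h3
  · by_cases h : i = o
    · subst h
      exact tor_mem i κ hp (by simp) (J_c i κ hp i) (br_c i κ i) g
    · have h1 := br_mem_eig o κ (J_xy o h) (J_c o κ hp i) (neg_ne_zero.2 one_ne_zero)
        (by rw [br_xy o κ h, c_ne o κ h, pd_x_self, pd_x_ne (by simp)]; simp) g
      rwa [br_c] at h1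

theorem ker_mem (hp : 5 ≤ p) {f : O k p (Kv m)} (h : (fr k p o).J f = 0) : f ∈ S p o κ := by
  obtain ⟨g, rfl⟩ := (fr k p o).ker_J h
  exact Submodule.sum_mem _ fun v _ => Δ_mem o κ hp v _

theorem t0_ne : L k p o none ≠ 0 := fun h => by
  have := L_mul (k := k) (p := p) o none
  rw [h, zero_mul] at this
  exact zero_ne_one this

theorem all_mem (hp : 5 ≤ p) (hm : (m : k) + 2 ≠ 0) (f : O k p (Kv m)) : f ∈ S p o κ := by
  obtain ⟨g, hg⟩ : ∃ g, (fr k p o).J (L k p o none * g) ≠ 0 := by
    by_contra h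
    push Not at h
    exact t0_ne o ((fr k p o).J_nondeg h)
  have h1 : br p o κ (L k p o none) g ∈ S p o κ :=
    br_mem o κ ⟨_, fun h => absurd h hm, rfl⟩ ⟨_, fun h => absurd h hm, rfl⟩
  have h2 : (fr k p o).J (br p o κ (L k p o none) g) ≠ 0 := by
    rw [J_br, R_t0, mul_comm g]
    exact mul_ne_zero (neg_ne_zero.2 hm) hg
  have h3 := ker_mem o κ hp (f := f - ((fr k p o).J f /
      (fr k p o).J (br p o κ (L k p o none) g)) • br p o κ (L k p o none) g)
    (by rw [map_sub, map_smul, smul_eq_mul, div_mul_cancel₀ _ h2, sub_self])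
  have h4 := add_mem h3 (Submodule.smul_mem _ ((fr k p o).J f /
      (fr k p o).J (br p o κ (L k p o none) g)) h1)
  rwa [sub_add_cancel] at h4

theorem ppow_ct (f : O k p (Kv m)) :
    ppow (ct p o κ f) = ct p o κ (alM p o κ (ppow (ct p o κ f))) :=
  eq_ct o κ (lie_ppow_mul ((alM p o κ).restrictScalars k) _ _ (lie_alM o κ f))

section grading

variable {w : Kv m → ℤ}

theorem Δ_GW (h0 : w none = 0) (h1 : w (some (.inr o)) = 0) (v : Kv m) :
    (fr k p o).Δ v ∈ GW k p w (-w v) :=
  log_mem_GW _ (by simp [h0, h1]) v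

theorem R_GW (h0 : w none = 0) (h1 : w (some (.inr o)) = 0) : R k p o ∈ GW k p w 0 := by
  have := Δ_GW (k := k) (p := p) o h0 h1 none
  rwa [h0, neg_zero] at this

omit [Fact p.Prime] [CharP k p] in
theorem c_G (h2 : w (some (.inl o)) = 0) (i : Fin m) :
    c p o κ i ∈ G k p w (w (some (.inl i))) := by
  refine add_mem (x_mem_G _) ?_
  split_ifs with h
  · rw [h, h2]; exact algebraMap_mem_G κ
  · exact zero_mem _

theorem Q_GW (h0 : w none = 0) (h1 : w (some (.inr o)) = 0) (h2 : w (some (.inl o)) = 0)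
    {i : Fin m} (h3 : -w (some (.inr i)) = w (some (.inl i))) :
    Q p o κ i ∈ GW k p w (w (some (.inl i))) := by
  refine sub_mem (h3 ▸ Δ_GW o h0 h1 _) ?_
  simpa using smul_mem_GW (c_G o κ h2 i) (R_GW o h0 h1)

theorem term_GW (h0 : w none = 0) (h1 : w (some (.inr o)) = 0) (h2 : w (some (.inl o)) = 0)
    {i : Fin m} (h3 : -w (some (.inr i)) = w (some (.inl i))) {j : ℤ} {f : O k p (Kv m)}
    (hf : f ∈ G k p w j) :
    P k p o i f • Q p o κ i - Q p o κ i f • P k p o i ∈ GW k p w j := by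
  have a1 := smul_mem_GW (GW_apply (Δ_GW o h0 h1 (some (.inl i))) hf) (Q_GW o κ h0 h1 h2 h3)
  have a2 := smul_mem_GW (GW_apply (Q_GW o κ h0 h1 h2 h3) hf) (Δ_GW o h0 h1 (some (.inl i)))
  rw [show -w (some (.inl i)) + j + w (some (.inl i)) = j by ring] at a1
  rw [show w (some (.inl i)) + j + -w (some (.inl i)) = j by ring] at a2
  exact sub_mem a1 a2

theorem ct_GW (h0 : w none = 0) (h1 : w (some (.inr o)) = 0) (h2 : w (some (.inl o)) = 0)
    (h3 : ∀ i, -w (some (.inr i)) = w (some (.inl i))) {j : ℤ} {f : O k p (Kv m)}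
    (hf : f ∈ G k p w j) : ct p o κ f ∈ GW k p w j := by
  refine add_mem ?_ (Submodule.sum_mem _ fun i _ => term_GW o κ h0 h1 h2 (h3 i) hf)
  simpa using smul_mem_GW hf (R_GW o h0 h1)

theorem alM_G (h0 : w none = 0) (h1 : w (some (.inr o)) = 0) (h2 : w (some (.inl o)) = 0)
    (h3 : ∀ i, -w (some (.inr i)) = w (some (.inl i))) {j : ℤ} {D : W k p (Kv m)}
    (hD : D ∈ GW k p w j) : alM p o κ D ∈ G k p w j := by
  have hw : ∀ v ∈ ({none, some (.inr o)} : Finset (Kv m)), w v = 0 := by simp [h0, h1]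
  rw [alM, LinearMap.add_apply, LinearMap.sum_apply]
  refine add_mem ?_ (Submodule.sum_mem _ fun i _ => ?_)
  · have := log_co_mem_G _ hw none hD
    rwa [h0, add_zero] at this
  · have := mul_mem_G (c_G o κ h2 i) (log_co_mem_G _ hw (some (.inr i)) hD)
    rw [← h3 i, show -w (some (.inr i)) + (j + w (some (.inr i))) = j by ring] at this
    exact this

theorem J_G (h0 : w none = 0) (h1 : w (some (.inr o)) = 0) {j : ℤ} {f : O k p (Kv m)}
    (hf : f ∈ G k p w j) (hj : j ≠ topw p w) : (fr k p o).J f = 0 := by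
  have hw : ∀ v ∈ ({none, some (.inr o)} : Finset (Kv m)), w v = 0 := by simp [h0, h1]
  have := mul_mem_G (log_u_mem_G (k := k) (p := p) _ hw) hf
  rw [zero_add] at this
  exact I_of_G this hj

end grading

/-- the difference of the degrees in `x_l` and `y_l` -/
def w1 (l : Fin m) (v : Kv m) : ℤ :=
  (if v = some (.inl l) then 1 else 0) - if v = some (.inr l) then 1 else 0

/-- the degree in `x_l` -/
def w2 (l : Fin m) (v : Kv m) : ℤ := if v = some (.inl l) then 1 else 0

theorem wt_w1 (l : Fin m) (a : Kv m → ℕ) :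
    wt (w1 l) a = (a (some (.inl l)) : ℤ) - a (some (.inr l)) := by
  simp only [wt, w1, sub_mul, Finset.sum_sub_distrib, ite_mul, one_mul, zero_mul,
    Finset.sum_ite_eq', Finset.mem_univ, if_true]

theorem wt_w2 (l : Fin m) (a : Kv m → ℕ) : wt (w2 l) a = (a (some (.inl l)) : ℤ) := by
  simp only [wt, w2, ite_mul, one_mul, zero_mul, Finset.sum_ite_eq', Finset.mem_univ, if_true]

theorem w1_neg (l i : Fin m) : -w1 l (some (.inr i)) = w1 l (some (.inl i)) := by
  simp [w1]

omit [Fact p.Prime] in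
theorem poisson_zero (l : Fin m) {a : Kv m → ℕ} (ha : a (some (.inl l)) = a (some (.inr l)))
    {g : O k p (Kv m)} (hg : g ∈ G k p (w1 l) 0) :
    pd k p (some (.inl l) : Kv m) (mn k p a) * pd k p (some (.inr l) : Kv m) g =
      pd k p (some (.inr l) : Kv m) (mn k p a) * pd k p (some (.inl l) : Kv m) g := by
  induction hg using Submodule.span_induction with
  | mem g hg =>
    obtain ⟨b, hb, rfl⟩ := hg
    have hb' : b (some (.inl l)) = b (some (.inr l)) := by
      have : wt (w1 l) b = 0 := hb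
      rw [wt_w1] at this
      omega
    rw [pd_mn, pd_mn, pd_mn, pd_mn, smul_mul_smul_comm, smul_mul_smul_comm, ← mn_add, ← mn_add,
      ← ha, ← hb']
    by_cases h1 : a (some (.inl l)) = 0
    · simp [h1]
    by_cases h2 : b (some (.inl l)) = 0
    · simp [h2]
    congr 2
    funext v
    simp only [Pi.add_apply, Pi.sub_apply, Pi.single_apply]
    split_ifs with e1 e2 e2
    · rw [e1] at e2
    · subst e1; omega
    · subst e2; omega
    · rfl
  | zero => simp
  | add a b _ _ ha hb => rw [map_add, map_add, mul_add, mul_add, ha, hb]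
  | smul a b _ hb => rw [Derivation.map_smul, Derivation.map_smul, mul_smul_comm, mul_smul_comm, hb]

theorem step {l : Fin m} (hl : l ≠ o) {a : Kv m → ℕ}
    (ha : a (some (.inl l)) = a (some (.inr l))) {g : O k p (Kv m)} {j : ℤ}
    (hg : g ∈ G k p (w1 l) 0) (hg' : g ∈ G k p (w2 l) j) :
    ct p o κ (mn k p a) g ∈ G k p (w2 l) (a (some (.inl l)) + j) := by
  have h0 : w2 l none = 0 := by simp [w2]
  have h1 : w2 l (some (.inr o)) = 0 := by simp [w2]
  have h2 : w2 l (some (.inl o)) = 0 := by simp [w2, hl.symm]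
  have hf : mn k p a ∈ G k p (w2 l) (a (some (.inl l))) := wt_w2 l a ▸ mn_mem_G a
  have hR := R_GW (k := k) (p := p) o h0 h1
  rw [ct_apply]
  refine add_mem ?_ (Submodule.sum_mem _ fun i _ => ?_)
  · simpa using mul_mem_G hf (GW_apply hR hg')
  · by_cases h : i = l
    · subst h
      have hz := poisson_zero i ha hg
      have hP := Δ_GW (k := k) (p := p) o h0 h1 (some (.inl i))
      have hc := c_G (p := p) o κ h2 i
      have e : P k p o i (mn k p a) * Q p o κ i g - Q p o κ i (mn k p a) * P k p o i g =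
          c p o κ i * R k p o (mn k p a) * (fr k p o).Δ (some (.inl i)) g -
            (fr k p o).Δ (some (.inl i)) (mn k p a) * (c p o κ i * R k p o g) := by
        simp only [P, Q, Derivation.sub_apply, Derivation.smul_apply, Δ_eq, L_inl, L_inr o hl,
          smul_eq_mul, one_mul]
        linear_combination hz
      rw [e]
      refine sub_mem ?_ ?_
      · convert mul_mem_G (mul_mem_G hc (GW_apply hR hf)) (GW_apply hP hg') using 2
        ring
      · convert mul_mem_G (GW_apply hP hf) (mul_mem_G hc (GW_apply hR hg')) using 2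
        ring
    · have := GW_apply (term_GW o κ h0 h1 h2 (i := i) (by simp [w2, h]) hf) hg'
      simpa using this

theorem J_co (q : O k p (Kv m)) :
    (fr k p o).J ((fr k p o).co none (ct p o κ q)) = ((m : k) + 1) * (fr k p o).J q := by
  have e : (fr k p o).co none (ct p o κ q) = q - ∑ i, c p o κ i * P k p o i q := by
    change (fr k p o).co none
      (q • R k p o + ∑ i, (P k p o i q • Q p o κ i - Q p o κ i q • P k p o i)) = _
    rw [map_add, map_sum, sub_eq_add_neg, ← Finset.sum_neg_distrib]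
    congr 1
    · rw [map_smul, R, Frame.co_Δ]; simp
    · refine Finset.sum_congr rfl fun i _ => ?_
      rw [map_sub, map_smul, map_smul]
      conv_lhs => rw [Q, map_sub, map_smul, R, Frame.co_Δ, Frame.co_Δ]
      rw [P, Frame.co_Δ]
      simp [mul_comm]
  have e2 : ∀ i, (fr k p o).J (c p o κ i * P k p o i q) = -(fr k p o).J q := fun i => by
    have h := (fr k p o).J_Δ (some (.inl i)) (c p o κ i * q)
    rw [Derivation.leibniz, Δ_c, if_pos rfl, smul_eq_mul, smul_eq_mul, mul_one, map_add] at h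
    exact eq_neg_of_add_eq_zero_left h
  rw [e, map_sub, map_sum]
  simp only [e2, Finset.sum_const, Finset.card_univ, Fintype.card_fin, nsmul_eq_mul]
  ring

omit [Fact p.Prime] in
theorem exists_ne (hp : 5 ≤ p) (hm : (m : k) + 2 = 0) : ∃ l : Fin m, l ≠ o := by
  have h2 : ((m + 2 : ℕ) : k) = 0 := by exact_mod_cast hm
  have h3 := Nat.le_of_dvd (by omega) ((CharP.cast_eq_zero_iff k p _).1 h2)
  have : Nontrivial (Fin m) := Fin.nontrivial_iff_two_le.2 (by omega)
  exact _root_.exists_ne o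

theorem ppow_mn (hp : 5 ≤ p) (hm : (m : k) + 2 = 0) (a : Kv m → ℕ) :
    (fr k p o).J (alM p o κ (ppow (ct p o κ (mn k p a)))) = 0 := by
  obtain ⟨l, hl⟩ := exists_ne o hp hm
  have h0 : w1 l none = 0 := by simp [w1]
  have h1 : w1 l (some (.inr o)) = 0 := by simp [w1, hl.symm]
  have h2 : w1 l (some (.inl o)) = 0 := by simp [w1, hl.symm]
  have hct := ct_GW (p := p) o κ h0 h1 h2 (w1_neg l) (mn_mem_G (k := k) (p := p) a)
  rw [wt_w1] at hct
  by_cases ha : a (some (.inl l)) = a (some (.inr l))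
  · rw [ha, sub_self] at hct
    have g0 : w2 l none = 0 := by simp [w2]
    have g1 : w2 l (some (.inr o)) = 0 := by simp [w2]
    have it : ∀ n : ℕ, (ct p o κ (mn k p a))^[n] (x k p none) ∈ G k p (w1 l) 0 ∧
        (ct p o κ (mn k p a))^[n] (x k p none) ∈ G k p (w2 l) (n * a (some (.inl l))) := by
      intro n
      induction n with
      | zero => exact ⟨h0 ▸ x_mem_G none, by simpa [g0] using x_mem_G (w := w2 l) none⟩
      | succ n ih =>
        rw [Function.iterate_succ_apply']
        refine ⟨by simpa using GW_apply hct ih.1, ?_⟩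
        convert step o κ hl ha ih.1 ih.2 using 2
        push_cast
        ring
    have hL : L k p o none ^ (p - 1) ∈ G k p (w2 l) 0 := by
      have : L k p o none ∈ G k p (w2 l) 0 := by
        rw [L_none]; exact add_mem one_mem_G (g0 ▸ x_mem_G none)
      simpa using pow_mem_G this (p - 1)
    have hz : (fr k p o).J ((fr k p o).co none (ppow (ct p o κ (mn k p a)))) = 0 := by
      have e : (fr k p o).co none (ppow (ct p o κ (mn k p a))) =
          L k p o none ^ (p - 1) * (ct p o κ (mn k p a))^[p] (x k p none) := by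
        rw [← ppow_apply]; rfl
      rw [e]
      refine J_G o g0 g1 (mul_mem_G hL (it p).2) ?_
      rw [topw, wt_w2, zero_add]
      intro h
      have h' : p * a (some (.inl l)) = p - 1 := by exact_mod_cast h
      have := Nat.le_of_dvd (by omega) (Dvd.intro _ h')
      omega
    rw [ppow_ct, J_co] at hz
    refine (mul_eq_zero.1 hz).resolve_left fun h => ?_
    have : (1 : k) = 0 := by linear_combination hm - h
    exact one_ne_zero this
  · refine J_G o h0 h1 (alM_G o κ h0 h1 h2 (w1_neg l) (ppow_mem_GW hct)) ?_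
    rw [topw, wt_w1, sub_self]
    refine mul_ne_zero (by omega) (by omega)

variable (p) in
/-- all contact fields -/
noncomputable def GA : LieSubalgebra k (W k p (Kv m)) where
  toSubmodule := LinearMap.range (ct p o κ)
  lie_mem' := by
    rintro _ _ ⟨f, rfl⟩ ⟨g, rfl⟩
    exact ⟨_, (lie_ct o κ f g).symm⟩

end sk2

open sk2

theorem der_der_K (hp : 5 ≤ p) : der (der (Kset p o κ) : Set (W k p (Kv m))) = GK p o κ := by
  refine der_der_eq _ ?_ ?_ ?_
  · rintro _ ⟨f, -, rfl⟩
    exact ⟨_, lie_alM o κ f⟩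
  · intro a ha b hb
    rw [eq_ct o κ ha, eq_ct o κ hb]
    exact sk2.lie_mem o κ _ _
  · rintro _ ⟨f, hf, rfl⟩
    by_cases hm : (m : k) + 2 = 0
    · exact ker_mem o κ hp (hf hm)
    · exact all_mem o κ hp hm f

theorem GK_ppow (hp : 5 ≤ p) : ∀ a ∈ GK p o κ, ppow a ∈ GK p o κ := by
  rintro _ ⟨f, -, rfl⟩
  by_cases hm : (m : k) + 2 = 0
  · refine ppow_mem_of_span (GA p o κ) (GK p o κ).toSubmodule ?_ ?_
      (Set.range fun a => ct p o κ (mn k p a)) ?_ ?_ _ ?_
    · rintro _ ⟨g, -, rfl⟩
      exact ⟨g, rfl⟩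
    · rintro _ ⟨g, rfl⟩ _ ⟨g', rfl⟩
      exact sk2.lie_mem o κ g g'
    · rintro _ ⟨a, rfl⟩
      exact ⟨_, rfl⟩
    · rintro _ ⟨a, rfl⟩
      exact ⟨_, fun _ => ppow_mn o κ hp hm a, ppow_ct o κ _⟩
    · induction f using mn_ind with
      | h0 => rw [map_zero]; exact zero_mem _
      | ha f g hf hg => rw [map_add]; exact add_mem hf hg
      | hs c f hf => rw [map_smul]; exact Submodule.smul_mem _ c hf
      | hm a _ => exact Submodule.subset_span ⟨a, rfl⟩
  · exact ⟨_, fun h => absurd h hm, ppow_ct o κ f⟩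

theorem GK_center (hp : 5 ≤ p) : ∀ a ∈ GK p o κ, (∀ b ∈ GK p o κ, ⁅a, b⁆ = 0) → a = 0 := by
  rintro _ ⟨f, -, rfl⟩ h
  have hb : ∀ b, (fr k p o).J b = 0 → br p o κ b f = 0 := fun b hb => by
    apply ct_inj o κ
    rw [← lie_ct, map_zero, ← lie_skew, h _ (ct_mem o κ hb), neg_zero]
  have hR : R k p o f = 0 := by rw [← br_one o κ]; exact hb _ (J_one o)
  have hc : f = algebraMap k _ (ev k p _ f) := by
    refine (fr k p o).const fun v => ?_
    rcases v with _ | i | i
    · exact hR
    · have h1 := hb _ (J_y o i)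
      rw [br_y, hR, mul_zero, zero_sub, neg_eq_zero] at h1
      have h2 := sk2.L_mul (k := k) (p := p) o (some (.inr i))
      change P k p o i f = 0
      linear_combination L k p o (some (.inr i)) ^ (p - 1) * h1 - P k p o i f * h2
    · rw [← br_c o κ]; exact hb _ (J_c o κ hp i)
  have h1 := hb _ (J_t0 o)
  rw [br_skew, neg_eq_zero, hc, Algebra.algebraMap_eq_smul_one, br_smul, br_one, R_t0] at h1
  have h2 := (smul_eq_zero.1 h1).resolve_right (t0_ne o)
  rw [hc, h2, map_zero, map_zero]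

end Pool.Agent.Cart.Km
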