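import Pool.Agent.P.MP_c9b50d_al.C.FW
import Pool.Agent.P.MP_c9b50d_al.C.Fr

/-! The series W. -/

namespace Pool.Agent.Cart

open Module

section Aux

variable {k : Type*} [Field k] {p : ℕ} [Fact p.Prime] [CharP k p] {σ : Type} [Fintype σ]
  [DecidableEq σ]

omit [Fact p.Prime] [DecidableEq σ] in
theorem sw_diag_apply (c : σ → k) (f : O k p σ) :
    diag k p c f = ∑ i, c i • (x k p i * pd k p i f) := by
  simp only [diag, W_sum_apply, Derivation.smul_apply, smul_eq_mul]

omit [DecidableEq σ] in
/-- an eigenvalue of a toral diagonal derivation lies in the prime field -/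
theorem sw_eig {q : σ → k} (hq : ∀ j, q j ^ p = q j) {f : O k p σ} {t : k}
    (h : diag k p q f = t • f) (ht : t ^ p ≠ t) : f = 0 := by
  have h1 : ∀ n : ℕ, (diag k p q)^[n] f = t ^ n • f := by
    intro n
    induction n with
    | zero => simp
    | succ n ih => rw [Function.iterate_succ_apply', ih, Derivation.map_smul, h, smul_smul, pow_succ]
  have h2 := ppow_apply (diag k p q) f
  rw [ppow_diag hq, h1, h] at h2
  have h3 : (t ^ p - t) • f = 0 := by rw [sub_smul, ← h2, sub_self]
  exact (smul_eq_zero.1 h3).resolve_left (sub_ne_zero.2 ht)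

omit [Fact p.Prime] [CharP k p] [DecidableEq σ] in
theorem sw_anti {M : Type*} [AddCommGroup M] [Module k M] (h2 : (2 : k) ≠ 0) {r : σ → σ}
    (hr : ∀ j, r (r j) = j) {T : σ → M} (h : ∀ j, T (r j) = -T j) : ∑ j, T j = 0 := by
  have h1 : ∑ j, T (r j) = ∑ j, T j := Equiv.sum_comp (Function.Involutive.toPerm r hr) T
  simp only [h, Finset.sum_neg_distrib] at h1
  have h3 : (2 : k) • ∑ j, T j = 0 := by
    rw [two_smul]
    nth_rewrite 1 [← h1]
    exact neg_add_cancel _
  exact (smul_eq_zero.1 h3).resolve_left h2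

variable (k p) in
/-- the one-form -/
noncomputable def swA (r : σ → σ) (a : σ → k) : W k p σ →ₗ[k] O k p σ where
  toFun D := ∑ l, a l • (x k p (r l) * D (x k p l))
  map_add' D E := by
    simp only [Derivation.add_apply, mul_add, smul_add, Finset.sum_add_distrib]
  map_smul' t D := by
    simp only [Derivation.smul_apply, RingHom.id_apply, Finset.smul_sum, mul_smul_comm]
    exact Finset.sum_congr rfl fun l _ => smul_comm _ _ _

omit [Fact p.Prime] [CharP k p] [DecidableEq σ] in
theorem swA_apply (r : σ → σ) (a : σ → k) (D : W k p σ) :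
    swA k p r a D = ∑ l, a l • (x k p (r l) * D (x k p l)) := rfl

omit [Fact p.Prime] in
theorem sw_pd_A {r : σ → σ} (hr : ∀ j, r (r j) = j) (a : σ → k) (D : W k p σ) (j : σ) :
    pd k p j (swA k p r a D) = ∑ l, a l • (x k p (r l) * pd k p j (D (x k p l))) +
      a (r j) • D (x k p (r j)) := by
  have h1 : ∑ l, a l • (D (x k p l) * pd k p j (x k p (r l))) = a (r j) • D (x k p (r j)) := by
    rw [Finset.sum_eq_single (r j)]
    · rw [hr, pd_x_self, mul_one]
    · intro l _ hl
      rw [pd_x_ne fun e => hl (by rw [← e, hr]), mul_zero, smul_zero]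
    · simp
  rw [swA_apply, map_sum, ← h1, ← Finset.sum_add_distrib]
  refine Finset.sum_congr rfl fun l _ => ?_
  rw [Derivation.map_smul, Derivation.leibniz, smul_eq_mul, smul_eq_mul, smul_add]

omit [Fact p.Prime] in
theorem sw_A_lie (r : σ → σ) (a : σ → k) (D : W k p σ) (h : O k p σ) (j : σ) :
    swA k p r a ⁅D, h • pd k p j⁆ = a j • (x k p (r j) * D h) -
      h * ∑ l, a l • (x k p (r l) * pd k p j (D (x k p l))) := by
  have h1 : ∑ l, a l • (x k p (r l) * D (h * pd k p j (x k p l))) = a j • (x k p (r j) * D h) := by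
    rw [Finset.sum_eq_single j]
    · rw [pd_x_self, mul_one]
    · intro l _ hl
      rw [pd_x_ne hl, mul_zero, map_zero, mul_zero, smul_zero]
    · simp
  rw [swA_apply, ← h1, Finset.mul_sum, ← Finset.sum_sub_distrib]
  refine Finset.sum_congr rfl fun l _ => ?_
  rw [Derivation.commutator_apply, Derivation.smul_apply, Derivation.smul_apply, smul_eq_mul,
    smul_eq_mul, mul_sub, smul_sub, mul_smul_comm, mul_left_comm]

/-- the equations of the stabiliser -/
theorem sw_star {r : σ → σ} (hr : ∀ j, r (r j) = j) (a : σ → k) {D : W k p σ}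
    (hD : ∀ E, I k p σ (swA k p r a ⁅D, E⁆) = 0) (j : σ) :
    a j • ((∑ l, pd k p l (D (x k p l))) * x k p (r j)) + pd k p j (swA k p r a D) +
      (a j - a (r j)) • D (x k p (r j)) = 0 := by
  refine I_nondeg fun h => ?_
  have h1 := hD (h • pd k p j)
  have h2 := (stdFrame k p σ).J_der D (h * x k p (r j))
  rw [Frame.J_apply, Frame.J_apply] at h2
  change I k p σ (1 * D (h * x k p (r j))) =
    -I k p σ (1 * ((∑ l, pd k p l (D (x k p l))) * (h * x k p (r j)))) at h2
  rw [sw_A_lie] at h1
  rw [sw_pd_A hr]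
  generalize ∑ l, a l • (x k p (r l) * pd k p j (D (x k p l))) = S at *
  generalize ∑ l, pd k p l (D (x k p l)) = g at *
  rw [Derivation.leibniz, smul_eq_mul, smul_eq_mul, one_mul, one_mul, map_add] at h2
  rw [map_sub, map_smul, smul_eq_mul] at h1
  have e : (a j • (g * x k p (r j)) + (S + a (r j) • D (x k p (r j))) +
      (a j - a (r j)) • D (x k p (r j))) * h =
      a j • (g * (h * x k p (r j))) + h * S + a j • (h * D (x k p (r j))) := by
    simp only [Algebra.smul_def, map_sub]
    ring
  rw [e, map_add, map_add, map_smul, map_smul, smul_eq_mul, smul_eq_mul]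
  linear_combination a j * h2 - h1

omit [Fact p.Prime] [DecidableEq σ] in
theorem sw_H_A {r : σ → σ} {c : σ → k} (hc : ∀ j, c (r j) = -c j) (a : σ → k) (E : W k p σ) :
    swA k p r a ⁅diag k p c, E⁆ = diag k p c (swA k p r a E) := by
  rw [swA_apply, swA_apply, map_sum]
  refine Finset.sum_congr rfl fun l _ => ?_
  rw [Derivation.map_smul, Derivation.leibniz, Derivation.commutator_apply, diag_x, diag_x,
    Derivation.map_smul, hc]
  congr 1
  simp only [Algebra.smul_def, map_neg, Algebra.algebraMap_self, RingHom.id_apply]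
  ring

omit [Fact p.Prime] [DecidableEq σ] in
theorem sw_pd_diag (c : σ → k) (i : σ) (f : O k p σ) :
    pd k p i (diag k p c f) = diag k p c (pd k p i f) + c i • pd k p i f := by
  have h := congrArg (fun D : W k p σ => D f) (lie_diag_pd (k := k) (p := p) c i)
  simp only [Derivation.commutator_apply, Derivation.neg_apply, Derivation.smul_apply] at h
  linear_combination -h

omit [Fact p.Prime] [DecidableEq σ] in
theorem sw_diag_add (q c : σ → k) (μ : k) (f : O k p σ) :
    diag k p (fun j => q j + μ * c j) f = diag k p q f + μ • diag k p c f := by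
  simp only [sw_diag_apply, add_smul, mul_smul, Finset.sum_add_distrib, Finset.smul_sum]

omit [Fact p.Prime] [DecidableEq σ] in
/-- the first consequence of the equations -/
theorem sw_eq1 (h2 : (2 : k) ≠ 0) {r : σ → σ} (hr : ∀ j, r (r j) = j) {c e δ : σ → k}
    (hc : ∀ j, c (r j) = -c j) (hδ : ∀ j, δ (r j) = δ j) (hδe : ∀ j, δ j * e j = 0)
    (hδr : ∀ j, δ j ≠ 0 → r j = j) {u : σ → O k p σ} {f g : O k p σ}
    (hf : f = ∑ l, (δ l - c l * e (r l)) • (x k p (r l) * u l))
    (hs : ∀ j, (δ j - c j * e (r j)) • (g * x k p (r j)) + pd k p j f - c j • u (r j) = 0) :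
    f = diag k p e f + ∑ j, δ j • (x k p j * u j) := by
  have h1 : ∑ j, (c j * e (r j) * e j) • (g * (x k p j * x k p (r j))) = 0 := by
    refine sw_anti h2 hr fun j => ?_
    rw [hr, hc, mul_comm (x k p j), ← neg_smul]
    congr 1
    ring
  have h3 : f = ∑ j, (δ j + c j * e j) • (x k p j * u (r j)) := by
    rw [hf, ← Equiv.sum_comp (Function.Involutive.toPerm r hr)]
    refine Finset.sum_congr rfl fun j _ => ?_
    change (δ (r j) - c (r j) * e (r (r j))) • (x k p (r (r j)) * u (r j)) = _
    rw [hr, hc, hδ, neg_mul, sub_neg_eq_add]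
  have h4 : ∀ j, (δ j + c j * e j) • (x k p j * u (r j)) = e j • (x k p j * pd k p j f) +
      δ j • (x k p j * u j) - (c j * e (r j) * e j) • (g * (x k p j * x k p (r j))) := by
    intro j
    have h5 : δ j • (x k p j * u j) = δ j • (x k p j * u (r j)) := by
      by_cases h : δ j = 0
      · rw [h, zero_smul, zero_smul]
      · rw [hδr j h]
    have h6 := hs j
    have h7 := congrArg (algebraMap k (O k p σ)) (hδe j)
    rw [h5]
    simp only [Algebra.smul_def, map_mul, map_add, map_sub, map_zero] at h6 h7 ⊢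
    linear_combination -(algebraMap k _ (e j) * x k p j) * h6 + g * x k p j * x k p (r j) * h7
  nth_rewrite 1 [h3]
  simp only [h4, Finset.sum_sub_distrib, Finset.sum_add_distrib]
  rw [h1, sub_zero, sw_diag_apply]

omit [Fact p.Prime] in
/-- the second consequence of the equations -/
theorem sw_eq2 (h2 : (2 : k) ≠ 0) {r : σ → σ} (hr : ∀ j, r (r j) = j) {c e δ : σ → k}
    (hc : ∀ j, c (r j) = -c j) (hδ : ∀ j, δ (r j) = δ j) (hδe : ∀ j, δ j * e j = 0)
    (hδc : ∀ j, (c j)⁻¹ * c j = 1 - δ j) (hδc' : ∀ j, (c j)⁻¹ * δ j = 0)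
    {u : σ → O k p σ} {f g : O k p σ} (hg : g = ∑ l, pd k p l (u l))
    (hs : ∀ j, (δ j - c j * e (r j)) • (g * x k p (r j)) + pd k p j f - c j • u (r j) = 0) :
    g + (∑ j, e j) • g + diag k p e g = ∑ j, δ j • pd k p j (u j) := by
  have h1 : ∑ j, (c j)⁻¹ • pd k p j (pd k p (r j) f) = 0 := by
    refine sw_anti h2 hr fun j => ?_
    rw [hr, hc, pd_pd, inv_neg, neg_smul]
  have h4 : ∀ j, pd k p j (u j) + e j • g + e j • (x k p j * pd k p j g) =
      δ j • pd k p j (u j) - (c j)⁻¹ • pd k p j (pd k p (r j) f) := by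
    intro j
    have h6 := congrArg (pd k p j) (hs (r j))
    rw [hr, hc, hδ, map_sub, map_add, Derivation.map_smul, Derivation.map_smul,
      Derivation.leibniz, pd_x_self, map_zero] at h6
    have h7 := congrArg (algebraMap k (O k p σ)) (hδe j)
    have h8 := congrArg (algebraMap k (O k p σ)) (hδc j)
    have h9 := congrArg (algebraMap k (O k p σ)) (hδc' j)
    simp only [Algebra.smul_def, map_mul, map_sub, map_zero, map_one, map_neg,
      Algebra.algebraMap_self, RingHom.id_apply] at h6 h7 h8 h9 ⊢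
    linear_combination algebraMap k _ (c j)⁻¹ * h6 -
      (pd k p j (u j) + algebraMap k _ (e j) * (g + x k p j * pd k p j g)) * h8 -
      (g + x k p j * pd k p j g) * h9 + (g + x k p j * pd k p j g) * h7
  have h5 := Finset.sum_congr (rfl : (Finset.univ : Finset σ) = _) fun j _ => h4 j
  rw [Finset.sum_sub_distrib, h1, sub_zero, Finset.sum_add_distrib, Finset.sum_add_distrib,
    ← hg, ← Finset.sum_smul, ← sw_diag_apply] at h5
  exact h5

omit [Fact p.Prime] in
/-- the component at the fixed point -/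
theorem sw_fix {e : σ → k} {v : σ} (he : e v = 0) {m : k} {u f g : O k p σ}
    (h1 : f = diag k p e f + x k p v * u) (h2 : g + m • g + diag k p e g = pd k p v u)
    (h3 : g * x k p v + pd k p v f = 0) : u = (2 + m) • pd k p v f := by
  have h4 := congrArg (pd k p v) h1
  have h5 := congrArg (diag k p e) h3
  rw [map_add, sw_pd_diag, he, zero_smul, Derivation.leibniz, pd_x_self] at h4
  rw [map_add, Derivation.leibniz, diag_x, he, zero_smul, map_zero] at h5
  simp only [Algebra.smul_def, map_add, map_ofNat, Algebra.algebraMap_self,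
    RingHom.id_apply] at *
  linear_combination -h4 - h5 + x k p v * h2 - (1 + algebraMap k _ m) * h3

/-- the prime field -/
theorem sw_not_fixed {μ γ s t : k} (hμ : μ ^ p ≠ μ) (hγ : γ ^ p = γ) (h0 : γ ≠ 0)
    (hs : s ^ p = s) (ht : t = s - μ * γ) : t ^ p ≠ t := by
  intro h
  rw [ht, sub_pow_char, mul_pow, hs, hγ, sub_right_inj] at h
  exact hμ (mul_right_cancel₀ h0 h)

/-- the stabiliser commutes with the toral element -/
theorem sw_S1 (h2 : (2 : k) ≠ 0) {r : σ → σ} (hr : ∀ j, r (r j) = j) {c : σ → k}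
    (hc : ∀ j, c (r j) = -c j) (hcp : ∀ j, c j ^ p = c j) (hc0 : ∀ j, r j ≠ j → c j ≠ 0)
    (hfix : ∀ i j, r i = i → r j = j → i = j) {μ : k} (hμ : μ ^ p ≠ μ) {a : σ → k}
    (ha : ∀ j, a j = (if r j = j then 1 else 0) -
      c j * ((if r j = j then 0 else 2⁻¹) - μ * c j)) {γ : k} (hγ : γ ≠ 0) {D : W k p σ}
    (hH : ⁅diag k p c, D⁆ = γ • D) (hD : ∀ E, I k p σ (swA k p r a ⁅D, E⁆) = 0) : D = 0 := by
  have hcv : ∀ j, r j = j → c j = 0 := fun j h => by
    have h1 := hc j
    rw [h] at h1
    exact (mul_eq_zero.1 (by linear_combination h1 : 2 * c j = 0)).resolve_left h2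
  have hrr : ∀ j, r (r j) = r j ↔ r j = j := fun j => by rw [hr, eq_comm]
  have hcs : ∑ j, c j = 0 := sw_anti h2 hr hc
  have hu : ∀ j, diag k p c (D (x k p j)) = (γ + c j) • D (x k p j) := fun j => by
    have h := congrArg (fun E : W k p σ => E (x k p j)) hH
    simp only [Derivation.commutator_apply, Derivation.smul_apply, diag_x,
      Derivation.map_smul] at h
    rw [add_smul, ← h, sub_add_cancel]
  refine W_ext fun j => ?_
  rw [Derivation.zero_apply]
  by_cases hγp : γ ^ p = γ
  swap
  · refine sw_eig hcp (hu j) fun h => hγp ?_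
    rwa [add_pow_char, hcp, add_left_inj] at h
  set δ : σ → k := fun j => if r j = j then 1 else 0 with hδ
  set q : σ → k := fun j => if r j = j then 0 else 2⁻¹ with hq
  set e : σ → k := fun j => q j + μ * c j with he
  have h2p : (2 : k) ^ p = 2 := by
    have h := map_natCast (frobenius k p) 2
    rwa [frobenius_def, Nat.cast_ofNat] at h
  have hqp : ∀ j, q j ^ p = q j := fun j => by
    simp only [hq]
    split_ifs
    · exact zero_pow (Fact.out : p.Prime).ne_zero
    · rw [inv_pow, h2p]
  have hδp : ∀ j, δ j ^ p = δ j := fun j => by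
    simp only [hδ]
    split_ifs
    · exact one_pow _
    · exact zero_pow (Fact.out : p.Prime).ne_zero
  have hδr : ∀ j, δ (r j) = δ j := fun j => by simp only [hδ, hrr]
  have hae : ∀ j, a j = δ j - c j * e (r j) := fun j => by
    simp only [ha, hδ, he, hq, hrr, hc]
    ring
  have hδe : ∀ j, δ j * e j = 0 := fun j => by
    simp only [hδ, he, hq]
    split_ifs with h
    · rw [hcv j h, mul_zero, add_zero, mul_zero]
    · exact zero_mul _
  have hδ0 : ∀ j, δ j ≠ 0 → r j = j := fun j h => by
    by_contra h'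
    exact h (if_neg h')
  have hδc : ∀ j, (c j)⁻¹ * c j = 1 - δ j := fun j => by
    simp only [hδ]
    split_ifs with h
    · rw [hcv j h, mul_zero, sub_self]
    · rw [inv_mul_cancel₀ (hc0 j h), sub_zero]
  have hδc' : ∀ j, (c j)⁻¹ * δ j = 0 := fun j => by
    simp only [hδ]
    split_ifs with h
    · rw [hcv j h, inv_zero, zero_mul]
    · exact mul_zero _
  have haa : ∀ j, a j - a (r j) = -c j := fun j => by
    simp only [ha, hrr, hc]
    split_ifs with h
    · rw [hcv j h]
      ring
    · linear_combination (-c j) * mul_inv_cancel₀ h2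
  have hm : ∑ j, e j = ∑ j, q j := by
    simp only [he, Finset.sum_add_distrib, ← Finset.mul_sum, hcs, mul_zero, add_zero]
  have hmp : (∑ j, q j) ^ p = ∑ j, q j := by simp only [sum_pow_char, hqp]
  set f := swA k p r a D with hf
  set g := ∑ l, pd k p l (D (x k p l)) with hg
  have hs : ∀ j, (δ j - c j * e (r j)) • (g * x k p (r j)) + pd k p j f -
      c j • D (x k p (r j)) = 0 := fun j => by
    have h := sw_star hr a hD j
    rwa [haa, neg_smul, ← sub_eq_add_neg, hae] at h
  have hHf : diag k p c f = γ • f := by rw [hf, ← sw_H_A hc, hH, map_smul]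
  have hHg : diag k p c g = γ • g := by
    rw [hg, map_sum, Finset.smul_sum]
    refine Finset.sum_congr rfl fun l _ => ?_
    have h := sw_pd_diag c l (D (x k p l))
    rw [hu, Derivation.map_smul, add_smul] at h
    exact (add_right_cancel h).symm
  have e1 := sw_eq1 h2 hr hc hδr hδe hδ0 (u := fun j => D (x k p j)) (f := f)
    (by simp only [hf, swA_apply, hae]) hs
  have e2 := sw_eq2 h2 hr hc hδr hδe hδc hδc' (u := fun j => D (x k p j)) hg hs
  rw [hm] at e2
  have hone : ∀ (v : σ) (T : σ → O k p σ), r v = v → ∑ j, δ j • T j = T v := fun v T hv => by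
    rw [Finset.sum_eq_single v]
    · simp only [hδ, if_pos hv, one_smul]
    · intro j _ hj
      simp only [hδ, if_neg fun h => hj (hfix j v h hv), zero_smul]
    · simp
  have hv : ∀ v, r v = v → D (x k p v) = (2 + ∑ j, q j) • pd k p v f := fun v hv => by
    refine sw_fix (e := e) (g := g) ?_ ?_ ?_ ?_
    · simp only [he, hq, if_pos hv, hcv v hv, mul_zero, add_zero]
    · rw [← hone v (fun j => x k p j * D (x k p j)) hv]
      exact e1
    · rw [← hone v (fun j => pd k p j (D (x k p j))) hv]
      exact e2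
    · have h := hs v
      simp only [hδ, if_pos hv, hcv v hv, hv, zero_mul, sub_zero, one_smul, zero_smul] at h
      exact h
  have hf0 : f = 0 := by
    refine sw_eig (q := fun j => q j + (2 + ∑ j, q j) * δ j) (t := 1 - μ * γ) (fun j => ?_) ?_
      (sw_not_fixed hμ hγp hγ (one_pow _) rfl)
    · rw [add_pow_char, mul_pow, add_pow_char, hqp, h2p, hmp, hδp]
    · have h3 : ∑ j, δ j • (x k p j * D (x k p j)) = (2 + ∑ j, q j) • diag k p δ f := by
        rw [sw_diag_apply, Finset.smul_sum]
        refine Finset.sum_congr rfl fun j _ => ?_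
        by_cases h : δ j = 0
        · rw [h, zero_smul, zero_smul, smul_zero]
        · rw [hv j (hδ0 j h), mul_smul_comm, smul_comm]
      rw [h3, he, sw_diag_add, hHf] at e1
      rw [sw_diag_add, sub_smul, one_smul, mul_smul, eq_sub_iff_add_eq]
      linear_combination -e1
  have hv0 : ∀ v, r v = v → D (x k p v) = 0 := fun v h => by
    rw [hv v h, hf0, map_zero, smul_zero]
  have hg0 : g = 0 := by
    refine sw_eig hqp (t := -(1 + ∑ j, q j) - μ * γ) ?_ (sw_not_fixed hμ hγp hγ ?_ rfl)
    · have h3 : ∑ j, δ j • pd k p j (D (x k p j)) = 0 := Finset.sum_eq_zero fun j _ => by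
        by_cases h : δ j = 0
        · rw [h, zero_smul]
        · rw [hv0 j (hδ0 j h), map_zero, smul_zero]
      rw [h3, he, sw_diag_add, hHg] at e2
      rw [sub_smul, neg_smul, add_smul, one_smul, mul_smul]
      linear_combination e2
    · rw [neg_pow, neg_one_pow_char, add_pow_char, one_pow, hmp, neg_one_mul]
  by_cases h : r j = j
  · exact hv0 j h
  · have h3 := hs (r j)
    rw [hg0, hf0, zero_mul, smul_zero, map_zero, zero_add, zero_sub, neg_eq_zero, hr] at h3
    exact (smul_eq_zero.1 h3).resolve_left (hc0 _ fun h' => h ((hrr j).1 h'))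

omit [Fact p.Prime] in
theorem sw_der (h2 : (2 : k) ≠ 0) :
    der (der (Set.univ : Set (W k p σ)) : Set (W k p σ)) = ⊤ := by
  refine der_der_eq ⊤ (Set.subset_univ _) (fun _ _ _ _ => LieSubalgebra.mem_top _) fun D _ => ?_
  rw [W_exp D]
  refine Submodule.sum_mem _ fun i _ => ?_
  generalize D (x k p i) = f
  have e : f • pd k p i = (2 : k)⁻¹ • (⁅pd k p i, (x k p i * f) • pd k p i⁆ -
      ⁅x k p i • pd k p i, f • pd k p i⁆) := by
    rw [eq_inv_smul_iff₀ h2, lie_smul_W, lie_smul_W, smul_lie_W, pd_comm, pd_x_self,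
      Derivation.leibniz, pd_x_self, Derivation.smul_apply, two_smul]
    simp only [smul_zero, add_zero, one_smul, zero_sub, smul_neg, add_smul, smul_eq_mul, mul_one]
    abel
  rw [e]
  exact Submodule.smul_mem _ _ (sub_mem
    (Submodule.subset_span ⟨_, LieSubalgebra.mem_top _, _, LieSubalgebra.mem_top _, rfl⟩)
    (Submodule.subset_span ⟨_, LieSubalgebra.mem_top _, _, LieSubalgebra.mem_top _, rfl⟩))

omit [Fact p.Prime] [Fintype σ] in
theorem sw_center {D : W k p σ} (h : ∀ E : W k p σ, ⁅D, E⁆ = 0) : D = 0 := by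
  refine W_ext fun j => ?_
  have h1 := congrArg (fun E : W k p σ => E (x k p j)) (h (pd k p j))
  have h2 := congrArg (fun E : W k p σ => E (x k p j)) (h (x k p j • pd k p j))
  simp only [Derivation.commutator_apply, Derivation.smul_apply, pd_x_self, smul_eq_mul, mul_one,
    Derivation.map_one_eq_zero, zero_sub, Derivation.zero_apply, neg_eq_zero] at h1 h2
  rw [h1, mul_zero, sub_zero] at h2
  exact h2

theorem sw_uniq {c : σ → k} {a : σ} (ha : ∀ j, j ≠ a → c j ≠ 1) {f : O k p σ}
    (hf : f ∈ F k p (fun _ : σ => 1) 1) (hH : diag k p c f = f) :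
    ∃ t : k, f - t • x k p a ∈ F k p (fun _ : σ => 1) (1 + 1) := by
  have hw : ∀ _ : σ, (0 : ℤ) ≤ 1 := fun _ => zero_le_one
  refine ⟨ev k p σ (pd k p a f), ?_⟩
  set f' := f - ev k p σ (pd k p a f) • x k p a with hf'
  have h0 : ev k p σ f' = 0 := by
    rw [hf', map_sub, map_smul, ev_x, ev_of_F hf one_pos, smul_zero, sub_zero]
  have h1 : ∀ l, ev k p σ (pd k p l f') = 0 := fun l => by
    rw [hf', map_sub, Derivation.map_smul, map_sub, map_smul]
    by_cases h : l = a
    · rw [h, pd_x_self, map_one, smul_eq_mul, mul_one, sub_self]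
    · have h3 := congrArg (ev k p σ) (sw_pd_diag c l f)
      rw [hH, map_add, map_smul, sw_diag_apply, map_sum] at h3
      simp only [map_smul, map_mul, ev_x, zero_mul, mul_zero, Finset.sum_const_zero, zero_add,
        smul_eq_mul] at h3
      rw [pd_x_ne (Ne.symm h), map_zero, smul_zero, sub_zero]
      exact (mul_eq_zero.1 (by linear_combination -h3 :
        (c l - 1) * ev k p σ (pd k p l f) = 0)).resolve_left (sub_ne_zero.2 (ha l h))
  have h4 := mem_F_of_pd (w := fun _ : σ => 1) (j := 1 + 1) (f := f') fun l => by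
    have h5 := mem_F_of_pd (w := fun _ : σ => 1) (j := 1) (f := pd k p l f') fun l' =>
      mem_F_of_nonpos hw (by simp) _
    rw [h1, map_zero, sub_zero] at h5
    rwa [add_sub_cancel_right]
  rwa [h0, map_zero, sub_zero] at h4

theorem sw_main [IsAlgClosed k] (hp : 5 ≤ p) (h2 : (2 : k) ≠ 0) (hn : 2 ≤ Fintype.card σ)
    {r : σ → σ} (hr : ∀ j, r (r j) = j) {c : σ → k}
    (hc : ∀ j, c (r j) = -c j) (hcp : ∀ j, c j ^ p = c j) (hc0 : ∀ j, r j ≠ j → c j ≠ 0)
    (hfix : ∀ i j, r i = i → r j = j → i = j) {v : σ} (hv : c v = 1)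
    (hv' : ∀ j, j ≠ v → c j ≠ 1) : Fails k p (pw (⊤ : LieSubalgebra k (W k p σ))) := by
  obtain ⟨μ, hμ⟩ := exists_not_fixed (k := k) (p := p)
  have hw : ∀ _ : σ, (0 : ℤ) ≤ 1 := fun _ => zero_le_one
  set w : σ → ℤ := fun _ => 1 with hw'
  set a : σ → k := fun j => (if r j = j then 1 else 0) -
    c j * ((if r j = j then 0 else 2⁻¹) - μ * c j) with ha
  have hN : topw p w = Fintype.card σ * (p - 1) := by
    rw [topw_eq (by omega)]
    simp [hw']
  have hN' : 2 * ((p : ℤ) - 1) ≤ topw p w := by
    rw [hN]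
    exact mul_le_mul_of_nonneg_right (by exact_mod_cast hn) (by omega)
  have h2p : (2 : k) ^ p = 2 := by
    have h := map_natCast (frobenius k p) 2
    rwa [frobenius_def, Nat.cast_ofNat] at h
  have ha0 : ∀ j, a j ≠ 0 := fun j => by
    simp only [ha]
    split_ifs with h
    · have h1 := hc j
      rw [h] at h1
      rw [(mul_eq_zero.1 (by linear_combination h1 : 2 * c j = 0)).resolve_left h2, zero_mul,
        sub_zero]
      exact one_ne_zero
    · rw [zero_sub, neg_ne_zero]
      refine mul_ne_zero (hc0 j h) fun h0 => sw_not_fixed hμ (hcp j) (hc0 j h)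
        (by rw [inv_pow, h2p]) h0.symm (zero_pow (by omega))
  have hGW : ∀ j, ∀ D ∈ GW k p w j, swA k p r a D ∈ G k p w (j + 2) := fun j D hD =>
    Submodule.sum_mem _ fun l _ => Submodule.smul_mem _ _ (by
      have h := mul_mem_G (x_mem_G (k := k) (p := p) (w := w) (r l)) (hD l)
      rwa [show w (r l) + (j + w l) = j + 2 by simp only [hw']; ring] at h)
  have hFW : ∀ j, ∀ D ∈ FW k p w j, swA k p r a D ∈ F k p w (j + 2) := fun j D hD =>
    Submodule.sum_mem _ fun l _ => Submodule.smul_mem _ _ (by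
      have h := mul_mem_F (G_le_F le_rfl (x_mem_G (k := k) (p := p) (w := w) (r l))) (hD l)
      rwa [show w (r l) + (j + w l) = j + 2 by simp only [hw']; ring] at h)
  refine fails_graded (by omega) w hw (topw p w - 2) (by omega) (by nlinarith) ⊤
    (fun _ _ => LieSubalgebra.mem_top _)
    (fun D _ h => sw_center fun E => h E (LieSubalgebra.mem_top _))
    (fun D _ => by simp [iSup_GW]) (I k p σ ∘ₗ swA k p r a)
    (fun j hj D hD => I_of_G (hGW j D hD) (by omega))
    (fun D hD => I_of_F (hFW _ D hD) (by omega)) (diag k p c) (LieSubalgebra.mem_top _)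
    (diag_mem_GW c w) (ppow_diag hcp) (fun D _ => ?_)
    (fun γ hγ D _ hH hD => sw_S1 h2 hr hc hcp hc0 hfix hμ (a := a) (fun _ => rfl) hγ hH
      fun E => hD E (LieSubalgebra.mem_top _))
    (fun j hj D _ hD hst => ?_) (fun D _ hD hst => ?_) (x k p v) 1 (x_mem_G v) (fun h => ?_)
    (by rw [diag_x, hv, one_smul]) fun f hf hH => sw_uniq hv' hf hH
  · rw [LinearMap.comp_apply, sw_H_A hc, I_diag, sw_anti h2 hr hc, neg_zero, zero_mul]
  · have h0 : ∀ i l, pd k p i (D (x k p l)) = 0 := fun i l =>
      eq_zero_of_G_neg hw (by simp only [hw']; omega) (GW_apply (pd_mem_GW i) (hD l))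
    refine W_ext fun l => ?_
    have h := sw_star hr a (fun E => hst E (LieSubalgebra.mem_top _)) (r l)
    simp only [sw_pd_A hr, h0, Finset.sum_const_zero, zero_mul, mul_zero, smul_zero, zero_add,
      hr, ← add_smul, add_sub_cancel] at h
    exact (smul_eq_zero.1 h).resolve_left (ha0 _)
  · have h0 : ∀ i l, x k p i * D (x k p l) = 0 := fun i l =>
      eq_zero_of_F_top hw (by simp only [hw']; omega)
        (mul_mem_F (G_le_F le_rfl (x_mem_G i)) (hD l))
    refine W_ext fun l => ?_
    have h := sw_star hr a (fun E => hst E (LieSubalgebra.mem_top _)) (r l)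
    have h1 : (∑ i, pd k p i (D (x k p i))) * x k p l = -D (x k p l) := by
      rw [Finset.sum_mul, Finset.sum_eq_single l]
      · have h3 := congrArg (pd k p l) (h0 l l)
        rw [Derivation.leibniz, pd_x_self, map_zero, smul_eq_mul, smul_eq_mul] at h3
        linear_combination h3
      · intro i _ hi
        have h3 := congrArg (pd k p i) (h0 l i)
        rw [Derivation.leibniz, pd_x_ne (Ne.symm hi), map_zero, smul_eq_mul, smul_eq_mul] at h3
        linear_combination h3
      · simp
    simp only [swA_apply, h0, smul_zero, Finset.sum_const_zero, map_zero, add_zero, hr, h1,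
      smul_neg, sub_smul, neg_add_eq_zero] at h
    rw [Derivation.zero_apply]
    refine (smul_eq_zero.1 ?_).resolve_left (ha0 l)
    linear_combination h
  · have h1 := pd_x_self (k := k) (p := p) v
    rw [h, map_zero] at h1
    exact zero_ne_one h1

end Aux

variable {k : Type*} [Field k] [IsAlgClosed k] {p : ℕ} [Fact p.Prime] [CharP k p]

theorem fails_tW (hp : 5 ≤ p) {n : ℕ} (hn : 2 ≤ n) :
    Fails k p (pw (der (der (Set.univ : Set (W k p (Fin n))) : Set (W k p (Fin n))))) := by
  have hz : ∀ z : ℤ, -5 < z → z < 5 → (z : k) = 0 → z = 0 := fun z h1 h2 h =>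
    Int.eq_zero_of_abs_lt_dvd ((CharP.intCast_eq_zero_iff k p z).1 h) (by
      rw [abs_lt]
      omega)
  have h2 : (2 : k) ≠ 0 := fun h => absurd (hz 2 (by omega) (by omega) (by exact_mod_cast h))
    (by omega)
  let ci : Fin n → ℤ := fun j => if j.val = 0 then 1 else if j.val + 1 = n then -1 else
    if 2 * j.val + 1 < n then 2 else if n < 2 * j.val + 1 then -2 else 0
  rw [sw_der h2]
  refine sw_main hp h2 (by simpa using hn) (r := Fin.rev) Fin.rev_rev (c := fun j => (ci j : k))
    (fun j => ?_) (fun j => map_intCast (frobenius k p) _) (fun j hj h => hj ?_)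
    (fun i j hi hj => ?_) (v := ⟨0, by omega⟩) (by simp [ci]) fun j hj h => hj ?_
  · rw [← Int.cast_neg]
    congr 1
    have := j.2
    simp only [ci, Fin.val_rev]
    split_ifs <;> omega
  · have h3 := hz (ci j) (by simp only [ci]; split_ifs <;> omega)
      (by simp only [ci]; split_ifs <;> omega) h
    have := j.2
    simp only [ci] at h3
    rw [Fin.ext_iff, Fin.val_rev]
    split_ifs at h3 <;> omega
  · have := i.2
    have := j.2
    rw [Fin.ext_iff, Fin.val_rev] at hi hj
    rw [Fin.ext_iff]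
    omega
  · have h3 := hz (ci j - 1) (by simp only [ci]; split_ifs <;> omega)
      (by simp only [ci]; split_ifs <;> omega) (by rw [Int.cast_sub, h, Int.cast_one, sub_self])
    simp only [ci] at h3
    rw [Fin.ext_iff]
    split_ifs at h3 <;> first | assumption | omega

end Pool.Agent.Cart
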