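import Pool.Agent.P.MP_c9b50d_al.C.Pk

/-! Independence at the special point, semicontinuity, the commutant. -/

namespace Pool.Agent.Cart

open Module Matrix

attribute [local instance 100] LieRing.ofAssociativeRing

theorem spec1_weyl_pow {A : Type*} [Ring A] {x y : A} (h : x * y - y * x = 1) (n : ℕ) :
    x * y ^ n = y ^ n * x + n • y ^ (n - 1) := by
  induction n with
  | zero => simp
  | succ n ih =>
    have h' : x * y = y * x + 1 := by rw [← h]; abel
    rw [pow_succ, ← mul_assoc, ih, add_mul, mul_assoc, h', mul_add, mul_one, ← mul_assoc,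
      Nat.add_sub_cancel, succ_nsmul, smul_mul_assoc]
    have e : n • (y ^ (n - 1) * y) = n • y ^ n := by
      cases n with
      | zero => simp
      | succ n => rw [Nat.add_sub_cancel, ← pow_succ]
    rw [e]
    abel

theorem spec1_weyl_mon {A Y : Type*} [Ring A] [DecidableEq Y] {X Z : Y → A}
    (h : ∀ i j, X i * Z j - Z j * X i = if i = j then 1 else 0) (i : Y) (a : Y → ℕ)
    {l : List Y} (hl : l.Nodup) :
    X i * mon Z l a = mon Z l a * X i +
      if i ∈ l then a i • mon Z l (fun j => a j - if j = i then 1 else 0) else 0 := by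
  induction l with
  | nil => simp [mon_nil]
  | cons j l ih =>
    rw [List.nodup_cons] at hl
    have ih' := ih hl.2
    rw [mon_cons, mon_cons]
    by_cases hij : i = j
    · subst hij
      have h1 := h i i
      rw [if_pos rfl] at h1
      rw [if_neg hl.1, add_zero] at ih'
      rw [if_pos List.mem_cons_self, if_pos rfl, ← mul_assoc, spec1_weyl_pow h1, add_mul,
        mul_assoc, ih', ← mul_assoc, smul_mul_assoc,
        mon_congr (r := fun j => a j - if j = i then 1 else 0) (r' := a) fun j hj => by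
          rw [if_neg fun e : j = i => hl.1 (e ▸ hj), Nat.sub_zero]]
    · have h1 := h i j
      rw [if_neg hij, sub_eq_zero] at h1
      have h2 : Commute (X i) (Z j ^ a j) := Commute.pow_right h1 _
      rw [← mul_assoc, h2.eq, mul_assoc, ih', mul_add, ← mul_assoc, if_neg (Ne.symm hij),
        Nat.sub_zero]
      by_cases hi : i ∈ l
      · rw [if_pos hi, if_pos (List.mem_cons_of_mem _ hi), mul_smul_comm]
      · rw [if_neg hi, if_neg (by simp [hij, hi]), mul_zero]

variable {k : Type*} [Field k] {p : ℕ} [Fact p.Prime] [CharP k p]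

omit [Fact p.Prime] [CharP k p] in
theorem spec1_wd_mon {Y N : Type} [Fintype Y] [DecidableEq Y] [Fintype N] [DecidableEq N]
    {Xm Ym : Y → Matrix N N k} {v : N → k}
    (hXY : ∀ i j, Xm i * Ym j - Ym j * Xm i = if i = j then 1 else 0)
    (hXv : ∀ i, Xm i *ᵥ v = 0) {l : List Y} (hl : l.Nodup) (hl' : ∀ j, j ∈ l) (a : Y → ℕ)
    (w : List Y) :
    wd Xm w *ᵥ (mon Ym l a *ᵥ v) = (∏ j, (a j).descFactorial (w.count j)) •
      (mon Ym l (fun j => a j - w.count j) *ᵥ v) := by
  induction w with
  | nil => simp [wd_nil]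
  | cons i w ih =>
    rw [wd_cons, ← mulVec_mulVec, ih, mulVec_smul, mulVec_mulVec, spec1_weyl_mon hXY i _ hl,
      if_pos (hl' i), add_mulVec, ← mulVec_mulVec, hXv, mulVec_zero, zero_add, smul_mulVec,
      smul_smul]
    congr 1
    · rw [← Finset.mul_prod_erase _ _ (Finset.mem_univ i),
        ← Finset.mul_prod_erase _ _ (Finset.mem_univ i), List.count_cons_self,
        Nat.descFactorial_succ, mul_comm, mul_assoc]
      congr 2
      refine Finset.prod_congr rfl fun j hj => ?_
      rw [List.count_cons_of_ne (Finset.ne_of_mem_erase hj).symm]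
    · congr 2
      funext j
      by_cases hj : j = i
      · subst hj
        rw [if_pos rfl, List.count_cons_self, Nat.sub_sub]
      · rw [if_neg hj, List.count_cons_of_ne (Ne.symm hj), Nat.sub_zero]

/-- Weyl relations give independence. -/
theorem ind0 {Y N T : Type} [Fintype Y] [DecidableEq Y] [Fintype N] [DecidableEq N] [Fintype T]
    (Xm Ym : Y → Matrix N N k) (Mn : T → Matrix N N k) (v : N → k)
    (hXY : ∀ i j, Xm i * Ym j - Ym j * Xm i = if i = j then 1 else 0)
    (hXv : ∀ i, Xm i *ᵥ v = 0) (hM : LinearIndependent k fun t => Mn t *ᵥ v)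
    {l : List Y} (hl : l.Nodup) (hl' : ∀ j, j ∈ l) :
    LinearIndependent k fun q : T × (Y → Fin p) => Mn q.1 * mon Xm l (fun j => q.2 j) := by
  classical
  have key : ∀ e a : Y → ℕ, mon Xm l e *ᵥ (mon Ym l a *ᵥ v) =
      (∏ j, (a j).descFactorial (e j)) • (mon Ym l (fun j => a j - e j) *ᵥ v) := by
    intro e a
    rw [← wd_flat, spec1_wd_mon hXY hXv hl hl']
    simp only [count_flat hl, if_pos (hl' _)]
  rw [Fintype.linearIndependent_iff]
  intro c hc
  by_contra hne
  push Not at hne
  obtain ⟨q₀, h₀, hmin⟩ := Finset.exists_min_image (Finset.univ.filter fun q => c q ≠ 0)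
    (fun q => ∑ j, (q.2 j : ℕ))
    (by obtain ⟨q, hq⟩ := hne; exact ⟨q, Finset.mem_filter.2 ⟨Finset.mem_univ _, hq⟩⟩)
  rw [Finset.mem_filter] at h₀
  have h1 := congrArg (fun M : Matrix N N k => M *ᵥ (mon Ym l (fun j => q₀.2 j) *ᵥ v)) hc
  simp only [sum_mulVec, zero_mulVec, smul_mulVec] at h1
  have h2 : ∀ q : T × (Y → Fin p), c q • ((Mn q.1 * mon Xm l fun j => q.2 j) *ᵥ
      (mon Ym l (fun j => q₀.2 j) *ᵥ v)) = if q.2 = q₀.2 then
        (c q * ((∏ j, (q₀.2 j : ℕ).factorial : ℕ) : k)) • (Mn q.1 *ᵥ v) else 0 := by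
    intro q
    rw [← mulVec_mulVec, key]
    by_cases hq : q.2 = q₀.2
    · rw [if_pos hq, hq]
      simp only [Nat.descFactorial_self, Nat.sub_self]
      rw [show mon Ym l (fun _ => 0) = 1 from mon_zero l, one_mulVec, mulVec_smul, mul_smul,
        Nat.cast_smul_eq_nsmul]
    · rw [if_neg hq]
      by_cases hcq : c q = 0
      · rw [hcq, zero_smul]
      have h3 := hmin q (Finset.mem_filter.2 ⟨Finset.mem_univ _, hcq⟩)
      have h4 : ∃ j, (q₀.2 j : ℕ) < q.2 j := by
        by_contra h5
        push Not at h5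
        have h6 := (Finset.sum_eq_sum_iff_of_le fun j _ => h5 j).1
          (le_antisymm (Finset.sum_le_sum fun j _ => h5 j) h3)
        exact hq (funext fun j => Fin.ext (h6 j (Finset.mem_univ j)))
      obtain ⟨j, hj⟩ := h4
      rw [Finset.prod_eq_zero (Finset.mem_univ j) (Nat.descFactorial_eq_zero_iff_lt.2 hj),
        zero_smul, mulVec_zero, smul_zero]
  rw [Finset.sum_congr rfl fun q _ => h2 q, Fintype.sum_prod_type] at h1
  simp only [Finset.sum_ite_eq', Finset.mem_univ, if_true] at h1
  have h5 := Fintype.linearIndependent_iff.1 hM _ h1 q₀.1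
  rcases mul_eq_zero.1 h5 with h6 | h6
  · exact h₀.2 h6
  · rw [CharP.cast_eq_zero_iff k p, (Fact.out : p.Prime).prime.dvd_finset_prod_iff] at h6
    obtain ⟨j, -, hj⟩ := h6
    exact absurd (((Fact.out : p.Prime).dvd_factorial).1 hj) (not_le.2 (q₀.2 j).2)

omit [Fact p.Prime] [CharP k p] in
/-- Semicontinuity of independence. -/
theorem semicont {R : Type*} {I N : Type} [CommRing R] [Algebra k R] [Fintype I] [Fintype N]
    (F : I → Matrix N N R) (φ₀ : R →ₐ[k] k) (h : LinearIndependent k fun i => (F i).map φ₀) :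
    ∃ δ : R, φ₀ δ ≠ 0 ∧ ∀ φ : R →ₐ[k] k, φ δ ≠ 0 →
      LinearIndependent k fun i => (F i).map φ := by
  classical
  obtain ⟨G, hG⟩ := LinearMap.exists_leftInverse_of_injective
    (Fintype.linearCombination k fun i => (F i).map φ₀)
    (LinearMap.ker_eq_bot.2 (linearIndependent_iff_injective_fintypeLinearCombination.1 h))
  have hGM : ∀ (M : Matrix N N k) (i : I),
      G M i = ∑ n, ∑ n', G (Matrix.single n n' 1) i * M n n' := by
    intro M i
    conv_lhs => rw [Matrix.matrix_eq_sum_single M]
    simp only [map_sum, Finset.sum_apply]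
    refine Finset.sum_congr rfl fun n _ => Finset.sum_congr rfl fun n' _ => ?_
    rw [show Matrix.single n n' (M n n') = M n n' • Matrix.single n n' (1 : k) by simp, map_smul,
      Pi.smul_apply, smul_eq_mul, mul_comm]
  let A : Matrix I I R := Matrix.of fun i j =>
    ∑ n, ∑ n', algebraMap k R (G (Matrix.single n n' 1) i) * F j n n'
  have hA : ∀ φ : R →ₐ[k] k, φ A.det = (Matrix.of fun i j => G ((F j).map φ) i).det := by
    intro φ
    rw [AlgHom.map_det]
    congr 1
    ext i j
    simp [A, hGM ((F j).map φ) i]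
  refine ⟨A.det, ?_, fun φ hφ => ?_⟩
  · rw [hA]
    have e : (Matrix.of fun i j => G ((F j).map φ₀) i) = 1 := by
      ext i j
      have h1 := congrFun (LinearMap.congr_fun hG (Pi.single j 1)) i
      rw [LinearMap.comp_apply, Fintype.linearCombination_apply_single, one_smul] at h1
      rw [Matrix.of_apply, h1, LinearMap.id_apply, Matrix.one_apply, Pi.single_apply]
    rw [e, det_one]
    exact one_ne_zero
  · rw [hA] at hφ
    exact LinearIndependent.of_comp G (Matrix.linearIndependent_cols_of_det_ne_zero hφ)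

omit [CharP k p] in
/-- The dimension of the commutant. -/
theorem finrank_commutant {Y C : Type} [Fintype Y] [Fintype C] [DecidableEq Y] [DecidableEq C]
    (Ym : Y → Matrix (Ix p Y C) (Ix p Y C) k) (Cm Rm : C → Matrix (Ix p Y C) (Ix p Y C) k)
    (lY : List Y) (lC : List C)
    (h : ∀ q : Ix p Y C, (mon Ym lY (fun j => q.1 j) * mon Cm lC (fun c => q.2 c)) *ᵥ
      Pi.single 0 1 = Pi.single q 1)
    (hY : ∀ c j, Commute (Rm c) (Ym j)) (hC : ∀ c c', Commute (Rm c) (Cm c'))
    (h0 : ∀ c, Rm c *ᵥ Pi.single 0 1 = Cm c *ᵥ Pi.single 0 1) :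
    finrank k (Subalgebra.centralizer k (Set.range Rm)) ≤
      p ^ Fintype.card (Y ⊕ C ⊕ Y) := by
  have hw : ∀ w : List C, ∃ W : Matrix (Ix p Y C) (Ix p Y C) k,
      (∀ T, (∀ c, Commute (Rm c) T) → Commute W T) ∧
        wd Cm w *ᵥ Pi.single 0 1 = W *ᵥ Pi.single 0 1 := by
    intro w
    induction w with
    | nil => exact ⟨1, fun T _ => Commute.one_left T, rfl⟩
    | cons c w ih =>
      obtain ⟨W, hW, hW'⟩ := ih
      refine ⟨W * Rm c, fun T hT => (hW T hT).mul_left (hT c), ?_⟩
      rw [wd_cons, ← mulVec_mulVec, hW', mulVec_mulVec, ← (hW _ fun c' => hC c' c).eq,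
        ← mulVec_mulVec, ← h0, mulVec_mulVec]
  let Φ : Subalgebra.centralizer k (Set.range Rm) →ₗ[k] ((Y → Fin p) → Ix p Y C → k) :=
    { toFun := fun T a => T.1 *ᵥ Pi.single (a, 0) 1
      map_add' := fun T T' => funext fun a => add_mulVec _ _ _
      map_smul' := fun c T => funext fun a => smul_mulVec _ _ _ }
  have hΦ : Function.Injective Φ := by
    rw [injective_iff_map_eq_zero]
    intro T hT
    have hc : ∀ c, Commute (Rm c) T.1 := fun c =>
      (Subalgebra.mem_centralizer_iff k).1 T.2 _ ⟨c, rfl⟩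
    refine Subtype.ext (Matrix.ext_of_mulVec_single fun q => ?_)
    obtain ⟨W, hW, hW'⟩ := hw (flat lC fun c => q.2 c)
    have h1 : Commute W (mon Ym lY fun j => q.1 j) := hW _ fun c =>
      Commute.list_prod_right _ _ fun y hy => by
        obtain ⟨j, -, rfl⟩ := List.mem_map.1 hy
        exact (hY c j).pow_right _
    have h2 := h (q.1, 0)
    rw [show mon Cm lC (fun c => ((q.1, 0) : Ix p Y C).2 c) = 1 from mon_zero lC, mul_one] at h2
    have h3 : T.1 *ᵥ Pi.single (q.1, 0) 1 = 0 := congrFun hT q.1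
    rw [← h q, ← mulVec_mulVec _ (mon Ym lY _), ← wd_flat lC, hW', mulVec_mulVec _ _ W, ← h1.eq,
      ← mulVec_mulVec, h2, mulVec_mulVec, ← (hW _ hc).eq, ← mulVec_mulVec, h3, mulVec_zero]
    exact (zero_mulVec _).symm
  refine (LinearMap.finrank_le_finrank_of_injective hΦ).trans (le_of_eq ?_)
  simp [Module.finrank_pi_fintype, pow_add, mul_comm, mul_assoc, mul_left_comm]

/-- A faithful representation of the right size identifies the reduced enveloping algebra with
the commutant. -/
theorem iso_commutant {L : Type*} [LieRing L] [LieAlgebra k L] {I N C : Type} [Fintype I]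
    [DecidableEq I] [Fintype N] [DecidableEq N] [Nonempty N] (e : Basis I k L)
    (Pw : L → L → Prop) (hP : ∀ a, ∃ b, Pw a b) (χ : Dual k L) (r : L →ₗ⁅k⁆ Matrix N N k)
    (hr : ∀ a b, Pw a b → r a ^ p = r b + algebraMap k _ (χ a ^ p)) {s : k} (hs : s ≠ 0)
    (c : I → k) {l : List I} (hl : l.Nodup) (hl' : ∀ i, i ∈ l)
    (hli : LinearIndependent k fun a : I → Fin p =>
      mon (fun i => s • r (e i) + algebraMap k _ (c i)) l (fun i => a i))
    (Rm : C → Matrix N N k) (hc : ∀ c x, Commute (Rm c) (r x))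
    (hdim : finrank k (Subalgebra.centralizer k (Set.range Rm)) ≤ p ^ Fintype.card I) :
    Nonempty (RedEnv p Pw χ ≃ₐ[k] Subalgebra.centralizer k (Set.range Rm)) := by
  have hp : p.Prime := Fact.out
  let π : UniversalEnvelopingAlgebra k L →ₐ[k] RedEnv p Pw χ := RingQuot.mkAlgHom k _
  let θ : RedEnv p Pw χ →ₐ[k] Matrix N N k :=
    RingQuot.liftAlgHom k ⟨UniversalEnvelopingAlgebra.lift k r, by
      rintro _ _ ⟨a, b, hab, rfl, rfl⟩
      rw [map_pow, map_add, AlgHom.commutes, UniversalEnvelopingAlgebra.lift_ι_apply,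
        UniversalEnvelopingAlgebra.lift_ι_apply, hr a b hab]⟩
  have hθ : ∀ x, θ (π (UniversalEnvelopingAlgebra.ι k x)) = r x := fun x => by
    rw [← UniversalEnvelopingAlgebra.lift_ι_apply k r x]
    exact RingQuot.liftAlgHom_mkAlgHom_apply k _ _ _
  haveI : Nontrivial (RedEnv p Pw χ) := θ.toRingHom.domain_nontrivial
  haveI : CharP (RedEnv p Pw χ) p := charP_of_injective_algebraMap (algebraMap k _).injective p
  let z : I → RedEnv p Pw χ := fun i =>
    s • π (UniversalEnvelopingAlgebra.ι k (e i)) + algebraMap k _ (c i)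
  have hsc : ∀ t : k, algebraMap k (RedEnv p Pw χ) t ∈ Lt k z 2 := fun t => by
    rw [Algebra.algebraMap_eq_smul_one]
    exact Submodule.smul_mem _ _ (Lt_mono (by norm_num) one_mem_Lt)
  have hx : ∀ x, π (UniversalEnvelopingAlgebra.ι k x) ∈ Lt k z 2 := fun x => by
    induction x using P.Bf04.pbw_basis_ind e with
    | h0 => rw [map_zero, map_zero]; exact zero_mem _
    | h1 u v hu hv => rw [map_add, map_add]; exact add_mem hu hv
    | h2 t u hu => rw [map_smul, map_smul]; exact Submodule.smul_mem _ _ hu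
    | h3 i =>
      have h1 := Submodule.smul_mem _ s⁻¹ (sub_mem (z_mem_Lt (R := k) (z := z) i) (hsc (c i)))
      rwa [add_sub_cancel_right, smul_smul, inv_mul_cancel₀ hs, one_smul] at h1
  have hcomm : ∀ i j, z i * z j - z j * z i ∈ Lt k z 2 := fun i j => by
    have h1 := Submodule.smul_mem _ (s * s) (hx ⁅e i, e j⁆)
    rw [LieHom.map_lie, LieRing.of_associative_ring_bracket, map_sub, map_mul, map_mul] at h1
    have e1 : z i * z j - z j * z i = (s * s) •
        (π (UniversalEnvelopingAlgebra.ι k (e i)) * π (UniversalEnvelopingAlgebra.ι k (e j)) -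
          π (UniversalEnvelopingAlgebra.ι k (e j)) * π (UniversalEnvelopingAlgebra.ι k (e i))) := by
      simp only [z, Algebra.algebraMap_eq_smul_one, add_mul, mul_add, smul_mul_assoc,
        mul_smul_comm, mul_one, one_mul, smul_smul, smul_sub, mul_comm (c i) (c j)]
      module
    rw [e1]
    exact h1
  have hpow : ∀ i, z i ^ p ∈ Lt k z p := fun i => by
    obtain ⟨b, hb⟩ := hP (e i)
    have h1 : π (UniversalEnvelopingAlgebra.ι k (e i) ^ p) =
        π (UniversalEnvelopingAlgebra.ι k b + algebraMap k _ (χ (e i) ^ p)) :=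
      RingQuot.mkAlgHom_rel k ⟨e i, b, hb, rfl, rfl⟩
    rw [map_pow, map_add, AlgHom.commutes] at h1
    refine Lt_mono hp.two_le ?_
    rw [add_pow_char_of_commute p (Algebra.commutes _ _).symm, _root_.smul_pow, h1,
      ← map_pow (algebraMap k (RedEnv p Pw χ))]
    exact add_mem (Submodule.smul_mem _ _ (add_mem (hx b) (hsc _))) (hsc _)
  let v : (I → Fin p) → RedEnv p Pw χ := fun a => mon z l fun i => a i
  have hLt : ∀ n, Lt k z n ≤ Submodule.span k (Set.range v) := fun n =>
    Submodule.span_le.2 fun _ ⟨w, _, hw⟩ => by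
      rw [hw]
      refine Submodule.span_mono ?_ (wd_mem_span hcomm (m := fun _ => p) hpow hl hl' w)
      rintro _ ⟨a, ha, rfl⟩
      exact ⟨fun i => ⟨a i, ha i⟩, rfl⟩
  have hspan : Submodule.span k (Set.range v) = ⊤ := by
    refine Submodule.eq_top_iff'.2 fun u => ?_
    obtain ⟨u, rfl⟩ : ∃ u', π u' = u := RingQuot.mkAlgHom_surjective k _ u
    have hu : u ∈ Submodule.span k (Set.range (P.Bf04.uword e)) :=
      P.Bf04.pbw_span_uword e ▸ Submodule.mem_top
    induction hu using Submodule.span_induction with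
    | mem u hu =>
      obtain ⟨w, rfl⟩ := hu
      refine hLt (w.length + 1) ?_
      induction w with
      | nil => rw [show P.Bf04.uword e [] = 1 from rfl, map_one]; exact one_mem_Lt
      | cons i w ih =>
        rw [P.Bf04.pbw_uword_cons, map_mul]
        exact Lt_mono (by simp; omega) (Lt_mul (hx (e i)) ih)
    | zero => rw [map_zero]; exact zero_mem _
    | add u u' _ _ hu hu' => rw [map_add]; exact add_mem hu hu'
    | smul t u _ hu => rw [map_smul]; exact Submodule.smul_mem _ _ hu
  have hθv : ∀ a, θ (v a) = mon (fun i => s • r (e i) + algebraMap k _ (c i)) l fun i => a i :=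
    fun a => by simp only [v, map_mon, z, map_add, map_smul, hθ, AlgHom.commutes]
  have hli' : LinearIndependent k (θ.toLinearMap ∘ v) := by
    rw [show θ.toLinearMap ∘ v = _ from funext hθv]
    exact hli
  have hinj : Function.Injective θ := LinearMap.injective_of_linearIndependent hspan hli'
  have hmem : ∀ u, θ u ∈ Subalgebra.centralizer k (Set.range Rm) := fun u => by
    have hu : u ∈ Submodule.span k (Set.range v) := hspan ▸ Submodule.mem_top
    induction hu using Submodule.span_induction with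
    | mem u hu =>
      obtain ⟨a, rfl⟩ := hu
      rw [hθv]
      refine list_prod_mem fun y hy => ?_
      obtain ⟨i, -, rfl⟩ := List.mem_map.1 hy
      refine pow_mem (add_mem (Subalgebra.smul_mem _ ?_ _) (Subalgebra.algebraMap_mem _ _)) _
      rw [Subalgebra.mem_centralizer_iff]
      rintro _ ⟨c', rfl⟩
      exact hc c' _
    | zero => rw [map_zero]; exact zero_mem _
    | add u u' _ _ hu hu' => rw [map_add]; exact add_mem hu hu'
    | smul t u _ hu => rw [map_smul]; exact Subalgebra.smul_mem _ hu _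
  let θ' := θ.codRestrict _ hmem
  have hl2 : LinearIndependent k (θ'.toLinearMap ∘ v) :=
    LinearIndependent.of_comp (Subalgebra.centralizer k (Set.range Rm)).val.toLinearMap hli'
  have hcard : Fintype.card (I → Fin p) = finrank k (Subalgebra.centralizer k (Set.range Rm)) :=
    le_antisymm hl2.fintype_card_le_finrank (by simpa using hdim)
  have hsp := hl2.span_eq_top_of_card_eq_finrank' hcard
  refine ⟨AlgEquiv.ofBijective θ' ⟨fun u u' h => hinj (congrArg Subtype.val h), fun T => ?_⟩⟩
  have hT : T ∈ LinearMap.range θ'.toLinearMap := by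
    refine Submodule.span_le.2 ?_ (hsp ▸ Submodule.mem_top : T ∈ Submodule.span k _)
    rintro _ ⟨a, rfl⟩
    exact ⟨v a, rfl⟩
  exact hT

end Pool.Agent.Cart
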