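import Pool.Agent.P.MP_c9b50d_al.C.Spec1

/-! A one-parameter family of characters with isomorphic reduced enveloping algebras. -/

namespace Pool.Agent.Cart

open Module Polynomial Matrix

attribute [local instance 100] LieRing.ofAssociativeRing

theorem spec2_map_vec {R S N : Type*} [CommRing R] [CommRing S] [Fintype N] [DecidableEq N]
    (φ : R →+* S) (A : Matrix N N R) (i : N) :
    A.map φ *ᵥ Pi.single i 1 = fun n => φ ((A *ᵥ Pi.single i 1) n) := by
  ext n
  simp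

theorem spec2_single {R S N : Type*} [CommRing R] [CommRing S] [DecidableEq N]
    (φ : R →+* S) (q : N) :
    (fun n => φ ((Pi.single q 1 : N → R) n)) = Pi.single q 1 := by
  ext n
  by_cases h : n = q
  · subst h; simp
  · simp [h]

/-- choice of the parameters -/
theorem spec2_param {k : Type*} [Field k] [IsAlgClosed k] {p : ℕ} (hp : 2 ≤ p) (δ : k[X][X])
    (h : aevalAeval (0 : k) (0 : k) δ ≠ 0) :
    ∃ s : k, s ≠ 0 ∧ ∃ T : Set k, T.Finite ∧ ∀ w ∉ T, ∃ u : k, w ^ p = u ^ p - u ∧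
      aevalAeval s u δ ≠ 0 := by
  rw [coe_aevalAeval_eq_evalEval] at h
  have hg : δ.eval (C 0) ≠ 0 := by
    intro h0
    apply h
    rw [evalEval, h0, eval_zero]
  have hg' : (X * δ.eval (C 0) : k[X]) ≠ 0 := mul_ne_zero X_ne_zero hg
  obtain ⟨s, hs⟩ := (X * δ.eval (C 0) : k[X]).exists_eval_ne_zero_of_natDegree_lt_card hg'
    (Cardinal.natCast_lt_aleph0.trans_le (Cardinal.aleph0_le_mk k))
  rw [eval_mul, eval_X] at hs
  have hd : δ.map (evalRingHom s) ≠ 0 := by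
    intro h0
    apply right_ne_zero_of_mul hs
    have := map_evalRingHom_eval s 0 δ
    rw [h0, eval_zero] at this
    exact this.symm
  refine ⟨s, left_ne_zero_of_mul hs,
    ⋃ u ∈ {u | IsRoot (δ.map (evalRingHom s)) u}, {w | IsRoot (X ^ p - C (u ^ p - u)) w},
    (finite_setOfPred_isRoot hd).biUnion fun u _ =>
      finite_setOfPred_isRoot (X_pow_sub_C_ne_zero (by omega) _), fun w hw => ?_⟩
  have hdeg : (X ^ p - (X + C (w ^ p)) : k[X]).degree = p := by
    rw [degree_sub_eq_left_of_degree_lt, degree_X_pow]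
    rw [degree_X_pow, degree_X_add_C]
    exact_mod_cast (by omega : 1 < p)
  obtain ⟨u, hu⟩ := IsAlgClosed.exists_root (X ^ p - (X + C (w ^ p)) : k[X]) (by
    rw [hdeg]
    exact_mod_cast (by omega : p ≠ 0))
  have hu' : w ^ p = u ^ p - u := by
    simp only [IsRoot, eval_sub, eval_pow, eval_X, eval_add, eval_C] at hu
    linear_combination -hu
  refine ⟨u, hu', fun h0 => hw ?_⟩
  rw [coe_aevalAeval_eq_evalEval] at h0
  simp only [Set.mem_iUnion, Set.mem_ofPred_eq]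
  refine ⟨u, ?_, ?_⟩
  · rw [IsRoot, map_evalRingHom_eval, h0]
  · simp [IsRoot, hu']

/-- the rescaled representation -/
noncomputable def spec2_rep {k L B : Type*} [Field k] [LieRing L] [LieAlgebra k L] [Ring B]
    [Algebra k B] (Z : L →ₗ[k] B) (ψ : Dual k L) {s : k} (hs : s ≠ 0)
    (h : ∀ x y, Z x * Z y - Z y * Z x = s • Z ⁅x, y⁆ + ψ ⁅x, y⁆ • 1) : L →ₗ⁅k⁆ B where
  toLinearMap := s⁻¹ • Z + (s⁻¹ ^ 2) • (Algebra.linearMap k B ∘ₗ ψ)
  map_lie' := by
    intro x y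
    have h1 : ∀ x, (s⁻¹ • Z + (s⁻¹ ^ 2) • (Algebra.linearMap k B ∘ₗ ψ)) x =
        s⁻¹ • Z x + (s⁻¹ ^ 2 * ψ x) • (1 : B) := by
      intro x
      simp [Algebra.algebraMap_eq_smul_one, smul_smul]
    change (s⁻¹ • Z + (s⁻¹ ^ 2) • (Algebra.linearMap k B ∘ₗ ψ)) ⁅x, y⁆ =
      ⁅(s⁻¹ • Z + (s⁻¹ ^ 2) • (Algebra.linearMap k B ∘ₗ ψ)) x,
        (s⁻¹ • Z + (s⁻¹ ^ 2) • (Algebra.linearMap k B ∘ₗ ψ)) y⁆
    rw [h1, h1, h1, Ring.lie_def]
    have h2 : (s⁻¹ • Z x + (s⁻¹ ^ 2 * ψ x) • (1 : B)) * (s⁻¹ • Z y + (s⁻¹ ^ 2 * ψ y) • (1 : B)) -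
        (s⁻¹ • Z y + (s⁻¹ ^ 2 * ψ y) • (1 : B)) * (s⁻¹ • Z x + (s⁻¹ ^ 2 * ψ x) • (1 : B)) =
        (s⁻¹ ^ 2) • (Z x * Z y - Z y * Z x) := by
      simp only [mul_add, add_mul, smul_mul_assoc, mul_smul_comm, mul_one, one_mul]
      module
    rw [h2, h, smul_add, smul_smul, smul_smul]
    congr 2
    field_simp

theorem spec2_rep_apply {k L B : Type*} [Field k] [LieRing L] [LieAlgebra k L] [Ring B]
    [Algebra k B] (Z : L →ₗ[k] B) (ψ : Dual k L) {s : k} (hs : s ≠ 0)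
    (h : ∀ x y, Z x * Z y - Z y * Z x = s • Z ⁅x, y⁆ + ψ ⁅x, y⁆ • 1) (x : L) :
    spec2_rep Z ψ hs h x = s⁻¹ • Z x + algebraMap k B (s⁻¹ ^ 2 * ψ x) := by
  change (s⁻¹ • Z + (s⁻¹ ^ 2) • (Algebra.linearMap k B ∘ₗ ψ)) x = _
  simp [Algebra.algebraMap_eq_smul_one, smul_smul]

theorem spec {k L : Type*} {Y C : Type} [Field k] [IsAlgClosed k] {p : ℕ} [Fact p.Prime]
    [CharP k p] (hp : 3 ≤ p) [LieRing L] [LieAlgebra k L] [Fintype Y] [Fintype C]
    [DecidableEq Y] [DecidableEq C] (Pw : L → L → Prop) (hP : ∀ a, ∃ b, Pw a b)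
    (hP' : ∀ a b, Pw a b → LieAlgebra.ad k L b = LieAlgebra.ad k L a ^ p)
    (hz : ∀ a : L, (∀ b : L, ⁅a, b⁆ = 0) → a = 0)
    (e : Basis (Y ⊕ C ⊕ Y) k L) (n b : Submodule k L)
    (hb : b = Submodule.span k (Set.range fun i : C ⊕ Y => e (.inr i)))
    (hn : n = Submodule.span k (Set.range fun j : Y => e (.inr (.inr j))))
    (hbb : ∀ x ∈ b, ∀ y ∈ b, ⁅x, y⁆ ∈ b) (hbn : ∀ x ∈ b, ∀ y ∈ n, ⁅x, y⁆ ∈ n)
    (hpb : ∀ x ∈ b, ∀ y, Pw x y → y ∈ b) (hpn : ∀ x ∈ n, ∀ y, Pw x y → y ∈ n)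
    (χ lam : Dual k L) (hχn : ∀ x ∈ n, χ x = 0)
    (hd : ∀ i j, χ ⁅e (.inr (.inr i)), e (.inl j)⁆ = if i = j then 1 else 0)
    (hln : ∀ x ∈ n, lam x = 0) (hlb : ∀ x ∈ b, ∀ y ∈ b, lam ⁅x, y⁆ = 0)
    (hlp : ∀ x ∈ b, ∀ y, Pw x y → lam y = lam x ^ p) :
    ∃ s : k, s ≠ 0 ∧ ∃ T : Set k, T.Finite ∧ ∀ w ∉ T, ∀ w' ∉ T,
      Nonempty (RedEnv p Pw (s • χ + w • lam) ≃ₐ[k] RedEnv p Pw (s • χ + w' • lam)) := by
  classical
  choose Q hQ using hP
  have heb : ∀ i, e (.inr i) ∈ b := fun i => hb ▸ Submodule.subset_span ⟨i, rfl⟩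
  have hen : ∀ j, e (.inr (.inr j)) ∈ n := fun j => hn ▸ Submodule.subset_span ⟨j, rfl⟩
  set σ : k[X][X] := algebraMap k[X] k[X][X] X with hσ
  let ψ : L →ₗ[k] k[X][X] := χ.smulRight 1 + lam.smulRight (σ ^ 2 * X)
  have hψ : ∀ x, ψ x = χ x • 1 + lam x • (σ ^ 2 * X) := fun x => rfl
  let ρ : Y ⊕ C ⊕ Y → k[X][X] := fun i =>
    χ (Q (e i)) • σ ^ (p - 2) + (lam (Q (e i)) - lam (e i) ^ p) • (σ ^ p * X)
  obtain ⟨lY, hY, hY'⟩ : ∃ l : List Y, l.Nodup ∧ ∀ j, j ∈ l :=
    ⟨Finset.univ.toList, Finset.nodup_toList _, by simp⟩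
  obtain ⟨lC, hC, hC'⟩ : ∃ l : List C, l.Nodup ∧ ∀ j, j ∈ l :=
    ⟨Finset.univ.toList, Finset.nodup_toList _, by simp⟩
  obtain ⟨Z, Rm, h1, h2, h3, h4, h5, h6⟩ := package (k := k) (R₀ := k[X]) (R := k[X][X]) (p := p)
    e (fun i => Q (e i)) (fun i => hP' _ _ (hQ _)) n b hb hn hbb hbn
    (fun i => hpb _ (heb i) _ (hQ _)) (fun j => hpn _ (hen j) _ (hQ _)) X ψ ρ
    (fun x hx y hy => ⟨χ ⁅x, y⁆ • 1, by
      rw [hψ, hlb x hx y hy, zero_smul, add_zero, ← Algebra.algebraMap_eq_smul_one,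
        ← Algebra.algebraMap_eq_smul_one, ← IsScalarTower.algebraMap_apply]⟩)
    (fun x hx => by rw [hψ, hχn x hx, hln x hx, zero_smul, zero_smul, add_zero])
    (fun i => ⟨χ (Q (e (.inr i))) • X ^ (p - 2), by
      simp only [ρ]
      rw [hlp _ (heb i) _ (hQ _), sub_self, zero_smul, add_zero, Algebra.smul_def,
        Algebra.smul_def, map_mul, map_pow, ← IsScalarTower.algebraMap_apply]⟩)
    (fun j => by
      simp only [ρ]
      rw [hχn _ (hpn _ (hen j) _ (hQ _)), hlp _ (heb _) _ (hQ _), sub_self, zero_smul, zero_smul,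
        add_zero])
    hY hY' hC hC'
  -- specialisation
  let Zs : k → k → L →ₗ[k] Matrix (Ix p Y C) (Ix p Y C) k := fun s u =>
    (aevalAeval (R := k) s u).mapMatrix.toLinearMap ∘ₗ Z
  have hZs : ∀ s u x, Zs s u x = (aevalAeval (R := k) s u).mapMatrix (Z x) := fun _ _ _ => rfl
  have hφσ : ∀ s u : k, aevalAeval (R := k) s u σ = s := fun s u => aevalAeval_X s u
  have hsm : ∀ (s u : k) (c : k[X][X]) (A : Matrix (Ix p Y C) (Ix p Y C) k[X][X]),
      (aevalAeval (R := k) s u).mapMatrix (c • A) =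
        aevalAeval (R := k) s u c • (aevalAeval (R := k) s u).mapMatrix A := by
    intro s u c A
    ext i j
    simp
  have hφψ : ∀ (s u : k) x, aevalAeval (R := k) s u (ψ x) = (χ + (s ^ 2 * u) • lam) x := by
    intro s u x
    rw [hψ, map_add, map_smul, map_smul, map_mul, map_pow, hφσ, aevalAeval_Y, map_one]
    simp [mul_comm]
  have g1 : ∀ s u x y, Zs s u x * Zs s u y - Zs s u y * Zs s u x =
      s • Zs s u ⁅x, y⁆ + (χ + (s ^ 2 * u) • lam) ⁅x, y⁆ • 1 := by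
    intro s u x y
    have := congrArg (aevalAeval (R := k) s u).mapMatrix (h1 x y)
    rw [map_sub, map_mul, map_mul, map_add, hsm, hsm, hφσ, hφψ, map_one] at this
    exact this
  have g2 : ∀ s u i, Zs s u (e i) ^ p = s ^ (p - 1) • Zs s u (Q (e i)) +
      (χ (Q (e i)) * s ^ (p - 2) + (lam (Q (e i)) - lam (e i) ^ p) * (s ^ p * u)) • 1 := by
    intro s u i
    rw [hZs, hZs, ← map_pow, h2, map_add, hsm, hsm, map_pow, hφσ, map_one]
    simp only [ρ]
    rw [map_add, map_smul, map_smul, map_mul, map_pow, map_pow, hφσ, aevalAeval_Y, smul_eq_mul,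
      smul_eq_mul]
  have gv : ∀ (s u : k) (A : Matrix (Ix p Y C) (Ix p Y C) k[X][X]),
      (aevalAeval (R := k) s u).mapMatrix A *ᵥ Pi.single 0 1 =
        fun n => aevalAeval (R := k) s u ((A *ᵥ Pi.single 0 1) n) := fun s u A =>
    spec2_map_vec (aevalAeval (R := k) s u).toRingHom A 0
  have g4 : ∀ s u (q : Ix p Y C), (mon (fun j => Zs s u (e (.inl j))) lY (fun j => q.1 j) *
      mon (fun c => Zs s u (e (.inr (.inl c)))) lC (fun c => q.2 c)) *ᵥ Pi.single 0 1 =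
        Pi.single q 1 := by
    intro s u q
    have := gv s u (mon (fun j => Z (e (.inl j))) lY (fun j => q.1 j) *
      mon (fun c => Z (e (.inr (.inl c)))) lC (fun c => q.2 c))
    rw [h4, map_mul, map_mon, map_mon] at this
    exact this.trans (spec2_single (aevalAeval (R := k) s u).toRingHom q)
  let l : List (Y ⊕ C ⊕ Y) :=
    lY.map .inl ++ (lC.map (fun c => .inr (.inl c)) ++ lY.map fun j => .inr (.inr j))
  have hl : l.Nodup := by
    refine List.Nodup.append (hY.map Sum.inl_injective)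
      (List.Nodup.append (hC.map fun _ _ h => by simpa using h)
        (hY.map fun _ _ h => by simpa using h) ?_) ?_
    · intro a ha hb
      simp only [List.mem_map] at ha hb
      obtain ⟨_, _, rfl⟩ := ha
      obtain ⟨_, _, h⟩ := hb
      simp at h
    · intro a ha hb
      simp only [List.mem_map, List.mem_append] at ha hb
      obtain ⟨_, _, rfl⟩ := ha
      rcases hb with ⟨_, _, h⟩ | ⟨_, _, h⟩ <;> simp at h
  have hl' : ∀ i, i ∈ l := by
    rintro (j | c | j) <;> simp [l, hY', hC']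
  have hF : ∀ (s u : k) (a : Y ⊕ C ⊕ Y → Fin p),
      (mon (fun i => Z (e i)) l (fun i => a i)).map (aevalAeval (R := k) s u) =
        mon (fun i => Zs s u (e i)) l (fun i => a i) := fun s u a =>
    map_mon (aevalAeval (R := k) s u).mapMatrix l _
  have hind : LinearIndependent k fun a : Y ⊕ C ⊕ Y → Fin p =>
      (mon (fun i => Z (e i)) l (fun i => a i)).map (aevalAeval (R := k) (0 : k) (0 : k)) := by
    have := ind0 (p := p) (fun j => Zs 0 0 (e (.inr (.inr j)))) (fun j => Zs 0 0 (e (.inl j)))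
      (fun q : Ix p Y C => mon (fun j => Zs 0 0 (e (.inl j))) lY (fun j => q.1 j) *
        mon (fun c => Zs 0 0 (e (.inr (.inl c)))) lC (fun c => q.2 c)) (Pi.single 0 1)
      (fun i j => by
        rw [g1]
        simp [hd])
      (fun i => by
        rw [hZs, gv, h3]
        ext n
        simp)
      (by
        simp only [g4]
        exact Pi.linearIndependent_single_one _ _) hY hY'
    have h' := this.comp (fun a : Y ⊕ C ⊕ Y → Fin p =>
      (((fun j => a (.inl j), fun c => a (.inr (.inl c))), fun j => a (.inr (.inr j))) :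
        Ix p Y C × (Y → Fin p))) (by
      intro a a' h
      simp only [Prod.mk.injEq] at h
      funext i
      rcases i with j | c | j
      · exact congrFun h.1.1 j
      · exact congrFun h.1.2 c
      · exact congrFun h.2 j)
    convert h' using 2 with a
    rw [hF]
    simp only [l, mon_append, mon_map, Function.comp_def, mul_assoc]
  obtain ⟨δ, hδ0, hδ⟩ := semicont _ _ hind
  obtain ⟨s, hs, T, hT, hw⟩ := spec2_param (p := p) (by omega) δ hδ0
  let Rs : C → Matrix (Ix p Y C) (Ix p Y C) k := fun c => (Rm c).map (eval s)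
  have hRs : ∀ u c, Rs c = (aevalAeval (R := k) s u).mapMatrix
      ((Rm c).map (algebraMap k[X] k[X][X])) := by
    intro u c
    ext i j
    simp [Rs]
  have key : ∀ w ∉ T, Nonempty (RedEnv p Pw (s⁻¹ ^ 2 • χ + w • lam) ≃ₐ[k]
      Subalgebra.centralizer k (Set.range Rs)) := by
    intro w hwT
    obtain ⟨u, hu, hδu⟩ := hw w hwT
    have hcm : ∀ c x, Commute (Rs c) (Zs s u x) := fun c x => by
      rw [hRs u, hZs]
      exact (h5 c x).map _
    have : CharP (Matrix (Ix p Y C) (Ix p Y C) k) p := inferInstance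
    refine iso_commutant e Pw (fun a => ⟨_, hQ a⟩) _ (spec2_rep (Zs s u) _ hs (g1 s u))
      (fun a b hab => pow_all hz e (fun i => Q (e i)) (fun i => hP' _ _ (hQ _)) _ _ (fun i => ?_)
        a b (hP' _ _ hab)) hs (fun i => -(s⁻¹ * (χ + (s ^ 2 * u) • lam) (e i))) hl hl' ?_ Rs
      (fun c x => ?_) (finrank_commutant (fun j => Zs s u (e (.inl j)))
        (fun c => Zs s u (e (.inr (.inl c)))) Rs lY lC (g4 s u) (fun c j => hcm c _)
        (fun c j => hcm c _) fun c => ?_)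
    · rw [spec2_rep_apply, spec2_rep_apply,
        add_pow_char_of_commute p (Algebra.commutes _ _).symm, _root_.smul_pow, g2,
        ← map_pow (algebraMap k _),
        add_assoc, ← map_add, smul_add, smul_smul, smul_smul, ← Algebra.algebraMap_eq_smul_one,
        add_assoc, ← map_add]
      have hs0 : ∀ m j : ℕ, s⁻¹ ^ (m + j) * s ^ m = s⁻¹ ^ j := fun m j => by
        rw [pow_add, mul_right_comm, ← mul_pow, inv_mul_cancel₀ hs, one_pow, one_mul]
      have hs1 : s⁻¹ ^ p * s ^ (p - 1) = s⁻¹ := by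
        have := hs0 (p - 1) 1
        rwa [Nat.sub_add_cancel (by omega), pow_one] at this
      have hs2 : s⁻¹ ^ p * s ^ (p - 2) = s⁻¹ ^ 2 := by
        have := hs0 (p - 2) 2
        rwa [Nat.sub_add_cancel (by omega)] at this
      have hs3 : s⁻¹ ^ p * s ^ p = 1 := by rw [← mul_pow, inv_mul_cancel₀ hs, one_pow]
      have hs4 : s⁻¹ ^ 2 * s ^ 2 = 1 := by rw [← mul_pow, inv_mul_cancel₀ hs, one_pow]
      rw [hs1]
      congr 2
      simp only [LinearMap.add_apply, LinearMap.smul_apply, smul_eq_mul]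
      have e1 : s⁻¹ ^ 2 * (χ (e i) + s ^ 2 * u * lam (e i)) =
          s⁻¹ ^ 2 * χ (e i) + u * lam (e i) := by linear_combination (u * lam (e i)) * hs4
      rw [e1, add_pow_char, add_pow_char, mul_pow u, mul_pow w, hu]
      linear_combination χ (Q (e i)) * hs2 + ((lam (Q (e i)) - lam (e i) ^ p) * u) * hs3 -
        (u * lam (Q (e i))) * hs4
    · have := hδ _ hδu
      simp only [hF] at this
      convert this using 4 with a i
      rw [spec2_rep_apply, smul_add, smul_smul, mul_inv_cancel₀ hs, one_smul, add_assoc,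
        Algebra.smul_def, ← map_mul, ← map_add]
      have : s * (s⁻¹ ^ 2 * (χ + (s ^ 2 * u) • lam) (e i)) +
          -(s⁻¹ * (χ + (s ^ 2 * u) • lam) (e i)) = 0 := by
        field_simp
        ring
      rw [this, map_zero, add_zero]
    · rw [spec2_rep_apply]
      exact ((hcm c x).smul_right _).add_right (Algebra.commutes _ _).symm
    · rw [hRs u, hZs, gv, gv, h6]
  refine ⟨s⁻¹ ^ 2, pow_ne_zero _ (inv_ne_zero hs), T, hT, fun w hw w' hw' => ?_⟩
  obtain ⟨f⟩ := key w hw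
  obtain ⟨g⟩ := key w' hw'
  exact ⟨f.trans g.symm⟩

end Pool.Agent.Cart
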