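import Mathlib

/-! Restricted Lie algebras of Cartan type and reduced enveloping algebras: definitions. -/

namespace Pool.Agent.Cart

open MvPolynomial

section General
variable {k L : Type*} [Field k] [LieRing L] [LieAlgebra k L]

/-- The reduced enveloping algebra `u(L, χ)`; `Pw a b` means that `b` is the `p`-th power
of `a`. -/
abbrev RedEnv (p : ℕ) (Pw : L → L → Prop) (χ : Module.Dual k L) :=
  RingQuot fun u v : UniversalEnvelopingAlgebra k L => ∃ a b, Pw a b ∧
    u = UniversalEnvelopingAlgebra.ι k a ^ p ∧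
    v = UniversalEnvelopingAlgebra.ι k b + algebraMap k _ (χ a ^ p)

/-- Two characters are conjugate when an automorphism of `L` carries one to the other. -/
def Conjugate (χ χ' : Module.Dual k L) : Prop := ∃ φ : L ≃ₗ⁅k⁆ L, ∀ a, χ' a = χ (φ.symm a)

variable (k) in
/-- Every element has a `p`-th power, and there are infinitely many pairwise non-conjugate
characters with isomorphic reduced enveloping algebras. -/
def Fails (p : ℕ) (Pw : L → L → Prop) : Prop :=
  (∀ a, ∃ b, Pw a b) ∧ ∃ χ : ℕ → Module.Dual k L,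
    (∀ i j, Nonempty (RedEnv p Pw (χ i) ≃ₐ[k] RedEnv p Pw (χ j))) ∧
    ∀ i j, Conjugate (χ i) (χ j) → i = j

end General

/-- The types `W(n)`, `n ≥ 2`, `S(n)`, `n ≥ 3`, `H(2m)`, `K(2m+1)`, `m ≥ 1`. -/
inductive Cartan
  | tW (n : ℕ) (h : 2 ≤ n)
  | tS (n : ℕ) (h : 3 ≤ n)
  | tH (m : ℕ) (h : 1 ≤ m)
  | tK (m : ℕ) (h : 1 ≤ m)

/-- The variables. -/
def Cartan.vars : Cartan → Type
  | tW n _ => Fin n
  | tS n _ => Fin n
  | tH m _ => Fin m ⊕ Fin m
  | tK m _ => Option (Fin m ⊕ Fin m)

namespace St

section Forms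
variable {k R : Type*} [Field k] [CommRing R] [Algebra k R]

/-- The derived algebra. -/
def der (A : Set (Derivation k R R)) : LieSubalgebra k (Derivation k R R) :=
  LieSubalgebra.lieSpan k _ {D | ∃ a ∈ A, ∃ b ∈ A, D = ⁅a, b⁆}

/-- `b` is the `p`-th power of the derivation `a`. -/
def pw (p : ℕ) (g : LieSubalgebra k (Derivation k R R)) (a b : g) : Prop :=
  ∀ f, (b : Derivation k R R) f = (a : Derivation k R R)^[p] f

/-- `Fails` for the second derived algebra of `A`, with the `p`-th power of derivations. -/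
def Fails2 (p : ℕ) (A : Set (Derivation k R R)) : Prop :=
  Fails k p (pw p (der (der A : Set (Derivation k R R))))

/-- The symplectic form `∑ dx_i ∧ dy_i`. -/
def om {m : ℕ} (x : Fin m ⊕ Fin m → R) (Y Z : Derivation k R R) : R :=
  ∑ i, (Y (x (.inl i)) * Z (x (.inr i)) - Z (x (.inl i)) * Y (x (.inr i)))

/-- The contact form `dz + ∑ (x_i dy_i - y_i dx_i)`. -/
def al {m : ℕ} (x : Option (Fin m ⊕ Fin m) → R) (Y : Derivation k R R) : R :=
  Y (x none) + ∑ i, (x (some (.inl i)) * Y (x (some (.inr i))) -
    x (some (.inr i)) * Y (x (some (.inl i))))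

/-- The derivations of divergence zero; `d i` is the derivative with respect to `x i`. -/
def setS {n : ℕ} (d : Fin n → Derivation k R R) (x : Fin n → R) : Set (Derivation k R R) :=
  {D | ∑ i, d i (D (x i)) = 0}

variable (k) in
/-- The derivations killing the symplectic form. -/
def setH {m : ℕ} (x : Fin m ⊕ Fin m → R) : Set (Derivation k R R) :=
  {D | ∀ Y Z : Derivation k R R, D (om x Y Z) = om x ⁅D, Y⁆ Z + om x Y ⁅D, Z⁆}

variable (k) in
/-- The derivations multiplying the contact form by a function. -/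
def setK {m : ℕ} (x : Option (Fin m ⊕ Fin m) → R) : Set (Derivation k R R) :=
  {D | ∃ f, ∀ Y : Derivation k R R, D (al x Y) - al x ⁅D, Y⁆ = f * al x Y}

end Forms

variable (k : Type*) [Field k] (p : ℕ)

/-- The truncated polynomial algebra in the variables `σ`. -/
abbrev O (σ : Type) :=
  MvPolynomial σ k ⧸ Ideal.span (Set.range fun i : σ => (X i : MvPolynomial σ k) ^ p)

/-- The Jacobson-Witt algebra `Der O`. -/
abbrev W (σ : Type) := Derivation k (O k p σ) (O k p σ)

variable {σ : Type}

/-- The class of a variable. -/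
noncomputable def x (i : σ) : O k p σ := Ideal.Quotient.mk _ (X i)

theorem pderiv_mem [CharP k p] (i : σ) (g : MvPolynomial σ k)
    (hg : Ideal.Quotient.mkₐ k
      (Ideal.span (Set.range fun i : σ => (X i : MvPolynomial σ k) ^ p)) g = 0) :
    Ideal.Quotient.mkₐ k (Ideal.span (Set.range fun i : σ => (X i : MvPolynomial σ k) ^ p))
      (pderiv i g) = 0 := by
  rw [Ideal.Quotient.mkₐ_eq_mk, Ideal.Quotient.eq_zero_iff_mem] at *
  induction hg using Submodule.span_induction with
  | mem g hg =>
    obtain ⟨j, rfl⟩ := hg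
    simp only [Derivation.leibniz_pow, nsmul_eq_mul, CharP.cast_eq_zero, zero_mul]
    exact zero_mem _
  | zero => simp
  | add a b _ _ ha hb => rw [map_add]; exact add_mem ha hb
  | smul a b hb' hb =>
    rw [smul_eq_mul, Derivation.leibniz]
    exact add_mem (Ideal.mul_mem_left _ _ hb) (Ideal.mul_mem_right _ _ hb')

/-- The derivative with respect to a variable. -/
noncomputable def pd [CharP k p] (i : σ) : W k p σ :=
  Derivation.liftOfSurjective (Ideal.Quotient.mkₐ_surjective k _) (d := pderiv i)
    (pderiv_mem k p i)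

/-- The algebra `X(n, 1)`: all derivations, those of divergence zero, those killing the
symplectic form, those multiplying the contact form by a function. -/
def alg [CharP k p] : (T : Cartan) → Set (W k p T.vars)
  | .tW _ _ => Set.univ
  | .tS n _ => setS (pd k p (σ := Fin n)) (x k p)
  | .tH m _ => setH k (x k p (σ := Fin m ⊕ Fin m))
  | .tK m _ => setK k (x k p (σ := Option (Fin m ⊕ Fin m)))

end St

end Pool.Agent.Cart
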