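import Pool.Agent.P.MP_bf0464_al.H.PBW

/-! Words, restricted monomials, straightening and the restricted basis theorem. -/

namespace Pool.Agent.Cart

open Module

section Words
variable {R A I : Type*} [CommRing R] [Ring A] [Algebra R A]

/-- the product of the letters of a word -/
def wd (z : I → A) (l : List I) : A := (l.map z).prod

/-- the ordered monomial with exponents `r` -/
def mon (z : I → A) (l : List I) (r : I → ℕ) : A := (l.map fun i => z i ^ r i).prod

/-- the word of an ordered monomial -/
def flat (l : List I) (r : I → ℕ) : List I := l.flatMap fun i => List.replicate (r i) i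

variable (R) in
/-- the span of the words of length less than `n` -/
def Lt (z : I → A) (n : ℕ) : Submodule R A :=
  Submodule.span R {a | ∃ l : List I, l.length < n ∧ a = wd z l}

variable {z : I → A}

theorem wd_nil : wd z [] = 1 := rfl

theorem wd_cons (i : I) (l : List I) : wd z (i :: l) = z i * wd z l := by simp [wd]

theorem wd_append (l l' : List I) : wd z (l ++ l') = wd z l * wd z l' := by simp [wd]

theorem wd_replicate (n : ℕ) (i : I) : wd z (List.replicate n i) = z i ^ n := by simp [wd]

theorem mon_nil (r : I → ℕ) : mon z [] r = 1 := rfl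

theorem mon_cons (i : I) (l : List I) (r : I → ℕ) : mon z (i :: l) r = z i ^ r i * mon z l r := by
  simp [mon]

theorem mon_append (l l' : List I) (r : I → ℕ) : mon z (l ++ l') r = mon z l r * mon z l' r := by
  simp [mon]

theorem mon_map {J : Type*} (f : J → I) (l : List J) (r : I → ℕ) :
    mon z (l.map f) r = mon (z ∘ f) l (r ∘ f) := by
  simp [mon, Function.comp_def]

theorem mon_congr {l : List I} {r r' : I → ℕ} (h : ∀ i ∈ l, r i = r' i) :
    mon z l r = mon z l r' := by
  unfold mon
  rw [List.map_congr_left fun i hi => by rw [h i hi]]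

theorem mon_zero (l : List I) : mon z l 0 = 1 := by simp [mon]

theorem map_mon {B F : Type*} [Ring B] [FunLike F A B] [MonoidHomClass F A B] (f : F)
    (l : List I) (r : I → ℕ) : f (mon z l r) = mon (fun i => f (z i)) l r := by
  simp [mon, map_list_prod, Function.comp_def]

theorem map_wd {B F : Type*} [Ring B] [FunLike F A B] [MonoidHomClass F A B] (f : F)
    (l : List I) : f (wd z l) = wd (fun i => f (z i)) l := by
  simp [wd, map_list_prod, Function.comp_def]

theorem wd_flat (l : List I) (r : I → ℕ) : wd z (flat l r) = mon z l r := by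
  induction l with
  | nil => rfl
  | cons i l ih => rw [flat, List.flatMap_cons, wd_append, wd_replicate, mon_cons, ← ih, flat]

theorem count_flat [DecidableEq I] {l : List I} (hl : l.Nodup) (r : I → ℕ) (j : I) :
    (flat l r).count j = if j ∈ l then r j else 0 := by
  induction l with
  | nil => simp [flat]
  | cons i l ih =>
    rw [List.nodup_cons] at hl
    rw [flat, List.flatMap_cons, List.count_append, ← flat, ih hl.2, List.count_replicate]
    by_cases h : i = j
    · subst h
      simp [hl.1]
    · simp [h, Ne.symm h]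

theorem wd_mem {l : List I} {n : ℕ} (h : l.length < n) : wd z l ∈ Lt R z n :=
  Submodule.subset_span ⟨l, h, rfl⟩

theorem Lt_mono {m n : ℕ} (h : m ≤ n) : Lt R z m ≤ Lt R z n :=
  Submodule.span_mono fun _ ⟨l, hl, e⟩ => ⟨l, hl.trans_le h, e⟩

theorem Lt_mul {m n : ℕ} {a b : A} (ha : a ∈ Lt R z m) (hb : b ∈ Lt R z n) :
    a * b ∈ Lt R z (m + n - 1) := by
  have h := Submodule.mul_mem_mul ha hb
  rw [Lt, Lt, Submodule.span_mul_span] at h
  refine Submodule.span_mono ?_ h
  rintro _ ⟨_, ⟨l, hl, rfl⟩, _, ⟨l', hl', rfl⟩, rfl⟩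
  exact ⟨l ++ l', by rw [List.length_append]; omega, (wd_append l l').symm⟩

theorem one_mem_Lt : (1 : A) ∈ Lt R z 1 := wd_mem (l := []) Nat.one_pos

theorem z_mem_Lt (i : I) : z i ∈ Lt R z 2 := by
  simpa [wd] using wd_mem (R := R) (z := z) (l := [i]) (n := 2) (by simp)

theorem wd_perm (hc : ∀ i j, z i * z j - z j * z i ∈ Lt R z 2) {l l' : List I} (h : l.Perm l') :
    wd z l - wd z l' ∈ Lt R z l.length := by
  induction h with
  | nil => simp
  | cons i _ ih =>
    rw [wd_cons, wd_cons, ← mul_sub]
    exact Lt_mono (by simp; omega) (Lt_mul (z_mem_Lt i) ih)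
  | swap i j l =>
    rw [wd_cons, wd_cons, wd_cons, wd_cons, ← mul_assoc, ← mul_assoc, ← sub_mul]
    exact Lt_mono (by simp; omega) (Lt_mul (hc j i) (wd_mem (Nat.lt_succ_self _)))
  | trans h1 _ ih1 ih2 =>
    rw [← h1.length_eq] at ih2
    simpa using add_mem ih1 ih2

/-- straightening: every word is a combination of restricted ordered monomials -/
theorem wd_mem_span (hc : ∀ i j, z i * z j - z j * z i ∈ Lt R z 2) {m : I → ℕ}
    (hm : ∀ i, z i ^ m i ∈ Lt R z (m i)) {l : List I} (hl : l.Nodup) (hl' : ∀ i, i ∈ l)
    (w : List I) : wd z w ∈ Submodule.span R {a | ∃ r : I → ℕ, (∀ i, r i < m i) ∧ a = mon z l r} := by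
  classical
  induction hn : w.length using Nat.strong_induction_on generalizing w with
  | _ n ih =>
    have hLt : Lt R z n ≤
        Submodule.span R {a | ∃ r : I → ℕ, (∀ i, r i < m i) ∧ a = mon z l r} :=
      Submodule.span_le.2 fun _ ⟨w', hw', e⟩ => e ▸ ih _ hw' w' rfl
    by_cases h : ∀ i, w.count i < m i
    · have hp : w.Perm (flat l fun i => w.count i) :=
        List.perm_iff_count.2 fun j => by rw [count_flat hl, if_pos (hl' j)]
      have h1 := wd_perm hc hp
      rw [hn, wd_flat] at h1
      have h2 : mon z l (fun i => w.count i) ∈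
          Submodule.span R {a | ∃ r : I → ℕ, (∀ i, r i < m i) ∧ a = mon z l r} :=
        Submodule.subset_span ⟨_, h, rfl⟩
      simpa using add_mem (hLt h1) h2
    · push Not at h
      obtain ⟨i, hi⟩ := h
      obtain ⟨w', hp⟩ := (List.replicate_sublist_iff.2 hi).exists_perm_append
      have h1 := wd_perm hc hp
      have h2 := Lt_mul (hm i) (wd_mem (z := z) (R := R) (Nat.lt_succ_self w'.length))
      have h3 := hp.length_eq
      rw [List.length_append, List.length_replicate] at h3
      rw [hn, wd_append, wd_replicate] at h1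
      have h4 := Lt_mono (n := n) (by omega) h2
      simpa using hLt (add_mem h1 h4)

theorem mon_mem_left (J : Submodule A A) {l : List I} {r : I → ℕ} (hz : ∀ i ∈ l, z i ∈ J)
    (hr : ∃ i ∈ l, r i ≠ 0) : mon z l r ∈ J := by
  induction l with
  | nil => simp at hr
  | cons j l ih =>
    rw [mon_cons]
    by_cases h : ∃ i ∈ l, r i ≠ 0
    · exact J.smul_mem _ (ih (fun i hi => hz i (List.mem_cons_of_mem _ hi)) h)
    · push Not at h
      obtain ⟨i, hi, hi'⟩ := hr
      rcases List.mem_cons.1 hi with rfl | hi
      · rw [mon_congr (r' := 0) h, mon_zero, mul_one]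
        obtain ⟨n, hn⟩ := Nat.exists_eq_succ_of_ne_zero hi'
        rw [hn, pow_succ]
        exact J.smul_mem _ (hz i List.mem_cons_self)
      · exact absurd (h i hi) hi'

/-- `a` has the leading word `w` -/
def Lead (R : Type*) [CommRing R] [Algebra R A] (z : I → A) (a : A) (w : List I) : Prop :=
  a - wd z w ∈ Lt R z w.length

theorem Lead.mem {a : A} {w : List I} (h : Lead R z a w) : a ∈ Lt R z (w.length + 1) := by
  simpa using add_mem (Lt_mono (Nat.le_succ _) h) (wd_mem (Nat.lt_succ_self _))

theorem lead_wd (w : List I) : Lead R z (wd z w) w := by simp [Lead]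

theorem Lead.mul {a a' : A} {w w' : List I} (h : Lead R z a w) (h' : Lead R z a' w') :
    Lead R z (a * a') (w ++ w') := by
  have h1 := Lt_mul h h'.mem
  have h2 := Lt_mul (wd_mem (z := z) (R := R) (Nat.lt_succ_self w.length)) h'
  have e : a * a' - wd z (w ++ w') = (a - wd z w) * a' + wd z w * (a' - wd z w') := by
    rw [wd_append]
    noncomm_ring
  unfold Lead
  rw [e, List.length_append]
  exact add_mem (Lt_mono (by omega) h1) (Lt_mono (by omega) h2)

theorem Lead.perm (hc : ∀ i j, z i * z j - z j * z i ∈ Lt R z 2) {a : A} {w w' : List I}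
    (h : Lead R z a w) (hp : w.Perm w') : Lead R z a w' := by
  unfold Lead at *
  rw [← hp.length_eq]
  simpa using add_mem h (wd_perm hc hp)

theorem Lead.pow {a : A} {i : I} {m : ℕ} (h : Lead R z a (List.replicate m i)) (q : ℕ) :
    Lead R z (a ^ q) (List.replicate (m * q) i) := by
  induction q with
  | zero => rw [pow_zero]; exact lead_wd (R := R) (z := z) []
  | succ q ih =>
    rw [pow_succ, Nat.mul_succ, List.replicate_add]
    exact ih.mul h

theorem lead_mon {y : I → A} {m : I → ℕ} (h : ∀ i, Lead R z (y i) (List.replicate (m i) i))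
    (l : List I) (q : I → ℕ) : Lead R z (mon y l q) (flat l fun i => m i * q i) := by
  induction l with
  | nil => exact lead_wd []
  | cons i l ih =>
    rw [mon_cons, flat, List.flatMap_cons]
    exact ((h i).pow _).mul ih

theorem mon_succ [DecidableEq I] {y : I → A} (hy : ∀ i a, Commute (y i) a) {l : List I}
    (hl : l.Nodup) {j : I} (hj : j ∈ l) (q : I → ℕ) :
    mon y l q * y j = mon y l (q + Pi.single j 1) := by
  induction l with
  | nil => simp at hj
  | cons i l ih =>
    rw [List.nodup_cons] at hl
    rw [mon_cons, mon_cons]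
    rcases List.mem_cons.1 hj with rfl | hj
    · rw [mon_congr (r := q + Pi.single j 1) (r' := q) fun i hi => by
        have : i ≠ j := fun e => hl.1 (e ▸ hi)
        simp [this], mul_assoc, ← (hy j _).eq, ← mul_assoc, ← pow_succ]
      simp
    · have : i ≠ j := fun e => hl.1 (e ▸ hj)
      rw [mul_assoc, ih hl.2 hj]
      simp [this]

end Words

section Tri
variable {R V S : Type*} [CommRing R] [AddCommGroup V] [Module R V] (g : Basis S R V) (f : S → V)
  (deg : S → ℕ)

theorem tri_span (h : ∀ s, f s - g s ∈ Submodule.span R (g '' {t | deg t < deg s})) :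
    Submodule.span R (Set.range f) = ⊤ := by
  have key : ∀ n s, deg s = n → g s ∈ Submodule.span R (Set.range f) := by
    intro n
    induction n using Nat.strong_induction_on with
    | _ n ih =>
      intro s hs
      have h1 : f s - g s ∈ Submodule.span R (Set.range f) := by
        refine Submodule.span_le.2 ?_ (h s)
        rintro _ ⟨t, ht, rfl⟩
        exact ih _ (hs ▸ ht) t rfl
      simpa using sub_mem (Submodule.subset_span (Set.mem_range_self s)) h1
  rw [eq_top_iff, ← g.span_eq]
  exact Submodule.span_le.2 fun _ ⟨s, hs⟩ => hs ▸ key _ s rfl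

theorem tri_li (h : ∀ s, f s - g s ∈ Submodule.span R (g '' {t | deg t < deg s})) :
    LinearIndependent R f := by
  classical
  rw [linearIndependent_iff']
  intro T c hc
  by_contra hne
  push Not at hne
  obtain ⟨s₀, h₀, hmax⟩ := Finset.exists_max_image (T.filter fun s => c s ≠ 0) deg
    (by obtain ⟨s, h1, h2⟩ := hne; exact ⟨s, Finset.mem_filter.2 ⟨h1, h2⟩⟩)
  rw [Finset.mem_filter] at h₀
  have h1 := congrArg (g.coord s₀) hc
  rw [map_sum, map_zero, Finset.sum_eq_single s₀] at h1
  · have h2 : g.coord s₀ (f s₀ - g s₀) = 0 := by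
      refine (Submodule.span_le (p := LinearMap.ker (g.coord s₀))).2 ?_ (h s₀)
      rintro _ ⟨t, ht, rfl⟩
      have : t ≠ s₀ := fun e => (lt_irrefl (deg s₀)) (e ▸ ht)
      simp [this]
    rw [map_sub, sub_eq_zero] at h2
    rw [map_smul, h2] at h1
    exact h₀.2 (by simpa using h1)
  · intro s hs hne
    by_cases hcs : c s = 0
    · simp [hcs]
    have h2 : g.coord s₀ (f s - g s) = 0 := by
      refine (Submodule.span_le (p := LinearMap.ker (g.coord s₀))).2 ?_ (h s)
      rintro _ ⟨t, ht, rfl⟩
      have h3 := hmax s (Finset.mem_filter.2 ⟨hs, hcs⟩)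
      have : t ≠ s₀ := fun e => absurd (e ▸ ht) (not_lt.2 h3)
      simp [this]
    rw [map_sub, sub_eq_zero] at h2
    rw [map_smul, h2]
    simp [hne]
  · exact fun h => absurd h₀.1 h

end Tri

section RPBW
variable {R L J : Type*} [CommRing R] [LieRing L] [LieAlgebra R L] (b : Basis J R L)

attribute [local instance 100] LieRing.ofAssociativeRing

theorem env_comm (i j : J) :
    UniversalEnvelopingAlgebra.ι R (b i) * UniversalEnvelopingAlgebra.ι R (b j) -
      UniversalEnvelopingAlgebra.ι R (b j) * UniversalEnvelopingAlgebra.ι R (b i) ∈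
      Lt R (fun i => UniversalEnvelopingAlgebra.ι R (b i)) 2 := by
  rw [← LieRing.of_associative_ring_bracket, ← LieHom.map_lie]
  have h := P.Bf04.pbwW_mul b 1 ⁅b i, b j⁆ 1 (Submodule.subset_span ⟨[], Nat.one_pos, rfl⟩)
  rw [mul_one] at h
  exact h

/-- restricted monomials are independent modulo central elements with leading terms
`b j ^ m j` -/
theorem rpbw {l : List J} (hl : l.Nodup) (hl' : ∀ j, j ∈ l) (m : J → ℕ) (hm : ∀ j, 0 < m j)
    (ξ : J → UniversalEnvelopingAlgebra R L) (hc : ∀ j a, Commute (ξ j) a)
    (hξ : ∀ j, ξ j - UniversalEnvelopingAlgebra.ι R (b j) ^ m j ∈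
      Lt R (fun i => UniversalEnvelopingAlgebra.ι R (b i)) (m j))
    {M : Type*} [AddCommGroup M] [Module R M] (π : UniversalEnvelopingAlgebra R L →ₗ[R] M)
    (hπ : ∀ a, π a = 0 → a ∈ Ideal.span (Set.range ξ)) :
    LinearIndependent R fun r : {r : J → ℕ // ∀ j, r j < m j} =>
      π (mon (fun i => UniversalEnvelopingAlgebra.ι R (b i)) l r.1) := by
  classical
  let _ : Fintype J := ⟨l.toFinset, fun j => List.mem_toFinset.2 (hl' j)⟩
  let _ : LinearOrder J := LinearOrder.lift' (Fintype.equivFin J) (Equiv.injective _)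
  set z : J → UniversalEnvelopingAlgebra R L := fun i => UniversalEnvelopingAlgebra.ι R (b i)
    with hz
  let g : Basis (Multiset J) R (UniversalEnvelopingAlgebra R L) :=
    Basis.mk (P.Bf04.umon_li b) (P.Bf04.umon_span b).ge
  let B : (J → ℕ) → UniversalEnvelopingAlgebra R L := fun a =>
    mon z l (fun j => a j % m j) * mon ξ l fun j => a j / m j
  let f : Multiset J → UniversalEnvelopingAlgebra R L := fun s => B fun j => s.count j
  have htri : ∀ s, f s - g s ∈ Submodule.span R (g '' {t | t.card < s.card}) := by
    intro s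
    have h1 : Lead R z (f s) (flat l (fun j => s.count j % m j) ++
        flat l fun j => m j * (s.count j / m j)) := by
      refine Lead.mul ?_ (lead_mon (fun j => ?_) l _)
      · rw [← wd_flat]
        exact lead_wd _
      · unfold Lead
        rw [wd_replicate, List.length_replicate]
        exact hξ j
    have h2 := h1.perm (env_comm b) (w' := s.sort (· ≤ ·)) (List.perm_iff_count.2 fun j => by
      rw [List.count_append, count_flat hl, count_flat hl, if_pos (hl' j), if_pos (hl' j),
        Nat.mod_add_div, ← Multiset.coe_count, Multiset.sort_eq])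
    unfold Lead at h2
    rw [Multiset.length_sort] at h2
    have h3 := P.Bf04.pbwW_le b s.card h2
    rw [show g s = wd z (s.sort (· ≤ ·)) from Basis.mk_apply _ _ _]
    refine Submodule.span_mono ?_ h3
    rintro _ ⟨t, ht, rfl⟩
    exact ⟨t, ht, Basis.mk_apply _ _ _⟩
  have hli := tri_li g f Multiset.card htri
  have hsp := tri_span g f Multiset.card htri
  let e : (J → ℕ) → Multiset J := fun a => (flat l a : Multiset J)
  have he : ∀ a j, (e a).count j = a j := fun a j => by
    simp only [e, Multiset.coe_count]
    rw [count_flat hl, if_pos (hl' j)]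
  have hfe : ∀ a, f (e a) = B a := fun a => by simp only [f, he]
  have hJ : ∀ a ∈ Ideal.span (Set.range ξ),
      a ∈ Submodule.span R (f '' {s | ∃ j, m j ≤ s.count j}) := by
    intro a ha
    obtain ⟨c, rfl⟩ := (Submodule.mem_span_range_iff_exists_fun _).1 ha
    refine Submodule.sum_mem _ fun j _ => ?_
    have hcj : c j ∈ Submodule.span R (Set.range f) := hsp ▸ Submodule.mem_top
    generalize c j = u at hcj
    induction hcj using Submodule.span_induction with
    | mem u hu =>
      obtain ⟨s, rfl⟩ := hu
      refine Submodule.subset_span ⟨e ((fun i => s.count i) + Pi.single j (m j)),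
        ⟨j, by rw [he]; simp⟩, ?_⟩
      rw [hfe, smul_eq_mul]
      simp only [f, B]
      rw [mul_assoc, mon_succ hc hl (hl' j)]
      congr 2 <;> funext i <;> by_cases h : i = j
      · subst h
        simp
      · simp [h]
      · subst h
        simp [Nat.add_div_right _ (hm i)]
      · simp [h]
    | zero => simp
    | add u v _ _ hu hv => rw [add_smul]; exact add_mem hu hv
    | smul r u _ hu => rw [smul_assoc]; exact Submodule.smul_mem _ _ hu
  have hinj : Function.Injective fun r : {r : J → ℕ // ∀ j, r j < m j} => e r.1 :=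
    fun r r' h => Subtype.ext (funext fun j => by rw [← he r.1 j, ← he r'.1 j]; exact congrArg _ h)
  have h1 := (hli.comp _ hinj).map (f := π) (by
    refine Disjoint.mono ?_ (fun a ha => hJ a (hπ a ha))
      (hli.disjoint_span_image (s := {s | ∀ j, s.count j < m j}) ?_)
    · refine Submodule.span_mono ?_
      rintro _ ⟨r, rfl⟩
      exact ⟨e r.1, fun j => by rw [he]; exact r.2 j, rfl⟩
    · exact Set.disjoint_left.2 fun s hs ⟨j, hj⟩ => absurd (hs j) (not_lt.2 hj))
  have e2 : (π ∘ f ∘ fun r : {r : J → ℕ // ∀ j, r j < m j} => e r.1) =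
      fun r => π (mon z l r.1) := by
    funext r
    simp only [Function.comp, hfe, B]
    rw [mon_congr (r' := r.1) fun j _ => Nat.mod_eq_of_lt (r.2 j),
      mon_congr (r' := 0) fun j _ => Nat.div_eq_of_lt (r.2 j), mon_zero, mul_one]
  rwa [e2] at h1

end RPBW

end Pool.Agent.Cart
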